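import Pool.Agent.SOG.MainG
import Pool.Agent.SOE.Defs

/-! Project SOK, module TyDefs (types of the E-P-cuts): rows are comparable or disjoint. -/

set_option autoImplicit false

namespace Pool.Agent.SOK

open Pool.Agent.SOC Pool.Agent.SOD Pool.Agent.RUP Pool.Agent.SOF Pool.Agent.SOG Pool.Agent.SOW

variable {V : Type} {G : SimpleGraph V} {S : V → Prop}

/-- `S` is one side of an E-P-cut -/
structure EP (G : SimpleGraph V) (S : V → Prop) : Prop where
  rig : ∀ {a b c d}, S a → ¬ S b → S c → ¬ S d → G.Adj a b → G.Adj c d → a ≠ c → b ≠ d →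
    (G.Adj a c ∧ G.Adj b d) ∨ (G.Adj a d ∧ G.Adj b c)
  w4 : ∀ {p p' q q' r}, S p → ¬ S p' → S q → ¬ S q' → ¬ W4 G p p' q q' r

theorem EP.compl (h : EP G S) : EP G (fun x => ¬ S x) where
  rig := fun {a b c d} ha hb hc hd e e' n n' => by
    rcases h.rig (not_not.1 hb) ha (not_not.1 hd) hc e.symm e'.symm n' n with h1 | h1
    · exact Or.inl ⟨h1.2, h1.1⟩
    · exact Or.inr ⟨h1.2, h1.1⟩
  w4 := fun {p p' q q' r} hp hp' hq hq' hw =>
    h.w4 (not_not.1 hp') hp (not_not.1 hq') hq (⟨fun e => hw.n1 e.symm, fun e => hw.n2 e.symm, hw.d1.symm, hw.d2.symm,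
      hw.p'q', hw.p'q, hw.pq', hw.pq, hw.rp', hw.rp, hw.rq', hw.rq⟩ : W4 G p' p q' q r)

theorem EP.of_epc {X : Set V} (h : Pool.Agent.SOE.EPC G X) : EP G (fun x => x ∈ X) where
  rig := fun {a b c d} ha hb hc hd e e' n n' => by
    by_contra hn
    rw [not_or] at hn
    exact h.cut a ha c hc b hb d hd ⟨e, e', n, fun k => hd (k ▸ ha), fun k => hb (k ▸ hc), n', hn.1, hn.2⟩
  w4 := fun {p p' q q' r} hp hp' hq hq' hw => h.w4 hw ⟨fun k => hp' (k.1 hp), fun k => hq' (k.1 hq)⟩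

/-- attached vertices -/
def At (G : SimpleGraph V) (S : V → Prop) (a : V) : Prop := ∃ z, ¬ S z ∧ G.Adj a z

/-- the row of `a` is contained in the row of `b` -/
def Sub (G : SimpleGraph V) (S : V → Prop) (a b : V) : Prop := ∀ z, ¬ S z → G.Adj a z → G.Adj b z

/-- the rows are disjoint -/
def Dj (G : SimpleGraph V) (S : V → Prop) (a b : V) : Prop := ∀ z, ¬ S z → G.Adj a z → ¬ G.Adj b z

/-- the row of `b` is a proper part of the row of `a` -/
def Str (G : SimpleGraph V) (S : V → Prop) (a b : V) : Prop := Sub G S b a ∧ ∃ z, ¬ S z ∧ G.Adj a z ∧ ¬ G.Adj b z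

theorem Dj.symm {a b : V} (h : Dj G S a b) : Dj G S b a := fun z hz h1 h2 => h z hz h2 h1

theorem Dj.mono {a b c : V} (h : Dj G S a b) (h' : Sub G S c a) : Dj G S c b := fun z hz h1 => h z hz (h' z hz h1)

/-- different rows: adjacent -/
theorem EP.adj (h : EP G S) {a b z : V} (ha : S a) (hb : S b) (hz : ¬ S z) (e : G.Adj a z) (n : ¬ G.Adj b z)
    (hB : At G S b) : G.Adj a b := by
  obtain ⟨w, hw, f⟩ := hB
  have ab : a ≠ b := fun k => n (k ▸ e)
  have zw : z ≠ w := fun k => n (k ▸ f)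
  rcases h.rig ha hz hb hw e f ab zw with h1 | h1
  · exact h1.1
  · exact absurd h1.2.symm n

/-- the same on the other side -/
theorem EP.adj' (h : EP G S) {a b z : V} (ha : ¬ S a) (hb : ¬ S b) (hz : S z) (e : G.Adj a z) (n : ¬ G.Adj b z)
    (hB : ∃ w, S w ∧ G.Adj b w) : G.Adj a b := by
  obtain ⟨w, hw, f⟩ := hB
  exact h.compl.adj ha hb (not_not.2 hz) e n ⟨w, not_not.2 hw, f⟩

/-- no vertex is adjacent to all four vertices of incomparable rows -/
theorem EP.inc (h : EP G S) {a b y y' r : V} (ha : S a) (hb : S b) (hy : ¬ S y) (hy' : ¬ S y') (ay : G.Adj a y)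
    (by' : G.Adj b y') (nby : ¬ G.Adj b y) (nay' : ¬ G.Adj a y') (ra : G.Adj r a) (rb : G.Adj r b) (ry : G.Adj r y)
    (ry' : G.Adj r y') : False := by
  have ab : G.Adj a b := h.adj ha hb hy ay nby ⟨y', hy', by'⟩
  have yy : G.Adj y y' := h.adj' hy hy' ha ay.symm (fun k => nay' k.symm) ⟨b, hb, by'.symm⟩
  exact h.w4 (r := r) ha hy' hb hy ⟨nay', nby, fun k => hy' (k ▸ ha), fun k => hy (k ▸ hb), ab, ay, by'.symm, yy.symm, ra, ry',
    rb, ry⟩

/-- incomparable rows are disjoint -/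
theorem EP.dj (h : EP G S) {a b y y' : V} (ha : S a) (hb : S b) (hy : ¬ S y) (hy' : ¬ S y') (ay : G.Adj a y)
    (by' : G.Adj b y') (nby : ¬ G.Adj b y) (nay' : ¬ G.Adj a y') : Dj G S a b := by
  intro z hz az bz
  have zy : G.Adj z y := h.adj' hz hy hb bz.symm (fun k => nby k.symm) ⟨a, ha, ay.symm⟩
  have zy' : G.Adj z y' := h.adj' hz hy' ha az.symm (fun k => nay' k.symm) ⟨b, hb, by'.symm⟩
  exact h.inc ha hb hy hy' ay by' nby nay' az.symm bz.symm zy zy'

theorem EP.tri (h : EP G S) {a b : V} (ha : S a) (hb : S b) : Sub G S a b ∨ Sub G S b a ∨ Dj G S a b := by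
  by_cases h1 : Sub G S a b
  · exact Or.inl h1
  by_cases h2 : Sub G S b a
  · exact Or.inr (Or.inl h2)
  unfold Sub at h1 h2
  push Not at h1 h2
  obtain ⟨y, hy, ay, nby⟩ := h1
  obtain ⟨y', hy', by', nay'⟩ := h2
  exact Or.inr (Or.inr (h.dj ha hb hy hy' ay by' nby nay'))

/-- a row does not contain two disjoint rows -/
theorem EP.two (h : EP G S) {a b c y y' : V} (ha : S a) (hb : S b) (hc : S c) (hy : ¬ S y) (hy' : ¬ S y')
    (ay : G.Adj a y) (by' : G.Adj b y') (nby : ¬ G.Adj b y) (nay' : ¬ G.Adj a y') (cy : G.Adj c y)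
    (cy' : G.Adj c y') : False := by
  have ca : G.Adj c a := h.adj hc ha hy' cy' nay' ⟨y, hy, ay⟩
  have cb : G.Adj c b := h.adj hc hb hy cy nby ⟨y', hy', by'⟩
  exact h.inc ha hb hy hy' ay by' nby nay' ca cb cy cy'

/-- the relations for the refutations -/
structure QSy (V : Type) where
  G : SimpleGraph V
  X : V → V → V → V → Prop
  T : V → V → V → V → Prop
  S : V → Prop
  hX : Sym4 X
  hT : Sym4 T

/-- quaternary relations -/
def QSy.fam (Y : QSy V) : Nat → V → V → V → V → Prop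
  | 0 => Y.X
  | 3 => Y.T
  | _ => fun _ _ _ _ => False

/-- binary relations -/
def QSy.fam2 (Y : QSy V) : Nat → V → V → Prop
  | 0 => Y.G.Adj
  | 2 => fun a b => a = b ∧ Y.S a
  | _ => fun _ _ => False

theorem QSy.sym (Y : QSy V) (r : Nat) : Sym4 (Y.fam r) := by
  unfold QSy.fam
  split
  · exact Y.hX
  · exact Y.hT
  · exact ⟨fun _ _ _ _ h => h, fun _ _ _ _ h => h⟩

/-- the relations -/
def QSy.rel (Y : QSy V) : SRel V where
  r2 := Y.fam2
  r3 := fun _ _ _ _ => False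
  r4 := Y.fam
  s2 := by
    intro r a b h
    unfold QSy.fam2 at h ⊢
    split at h
    · exact SimpleGraph.Adj.symm h
    · exact ⟨h.1.symm, h.1 ▸ h.2⟩
    · exact h
  s3 := fun h => h
  s3' := fun h => h
  s4 := fun {r} {_} {_} {_} {_} h => (Y.sym r).1 _ _ _ _ h
  s4' := fun {r} {_} {_} {_} {_} h => (Y.sym r).2 _ _ _ _ h

/-- a structure together with the sides of a cut which do not interleave -/
structure QC (G : SimpleGraph V) (X T : V → V → V → V → Prop) (S : V → Prop) : Prop where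
  sepr : Sepr X
  qt : QT G X T
  int : ∀ {a b c d}, S a → S b → ¬ S c → ¬ S d → ¬ X a b c d

theorem QC.compl {X T : V → V → V → V → Prop} (h : QC G X T S) : QC G X T (fun x => ¬ S x) :=
  ⟨h.sepr, h.qt, fun ha hb hc hd hx => h.int (not_not.1 hc) (not_not.1 hd) ha hb (h.sepr.comm hx)⟩

end Pool.Agent.SOK
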