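import Pool.Agent.SOK.WordL
import Pool.Agent.SOK.TyDefs

/-! Project SOK, module LiftS: transport of blocks along injective maps. -/

set_option autoImplicit false

namespace Pool.Agent.SOK

open Pool.Agent.SOC Pool.Agent.SOD Pool.Agent.RUP Pool.Agent.SOF Pool.Agent.SOG Pool.Agent.SOV

variable {U V : Type} {G' : SimpleGraph U} {G : SimpleGraph V} {f : U → V}

theorem inS_map_ex {segs : List (List U)} {i : ℕ} {y : V} (h : InS (segs.map (List.map f)) i y) :
    ∃ x, f x = y ∧ InS segs i x := by
  obtain ⟨seg, h1, h2⟩ := h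
  rw [List.getElem?_map, Option.map_eq_some_iff] at h1
  obtain ⟨s, h3, rfl⟩ := h1
  obtain ⟨x, hx, e⟩ := List.mem_map.1 h2
  exact ⟨x, e, s, h3, hx⟩

theorem inS_map (hf : Function.Injective f) {segs : List (List U)} {i : ℕ} {x : U} :
    InS (segs.map (List.map f)) i (f x) ↔ InS segs i x := by
  constructor
  · intro h
    obtain ⟨y, e, h1⟩ := inS_map_ex h
    rwa [hf e] at h1
  · rintro ⟨seg, h1, h2⟩
    exact ⟨seg.map f, by rw [List.getElem?_map, h1]; rfl, List.mem_map_of_mem h2⟩

theorem atd_map (hadj : ∀ a b, G'.Adj a b ↔ G.Adj (f a) (f b)) {O : List U} {x : U} :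
    Atd G (O.map f) (f x) ↔ Atd G' O x := by
  constructor
  · rintro ⟨z, hz, e⟩
    obtain ⟨w, hw, rfl⟩ := List.mem_map.1 hz
    exact ⟨w, hw, (hadj x w).2 e⟩
  · rintro ⟨z, hz, e⟩
    exact ⟨f z, List.mem_map_of_mem hz, (hadj x z).1 e⟩

theorem sr_map (hadj : ∀ a b, G'.Adj a b ↔ G.Adj (f a) (f b)) {O : List U} {x y : U} :
    SR G (O.map f) (f x) (f y) ↔ SR G' O x y := by
  constructor
  · intro h z hz
    rw [hadj, hadj]
    exact h (f z) (List.mem_map_of_mem hz)
  · intro h z hz
    obtain ⟨w, hw, rfl⟩ := List.mem_map.1 hz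
    rw [← hadj, ← hadj]
    exact h w hw

theorem sd_map (hf : Function.Injective f) (hadj : ∀ a b, G'.Adj a b ↔ G.Adj (f a) (f b)) {O : List U}
    {segs : List (List U)} {rp : List U} : Sd G (O.map f) (segs.map (List.map f)) (rp.map f) ↔ Sd G' O segs rp := by
  have e : (segs.map (List.map f)).flatten = segs.flatten.map f := by rw [List.map_flatten]
  constructor
  · intro h
    refine ⟨?_, ?_, ?_, ?_, ?_⟩
    · have h1 := h.nd
      rw [e] at h1
      exact List.Nodup.of_map f h1
    · intro i x y hx hy ax ay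
      exact (sr_map hadj).1 (h.same ((inS_map hf).2 hx) ((inS_map hf).2 hy) ((atd_map hadj).2 ax) ((atd_map hadj).2 ay))
    · have h1 := h.len
      rwa [List.length_map, List.length_map] at h1
    · intro i b hb
      have h1 := h.rep (i := i) (b := f b) (by rw [List.getElem?_map, hb]; rfl)
      exact ⟨(inS_map hf).1 h1.1, (atd_map hadj).1 h1.2⟩
    · intro i b c hb hc hs
      exact h.mx (i := i) (b := f b) (c := f c) (by rw [List.getElem?_map, hb]; rfl) (by rw [List.getElem?_map, hc]; rfl)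
        ((sr_map hadj).2 hs)
  · intro h
    refine ⟨?_, ?_, ?_, ?_, ?_⟩
    · rw [e]
      exact h.nd.map hf
    · intro i x y hx hy ax ay
      obtain ⟨x', rfl, hx'⟩ := inS_map_ex hx
      obtain ⟨y', rfl, hy'⟩ := inS_map_ex hy
      exact (sr_map hadj).2 (h.same hx' hy' ((atd_map hadj).1 ax) ((atd_map hadj).1 ay))
    · rw [List.length_map, List.length_map, h.len]
    · intro i b hb
      rw [List.getElem?_map, Option.map_eq_some_iff] at hb
      obtain ⟨b', hb', rfl⟩ := hb
      obtain ⟨h1, h2⟩ := h.rep hb'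
      exact ⟨(inS_map hf).2 h1, (atd_map hadj).2 h2⟩
    · intro i b c hb hc hs
      rw [List.getElem?_map, Option.map_eq_some_iff] at hb hc
      obtain ⟨b', hb', rfl⟩ := hb
      obtain ⟨c', hc', rfl⟩ := hc
      exact h.mx hb' hc' ((sr_map hadj).1 hs)

/-- lists of members of an image -/
theorem lift_list {l : List V} (h : ∀ x ∈ l, ∃ y, f y = x) : ∃ l' : List U, l'.map f = l := by
  induction l with
  | nil => exact ⟨[], rfl⟩
  | cons a l ih =>
    obtain ⟨y, hy⟩ := h a List.mem_cons_self
    obtain ⟨l', hl'⟩ := ih fun x hx => h x (List.mem_cons_of_mem _ hx)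
    exact ⟨y :: l', by rw [List.map_cons, hy, hl']⟩

/-- divisions of an image -/
theorem lift_seg {segs : List (List V)} : ∀ {K : List U}, segs.flatten = K.map f →
    ∃ segs' : List (List U), segs'.map (List.map f) = segs ∧ segs'.flatten = K := by
  induction segs with
  | nil =>
    intro K h
    refine ⟨[], rfl, ?_⟩
    have h1 : K.map f = [] := h.symm
    rw [List.map_eq_nil_iff.1 h1]
    rfl
  | cons s t ih =>
    intro K h
    rw [List.flatten_cons] at h
    obtain ⟨K1, K2, rfl, h1, h2⟩ := List.map_eq_append_iff.1 h.symm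
    obtain ⟨t', h3, h4⟩ := ih h2.symm
    exact ⟨K1 :: t', by rw [List.map_cons, h1, h3], by rw [List.flatten_cons, h4]⟩

/-- the subtype of the members of a list -/
theorem lift_sub {l : List V} : ∃ l' : List {v // v ∈ l}, l'.map Subtype.val = l :=
  lift_list fun x hx => ⟨⟨x, hx⟩, rfl⟩

end Pool.Agent.SOK
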