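import Pool.Agent.SOK.RepN
import Pool.Agent.SOK.LiftS

/-! Project SOK, module RepO: THE HYPOTHESIS ON THE KEYS. -/

set_option autoImplicit false

namespace Pool.Agent.SOK

open Pool.Agent.SOC Pool.Agent.SOD Pool.Agent.RUP Pool.Agent.SOF Pool.Agent.SOG Pool.Agent.SOV Pool.Agent.SOS
open Pool.Agent.SOE (EPC StrE)

/-- a key of the order `L ++ R`, with the blocks of `R` -/
structure KeyQ (M : List (List Bool)) (L R : List ℕ) (k : Ky) : Prop where
  mem : k ∈ keys M
  f3 : k.1 < 3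
  good : good M L k = true
  all : ∀ L' : List ℕ, L'.Perm L → Pool.Agent.SOK.good M L' k = true → Pool.Agent.SOT.VO M (L' ++ R)
  sub : k.2.1.Sublist R
  sd : ∃ sR : List (List ℕ), sR.flatten = R ∧ Sd (gN M) L sR k.2.1

theorem set_map {M : List (List Bool)} {l : List (Fin M.length)} : setW M (l.map Fin.val) = {v | v ∈ l} := by
  ext v
  show v.val ∈ l.map Fin.val ↔ v ∈ l
  rw [List.mem_map]
  constructor
  · rintro ⟨c, hc, e⟩
    rwa [Fin.ext e] at hc
  · exact fun h => ⟨v, h, rfl⟩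

/-- THE KEY OF AN ORDER -/
theorem key_ex (f1 : RuleF) (f2 : SixF) (f3 : GlueF) (f4 : BothF) {M : List (List Bool)} {L R : List ℕ}
    (hE : EPC (graphOf M) (setW M L)) (hA : ∃ x ∈ L, Atd (gN M) R x) (hvo : Pool.Agent.SOT.VO M (L ++ R)) :
    ∃ k, KeyQ M L R k := by
  obtain ⟨s, hs, he, T, hT⟩ := hvo
  obtain ⟨l, r, rfl, hl, hr⟩ := List.map_eq_append_iff.1 hs
  subst hl hr
  rw [set_map] at hE
  have hadj : ∀ a b : Fin M.length, (graphOf M).Adj a b ↔ (gN M).Adj a.val b.val := fun a b => Iff.rfl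
  have hA' : ∃ x ∈ l, Atd (graphOf M) r x := by
    obtain ⟨x, hx, h⟩ := hA
    obtain ⟨y, hy, rfl⟩ := List.mem_map.1 hx
    exact ⟨y, hy, (atd_map hadj).1 h⟩
  obtain ⟨f, B, sR, g1, g2, h1, h2, h3, h4, h5⟩ := rep4 (ad := adF M) f1 f2 f3 f4 (fun x y => Iff.rfl) he ⟨T, hT⟩ hE hA'
  have hf : f < 3 := by
    rcases h4 with h4 | h4 | h4 <;> omega
  have nd : ∀ l' : List (Fin M.length), l'.Perm l → (l' ++ B).Nodup := by
    intro l' hp
    have e1 : (l' ++ r).Perm (l ++ r) := hp.append_right r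
    have e2 : (l' ++ r).Nodup := e1.nodup_iff.2 he.1
    exact (List.Sublist.append (List.Sublist.refl l') h1).nodup e2
  refine ⟨(f, B.map Fin.val, wordF (adF M) B l), mem_keys hf (by rw [List.length_map]; exact h2) ?_ h3 ?_, hf, ?_, ?_,
    h1.map _, sR.map (List.map Fin.val), ?_, (sd_map Fin.val_injective hadj).2 g2⟩
  · intro b hb
    obtain ⟨c, _, rfl⟩ := List.mem_map.1 hb
    exact c.2
  · intro rr hrr
    rw [row_len hrr]
    exact h2
  · exact (good_fin hf (nd l (List.Perm.refl _))).2 ⟨rfl, h4⟩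
  · intro L' hp hg
    obtain ⟨l', rfl⟩ := fin_list (n := M.length) (l := L') fun x hx => by
      obtain ⟨c, _, rfl⟩ := List.mem_map.1 (hp.mem_iff.1 hx)
      exact c.2
    have hp' : l'.Perm l := (List.map_perm_map_iff Fin.val_injective).1 hp
    obtain ⟨g1, g2⟩ := (good_fin hf (nd l' hp')).1 hg
    have hv := h5 l' hp' g1 g2
    have he' : IsEnum (l' ++ r) := by
      have e1 : (l' ++ r).Perm (l ++ r) := hp'.append_right r
      exact ⟨e1.nodup_iff.2 he.1, fun v => e1.mem_iff.2 (he.2 v)⟩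
    obtain ⟨T', hT'⟩ := (Val_enum he').1 hv
    exact ⟨l' ++ r, by rw [List.map_append], he', T', hT'⟩
  · rw [← g1, List.map_flatten]

/-- edges across the cut, from connectivity -/
theorem edge_ex {M : List (List Bool)} {L R : List ℕ} (hc : (graphOf M).Connected)
    (hE : StrE (graphOf M) (setW M L)) (hvo : Pool.Agent.SOT.VO M (L ++ R)) :
    ∃ x ∈ L, Atd (gN M) R x := by
  obtain ⟨s, hs, he, T, hT⟩ := hvo
  obtain ⟨l, r, rfl, hl, hr⟩ := List.map_eq_append_iff.1 hs
  subst hl hr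
  have hadj : ∀ a b : Fin M.length, (graphOf M).Adj a b ↔ (gN M).Adj a.val b.val := fun a b => Iff.rfl
  obtain ⟨x, hx, _⟩ := hE.nt.1
  obtain ⟨y, hy, _⟩ := hE.nt.2
  rw [set_map] at hx hy
  have key : ∀ {u v : Fin M.length}, (graphOf M).Reachable u v → u ∈ l → v ∉ l → ∃ a b, a ∈ l ∧ b ∉ l ∧ (graphOf M).Adj a b := by
    intro u v huv
    obtain ⟨p⟩ := huv
    induction p with
    | nil => exact fun h h' => absurd h h'
    | cons e p ih =>
      intro h h'
      rename_i a b c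
      by_cases hb : b ∈ l
      · exact ih hb h'
      · exact ⟨a, b, h, hb, e⟩
  obtain ⟨a, b, ha, hb, e⟩ := key (hc.preconnected x y) hx hy
  refine ⟨a.val, List.mem_map_of_mem ha, b.val, List.mem_map_of_mem ?_, e⟩
  exact (List.mem_append.1 (he.2 b)).resolve_left hb

/-- the hypothesis on the keys -/
theorem rep_all (f1 : RuleF) (f2 : SixF) (f3 : GlueF) (f4 : BothF) {M : List (List Bool)}
    (hc : (graphOf M).Connected) : Pool.Agent.SOT.RepS good keys M := by
  intro L R hst hvo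
  obtain ⟨k, hk⟩ := key_ex f1 f2 f3 f4 hst.epc (edge_ex hc hst hvo) hvo
  exact ⟨k, hk.mem, hk.good, hk.all⟩

end Pool.Agent.SOK
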