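import Pool.Agent.SOK.GlueL
import Pool.Agent.SOK.RepO
import Pool.Agent.SOQ.Main

/-! Project SOK, module FinF: the facts about cuts hold; final statements. -/

set_option autoImplicit false

namespace Pool.Agent.SOK

open Pool.Agent.SOC Pool.Agent.SOD Pool.Agent.RUP Pool.Agent.SOF Pool.Agent.SOG Pool.Agent.SOV Pool.Agent.SOS
open Pool.Agent.SOE (EPC StrE)

theorem mx_q {V : Type} {C : Cut V} {G : SimpleGraph V} {X : V → V → V → V → Prop} (h : Mx C G X) :
    Pool.Agent.SOQ.Mx1 C G X := ⟨h.refl, h.at1, h.at2, h.mx⟩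

theorem cut_q {V : Type} [DecidableEq V] {C : Cut V} {G : SimpleGraph V} {s : List V} (h : CutS C G s) :
    Pool.Agent.SOQ.CutS C G s := ⟨h.en, h.ok, h.bi, mx_q h.mx⟩

theorem lock_q {V : Type} {C : Cut V} {G : SimpleGraph V} {X : V → V → V → V → Prop} {p s q r : V}
    (h : Lock C G X p s q r) : Pool.Agent.SOQ.Lock C G X p s q r :=
  ⟨h.sp, h.ss, h.sq, h.sr, h.pq, h.pr, h.aq, h.ar, h.x, h.cov⟩

theorem lock_q' {V : Type} {C : Cut V} {G : SimpleGraph V} {X : V → V → V → V → Prop} {p s q r : V}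
    (h : Pool.Agent.SOQ.Lock C G X p s q r) : Lock C G X p s q r :=
  ⟨h.1, h.2.1, h.2.2.1, h.2.2.2.1, h.2.2.2.2.1, h.2.2.2.2.2.1, h.2.2.2.2.2.2.1, h.2.2.2.2.2.2.2.1,
    h.2.2.2.2.2.2.2.2.1, h.2.2.2.2.2.2.2.2.2⟩

theorem ruleF : RuleF := fun h he hh _ _ ha hb hA hB hk => Pool.Agent.SOQ.rule_f (cut_q h) he hh ha hb hA hB hk

theorem sixF : SixF := fun h he hh x hx ho hd => Pool.Agent.SOQ.six_f (cut_q h) he hh x hx ho hd

theorem unl_q2 {V : Type} {C : Cut V} {G : SimpleGraph V} {T : V → V → V → V → Prop} :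
    Unl2 C G T ↔ Pool.Agent.SOQ.Unl (Pool.Agent.SOQ.op C) G T := by
  constructor
  · intro h q p s x r hq hr hp hs hx e ne ht
    exact h q p s x r (not_not.1 hq) (not_not.1 hr) hp hs hx e ne ht
  · intro h q p s x r hq hr hp hs hx e ne ht
    exact h q p s x r (not_not.2 hq) (not_not.2 hr) hp hs hx e ne ht

theorem glueF : GlueF := fun h hm he h1 h2 hl =>
  Pool.Agent.SOQ.glue_f (cut_q h) (mx_q hm) he h1 h2 fun p s q r hk => by
    rcases hl p s q r (lock_q' hk) with h3 | h3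
    · exact Or.inl h3
    · exact Or.inr (unl_q2.1 h3)

theorem bothF : BothF := fun h _ he hq _ _ _ _ hl => by
  rcases Pool.Agent.SOQ.both_f (cut_q h) he hq (lock_q hl) with h3 | h3
  · exact Or.inl h3
  · exact Or.inr (unl_q2.2 h3)

/-- THE KEY OF AN ORDER -/
theorem key_exF {M : List (List Bool)} {L R : List ℕ} (hE : EPC (graphOf M) (setW M L))
    (hA : ∃ x ∈ L, Atd (gN M) R x) (hvo : Pool.Agent.SOT.VO M (L ++ R)) : ∃ k, KeyQ M L R k :=
  key_ex ruleF sixF glueF bothF hE hA hvo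

/-- the hypothesis on the keys -/
theorem repS {M : List (List Bool)} (hc : (graphOf M).Connected) : Pool.Agent.SOT.RepS good keys M :=
  rep_all ruleF sixF glueF bothF hc

/-- GLUING FOR LISTS: `B` stands for the blocks of `R`, `W` stands for the blocks of `L` -/
theorem glue_l {V : Type} [DecidableEq V] {G : SimpleGraph V} {L R B W : List V} (hE : LEp G L R) (hB : LRp G L R B)
    (hW : LWr G R L W) {T1 T2 : V → V → V → V → Prop} (v1 : Vl G (L ++ B) T1) (v2 : Vl G (W ++ R) T2)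
    (hl : LLk G W B → Un G L B T1 ∨ Un G R W T2) : Val G (L ++ R) :=
  glueL ruleF sixF glueF hE hB hW v1 v2 hl

/-- five blocks -/
theorem glue_5 {V : Type} [DecidableEq V] {G : SimpleGraph V} {L R B W : List V} (hE : LEp G L R) (hB : LRp G L R B)
    (hW : LWr G R L W) (v1 : Val G (L ++ B)) (v2 : Val G (W ++ R)) (h5 : 5 ≤ B.length + W.length) : Val G (L ++ R) :=
  glue5 ruleF sixF glueF hE hB hW v1 v2 h5

/-- the adjacency of attached vertices in different blocks -/
theorem rule_l {V : Type} [DecidableEq V] {G : SimpleGraph V} {K D : List V} {sK sD : List (List V)} {rK rD : List V}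
    (hE : LEp G K D) (hK : Sd G D sK rK) (eK : sK.flatten = K) (hD : Sd G K sD rD) (eD : sD.flatten = D)
    (hv : Val G (K ++ D)) {i j : ℕ} {x y : V} (hx : InS sK i x) (hy : InS sK j y) (hij : i ≠ j) (ax : Atd G D x)
    (ay : Atd G D y) : G.Adj x y ↔ RlL G K D x y :=
  ruleL ruleF sixF hE hK eK hD eD hv hx hy hij ax ay

theorem rule_r {V : Type} [DecidableEq V] {G : SimpleGraph V} {K D : List V} {sK sD : List (List V)} {rK rD : List V}
    (hE : LEp G K D) (hK : Sd G D sK rK) (eK : sK.flatten = K) (hD : Sd G K sD rD) (eD : sD.flatten = D)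
    (hv : Val G (K ++ D)) {i j : ℕ} {x y : V} (hx : InS sD i x) (hy : InS sD j y) (hij : i ≠ j) (ax : Atd G K x)
    (ay : Atd G K y) : G.Adj x y ↔ RlL G D K x y :=
  ruleR ruleF sixF hE hK eK hD eD hv hx hy hij ax ay

end Pool.Agent.SOK
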