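import Pool.Agent.SOK.TyR

/-! Project SOK, module Ty: TYPE THEOREM: the rows of the vertices of a side of an E-P-cut form a chain, or there are two
classes on each side (2K2), or three (K2 + P4). -/

set_option autoImplicit false

namespace Pool.Agent.SOK

open Pool.Agent.SOC Pool.Agent.SOD Pool.Agent.RUP Pool.Agent.SOF Pool.Agent.SOG

variable {V : Type} {G : SimpleGraph V} {S : V → Prop} {X T : V → V → V → V → Prop}

theorem nd_two {l m : List V} (h1 : l.Nodup) (h2 : m.Nodup) (hl : ∀ x ∈ l, S x) (hm : ∀ x ∈ m, ¬ S x) : (l ++ m).Nodup :=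
  List.nodup_append.2 ⟨h1, h2, fun a ha b hb e => hm b hb (e ▸ hl a ha)⟩

theorem nd3 {a b c : V} (h1 : a ≠ b) (h2 : a ≠ c) (h3 : b ≠ c) : [a, b, c].Nodup := by
  simp only [List.nodup_cons, List.mem_cons, List.not_mem_nil, or_false, not_or, not_false_eq_true, List.nodup_nil,
    and_true]
  exact ⟨⟨h1, h2⟩, h3⟩

theorem nd4 {a b c d : V} (h1 : a ≠ b) (h2 : a ≠ c) (h3 : a ≠ d) (h4 : b ≠ c) (h5 : b ≠ d) (h6 : c ≠ d) :
    [a, b, c, d].Nodup := by
  simp only [List.nodup_cons, List.mem_cons, List.not_mem_nil, or_false, not_or, not_false_eq_true, List.nodup_nil,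
    and_true]
  exact ⟨⟨h1, h2, h3⟩, ⟨h4, h5⟩, h6⟩

/-- no three pairwise disjoint rows -/
theorem no_three (he : EP G S) (hq : QC G X T S) {a b c : V} (ha : S a) (hb : S b) (hc : S c) (Aa : At G S a)
    (Ab : At G S b) (Ac : At G S c) (ab : Dj G S a b) (ac : Dj G S a c) (bc : Dj G S b c) : False := by
  obtain ⟨p, hp, eap⟩ := Aa
  obtain ⟨q, hq', ebq⟩ := Ab
  obtain ⟨r, hr, ecr⟩ := Ac
  have eaq : ¬ G.Adj a q := ab.symm q hq' ebq
  have ear : ¬ G.Adj a r := ac.symm r hr ecr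
  have ebp : ¬ G.Adj b p := ab p hp eap
  have ebr : ¬ G.Adj b r := bc.symm r hr ecr
  have ecp : ¬ G.Adj c p := ac p hp eap
  have ecq : ¬ G.Adj c q := bc q hq' ebq
  have eab := he.adj ha hb hp eap ebp ⟨q, hq', ebq⟩
  have eac := he.adj ha hc hp eap ecp ⟨r, hr, ecr⟩
  have ebc := he.adj hb hc hq' ebq ecq ⟨r, hr, ecr⟩
  have epq := he.adj' hp hq' ha eap.symm (fun k => eaq k.symm) ⟨b, hb, ebq.symm⟩
  have epr := he.adj' hp hr ha eap.symm (fun k => ear k.symm) ⟨c, hc, ecr.symm⟩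
  have eqr := he.adj' hq' hr hb ebq.symm (fun k => ebr k.symm) ⟨c, hc, ecr.symm⟩
  let Y : QSy V := ⟨G, X, T, S, ⟨fun _ _ _ _ => hq.sepr.swap, fun _ _ _ _ => hq.sepr.comm⟩,
    ⟨fun _ _ _ _ => hq.qt.swap₁, fun _ _ _ _ => hq.qt.swap₂⟩⟩
  refine ty3K2 (Y := Y) hq (a := a) (b := b) (c := c) (p := p) (q := q) (r := r)
    (nd_two (S := S) (l := [a, b, c]) (m := [p, q, r]) (nd3 eab.ne eac.ne ebc.ne) (nd3 epq.ne epr.ne eqr.ne) ?_ ?_)
    ha hb hc hp hq' hr eab eac eap eaq ear ebc ebp ebq ebr ecp ecq ecr epq epr eqr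
  · simp [ha, hb, hc]
  · simp [hp, hq', hr]

/-- no chain of three rows together with a disjoint row -/
theorem no_KH (he : EP G S) (hq : QC G X T S) {a b c d : V} (ha : S a) (hb : S b) (hc : S c) (hd : S d)
    (Ac : At G S c) (Ad : At G S d) (ab : Str G S a b) (bc : Str G S b c) (ad : Dj G S a d) : False := by
  obtain ⟨p, hp, ecp⟩ := Ac
  obtain ⟨s, hs, eds⟩ := Ad
  obtain ⟨sba, r, hr, ear, ebr⟩ := ab
  obtain ⟨scb, q, hq', ebq, ecq⟩ := bc
  have ebp := scb p hp ecp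
  have eap := sba p hp ebp
  have eaq := sba q hq' ebq
  have ecr : ¬ G.Adj c r := fun k => ebr (scb r hr k)
  have edp : ¬ G.Adj d p := ad p hp eap
  have edq : ¬ G.Adj d q := ad q hq' eaq
  have edr : ¬ G.Adj d r := ad r hr ear
  have eas : ¬ G.Adj a s := ad.symm s hs eds
  have ebs : ¬ G.Adj b s := fun k => eas (sba s hs k)
  have ecs : ¬ G.Adj c s := fun k => ebs (scb s hs k)
  have eab := he.adj ha hb hr ear ebr ⟨p, hp, ebp⟩
  have eac := he.adj ha hc hr ear ecr ⟨p, hp, ecp⟩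
  have ead := he.adj ha hd hr ear edr ⟨s, hs, eds⟩
  have ebc := he.adj hb hc hq' ebq ecq ⟨p, hp, ecp⟩
  have ebd := he.adj hb hd hq' ebq edq ⟨s, hs, eds⟩
  have ecd := he.adj hc hd hp ecp edp ⟨s, hs, eds⟩
  have epq := he.adj' hp hq' hc ecp.symm (fun k => ecq k.symm) ⟨b, hb, ebq.symm⟩
  have epr := he.adj' hp hr hc ecp.symm (fun k => ecr k.symm) ⟨a, ha, ear.symm⟩
  have eps := he.adj' hp hs hc ecp.symm (fun k => ecs k.symm) ⟨d, hd, eds.symm⟩
  have eqr := he.adj' hq' hr hb ebq.symm (fun k => ebr k.symm) ⟨a, ha, ear.symm⟩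
  have eqs := he.adj' hq' hs hb ebq.symm (fun k => ebs k.symm) ⟨d, hd, eds.symm⟩
  have ers := he.adj' hr hs ha ear.symm (fun k => eas k.symm) ⟨d, hd, eds.symm⟩
  let Y : QSy V := ⟨G, X, T, S, ⟨fun _ _ _ _ => hq.sepr.swap, fun _ _ _ _ => hq.sepr.comm⟩,
    ⟨fun _ _ _ _ => hq.qt.swap₁, fun _ _ _ _ => hq.qt.swap₂⟩⟩
  refine tyKH (Y := Y) hq (a := a) (b := b) (c := c) (d := d) (p := p) (q := q) (r := r) (s := s)
    (nd_two (S := S) (l := [a, b, c, d]) (m := [p, q, r, s]) (nd4 eab.ne eac.ne ead.ne ebc.ne ebd.ne ecd.ne)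
      (nd4 epq.ne epr.ne eps.ne eqr.ne eqs.ne ers.ne) ?_ ?_)
    ha hb hc hd hp hq' hr hs eab eac ead eap eaq ear eas ebc ebd ebp ebq ebr ebs ecd ecp ecq ecr ecs edp edq edr eds
    epq epr eps eqr eqs ers
  · simp [ha, hb, hc, hd]
  · simp [hp, hq', hr, hs]

/-- no two chains of two rows, disjoint -/
theorem no_PP (he : EP G S) (hq : QC G X T S) {a b c d : V} (ha : S a) (hb : S b) (hc : S c) (hd : S d)
    (Ab : At G S b) (Ad : At G S d) (ab : Str G S a b) (cd : Str G S c d) (ac : Dj G S a c) : False := by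
  obtain ⟨p, hp, ebp⟩ := Ab
  obtain ⟨r, hr, edr⟩ := Ad
  obtain ⟨sba, q, hq', eaq, ebq⟩ := ab
  obtain ⟨sdc, s, hs, ecs, eds⟩ := cd
  have eap := sba p hp ebp
  have ecr := sdc r hr edr
  have ear : ¬ G.Adj a r := ac.symm r hr ecr
  have eas : ¬ G.Adj a s := ac.symm s hs ecs
  have ebr : ¬ G.Adj b r := fun k => ear (sba r hr k)
  have ebs : ¬ G.Adj b s := fun k => eas (sba s hs k)
  have ecp : ¬ G.Adj c p := ac p hp eap
  have ecq : ¬ G.Adj c q := ac q hq' eaq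
  have edp : ¬ G.Adj d p := fun k => ecp (sdc p hp k)
  have edq : ¬ G.Adj d q := fun k => ecq (sdc q hq' k)
  have eab := he.adj ha hb hq' eaq ebq ⟨p, hp, ebp⟩
  have eac := he.adj ha hc hp eap ecp ⟨r, hr, ecr⟩
  have ead := he.adj ha hd hp eap edp ⟨r, hr, edr⟩
  have ebc := he.adj hb hc hp ebp ecp ⟨r, hr, ecr⟩
  have ebd := he.adj hb hd hp ebp edp ⟨r, hr, edr⟩
  have ecd := he.adj hc hd hs ecs eds ⟨r, hr, edr⟩
  have epq := he.adj' hp hq' hb ebp.symm (fun k => ebq k.symm) ⟨a, ha, eaq.symm⟩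
  have epr := he.adj' hp hr ha eap.symm (fun k => ear k.symm) ⟨c, hc, ecr.symm⟩
  have eps := he.adj' hp hs ha eap.symm (fun k => eas k.symm) ⟨c, hc, ecs.symm⟩
  have eqr := he.adj' hq' hr ha eaq.symm (fun k => ear k.symm) ⟨c, hc, ecr.symm⟩
  have eqs := he.adj' hq' hs ha eaq.symm (fun k => eas k.symm) ⟨c, hc, ecs.symm⟩
  have ers := he.adj' hr hs hd edr.symm (fun k => eds k.symm) ⟨c, hc, ecs.symm⟩
  let Y : QSy V := ⟨G, X, T, S, ⟨fun _ _ _ _ => hq.sepr.swap, fun _ _ _ _ => hq.sepr.comm⟩,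
    ⟨fun _ _ _ _ => hq.qt.swap₁, fun _ _ _ _ => hq.qt.swap₂⟩⟩
  refine tyPP (Y := Y) hq (a := a) (b := b) (c := c) (d := d) (p := p) (q := q) (r := r) (s := s)
    (nd_two (S := S) (l := [a, b, c, d]) (m := [p, q, r, s]) (nd4 eab.ne eac.ne ead.ne ebc.ne ebd.ne ecd.ne)
      (nd4 epq.ne epr.ne eps.ne eqr.ne eqs.ne ers.ne) ?_ ?_)
    ha hb hc hd hp hq' hr hs eab eac ead eap eaq ear eas ebc ebd ebp ebq ebr ebs ecd ecp ecq ecr ecs edp edq edr eds
    epq epr eps eqr eqs ers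
  · simp [ha, hb, hc, hd]
  · simp [hp, hq', hr, hs]

/-- the rows on a side form a chain -/
def Chn (G : SimpleGraph V) (S : V → Prop) : Prop := ∀ a b, S a → S b → At G S a → At G S b → Sub G S a b ∨ Sub G S b a

/-- two classes on each side -/
structure TwoK (G : SimpleGraph V) (S : V → Prop) (B : V → Prop) : Prop where
  adj : ∀ {a b}, S a → ¬ S b → At G S a → (∃ z, S z ∧ G.Adj b z) → (G.Adj a b ↔ (B a ↔ B b))
  w1 : ∃ a, S a ∧ At G S a ∧ B a
  w2 : ∃ a, S a ∧ At G S a ∧ ¬ B a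
  w3 : ∃ a, ¬ S a ∧ (∃ z, S z ∧ G.Adj a z) ∧ B a
  w4 : ∃ a, ¬ S a ∧ (∃ z, S z ∧ G.Adj a z) ∧ ¬ B a

/-- `K2 + P4`: the classes are `0` (`K2`), `1` (ends of `P4`), `2` (middle of `P4`) -/
structure KP (G : SimpleGraph V) (S : V → Prop) (cl : V → Fin 3) : Prop where
  adj : ∀ {a b}, S a → ¬ S b → At G S a → (∃ z, S z ∧ G.Adj b z) →
    (G.Adj a b ↔ (cl a = 0 ∧ cl b = 0) ∨ (cl a ≠ 0 ∧ cl b ≠ 0 ∧ ¬ (cl a = 1 ∧ cl b = 1)))
  w : ∀ i : Fin 3, ∃ a, S a ∧ At G S a ∧ cl a = i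
  w' : ∀ i : Fin 3, ∃ a, ¬ S a ∧ (∃ z, S z ∧ G.Adj a z) ∧ cl a = i

open Classical in
/-- TYPE THEOREM -/
theorem types (he : EP G S) (hq : QC G X T S) : Chn G S ∨ (∃ B, TwoK G S B) ∨ ∃ cl, KP G S cl := by
  by_cases hch : Chn G S
  · exact Or.inl hch
  right
  -- two incomparable rows
  unfold Chn at hch
  push Not at hch
  obtain ⟨a, b, ha, hb, Aa, Ab, nab, nba⟩ := hch
  have ab : Dj G S a b := by
    rcases he.tri ha hb with h | h | h
    · exact absurd h nab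
    · exact absurd h nba
    · exact h
  -- comparable or disjoint
  have cmp : ∀ {x y : V}, S x → S y → At G S x → At G S y → ¬ Dj G S x y →
      (Sub G S x y ∧ Sub G S y x) ∨ Str G S x y ∨ Str G S y x := by
    intro x y hx hy Ax Ay hn
    by_cases h1 : Sub G S x y
    · by_cases h2 : Sub G S y x
      · exact Or.inl ⟨h1, h2⟩
      · refine Or.inr (Or.inr ⟨h1, ?_⟩)
        unfold Sub at h2
        push Not at h2
        exact h2
    · rcases he.tri hx hy with h | h | h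
      · exact absurd h h1
      · refine Or.inr (Or.inl ⟨h, ?_⟩)
        unfold Sub at h1
        push Not at h1
        exact h1
      · exact absurd h hn
  -- a row which meets one of two disjoint rows does not meet the other
  have one : ∀ {x y z : V}, S x → S y → S z → At G S x → At G S y → At G S z → Dj G S x y → ¬ Dj G S z x →
      Dj G S z y := by
    intro x y z hx hy hz Ax Ay Az hxy hzx
    by_contra hzy
    have h1 : ∀ {p q : V}, Sub G S p q → Dj G S q p → At G S p → False := by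
      rintro p q h2 h3 ⟨w, hw, e⟩
      exact h3 w hw (h2 w hw e) e
    -- a neighbour of `z` in each of the rows
    unfold Dj at hzx hzy
    push Not at hzx hzy
    obtain ⟨p, hp, zp, xp⟩ := hzx
    obtain ⟨q, hq', zq, yq⟩ := hzy
    exact he.two hx hy hz hp hq' xp yq (hxy p hp xp) (hxy.symm q hq' yq) zp zq
  have dec : ∀ {x y z : V}, S x → S y → S z → At G S x → At G S y → At G S z → Dj G S x y → ¬ Dj G S z x ∨
      ¬ Dj G S z y := by
    intro x y z hx hy hz Ax Ay Az hxy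
    by_contra hn
    rw [not_or, not_not, not_not] at hn
    exact no_three he hq hx hy hz Ax Ay Az hxy hn.1.symm hn.2.symm
  have at' : ∀ {x z : V}, S x → ¬ S z → G.Adj x z → At G S x := fun _ hz e => ⟨_, hz, e⟩
  by_cases hst : ∃ u v, S u ∧ S v ∧ At G S u ∧ At G S v ∧ Str G S u v
  · right
    obtain ⟨u, v, hu, hv, Au, Av, uv⟩ := hst
    -- a disjoint row
    obtain ⟨d, hd, Ad, ud⟩ : ∃ d, S d ∧ At G S d ∧ Dj G S u d := by
      by_cases h : Dj G S u a
      · exact ⟨a, ha, Aa, h⟩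
      · exact ⟨b, hb, Ab, one ha hb hu Aa Ab Au ab h⟩
    have vd : Dj G S v d := ud.mono uv.1
    -- the rows which meet the row of `u`
    have c1 : ∀ {x : V}, S x → At G S x → ¬ Dj G S x u → (Sub G S x u ∧ Sub G S u x) ∨ (Sub G S x v ∧ Sub G S v x) := by
      intro x hx Ax hn
      have xd : Dj G S x d := one hu hd hx Au Ad Ax ud hn
      rcases cmp hx hu Ax Au hn with h | h | h
      · exact Or.inl h
      · exact (no_KH he hq hx hu hv hd Av Ad h uv xd).elim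
      · right
        have hxv : ¬ Dj G S x v := fun k => no_three he hq hx hv hd Ax Av Ad k xd vd
        rcases cmp hx hv Ax Av hxv with h' | h' | h'
        · exact h'
        · exact (no_KH he hq hu hx hv hd Av Ad h h' ud).elim
        · exact (no_KH he hq hu hv hx hd Ax Ad uv h' ud).elim
    -- the rows which do not
    have c2 : ∀ {x : V}, S x → At G S x → Dj G S x u → Sub G S x d ∧ Sub G S d x := by
      intro x hx Ax hn
      have hxd : ¬ Dj G S x d := fun k => no_three he hq hx hu hd Ax Au Ad hn k ud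
      rcases cmp hx hd Ax Ad hxd with h | h | h
      · exact h
      · exact (no_PP he hq hu hv hx hd Av Ad uv h hn.symm).elim
      · exact (no_PP he hq hu hv hd hx Av Ax uv h ud).elim
    obtain ⟨sv, q, hqS, uq, vq⟩ := uv
    obtain ⟨p, hp, vp⟩ := Av
    obtain ⟨s, hs, ds⟩ := Ad
    have up := sv p hp vp
    -- classes
    let cl : V → Fin 3 := fun x => if S x then (if G.Adj x s then 0 else if G.Adj x q then 2 else 1)
      else (if G.Adj x d then 0 else if G.Adj x v then 2 else 1)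
    have us : ¬ G.Adj u s := ud.symm s hs ds
    have vs : ¬ G.Adj v s := fun k => us (sv s hs k)
    have dq : ¬ G.Adj d q := ud q hqS uq
    have clX : ∀ {x : V}, S x → At G S x → (cl x = 0 ∧ Sub G S x d ∧ Sub G S d x) ∨
        (cl x = 2 ∧ Sub G S x u ∧ Sub G S u x) ∨ (cl x = 1 ∧ Sub G S x v ∧ Sub G S v x) := by
      intro x hx Ax
      by_cases h1 : Dj G S x u
      · obtain ⟨h2, h3⟩ := c2 hx Ax h1
        refine Or.inl ⟨?_, h2, h3⟩
        show (if S x then _ else _) = _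
        rw [if_pos hx, if_pos (h3 s hs ds)]
      · rcases c1 hx Ax h1 with ⟨h2, h3⟩ | ⟨h2, h3⟩
        · refine Or.inr (Or.inl ⟨?_, h2, h3⟩)
          show (if S x then _ else _) = _
          rw [if_pos hx, if_neg (fun k => us (h2 s hs k)), if_pos (h3 q hqS uq)]
        · refine Or.inr (Or.inr ⟨?_, h2, h3⟩)
          show (if S x then _ else _) = _
          rw [if_pos hx, if_neg (fun k => vs (h2 s hs k)), if_neg (fun k => vq (h2 q hqS k))]
    have clY : ∀ {z : V}, ¬ S z → (∃ w, S w ∧ G.Adj z w) → (cl z = 0 ∧ G.Adj d z ∧ ¬ G.Adj u z ∧ ¬ G.Adj v z) ∨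
        (cl z = 2 ∧ ¬ G.Adj d z ∧ G.Adj u z ∧ G.Adj v z) ∨ (cl z = 1 ∧ ¬ G.Adj d z ∧ G.Adj u z ∧ ¬ G.Adj v z) := by
      rintro z hz ⟨w, hw, e⟩
      by_cases h1 : G.Adj z d
      · left
        have h2 : ¬ G.Adj u z := ud.symm z hz h1.symm
        refine ⟨?_, h1.symm, h2, fun k => h2 (sv z hz k)⟩
        show (if S z then _ else _) = _
        rw [if_neg hz, if_pos h1]
      · right
        have h2 : G.Adj u z := by
          rcases clX hw ⟨z, hz, e.symm⟩ with ⟨_, k, _⟩ | ⟨_, k, _⟩ | ⟨_, k, _⟩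
          · exact absurd (k z hz e.symm).symm h1
          · exact k z hz e.symm
          · exact sv z hz (k z hz e.symm)
        by_cases h3 : G.Adj z v
        · refine Or.inl ⟨?_, fun k => h1 k.symm, h2, h3.symm⟩
          show (if S z then _ else _) = _
          rw [if_neg hz, if_neg h1, if_pos h3]
        · refine Or.inr ⟨?_, fun k => h1 k.symm, h2, fun k => h3 k.symm⟩
          show (if S z then _ else _) = _
          rw [if_neg hz, if_neg h1, if_neg h3]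
    have ev : ∀ {x y z : V}, Sub G S x y → Sub G S y x → ¬ S z → (G.Adj x z ↔ G.Adj y z) := fun h1 h2 hz =>
      ⟨h1 _ hz, h2 _ hz⟩
    refine ⟨cl, ?_, ?_, ?_⟩
    · intro x z hx hz Ax Az
      rcases clX hx Ax with ⟨k1, k2, k3⟩ | ⟨k1, k2, k3⟩ | ⟨k1, k2, k3⟩ <;>
        rcases clY hz Az with ⟨g1, g2, g3, g4⟩ | ⟨g1, g2, g3, g4⟩ | ⟨g1, g2, g3, g4⟩ <;>
        rw [ev k2 k3 hz, k1, g1] <;> simp [g2, g3, g4]
    · intro i
      have hi : i = 0 ∨ i = 1 ∨ i = 2 := by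
        revert i
        decide
      rcases hi with rfl | rfl | rfl
      · refine ⟨d, hd, ⟨s, hs, ds⟩, ?_⟩
        show (if S d then _ else _) = _
        rw [if_pos hd, if_pos ds]
      · refine ⟨v, hv, ⟨p, hp, vp⟩, ?_⟩
        show (if S v then _ else _) = _
        rw [if_pos hv, if_neg vs, if_neg vq]
      · refine ⟨u, hu, ⟨p, hp, up⟩, ?_⟩
        show (if S u then _ else _) = _
        rw [if_pos hu, if_neg us, if_pos uq]
    · intro i
      have hi : i = 0 ∨ i = 1 ∨ i = 2 := by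
        revert i
        decide
      rcases hi with rfl | rfl | rfl
      · refine ⟨s, hs, ⟨d, hd, ds.symm⟩, ?_⟩
        show (if S s then _ else _) = _
        rw [if_neg hs, if_pos ds.symm]
      · refine ⟨q, hqS, ⟨u, hu, uq.symm⟩, ?_⟩
        show (if S q then _ else _) = _
        rw [if_neg hqS, if_neg (fun k => dq k.symm), if_neg (fun k => vq k.symm)]
      · refine ⟨p, hp, ⟨v, hv, vp.symm⟩, ?_⟩
        show (if S p then _ else _) = _
        rw [if_neg hp, if_neg (fun k => ud p hp up k.symm), if_pos vp.symm]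
  · left
    have eqr : ∀ {x y : V}, S x → S y → At G S x → At G S y → ¬ Dj G S x y → Sub G S x y ∧ Sub G S y x := by
      intro x y hx hy Ax Ay hn
      rcases cmp hx hy Ax Ay hn with h | h | h
      · exact h
      · exact absurd ⟨x, y, hx, hy, Ax, Ay, h⟩ hst
      · exact absurd ⟨y, x, hy, hx, Ay, Ax, h⟩ hst
    obtain ⟨y, hy, ay⟩ := Aa
    obtain ⟨y', hy', by'⟩ := Ab
    have by_ : ¬ G.Adj b y := ab y hy ay
    have ay' : ¬ G.Adj a y' := ab.symm y' hy' by'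
    have cX : ∀ {x : V}, S x → At G S x → (G.Adj x y ∧ Sub G S x a ∧ Sub G S a x) ∨
        (¬ G.Adj x y ∧ Sub G S x b ∧ Sub G S b x) := by
      intro x hx Ax
      rcases dec ha hb hx ⟨y, hy, ay⟩ ⟨y', hy', by'⟩ Ax ab with h | h
      · obtain ⟨h1, h2⟩ := eqr hx ha Ax ⟨y, hy, ay⟩ h
        exact Or.inl ⟨h2 y hy ay, h1, h2⟩
      · obtain ⟨h1, h2⟩ := eqr hx hb Ax ⟨y', hy', by'⟩ h
        exact Or.inr ⟨fun k => by_ (h1 y hy k), h1, h2⟩
    refine ⟨fun x => (S x ∧ G.Adj x y) ∨ (¬ S x ∧ G.Adj x a), ?_, ?_, ?_, ?_, ?_⟩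
    · rintro x z hx hz Ax ⟨w, hw, e⟩
      have hzz : (G.Adj a z ∧ ¬ G.Adj b z) ∨ (G.Adj b z ∧ ¬ G.Adj a z) := by
        rcases cX hw ⟨z, hz, e.symm⟩ with ⟨_, k, _⟩ | ⟨_, k, _⟩
        · exact Or.inl ⟨k z hz e.symm, ab z hz (k z hz e.symm)⟩
        · exact Or.inr ⟨k z hz e.symm, ab.symm z hz (k z hz e.symm)⟩
      have e1 : ((S x ∧ G.Adj x y) ∨ (¬ S x ∧ G.Adj x a)) ↔ G.Adj x y := by simp [hx]
      have e2 : ((S z ∧ G.Adj z y) ∨ (¬ S z ∧ G.Adj z a)) ↔ G.Adj a z := by simp [hz, G.adj_comm]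
      show G.Adj x z ↔ (((S x ∧ G.Adj x y) ∨ (¬ S x ∧ G.Adj x a)) ↔ ((S z ∧ G.Adj z y) ∨ (¬ S z ∧ G.Adj z a)))
      rw [e1, e2]
      rcases cX hx Ax with ⟨k1, k2, k3⟩ | ⟨k1, k2, k3⟩ <;> rcases hzz with ⟨g1, g2⟩ | ⟨g1, g2⟩
      · exact ⟨fun _ => ⟨fun _ => g1, fun _ => k1⟩, fun _ => k3 z hz g1⟩
      · exact ⟨fun k => absurd (k2 z hz k) g2, fun k => absurd (k.1 k1) g2⟩
      · exact ⟨fun k => absurd (k2 z hz k) g2, fun k => absurd (k.2 g1) k1⟩
      · exact ⟨fun _ => ⟨fun k => absurd k k1, fun k => absurd k g2⟩, fun _ => k3 z hz g1⟩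
    · exact ⟨a, ha, ⟨y, hy, ay⟩, Or.inl ⟨ha, ay⟩⟩
    · refine ⟨b, hb, ⟨y', hy', by'⟩, ?_⟩
      rintro (k | k)
      · exact by_ k.2
      · exact k.1 hb
    · exact ⟨y, hy, ⟨a, ha, ay.symm⟩, Or.inr ⟨hy, ay.symm⟩⟩
    · refine ⟨y', hy', ⟨b, hb, by'.symm⟩, ?_⟩
      rintro (k | k)
      · exact hy' k.1
      · exact ay' k.2.symm

end Pool.Agent.SOK
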