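import Pool.Agent.SOK.WdF

/-! Project SOK, module WdG: THE WORDS of an order and its context, final statements. -/

set_option autoImplicit false

namespace Pool.Agent.SOK

open Pool.Agent.SOC Pool.Agent.SOD Pool.Agent.RUP Pool.Agent.SOF Pool.Agent.SOG Pool.Agent.SOV Pool.Agent.SOS

variable {V : Type} {G : SimpleGraph V} {L L' R B W : List V}

/-! ### three classes -/

/-- a word with three letters, with few patterns -/
theorem tri_word {l : List (Fin 3)} (hc : l.IsChain (fun a b => a ≠ b)) (ha : ∀ i, i ∈ l) (h1 : ¬ [1, 0, 2].Sublist l)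
    (h2 : ¬ [2, 0, 1].Sublist l) (h3 : ¬ [0, 2, 1].Sublist l) (h4 : ¬ [1, 2, 0].Sublist l) : l = [0, 1, 2] ∨ l = [2, 1, 0] := by
  match l, hc, ha with
  | [], _, ha => exact absurd (ha 0) List.not_mem_nil
  | [a], _, ha =>
    have e0 := ha 0
    have e1 := ha 1
    simp only [List.mem_cons, List.not_mem_nil, or_false] at e0 e1
    exact absurd (e0.trans e1.symm) (by decide)
  | [a, b], _, ha =>
    have e0 := ha 0
    have e1 := ha 1
    have e2 := ha 2
    simp only [List.mem_cons, List.not_mem_nil, or_false] at e0 e1 e2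
    revert e0 e1 e2
    revert a b
    decide
  | a :: b :: x :: t, hc, ha =>
    simp only [List.isChain_cons_cons] at hc
    obtain ⟨hab, hbx, hc2⟩ := hc
    by_cases e : x = a
    · subst e
      have key0 : ∀ x b : Fin 3, ∃ c : Fin 3, c ≠ x ∧ c ≠ b := by decide
      obtain ⟨c, c1, c2⟩ := key0 x b
      have hm : c ∈ t := by
        have := ha c
        simp only [List.mem_cons] at this
        tauto
      have s1 : [x, b, c].Sublist (x :: b :: x :: t) := .cons_cons _ (.cons_cons _ (.cons _ (List.singleton_sublist.2 hm)))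
      have s2 : [b, x, c].Sublist (x :: b :: x :: t) := .cons _ (.cons_cons _ (.cons_cons _ (List.singleton_sublist.2 hm)))
      have key : ∀ x b c : Fin 3, x ≠ b → c ≠ x → c ≠ b → ([x, b, c] = [1, 0, 2] ∨ [x, b, c] = [2, 0, 1] ∨ [x, b, c] = [0, 2, 1] ∨
        [x, b, c] = [1, 2, 0]) ∨ ([b, x, c] = [1, 0, 2] ∨ [b, x, c] = [2, 0, 1] ∨ [b, x, c] = [0, 2, 1] ∨ [b, x, c] = [1, 2, 0]) := by
        decide
      rcases key x b c hab c1 c2 with (e | e | e | e) | (e | e | e | e)
      · exact absurd (e ▸ s1) h1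
      · exact absurd (e ▸ s1) h2
      · exact absurd (e ▸ s1) h3
      · exact absurd (e ▸ s1) h4
      · exact absurd (e ▸ s2) h1
      · exact absurd (e ▸ s2) h2
      · exact absurd (e ▸ s2) h3
      · exact absurd (e ▸ s2) h4
    · match t, hc2, ha, h1, h2, h3, h4 with
      | [], _, _, h1, h2, h3, h4 =>
        have key : ∀ a b x : Fin 3, a ≠ b → b ≠ x → x ≠ a → ¬ [1, 0, 2] = [a, b, x] → ¬ [2, 0, 1] = [a, b, x] →
            ¬ [0, 2, 1] = [a, b, x] → ¬ [1, 2, 0] = [a, b, x] → ([a, b, x] = [0, 1, 2] ∨ [a, b, x] = [2, 1, 0]) := by decide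
        exact key a b x hab hbx e (fun e1 => h1 (e1 ▸ List.Sublist.refl _)) (fun e1 => h2 (e1 ▸ List.Sublist.refl _))
          (fun e1 => h3 (e1 ▸ List.Sublist.refl _)) (fun e1 => h4 (e1 ▸ List.Sublist.refl _))
      | y :: t', hc2, _, h1, h2, h3, h4 =>
        exfalso
        simp only [List.isChain_cons_cons] at hc2
        have s1 : [a, b, x].Sublist (a :: b :: x :: y :: t') := .cons_cons _ (.cons_cons _ (.cons_cons _ (List.nil_sublist _)))
        have s2 : [a, x, y].Sublist (a :: b :: x :: y :: t') :=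
          .cons_cons _ (.cons _ (.cons_cons _ (.cons_cons _ (List.nil_sublist _))))
        have s3 : [b, x, y].Sublist (a :: b :: x :: y :: t') :=
          .cons _ (.cons_cons _ (.cons_cons _ (.cons_cons _ (List.nil_sublist _))))
        have key : ∀ a b x y : Fin 3, a ≠ b → b ≠ x → x ≠ a → x ≠ y →
            ([a, b, x] = [1, 0, 2] ∨ [a, b, x] = [2, 0, 1] ∨ [a, b, x] = [0, 2, 1] ∨ [a, b, x] = [1, 2, 0]) ∨
            ([a, x, y] = [1, 0, 2] ∨ [a, x, y] = [2, 0, 1] ∨ [a, x, y] = [0, 2, 1] ∨ [a, x, y] = [1, 2, 0]) ∨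
            ([b, x, y] = [1, 0, 2] ∨ [b, x, y] = [2, 0, 1] ∨ [b, x, y] = [0, 2, 1] ∨ [b, x, y] = [1, 2, 0]) := by
          decide
        rcases key a b x y hab hbx e hc2.1 with (e | e | e | e) | (e | e | e | e) | (e | e | e | e)
        · exact absurd (e ▸ s1) h1
        · exact absurd (e ▸ s1) h2
        · exact absurd (e ▸ s1) h3
        · exact absurd (e ▸ s1) h4
        · exact absurd (e ▸ s2) h1
        · exact absurd (e ▸ s2) h2
        · exact absurd (e ▸ s2) h3
        · exact absurd (e ▸ s2) h4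
        · exact absurd (e ▸ s3) h1
        · exact absurd (e ▸ s3) h2
        · exact absurd (e ▸ s3) h3
        · exact absurd (e ▸ s3) h4

/-- the words of `K2 + P4` -/
theorem triE [DecidableEq V] {cl : V → Fin 3} (h : RW fe ge G W B cl) (hW : ∀ i, i ∈ W.map cl) (hB : ∀ i, i ∈ B.map cl)
    (cW : (W.map cl).IsChain (fun a b => a ≠ b)) (cB : (B.map cl).IsChain (fun a b => a ≠ b)) :
    (B.map cl = [0, 1, 2] ∨ B.map cl = [2, 1, 0]) ∧ W.map cl = B.map cl := by
  have w1 : W.map cl = [0, 1, 2] ∨ W.map cl = [2, 1, 0] := by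
    refine tri_word cW hW ?_ ?_ ?_ ?_
    · exact fun e => e4_w h e (mem1 (hB 0))
    · exact fun e => e4b_w h e (mem1 (hB 0))
    · exact fun e => e5_w h e (mem1 (hB 1))
    · exact fun e => e5b_w h e (mem1 (hB 1))
  have b1 : B.map cl = [0, 1, 2] ∨ B.map cl = [2, 1, 0] := by
    refine tri_word cB hB ?_ ?_ ?_ ?_
    · exact fun e => e1_w h (mem1 (hW 0)) e
    · exact fun e => e1b_w h (mem1 (hW 0)) e
    · exact fun e => e2_w h (mem1 (hW 1)) e
    · exact fun e => e2b_w h (mem1 (hW 1)) e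
  refine ⟨b1, ?_⟩
  rcases w1 with e1 | e1
  · rcases b1 with e2 | e2
    · rw [e1, e2]
    · exfalso
      refine e3_w h ?_ ?_
      · rw [e1]
        exact .cons _ (List.Sublist.refl _)
      · rw [e2]
  · rcases b1 with e2 | e2
    · exfalso
      refine e3b_w h ?_ ?_
      · rw [e1]
        exact .cons_cons _ (.cons_cons _ (List.nil_sublist _))
      · rw [e2]
    · rw [e1, e2]

/-! ### the summary -/

theorem LEp.permL (h : LEp G L R) (hp : L'.Perm L) : LEp G L' R :=
  h.mono ((hp.append_right R).nodup_iff.2 h.nd) (fun _ hx => hp.subset hx) (fun _ hx => hx)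

theorem LCl.permL {α : Type} {f : α → α → Prop} {cl : V → α} (h : LCl f G L R cl) (hp : L'.Perm L) : LCl f G L' R cl where
  adj := by
    rintro a b ha hb Aa ⟨z, hz, e⟩
    exact h.adj (hp.subset ha) hb Aa ⟨z, hp.subset hz, e⟩
  wL := by
    intro i
    obtain ⟨a, ha, h2⟩ := h.wL i
    exact ⟨a, hp.symm.subset ha, h2⟩
  wR := by
    intro i
    obtain ⟨b, hb, ⟨z, hz, e⟩, h2⟩ := h.wR i
    exact ⟨b, hb, ⟨z, hp.symm.subset hz, e⟩, h2⟩

theorem LRp.permL (h : LRp G L R B) (hp : L'.Perm L) : LRp G L' R B := by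
  obtain ⟨sR, e, h2⟩ := h
  exact ⟨sR, e, h2.mem fun x => hp.mem_iff⟩

/-- the words for a context with three blocks: two rows, or `K2 + P4` -/
def Wd3 [DecidableEq V] (G : SimpleGraph V) (ad : V → V → Bool) (L R B : List V) : Prop :=
  (∃ x y : List Bool, x ≠ y ∧
    (∀ L' : List V, L'.Perm L → Val G (L' ++ B) → wordF ad B L' = [x, y] ∨ wordF ad B L' = [y, x] ∨ wordF ad B L' = [x, y, x]) ∧
    (∃ b1 b2 b3, B = [b1, b2, b3] ∧ SR G L b1 b3 ∧ G.Adj b1 b2 ∧ G.Adj b2 b3 ∧
      ((∃ cl, LCl fp G L R cl) ∨ ∃ cl, LCl fk G L R cl))) ∨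
  ∃ x y z : List Bool, ∀ L' : List V, L'.Perm L → Val G (L' ++ B) → wordF ad B L' = [x, y, z]

theorem two_sum [DecidableEq V] {f g : Bool → Bool → Prop} {fo u : Bool → Bool} {ad : V → V → Bool} {cl : V → Bool}
    (had : ∀ x y, ad x y = true ↔ G.Adj x y) (ht : TyF f g) (hg : ∀ a, g a (!a))
    (tw : ∀ {W : List V}, RW f g G W B cl → (∀ i, i ∈ W.map cl) → TwoW G W B cl fo u)
    (ty : (∃ cl, LCl fp G L R cl) ∨ ∃ cl, LCl fk G L R cl)
    (hE : LEp G L R) (hB : LRp G L R B) (hv : Val G (L ++ B)) (hc : LCl f G L R cl) :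
    B.length = 2 ∨ (B.length = 3 ∧ Wd3 G ad L R B) ∨
      (B.length = 4 ∧ ∃ X, ∀ L' : List V, L'.Perm L → Val G (L' ++ B) → wordF ad B L' = X) := by
  have ex : ∀ L' : List V, L'.Perm L → Val G (L' ++ B) → ∃ W, Wds f g G ad L' B W cl := fun L' hp hv' =>
    wds_ex had ht (hE.permL hp) (hc.permL hp) (hB.permL hp) hv'
  obtain ⟨W, w⟩ := ex L (List.Perm.refl _) hv
  have t := tw w.rw' w.aW
  have lB : (B.map cl).length = B.length := List.length_map _
  obtain ⟨a, r, er, h1⟩ := alt_cases w.cB w.aB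
  have len4 : ¬ 5 ≤ B.length := by
    intro h5
    obtain ⟨a, ha⟩ := alt_len w.cB (by rw [lB]; exact h5)
    exact t.five a ha
  have len2 : 2 ≤ B.length := by
    rw [← lB, er]
    simp
  rcases (by omega : B.length = 2 ∨ B.length = 3 ∨ B.length = 4) with e | e | e
  · exact Or.inl e
  · refine Or.inr (Or.inl ⟨e, Or.inl ?_⟩)
    obtain ⟨a, ha⟩ := alt_eq3 w.cB (by rw [lB]; exact e)
    refine ⟨rwC f cl B (u a), rwC f cl B (!(u a)), ?_, ?_, ?_⟩
    · intro e1
      have := w.inj e1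
      revert this
      cases u a <;> decide
    · intro L' hp hv'
      obtain ⟨W', w'⟩ := ex L' hp hv'
      have t' := tw w'.rw' w'.aW
      rcases alt_three w'.cW w'.aW (c := !(u a)) (by rw [Bool.not_not]; exact t'.three a ha) with e1 | e1 | e1
      · rw [w'.word, e1, Bool.not_not]
        exact Or.inr (Or.inl rfl)
      · rw [w'.word, e1, Bool.not_not]
        exact Or.inl rfl
      · rw [w'.word, e1, Bool.not_not]
        exact Or.inr (Or.inr rfl)
    · match B, e, ha, w, hB with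
      | [b1, b2, b3], _, ha, w, hB =>
        simp only [List.map_cons, List.map_nil, List.cons.injEq, and_true] at ha
        obtain ⟨e1, e2, e3⟩ := ha
        have nd := (List.nodup_append.1 w.rw'.nd).2.1
        have cB := hB.cov
        have att : ∀ b ∈ [b1, b2, b3], Atd G L b := by
          intro b hb
          obtain ⟨sR, _, hR⟩ := hB
          obtain ⟨i, hi⟩ := List.mem_iff_getElem?.1 hb
          exact (hR.rep hi).2
        simp only [List.nodup_cons, List.mem_cons, List.not_mem_nil, or_false, not_or, not_false_eq_true, List.nodup_nil,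
          and_true] at nd
        refine ⟨b1, b2, b3, rfl, ?_, ?_, ?_, ty⟩
        · exact ((hc.symm ht).row ht (cB.1 _ (by simp)) (cB.1 _ (by simp)) (att _ (by simp)) (att _ (by simp))).2 (e1.trans e3.symm)
        · rw [w.rw'.aB (by simp) (by simp) nd.1.1, e1, e2]
          exact hg a
        · rw [w.rw'.aB (by simp) (by simp) nd.2, e2, e3]
          have := hg (!a)
          rwa [Bool.not_not] at this
  · refine Or.inr (Or.inr ⟨e, ?_⟩)
    obtain ⟨a, ha⟩ := alt_eq4 w.cB (by rw [lB]; exact e)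
    refine ⟨[!(fo a), fo a].map (rwC f cl B), ?_⟩
    intro L' hp hv'
    obtain ⟨W', w'⟩ := ex L' hp hv'
    have t' := tw w'.rw' w'.aW
    rw [w'.word, alt_two w'.cW w'.aW (c := fo a) (t'.four a ha)]

/-- THE SUMMARY: the words of all orders of `L` in the context `B` -/
theorem words_sum [DecidableEq V] {ad : V → V → Bool} (had : ∀ x y, ad x y = true ↔ G.Adj x y) (hE : LEp G L R) (hB : LRp G L R B)
    (hv : Val G (L ++ B)) (ty : (∃ cl, LCl fp G L R cl) ∨ (∃ cl, LCl fk G L R cl) ∨ ∃ cl, LCl fe G L R cl) :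
    B.length = 2 ∨ (B.length = 3 ∧ Wd3 G ad L R B) ∨
      (B.length = 4 ∧ ∃ X, ∀ L' : List V, L'.Perm L → Val G (L' ++ B) → wordF ad B L' = X) := by
  rcases ty with ⟨cl, hc⟩ | ⟨cl, hc⟩ | ⟨cl, hc⟩
  · exact two_sum had ty_p (by unfold fp; decide) (fun h h2 => twoP h h2) (Or.inl ⟨cl, hc⟩) hE hB hv hc
  · exact two_sum had ty_k (by unfold gk; decide) (fun h h2 => twoK h h2) (Or.inr ⟨cl, hc⟩) hE hB hv hc
  · have ex : ∀ L' : List V, L'.Perm L → Val G (L' ++ B) → ∃ W, Wds fe ge G ad L' B W cl := fun L' hp hv' =>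
      wds_ex had ty_e (hE.permL hp) (hc.permL hp) (hB.permL hp) hv'
    obtain ⟨W, w⟩ := ex L (List.Perm.refl _) hv
    obtain ⟨h1, _⟩ := triE w.rw' w.aW w.aB w.cW w.cB
    have lB : B.length = 3 := by
      rw [← List.length_map (f := cl)]
      rcases h1 with e | e <;> rw [e] <;> rfl
    refine Or.inr (Or.inl ⟨lB, Or.inr ?_⟩)
    have key : ∀ L' : List V, L'.Perm L → Val G (L' ++ B) → wordF ad B L' = (B.map cl).map (rwC fe cl B) := by
      intro L' hp hv'
      obtain ⟨W', w'⟩ := ex L' hp hv'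
      rw [w'.word, (triE w'.rw' w'.aW w'.aB w'.cW w'.cB).2]
    rcases h1 with e | e
    · exact ⟨rwC fe cl B 0, rwC fe cl B 1, rwC fe cl B 2, fun L' hp hv' => by rw [key L' hp hv', e]; rfl⟩
    · exact ⟨rwC fe cl B 2, rwC fe cl B 1, rwC fe cl B 0, fun L' hp hv' => by rw [key L' hp hv', e]; rfl⟩

/-- at least two blocks -/
theorem two_le {α : Type} {f g : α → α → Prop} {cl : V → α} (ht : TyF f g) (hc : LCl f G L R cl) (hB : LRp G L R B) {i j : α}
    (hij : i ≠ j) : 2 ≤ B.length := by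
  have h := hc.cov ht hB.cov
  obtain ⟨b, hb, _, e1⟩ := h.wR i
  obtain ⟨b', hb', _, e2⟩ := h.wR j
  match B, hb, hb' with
  | [], hb, _ => exact absurd hb List.not_mem_nil
  | [c], hb, hb' =>
    rw [List.mem_singleton] at hb hb'
    subst hb
    subst hb'
    exact absurd (e1.symm.trans e2) hij
  | _ :: _ :: t, _, _ => simp

end Pool.Agent.SOK
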