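import Pool.Agent.SOK.WdW
import Pool.Agent.SOK.FinF

/-! Project SOK, module WdL: classes of the attached vertices for lists; representatives with classes. -/

set_option autoImplicit false

namespace Pool.Agent.SOK

open Pool.Agent.SOC Pool.Agent.SOD Pool.Agent.RUP Pool.Agent.SOF Pool.Agent.SOG Pool.Agent.SOV Pool.Agent.SOS

variable {V : Type} {G : SimpleGraph V} {α : Type} {f g : α → α → Prop} {cl : V → α} {L R B W : List V}

/-- classes of the attached vertices; `f` says which classes are adjacent -/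
structure LCl (f : α → α → Prop) (G : SimpleGraph V) (L R : List V) (cl : V → α) : Prop where
  adj : ∀ {a b}, a ∈ L → b ∈ R → Atd G R a → Atd G L b → (G.Adj a b ↔ f (cl a) (cl b))
  wL : ∀ i, ∃ a ∈ L, Atd G R a ∧ cl a = i
  wR : ∀ i, ∃ b ∈ R, Atd G L b ∧ cl b = i

/-- the row of the class is minimal -/
def Gm (f : α → α → Prop) (i : α) : Prop := ∀ k, ¬ ((∀ m, f k m → f i m) ∧ ∃ m, f i m ∧ ¬ f k m)

/-- the properties of the types -/
structure TyF (f g : α → α → Prop) : Prop where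
  sym : ∀ {i j}, f i j → f j i
  sep : ∀ {i j}, (∀ k, f k i ↔ f k j) → i = j
  gd : ∀ {i j}, g i j ↔ ¬ (i = j ∧ Gm f i)

theorem ty_p : TyF fp fp where
  sym := fun {i j} h => h.symm
  sep := by
    intro i j h
    have h1 := h false
    unfold fp at h1
    cases i <;> cases j <;> simp_all
  gd := by
    unfold Gm fp
    decide

theorem ty_k : TyF fk gk where
  sym := fun {i j} h => h.symm
  sep := by
    intro i j h
    exact (h i).1 rfl
  gd := by
    unfold Gm fk gk
    decide

theorem ty_e : TyF fe ge where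
  sym := by
    intro i j
    unfold fe
    fin_cases i <;> fin_cases j <;> simp
  sep := by
    intro i j h
    have h0 := h 0
    have h1 := h 1
    have h2 := h 2
    unfold fe at h0 h1 h2
    fin_cases i <;> fin_cases j <;> simp_all
  gd := by
    intro i j
    unfold Gm fe ge
    fin_cases i <;> fin_cases j <;> simp [Fin.forall_fin_succ, Fin.exists_fin_succ]

theorem LCl.symm (h : LCl f G L R cl) (ht : TyF f g) : LCl f G R L cl where
  adj := fun {a b} ha hb Aa Ab => by
    rw [G.adj_comm, h.adj hb ha Ab Aa]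
    exact ⟨ht.sym, ht.sym⟩
  wL := h.wR
  wR := h.wL

/-- equal rows and equal classes -/
theorem LCl.row (h : LCl f G L R cl) (ht : TyF f g) {x y : V} (hx : x ∈ L) (hy : y ∈ L) (ax : Atd G R x) (ay : Atd G R y) :
    SR G R x y ↔ cl x = cl y := by
  constructor
  · intro hs
    refine ht.sep fun k => ?_
    obtain ⟨b, hb, ab, rfl⟩ := h.wR k
    rw [show f (cl b) (cl x) ↔ f (cl x) (cl b) from ⟨ht.sym, ht.sym⟩,
      show f (cl b) (cl y) ↔ f (cl y) (cl b) from ⟨ht.sym, ht.sym⟩, ← h.adj hx hb ax ab, ← h.adj hy hb ay ab]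
    exact hs b hb
  · intro e z hz
    constructor
    · intro e1
      exact (h.adj hy hz ay ⟨x, hx, e1.symm⟩).2 (e ▸ (h.adj hx hz ax ⟨x, hx, e1.symm⟩).1 e1)
    · intro e1
      exact (h.adj hx hz ax ⟨y, hy, e1.symm⟩).2 (e ▸ (h.adj hy hz ay ⟨y, hy, e1.symm⟩).1 e1)

/-- classes and representatives -/
theorem LCl.cov (h : LCl f G L R cl) (ht : TyF f g) (hc : CovL G L R B) : LCl f G L B cl where
  adj := fun {a b} ha hb Aa Ab => h.adj ha (hc.1 b hb) ((hc.att ha).1 Aa) Ab
  wL := by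
    intro i
    obtain ⟨a, ha, Aa, e⟩ := h.wL i
    exact ⟨a, ha, (hc.att ha).2 Aa, e⟩
  wR := by
    intro i
    obtain ⟨b, hb, Ab, rfl⟩ := h.wR i
    obtain ⟨b', hb', hs⟩ := hc.2 b hb Ab
    have Ab' : Atd G L b' := by
      obtain ⟨z, hz, e⟩ := Ab
      exact ⟨z, hz, (hs z hz).1 e⟩
    exact ⟨b', hb', Ab', (((h.symm ht).row ht hb (hc.1 b' hb') Ab Ab').1 hs).symm⟩

/-- inclusion of rows, by classes -/
theorem LCl.sub (h : LCl f G L R cl) {x z : V} (hx : x ∈ L) (hz : z ∈ L) (ax : Atd G R x) (az : Atd G R z) :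
    (∀ w ∈ R, G.Adj z w → G.Adj x w) ↔ ∀ m, f (cl z) m → f (cl x) m := by
  constructor
  · intro h1 m hm
    obtain ⟨b, hb, ab, rfl⟩ := h.wR m
    exact (h.adj hx hb ax ab).1 (h1 b hb ((h.adj hz hb az ab).2 hm))
  · intro h1 w hw e
    have aw : Atd G L w := ⟨z, hz, e.symm⟩
    exact (h.adj hx hw ax aw).2 (h1 _ ((h.adj hz hw az aw).1 e))

/-- the rule, by classes -/
theorem LCl.rl (h : LCl f G L R cl) (ht : TyF f g) {x y : V} (hx : x ∈ L) (hy : y ∈ L) (ax : Atd G R x) (ay : Atd G R y) :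
    RlL G L R x y ↔ g (cl x) (cl y) := by
  rw [ht.gd]
  unfold RlL Gm
  rw [h.row ht hx hy ax ay]
  refine not_congr (and_congr Iff.rfl ?_)
  constructor
  · intro h1 k
    obtain ⟨z, hz, az, rfl⟩ := h.wL k
    rintro ⟨h2, m, h3, h4⟩
    obtain ⟨b, hb, ab, rfl⟩ := h.wR m
    exact h1 z hz az ⟨(h.sub hx hz ax az).2 h2, b, hb, (h.adj hx hb ax ab).2 h3, fun e => h4 ((h.adj hz hb az ab).1 e)⟩
  · intro h1 z hz az
    rintro ⟨h2, w, hw, h3, h4⟩
    have aw : Atd G L w := ⟨x, hx, h3.symm⟩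
    exact h1 (cl z) ⟨(h.sub hx hz ax az).1 h2, cl w, (h.adj hx hw ax aw).1 h3, fun e => h4 ((h.adj hz hw az aw).2 e)⟩

open Classical in
/-- the row of a class on `B` -/
noncomputable def rwC (f : α → α → Prop) (cl : V → α) (B : List V) (i : α) : List Bool := B.map fun b => decide (f i (cl b))

/-- the representatives of `L`, with classes -/
structure Wds (f g : α → α → Prop) (G : SimpleGraph V) (ad : V → V → Bool) (L B W : List V) (cl : V → α) [DecidableEq V] : Prop where
  rw' : RW f g G W B cl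
  sub : W.Sublist L
  map : W.map (rowF ad B) = wordF ad B L
  cW : (W.map cl).IsChain (fun a b => a ≠ b)
  cB : (B.map cl).IsChain (fun a b => a ≠ b)
  aW : ∀ i, i ∈ W.map cl
  aB : ∀ i, i ∈ B.map cl
  word : wordF ad B L = (W.map cl).map (rwC f cl B)
  inj : Function.Injective (rwC f cl B)

theorem wds_ex [DecidableEq V] [Inhabited α] {ad : V → V → Bool} (had : ∀ x y, ad x y = true ↔ G.Adj x y) (ht : TyF f g)
    (hE : LEp G L R) (hc : LCl f G L R cl) (hB : LRp G L R B) (hv : Val G (L ++ B)) : ∃ W, Wds f g G ad L B W cl := by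
  classical
  have cB := hB.cov
  obtain ⟨sR, eR, hR⟩ := hB
  have nd := List.nodup_append.1 hE.nd
  have sB := sd_single hR
  have ndB : B.Nodup := by
    have h1 := sB.nd
    rwa [flatten_single] at h1
  have hcB := hc.cov ht cB
  have ep1 : LEp G L B := hE.mono (by
    rw [List.nodup_append]
    exact ⟨nd.1, ndB, fun a ha b hb => nd.2.2 a ha b (cB.1 b hb)⟩) (fun _ h => h) cB.1
  have hA : ∃ x ∈ L, Atd G B x := by
    obtain ⟨a, ha, Aa, _⟩ := hcB.wL default
    exact ⟨a, ha, Aa⟩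
  obtain ⟨sL, W, eL, hL, subW, mapW, _⟩ := sd_word had (L := L) (O := B) (B := B) RpB.refl nd.1 hA
  have inB : ∀ {b : V}, b ∈ B → Atd G L b := by
    intro b hb
    obtain ⟨i, hi⟩ := List.mem_iff_getElem?.1 hb
    exact (sB.rep hi).2
  have inW : ∀ {x : V}, x ∈ W → x ∈ L ∧ Atd G B x := by
    intro x hx
    obtain ⟨i, hi⟩ := List.mem_iff_getElem?.1 hx
    exact ⟨subW.subset hx, (hL.rep hi).2⟩
  have rowW : ∀ {x : V}, x ∈ L → Atd G B x → rowF ad B x = rwC f cl B (cl x) := by
    intro x hx ax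
    unfold rowF rwC
    refine List.map_congr_left fun b hb => ?_
    rw [Bool.eq_iff_iff, had, decide_eq_true_eq]
    exact hcB.adj hx hb ax (inB hb)
  have aBc : ∀ i, i ∈ B.map cl := by
    intro i
    obtain ⟨b, hb, _, rfl⟩ := hcB.wR i
    exact List.mem_map_of_mem hb
  have inj : Function.Injective (rwC f cl B) := by
    intro i j e
    refine ht.sep fun k => ?_
    obtain ⟨b, hb, _, rfl⟩ := hcB.wR k
    have h1 := List.map_inj_left.1 e b hb
    rw [decide_eq_decide] at h1
    rw [show f (cl b) i ↔ f i (cl b) from ⟨ht.sym, ht.sym⟩, show f (cl b) j ↔ f j (cl b) from ⟨ht.sym, ht.sym⟩]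
    exact h1
  refine ⟨W, ⟨?_, ?_, ?_, ?_, ?_⟩, subW, mapW, ?_, ?_, ?_, aBc, ?_, inj⟩
  · exact (List.Sublist.append subW (List.Sublist.refl _)).nodup ep1.nd
  · exact Val_sublist (List.Sublist.append subW (List.Sublist.refl _)) ep1.nd hv
  · intro x y hx hy
    exact hcB.adj (inW hx).1 hy (inW hx).2 (inB hy)
  · intro x y hx hy hne
    obtain ⟨i, hi⟩ := List.mem_iff_getElem?.1 hx
    obtain ⟨j, hj⟩ := List.mem_iff_getElem?.1 hy
    have hij : i ≠ j := by
      rintro rfl
      exact hne (Option.some.inj (hi.symm.trans hj))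
    rw [rule_l ep1 hL eL sB (flatten_single B) hv (hL.rep hi).1 (hL.rep hj).1 hij (hL.rep hi).2 (hL.rep hj).2]
    exact hcB.rl ht (inW hx).1 (inW hy).1 (inW hx).2 (inW hy).2
  · intro x y hx hy hne
    obtain ⟨i, hi⟩ := List.mem_iff_getElem?.1 hx
    obtain ⟨j, hj⟩ := List.mem_iff_getElem?.1 hy
    have hij : i ≠ j := by
      rintro rfl
      exact hne (Option.some.inj (hi.symm.trans hj))
    rw [rule_r ep1 hL eL sB (flatten_single B) hv (sB.rep hi).1 (sB.rep hj).1 hij (sB.rep hi).2 (sB.rep hj).2]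
    exact (hcB.symm ht).rl ht hx hy (inB hx) (inB hy)
  · rw [List.isChain_iff_getElem]
    intro i hi
    rw [List.length_map] at hi
    rw [List.getElem_map, List.getElem_map]
    intro e
    have e1 := List.getElem?_eq_getElem (l := W) (i := i) (by omega)
    have e2 := List.getElem?_eq_getElem hi
    have m1 := inW (List.mem_of_getElem? e1)
    have m2 := inW (List.mem_of_getElem? e2)
    exact hL.mx e1 e2 ((hcB.row ht m1.1 m2.1 m1.2 m2.2).2 e)
  · rw [List.isChain_iff_getElem]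
    intro i hi
    rw [List.length_map] at hi
    rw [List.getElem_map, List.getElem_map]
    intro e
    have e1 := List.getElem?_eq_getElem (l := B) (i := i) (by omega)
    have e2 := List.getElem?_eq_getElem hi
    have m1 := List.mem_of_getElem? e1
    have m2 := List.mem_of_getElem? e2
    exact sB.mx e1 e2 (((hcB.symm ht).row ht m1 m2 (inB m1) (inB m2)).2 e)
  · intro i
    obtain ⟨a, ha, Aa, rfl⟩ := hcB.wL i
    obtain ⟨j, hj⟩ := seg_of eL ha
    obtain ⟨b, h1, h2, h3⟩ := hL.ex hj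
    have m1 := List.mem_of_getElem? h1
    rw [(hcB.row ht ha (inW m1).1 Aa (inW m1).2).1 (hL.same hj h2 Aa h3)]
    exact List.mem_map_of_mem m1
  · rw [← mapW, List.map_map]
    exact List.map_congr_left fun x hx => rowW (inW hx).1 (inW hx).2

end Pool.Agent.SOK
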