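import Pool.Agent.SOK.ExtG

/-! Project SOK, module GadU: structures for lists, explicitly; the gadget. -/

set_option autoImplicit false

namespace Pool.Agent.SOK

open Pool.Agent.SOC Pool.Agent.SOD Pool.Agent.RUP Pool.Agent.SOF Pool.Agent.SOG Pool.Agent.SOV Pool.Agent.SOS

variable {V V' : Type} [DecidableEq V] [DecidableEq V'] {G : SimpleGraph V} {G' : SimpleGraph V'}

/-- `T` is a structure for the list `l` -/
def Vl (G : SimpleGraph V) (l : List V) (T : V → V → V → V → Prop) : Prop := QT (restr G {v | v ∈ l}) (Cross l) T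

theorem val_iff {l : List V} : Val G l ↔ ∃ T, Vl G l T := Iff.rfl

theorem Vl.mem {l : List V} {T : V → V → V → V → Prop} (h : Vl G l T) {a b c d : V} (ht : T a b c d) :
    a ∈ l ∧ b ∈ l ∧ c ∈ l ∧ d ∈ l :=
  ⟨(h.adj ht).2.1, (h.adj (h.swap₁ ht)).2.1, (h.adj ht).2.2, (h.adj (h.swap₂ (h.swap₁ (h.swap₂ ht)))).2.2⟩

theorem Vl.sq {l : List V} {T : V → V → V → V → Prop} (h : Vl G l T) {a b c d : V} (ht : T a b c d) :
    a ≠ b ∧ c ≠ d ∧ G.Adj a c ∧ G.Adj a d ∧ G.Adj b c ∧ G.Adj b d :=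
  ⟨h.ne ht, h.ne (h.swap₂ ht), (h.adj ht).1, (h.adj (h.swap₂ (h.swap₁ (h.swap₂ ht)))).1, (h.adj (h.swap₁ ht)).1,
    (h.adj (h.swap₁ (h.swap₂ (h.swap₁ (h.swap₂ ht))))).1⟩

/-- restriction along an injective map -/
theorem Vl.pull {l : List V} {l' : List V'} {f : V' → V} {T : V → V → V → V → Prop} (h : Vl G l T)
    (hf : Function.Injective f) (hs : (l'.map f).Sublist l) (hl : l.Nodup)
    (hadj : ∀ a ∈ l', ∀ b ∈ l', (G'.Adj a b ↔ G.Adj (f a) (f b))) :
    Vl G' l' (fun a b c d => (a ∈ l' ∧ b ∈ l' ∧ c ∈ l' ∧ d ∈ l') ∧ T (f a) (f b) (f c) (f d)) := by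
  have hm : ∀ {a : V'}, a ∈ l' → f a ∈ l := fun h => hs.subset (List.mem_map_of_mem h)
  have pos : ∀ a ∈ l', ∀ b ∈ l', (l'.idxOf a < l'.idxOf b ↔ l.idxOf (f a) < l.idxOf (f b)) := by
    intro a ha b hb
    rw [← idxOf_map_of (f := f) (fun _ _ _ _ e => hf e) ha, ← idxOf_map_of (f := f) (fun _ _ _ _ e => hf e) hb]
    exact idxOf_sublist hs hl (List.mem_map_of_mem ha) (List.mem_map_of_mem hb)
  have cr : ∀ {a b c d : V'}, a ∈ l' → b ∈ l' → c ∈ l' → d ∈ l' → (Cross l' a b c d ↔ Cross l (f a) (f b) (f c) (f d)) :=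
    fun ha hb hc hd => cross_of_lt (S := {v | v ∈ l'}) pos ha hb hc hd
  refine ⟨?_, ?_, ?_, ?_, ?_, ?_, ?_, ?_, ?_⟩
  · rintro a b c d ⟨⟨h1, h2, h3, h4⟩, h5⟩
    exact ⟨⟨h2, h1, h3, h4⟩, h.swap₁ h5⟩
  · rintro a b c d ⟨⟨h1, h2, h3, h4⟩, h5⟩
    exact ⟨⟨h3, h4, h1, h2⟩, h.swap₂ h5⟩
  · rintro a b c d ⟨_, h5⟩ rfl
    exact h.ne h5 rfl
  · rintro a b c d ⟨⟨h1, h2, h3, h4⟩, h5⟩
    exact ⟨(hadj a h1 c h3).2 (h.adj h5).1, h1, h3⟩
  · rintro a b c d ⟨⟨h1, h2, h3, h4⟩, h5⟩ h6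
    exact h.nocross h5 ((cr h1 h2 h3 h4).1 h6)
  · rintro a b c d ⟨e1, m1, m3⟩ ⟨e2, m2, m4⟩ n1 n2 n3 n4 hx
    rcases h.some (a := f a) (b := f b) (c := f c) (d := f d) ⟨(hadj a m1 c m3).1 e1, hm m1, hm m3⟩
      ⟨(hadj b m2 d m4).1 e2, hm m2, hm m4⟩ (fun e => n1 (hf e)) (fun e => n2 (hf e)) (fun e => n3 (hf e))
      (fun e => n4 (hf e)) ((cr m1 m3 m2 m4).1 hx) with h1 | h1
    · exact Or.inl ⟨⟨m1, m2, m3, m4⟩, h1⟩
    · exact Or.inr ⟨⟨m1, m4, m2, m3⟩, h1⟩
  · rintro a b c d ⟨_, h1⟩ ⟨_, h2⟩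
    exact h.notboth h1 h2
  · rintro u w x y z ⟨⟨m1, m2, m3, m4⟩, h1⟩ ⟨⟨_, _, _, k4⟩, h2⟩ hne'
    exact ⟨⟨m1, m2, m3, k4⟩, h.trans h1 h2 (fun e => hne' (hf e))⟩
  · rintro a b x y x' y' ⟨⟨m1, m2, m3, m4⟩, h1⟩ ⟨⟨_, k2, _, k4⟩, h2⟩
    rcases h.ferrers h1 h2 with h3 | h3
    · exact Or.inl ⟨⟨m1, m2, m3, k4⟩, h3⟩
    · exact Or.inr ⟨⟨m1, k2, m3, m4⟩, h3⟩

/-- restriction to a part of the list -/
theorem Vl.sub {l l' : List V} {T : V → V → V → V → Prop} (h : Vl G l T) (hs : l'.Sublist l) (hl : l.Nodup) :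
    Vl G l' (fun a b c d => (a ∈ l' ∧ b ∈ l' ∧ c ∈ l' ∧ d ∈ l') ∧ T a b c d) :=
  h.pull (f := fun x => x) (fun _ _ e => e) (by rwa [List.map_id']) hl fun _ _ _ _ => Iff.rfl

omit [DecidableEq V] in
/-- the structure on `D` and the representatives `E` is not locked -/
def Un (G : SimpleGraph V) (D E : List V) (T : V → V → V → V → Prop) : Prop :=
  ∀ q ∈ E, ∀ r ∈ E, ∀ p ∈ D, ∀ s ∈ D, ∀ x ∈ D, G.Adj p r → ¬ G.Adj s r → ¬ T q x p s

omit [DecidableEq V] in
theorem extG_some {B : List V} {a b : V} : (extG G B).Adj (some a) (some b) ↔ G.Adj a b := Iff.rfl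

omit [DecidableEq V] in
theorem extG_none {B : List V} {b : V} : (extG G B).Adj none (some b) ↔ b ∈ B := Iff.rfl

theorem cross_c1 {L : List V'} {n b0 b1 : V'} (h : (L ++ [n, b0, b1]).Nodup) {x : V'} (hx : x ∈ L) :
    Cross (L ++ [n, b0, b1]) n b1 x b0 := by
  rw [List.nodup_append] at h
  obtain ⟨_, h2, h3⟩ := h
  have nL : ∀ y ∈ [n, b0, b1], y ∉ L := fun y hy hL => h3 y hL y hy rfl
  simp only [List.nodup_cons, List.mem_cons, List.not_mem_nil, or_false, not_or, not_false_eq_true, List.nodup_nil,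
    and_true] at h2
  have e0 : (L ++ [n, b0, b1]).idxOf x < L.length := by
    rw [List.idxOf_append_of_mem hx]
    exact List.idxOf_lt_length_iff.2 hx
  have e1 : (L ++ [n, b0, b1]).idxOf n = L.length + 0 := by
    rw [List.idxOf_append_of_notMem (nL n (by simp)), List.idxOf_cons_self]
  have e2 : (L ++ [n, b0, b1]).idxOf b0 = L.length + 1 := by
    rw [List.idxOf_append_of_notMem (nL b0 (by simp)), List.idxOf_cons_ne _ h2.1.1, List.idxOf_cons_self]
  have e3 : (L ++ [n, b0, b1]).idxOf b1 = L.length + 2 := by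
    rw [List.idxOf_append_of_notMem (nL b1 (by simp)), List.idxOf_cons_ne _ h2.1.2, List.idxOf_cons_ne _ h2.2,
      List.idxOf_cons_self]
  unfold Cross SOC.Btw
  omega

theorem cross_c2 {L : List V'} {n b0 b1 : V'} (h : (L ++ [b0, b1, n]).Nodup) {x : V'} (hx : x ∈ L) :
    Cross (L ++ [b0, b1, n]) n b0 x b1 := by
  rw [List.nodup_append] at h
  obtain ⟨_, h2, h3⟩ := h
  have nL : ∀ y ∈ [b0, b1, n], y ∉ L := fun y hy hL => h3 y hL y hy rfl
  simp only [List.nodup_cons, List.mem_cons, List.not_mem_nil, or_false, not_or, not_false_eq_true, List.nodup_nil,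
    and_true] at h2
  have e0 : (L ++ [b0, b1, n]).idxOf x < L.length := by
    rw [List.idxOf_append_of_mem hx]
    exact List.idxOf_lt_length_iff.2 hx
  have e1 : (L ++ [b0, b1, n]).idxOf b0 = L.length + 0 := by
    rw [List.idxOf_append_of_notMem (nL b0 (by simp)), List.idxOf_cons_self]
  have e2 : (L ++ [b0, b1, n]).idxOf b1 = L.length + 1 := by
    rw [List.idxOf_append_of_notMem (nL b1 (by simp)), List.idxOf_cons_ne _ h2.1.1, List.idxOf_cons_self]
  have e3 : (L ++ [b0, b1, n]).idxOf n = L.length + 2 := by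
    rw [List.idxOf_append_of_notMem (nL n (by simp)), List.idxOf_cons_ne _ h2.1.2, List.idxOf_cons_ne _ h2.2,
      List.idxOf_cons_self]
  unfold Cross SOC.Btw
  omega

/-- the gadget at the end next to `r`: the structure is not locked -/
theorem un_core {L B : List V} {l : List (Option V)} {T : Option V → Option V → Option V → Option V → Prop}
    (h : Vl (extG G B) l T) (hn : none ∈ l) {q0 r0 : V} (hB : ∀ x, x ∈ B ↔ x = q0 ∨ x = r0) (hd : ∀ x ∈ L, x ∉ B)
    (hL : ∀ x ∈ L, some x ∈ l) (hq : some q0 ∈ l) (hr : some r0 ∈ l)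
    (hX : ∀ x ∈ L, Cross l none (some q0) (some x) (some r0)) :
    Un G L B (fun a b c d => T (some a) (some b) (some c) (some d)) := by
  have mq : q0 ∈ B := (hB _).2 (Or.inl rfl)
  have mr : r0 ∈ B := (hB _).2 (Or.inr rfl)
  -- crossing with the edge from the new vertex to q0
  have key : ∀ p ∈ L, G.Adj p r0 → q0 ≠ r0 → T none (some p) (some q0) (some r0) := by
    intro p hp e hne
    have e1 : (restr (extG G B) {v | v ∈ l}).Adj none (some q0) := ⟨extG_none.2 mq, hn, hq⟩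
    have e2 : (restr (extG G B) {v | v ∈ l}).Adj (some p) (some r0) := ⟨e, hL p hp, hr⟩
    rcases h.some e1 e2 (by simp) (by simp) (fun e3 => hd p hp (by rw [Option.some.inj e3]; exact mq))
      (fun e3 => hne (Option.some.inj e3)) (hX p hp) with h1 | h1
    · exact h1
    · exact absurd (extG_none.1 (h.sq h1).2.2.1) (hd p hp)
  intro q hq' r hr' p hp s hs x hx e ne ht
  obtain ⟨_, _, a1, a2, a3, a4⟩ := h.sq ht
  rw [extG_some] at a1 a2 a3 a4
  rcases (hB q).1 hq' with rfl | rfl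
  · rcases (hB r).1 hr' with rfl | rfl
    · exact ne a2.symm
    · have hne : q ≠ r := fun e3 => ne (by rw [← e3]; exact a2.symm)
      have h1 := key p hp e hne
      have h2 : T (some q) (some r) (some p) none := h.swap₂ (h.swap₁ h1)
      rcases h.ferrers ht h2 with h3 | h3
      · have h4 := (h.sq h3).2.2.2.2.2
        exact hd x hx (extG_none.1 h4.symm)
      · have h4 := (h.sq h3).2.2.2.2.2
        exact ne (extG_some.1 h4).symm
  · rcases (hB r).1 hr' with rfl | rfl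
    · have hne : r ≠ q := fun e3 => ne (by rw [e3]; exact a2.symm)
      have h1 := key s hs a2.symm hne
      have h2 := (h.sq h1).2.2.2.2.1
      exact ne (extG_some.1 h2)
    · exact ne a2.symm

/-- restriction to the old vertices -/
theorem vl_old {L B : List V} {l : List (Option V)} {T : Option V → Option V → Option V → Option V → Prop}
    (h : Vl (extG G B) l T) (hl : l.Nodup) (hs : ((L ++ B).map some).Sublist l) :
    Vl G (L ++ B) (fun a b c d => (a ∈ L ++ B ∧ b ∈ L ++ B ∧ c ∈ L ++ B ∧ d ∈ L ++ B) ∧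
      T (some a) (some b) (some c) (some d)) :=
  h.pull (f := some) (Option.some_injective V) hs hl fun _ _ _ _ => Iff.rfl

omit [DecidableEq V] in
theorem Un.mono {D E : List V} {T T' : V → V → V → V → Prop} (h : Un G D E T) (ht : ∀ a b c d, T' a b c d → T a b c d) :
    Un G D E T' := fun q hq r hr p hp s hs x hx e ne h' => h q hq r hr p hp s hs x hx e ne (ht _ _ _ _ h')

theorem un_ctx1 {L : List V} {b0 b1 : V} (hn : (L ++ [b0, b1]).Nodup) (h : Val (extG G [b0, b1]) (ctx1 L [b0, b1])) :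
    ∃ T, Vl G (L ++ [b0, b1]) T ∧ Un G L [b0, b1] T := by
  obtain ⟨T, hT⟩ := h
  have hl := ctx1_nodup hn
  refine ⟨_, vl_old hT hl ?_, ?_⟩
  · rw [List.map_append]
    exact List.Sublist.append (List.Sublist.refl _) (List.sublist_cons_self _ _)
  · refine Un.mono (un_core (L := L) (q0 := b1) (r0 := b0) hT ?_ ?_ ?_ ?_ ?_ ?_ ?_) fun a b c d h => h.2
    · simp [ctx1]
    · intro x
      simp [or_comm]
    · intro x hx hb
      rw [List.nodup_append] at hn
      exact hn.2.2 x hx x hb rfl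
    · intro x hx
      simp [ctx1, hx]
    · simp [ctx1]
    · simp [ctx1]
    · intro x hx
      exact cross_c1 (L := L.map some) (n := none) (b0 := some b0) (b1 := some b1) hl (List.mem_map_of_mem hx)

theorem un_ctx2 {L : List V} {b0 b1 : V} (hn : (L ++ [b0, b1]).Nodup) (h : Val (extG G [b0, b1]) (ctx2 L [b0, b1])) :
    ∃ T, Vl G (L ++ [b0, b1]) T ∧ Un G L [b0, b1] T := by
  obtain ⟨T, hT⟩ := h
  have hl := ctx2_nodup hn
  refine ⟨_, vl_old hT hl ?_, ?_⟩
  · rw [List.map_append]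
    exact List.Sublist.append (List.Sublist.refl _) (List.sublist_append_left _ _)
  · refine Un.mono (un_core (L := L) (q0 := b0) (r0 := b1) hT ?_ ?_ ?_ ?_ ?_ ?_ ?_) fun a b c d h => h.2
    · simp [ctx2]
    · intro x
      simp
    · intro x hx hb
      rw [List.nodup_append] at hn
      exact hn.2.2 x hx x hb rfl
    · intro x hx
      simp [ctx2, hx]
    · simp [ctx2]
    · simp [ctx2]
    · intro x hx
      exact cross_c2 (L := L.map some) (n := none) (b0 := some b0) (b1 := some b1) hl (List.mem_map_of_mem hx)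

end Pool.Agent.SOK
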