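import Pool.Agent.SOK.Rule
import Pool.Agent.SOK.GadU

/-! Project SOK, module Core: two halves for every order with the same word. -/

set_option autoImplicit false

namespace Pool.Agent.SOK

open Pool.Agent.SOC Pool.Agent.SOD Pool.Agent.RUP Pool.Agent.SOF Pool.Agent.SOG Pool.Agent.SOV

variable {V : Type} {G : SimpleGraph V}

/-- positions in a sublist -/
theorem idx_sub3 [DecidableEq V] {l : List V} (hl : l.Nodup) {a b c : V} (h : [a, b, c].Sublist l) :
    l.idxOf a < l.idxOf b ∧ l.idxOf b < l.idxOf c := by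
  have hn : [a, b, c].Nodup := h.nodup hl
  simp only [List.nodup_cons, List.mem_cons, List.not_mem_nil, or_false, not_or, not_false_eq_true, List.nodup_nil,
    and_true] at hn
  have ha : [a, b, c].idxOf a = 0 := List.idxOf_cons_self
  have hb : [a, b, c].idxOf b = 1 := by
    rw [List.idxOf_cons_ne _ hn.1.1, List.idxOf_cons_self]
  have hc : [a, b, c].idxOf c = 2 := by
    rw [List.idxOf_cons_ne _ hn.1.2, List.idxOf_cons_ne _ hn.2, List.idxOf_cons_self]
  constructor
  · rw [← idxOf_sublist h hl (by simp) (by simp), ha, hb]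
    omega
  · rw [← idxOf_sublist h hl (by simp) (by simp), hb, hc]
    omega

/-- rows of consecutive representatives are different -/
theorem rp_chain {O : List V} {segs : List (List V)} {rp : List V} (h : Sd G O segs rp) {S : V → Prop}
    (hO : ∀ z ∈ O, ¬ S z) : rp.IsChain (fun a b => ¬ (Sub G S a b ∧ Sub G S b a)) := by
  rw [List.isChain_iff_getElem]
  intro i hi hs
  exact h.mx (List.getElem?_eq_getElem (by omega)) (List.getElem?_eq_getElem hi) fun z hz =>
    ⟨hs.1 z (hO z hz), hs.2 z (hO z hz)⟩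

/-- the data which are the same for all orders of a side -/
structure Base [DecidableEq V] (G : SimpleGraph V) (ad : V → V → Bool) (L R B W : List V) (sL sR : List (List V)) : Prop where
  en : IsEnum (L ++ R)
  eL : sL.flatten = L
  eR : sR.flatten = R
  sdL : Sd G R sL W
  sdR : Sd G L sR B
  subB : B.Sublist R
  subW : W.Sublist L
  mapW : W.map (rowF ad B) = wordF ad B L
  rpb : RpB G L R B
  clR : ∀ {i j : ℕ} {x y : V}, InS sR i x → InS sR j y → i ≠ j → Atd G L x → Atd G L y → (G.Adj x y ↔ Rl G (fun x => ¬ x ∈ L) x y)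
  clW : ∀ {b c : V}, b ∈ W → c ∈ W → b ≠ c → (G.Adj b c ↔ Rl G (fun x => x ∈ L) b c)
  lenB : B.length ≤ 5
  lenW : W.length ≤ 5

section
variable [DecidableEq V] {L R : List V} {ad : V → V → Bool}

/-- the base data exist -/
theorem base_ex (had : ∀ x y, ad x y = true ↔ G.Adj x y) (hs : IsEnum (L ++ R)) {T : V → V → V → V → Prop}
    (hT : QT G (Cross (L ++ R)) T) (h1 : Ax1 G (fun x => x ∈ L)) (h2 : Ax1 G (fun x => ¬ x ∈ L))
    (hA : ∃ x ∈ L, Atd G R x) : ∃ B W sL sR, Base G ad L R B W sL sR := by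
  have nd := List.nodup_append.1 hs.1
  have mem : ∀ {x : V}, ¬ x ∈ L → x ∈ R := fun {x} h => (List.mem_append.1 (hs.2 x)).resolve_left h
  have nm : ∀ {x : V}, x ∈ R → ¬ x ∈ L := fun h h' => cutL_disj hs.1 h' h
  have hA' : ∃ y ∈ R, Atd G L y := by
    obtain ⟨x, hx, y, hy, e⟩ := hA
    exact ⟨y, hy, x, hx, e.symm⟩
  obtain ⟨sR, B, eR, sdR, subB, _, _⟩ := sd_word had (L := R) (O := L) (B := L) RpB.refl nd.2.1 hA'
  have rpb : RpB G L R B := rpB_of_sd sdR eR
  obtain ⟨sL, W, eL, sdL, subW, mapW, _⟩ := sd_word had (L := L) (O := R) (B := B) rpb nd.1 hA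
  have cs : CutS (cutL G L R sL sR) G (L ++ R) := ⟨hs, cutL_ok hs sdL sdR eL eR, cutL_bi hs sdL sdR eL eR,
    cutL_mx (sR := sR) hs sdL eL eR⟩
  have cs' : CutS (comp (cutL G L R sL sR)) G (L ++ R) := ⟨hs, comp_ok cs.ok, comp_bi cs.bi, cutL_mx' (sL := sL) hs sdR eL eR⟩
  have hT' := qt_crD hT
  have iL : ∀ {i x}, InS sL i x → x ∈ L := fun h => by rw [← eL]; exact inS_mem h
  have iR : ∀ {i x}, InS sR i x → x ∈ R := fun h => by rw [← eR]; exact inS_mem h
  have kR : ∀ {x y : V}, x ∈ R → (cutL G L R sL sR).K x y → ∃ i, InS sR i x ∧ InS sR i y := by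
    rintro x y hx (⟨_, _, i, k1, _⟩ | ⟨_, _, i, k1, k2⟩)
    · exact absurd (iL k1) (nm hx)
    · exact ⟨i, k1, k2⟩
  have kL : ∀ {x y : V}, x ∈ L → (cutL G L R sL sR).K x y → ∃ i, InS sL i x ∧ InS sL i y := by
    rintro x y hx (⟨_, _, i, k1, k2⟩ | ⟨_, _, i, k1, _⟩)
    · exact ⟨i, k1, k2⟩
    · exact absurd hx (nm (iR k1))
  refine ⟨B, W, sL, sR, hs, eL, eR, sdL, sdR, subB, subW, mapW, rpb, ?_, ?_, ?_, ?_⟩
  · intro i j x y hi hj hij ax ay
    refine h2.clsQ (C := comp (cutL G L R sL sR)) rfl cs' hT' (nm (iR hi))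
      (nm (iR hj)) (Or.inr ⟨iR hi, ax⟩) (Or.inr ⟨iR hj, ay⟩) ?_
    intro hk
    obtain ⟨k, k1, k2⟩ := kR (iR hi) hk
    exact hij ((inS_uniq sdR.nd hi k1).trans (inS_uniq sdR.nd hj k2).symm)
  · intro b c hb' hc' hbc
    obtain ⟨i, hb⟩ := List.mem_iff_getElem?.1 hb'
    obtain ⟨j, hc⟩ := List.mem_iff_getElem?.1 hc'
    have hij : i ≠ j := by
      rintro rfl
      exact hbc (Option.some.inj (hb.symm.trans hc))
    obtain ⟨hi, ax⟩ := sdL.rep hb
    obtain ⟨hj, ay⟩ := sdL.rep hc
    refine h1.clsQ (C := cutL G L R sL sR) rfl cs hT' (iL hi)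
      (iL hj) (Or.inl ⟨iL hi, ax⟩) (Or.inl ⟨iL hj, ay⟩) ?_
    intro hk
    obtain ⟨k, k1, k2⟩ := kL (iL hi) hk
    exact hij ((inS_uniq sdL.nd hi k1).trans (inS_uniq sdL.nd hj k2).symm)
  · refine h2.cnt (C := comp (cutL G L R sL sR)) rfl cs' hT' B ?_ ?_ ?_
    · intro x hx
      obtain ⟨i, hi⟩ := List.mem_iff_getElem?.1 hx
      obtain ⟨k1, k2⟩ := sdR.rep hi
      exact ⟨nm (iR k1), Or.inr ⟨iR k1, k2⟩⟩
    · intro a b c hab z hz
      obtain ⟨i1, i2⟩ := idx_sub3 nd.2.1 (hab.trans subB)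
      have ma := subB.subset (hab.subset (by simp : a ∈ [a, b, c]))
      have mb := subB.subset (hab.subset (by simp : b ∈ [a, b, c]))
      have mc := subB.subset (hab.subset (by simp : c ∈ [a, b, c]))
      have zL := not_not.1 hz
      have e1 := idxR hs.1 ma
      have e2 := idxR hs.1 mb
      have e3 := idxR hs.1 mc
      have e4 := idxL (R := R) zL
      have l4 := List.idxOf_lt_length_iff.2 zL
      refine ⟨⟨?_, ?_, ?_, ?_, ?_, ?_⟩, ?_⟩
      · rintro rfl
        omega
      · rintro rfl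
        omega
      · rintro rfl
        exact nm ma zL
      · rintro rfl
        omega
      · rintro rfl
        exact nm mc zL
      · rintro rfl
        exact nm mb zL
      · unfold Cross SOC.Btw
        omega
    · exact rp_chain sdR fun z hz => not_not.2 hz
  · refine h1.cnt (C := cutL G L R sL sR) rfl cs hT' W ?_ ?_ ?_
    · intro x hx
      obtain ⟨i, hi⟩ := List.mem_iff_getElem?.1 hx
      obtain ⟨k1, k2⟩ := sdL.rep hi
      exact ⟨iL k1, Or.inl ⟨iL k1, k2⟩⟩
    · intro a b c hab z hz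
      obtain ⟨i1, i2⟩ := idx_sub3 nd.1 (hab.trans subW)
      have ma := subW.subset (hab.subset (by simp : a ∈ [a, b, c]))
      have mb := subW.subset (hab.subset (by simp : b ∈ [a, b, c]))
      have mc := subW.subset (hab.subset (by simp : c ∈ [a, b, c]))
      have zR := mem hz
      have e1 := idxL (R := R) ma
      have e2 := idxL (R := R) mb
      have e3 := idxL (R := R) mc
      have e4 := idxR hs.1 zR
      have l1 := List.idxOf_lt_length_iff.2 ma
      have l2 := List.idxOf_lt_length_iff.2 mb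
      have l3 := List.idxOf_lt_length_iff.2 mc
      refine ⟨⟨?_, ?_, ?_, ?_, ?_, ?_⟩, ?_⟩
      · rintro rfl
        omega
      · rintro rfl
        omega
      · rintro rfl
        exact hz ma
      · rintro rfl
        omega
      · rintro rfl
        exact hz mc
      · rintro rfl
        exact hz mb
      · unfold Cross SOC.Btw
        omega
    · exact rp_chain sdL fun z hz => nm hz

omit [DecidableEq V] in
theorem sub_of_sr {O : List V} {S : V → Prop} (hO : ∀ z, ¬ S z → z ∈ O) {x y : V} (h : SR G O x y) :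
    Sub G S x y ∧ Sub G S y x :=
  ⟨fun z hz e => (h z (hO z hz)).1 e, fun z hz e => (h z (hO z hz)).2 e⟩

/-- the data for another order of the side -/
structure Oth [DecidableEq V] (G : SimpleGraph V) (ad : V → V → Bool) (R B L' W' : List V) (sL' sR : List (List V)) : Prop where
  en : IsEnum (L' ++ R)
  eL : sL'.flatten = L'
  sdL : Sd G R sL' W'
  sdR : Sd G L' sR B
  mapW : W'.map (rowF ad B) = wordF ad B L'
  cs : CutS (cutL G L' R sL' sR) G (L' ++ R)
  mx : Mx (comp (cutL G L' R sL' sR)) G (CrD (L' ++ R))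

/-- the cut and the maps for another order of the side; the word of the other order is the word of `W1` -/
theorem base_use (had : ∀ x y, ad x y = true ↔ G.Adj x y) {B W : List V} {sL sR : List (List V)}
    (hb : Base G ad L R B W sL sR) (h1 : Ax1 G (fun x => x ∈ L)) (hA : ∃ x ∈ L, Atd G R x) {L' : List V}
    (hp : L'.Perm L) {W1 : List V} (hW1 : W1.Sublist W) (hw : wordF ad B L' = W1.map (rowF ad B)) :
    ∃ (sL' : List (List V)) (W' : List V), Oth G ad R B L' W' sL' sR ∧
      RepOk (cutL G L' R sL' sR) G (CrD (L' ++ R)) (fun x => x ∈ L') (SOS.restr G {v | v ∈ L' ++ B}) (CrD (L' ++ B))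
        (fun x => if x ∈ L' then x else rho sR B x) ∧
      ((∃ T1, Half (cutL G L' R sL' sR) G (CrD (L' ++ R)) (fun x => x ∈ L') T1) →
        RepOk (cutL G L' R sL' sR) G (CrD (L' ++ R)) (fun x => ¬ x ∈ L') (SOS.restr G {v | v ∈ W1 ++ R}) (CrD (W1 ++ R))
          (fun x => if x ∈ L' then rho sL' W1 x else x)) := by
  obtain ⟨hs, eL, eR, sdL, sdR, subB, subW, mapW, rpb, clR, clW, lenB, lenW⟩ := hb
  have nd := List.nodup_append.1 hs.1
  have hm : ∀ x, x ∈ L' ↔ x ∈ L := fun x => hp.mem_iff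
  have subW1 : W1.Sublist L := hW1.trans subW
  have ndW : W.Nodup := subW.nodup nd.1
  have hs' : IsEnum (L' ++ R) := by
    have e1 : (L' ++ R).Perm (L ++ R) := hp.append_right R
    exact ⟨e1.nodup_iff.2 hs.1, fun v => e1.mem_iff.2 (hs.2 v)⟩
  have ndL' := hp.nodup_iff.2 nd.1
  have nm : ∀ {x : V}, x ∈ R → ¬ x ∈ L' := fun h h' => cutL_disj hs'.1 h' h
  have hA' : ∃ x ∈ L', Atd G R x := by
    obtain ⟨x, hx, h⟩ := hA
    exact ⟨x, (hm x).2 hx, h⟩
  have sdR' : Sd G L' sR B := sdR.mem hm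
  have rpb' : RpB G L' R B := rpb.mem hm
  obtain ⟨sL', W', eL', sdL', subW', mapW', letW'⟩ := sd_word had (L := L') (O := R) (B := B) rpb' ndL' hA'
  have cs : CutS (cutL G L' R sL' sR) G (L' ++ R) := ⟨hs', cutL_ok hs' sdL' sdR' eL' eR, cutL_bi hs' sdL' sdR' eL' eR,
    cutL_mx (sR := sR) hs' sdL' eL' eR⟩
  have mx' := cutL_mx' (sL := sL') hs' sdR' eL' eR
  have iL : ∀ {i x}, InS sL' i x → x ∈ L' := fun h => by rw [← eL']; exact inS_mem h
  have iR : ∀ {i x}, InS sR i x → x ∈ R := fun h => by rw [← eR]; exact inS_mem h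
  have hSe : (fun x => x ∈ L') = fun x => x ∈ L := funext fun x => propext (hm x)
  have aL : ∀ {x : V}, Atd G L' x → Atd G L x := by
    rintro x ⟨z, hz, e⟩
    exact ⟨z, (hm z).1 hz, e⟩
  have rR : ∀ {i x b}, InS sR i x → Atd G L' x → B[i]? = some b → SR G L' x b := fun hx ax hb =>
    sdR'.same hx (sdR'.rep hb).1 ax (sdR'.rep hb).2
  refine ⟨sL', W', ⟨hs', eL', sdL', sdR', mapW', cs, mx'⟩, ?_, ?_⟩
  · refine repA hs' sdR' eL' eR sdR'.len (subB.nodup nd.2.1) (fun b hb => subB.subset hb) rR ?_ ?_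
    · intro i j x y b c hi hj hij ax ay hb hc
      obtain ⟨kb1, kb2⟩ := sdR'.rep hb
      obtain ⟨kc1, kc2⟩ := sdR'.rep hc
      rw [clR hi hj hij (aL ax) (aL ay), clR kb1 kc1 hij (aL kb2) (aL kc2)]
      have e1 := sub_of_sr (S := fun x => ¬ x ∈ L) (O := L') (G := G) (fun z hz => (hm z).2 (not_not.1 hz)) (rR hi ax hb)
      have e2 := sub_of_sr (S := fun x => ¬ x ∈ L) (O := L') (G := G) (fun z hz => (hm z).2 (not_not.1 hz)) (rR hj ay hc)
      exact Rl_congr e1.1 e1.2 e2.1 e2.2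
    · intro x hx y hy
      exact ⟨fun h => h.1, fun h => ⟨h, hx, hy⟩⟩
  · rintro ⟨T1, hT1⟩
    have lenW' : W1.length = sL'.length := by
      have e2 := congrArg List.length mapW'
      rw [List.length_map, hw, List.length_map] at e2
      rw [← e2, sdL'.len]
    have ndW1 : W1.Nodup := subW1.nodup nd.1
    have rW : ∀ {i x b}, InS sL' i x → Atd G R x → W1[i]? = some b → SR G R x b := by
      intro i x b hx ax hb
      have e1 := letW' hx ax
      have e2 : (W1.map (rowF ad B))[i]? = some (rowF ad B b) := by rw [List.getElem?_map, hb]; rfl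
      rw [← hw, e1] at e2
      have e3 := rowF_eq.1 (Option.some.inj e2)
      refine rpb.row x ((hm x).1 (iL hx)) b (subW1.subset (List.mem_of_getElem? hb)) fun z hz => ?_
      rw [← had, ← had, e3 z hz]
    refine repB hs' sdL' eL' eR lenW' ndW1 (fun b hb => (hm b).2 (subW1.subset hb)) rW ?_ ?_
    · intro i j x y b c hi hj hij ax ay hb hc
      have hk : ¬ (cutL G L' R sL' sR).K x y := by
        rintro (⟨_, _, k, k1, k2⟩ | ⟨_, _, k, k1, _⟩)
        · exact hij ((inS_uniq sdL'.nd hi k1).trans (inS_uniq sdL'.nd hj k2).symm)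
        · exact nm (iR k1) (iL hi)
      have hbc : b ≠ c := by
        rintro rfl
        have l1 := (List.getElem?_eq_some_iff.1 hb).1
        have l2 := (List.getElem?_eq_some_iff.1 hc).1
        have k1 := (List.getElem?_eq_some_iff.1 hb).2
        have k2 := (List.getElem?_eq_some_iff.1 hc).2
        exact hij ((List.Nodup.getElem_inj_iff ndW1).1 (k1.trans k2.symm))
      rw [h1.cls (C := cutL G L' R sL' sR) (T := T1) hSe cs hT1 (iL hi) (iL hj)
        (Or.inl ⟨iL hi, ax⟩) (Or.inl ⟨iL hj, ay⟩) hk,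
        clW (hW1.subset (List.mem_of_getElem? hb)) (hW1.subset (List.mem_of_getElem? hc)) hbc]
      have hR : ∀ z, ¬ z ∈ L → z ∈ R := fun z hz => (List.mem_append.1 (hs.2 z)).resolve_left hz
      have e1 := sub_of_sr (S := fun x => x ∈ L) (O := R) (G := G) hR (rW hi ax hb)
      have e2 := sub_of_sr (S := fun x => x ∈ L) (O := R) (G := G) hR (rW hj ay hc)
      exact Rl_congr e1.1 e1.2 e2.1 e2.2
    · intro x hx y hy
      exact ⟨fun h => h.1, fun h => ⟨h, hx, hy⟩⟩

end

end Pool.Agent.SOK
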