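import Pool.Agent.SOK.Seg
import Pool.Agent.SOG.MainG
import Pool.Agent.SOG.Rep

/-! Project SOK, module CutL: the cut between the two parts `L`, `R` of an order `L ++ R`, with the blocks. -/

set_option autoImplicit false

namespace Pool.Agent.SOK

open Pool.Agent.SOC Pool.Agent.SOD Pool.Agent.RUP Pool.Agent.SOF Pool.Agent.SOG

variable {V : Type} {G : SimpleGraph V}

/-- `x` has a neighbour in `O` -/
def Atd (G : SimpleGraph V) (O : List V) (x : V) : Prop := ∃ z ∈ O, G.Adj x z

/-- `x` and `y` have the same neighbours in `O` -/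
def SR (G : SimpleGraph V) (O : List V) (x y : V) : Prop := ∀ z ∈ O, (G.Adj x z ↔ G.Adj y z)

/-- `segs` are the blocks of a side, `O` is the other side, `rp` are representatives of the blocks -/
structure Sd (G : SimpleGraph V) (O : List V) (segs : List (List V)) (rp : List V) : Prop where
  nd : segs.flatten.Nodup
  same : ∀ {i x y}, InS segs i x → InS segs i y → Atd G O x → Atd G O y → SR G O x y
  len : rp.length = segs.length
  rep : ∀ {i b}, rp[i]? = some b → InS segs i b ∧ Atd G O b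
  mx : ∀ {i b c}, rp[i]? = some b → rp[i + 1]? = some c → ¬ SR G O b c

theorem SR.symm {O : List V} {x y : V} (h : SR G O x y) : SR G O y x := fun z hz => (h z hz).symm

theorem SR.trans {O : List V} {x y t : V} (h : SR G O x y) (h' : SR G O y t) : SR G O x t :=
  fun z hz => (h z hz).trans (h' z hz)

theorem Atd.of_SR {O : List V} {x y : V} (h : Atd G O x) (h' : SR G O x y) : Atd G O y := by
  obtain ⟨z, hz, h1⟩ := h
  exact ⟨z, hz, (h' z hz).1 h1⟩

/-- every segment has a representative -/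
theorem Sd.ex {O : List V} {segs : List (List V)} {rp : List V} (h : Sd G O segs rp) {i : ℕ} {x : V}
    (hx : InS segs i x) : ∃ b, rp[i]? = some b ∧ InS segs i b ∧ Atd G O b := by
  have h1 := inS_len hx
  rw [← h.len] at h1
  exact ⟨rp[i], List.getElem?_eq_getElem h1, h.rep (List.getElem?_eq_getElem h1)⟩

/-- the cut -/
def cutL (G : SimpleGraph V) (L R : List V) (sL sR : List (List V)) : Cut V where
  S x := x ∈ L
  A x := (x ∈ L ∧ Atd G R x) ∨ (x ∈ R ∧ Atd G L x)
  B _ := False
  K x y := (Atd G R x ∧ Atd G R y ∧ ∃ i, InS sL i x ∧ InS sL i y) ∨ (Atd G L x ∧ Atd G L y ∧ ∃ i, InS sR i x ∧ InS sR i y)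

section
variable [DecidableEq V] {L R : List V} {sL sR : List (List V)} {rL rR : List V}

omit [DecidableEq V] in
theorem cutL_disj (hs : (L ++ R).Nodup) {x : V} (h : x ∈ L) (h' : x ∈ R) : False :=
  (List.nodup_append.1 hs).2.2 x h x h' rfl

theorem idxL {x : V} (h : x ∈ L) : (L ++ R).idxOf x = L.idxOf x := List.idxOf_append_of_mem h

theorem idxR (hs : (L ++ R).Nodup) {x : V} (h : x ∈ R) : (L ++ R).idxOf x = L.length + R.idxOf x :=
  List.idxOf_append_of_notMem fun h' => cutL_disj hs h' h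

/-- the cut satisfies the conditions -/
theorem cutL_ok (hs : IsEnum (L ++ R)) (hL : Sd G R sL rL) (hR : Sd G L sR rR) (eL : sL.flatten = L)
    (eR : sR.flatten = R) : (cutL G L R sL sR).Ok (CrD (L ++ R)) := by
  have mem : ∀ {x : V}, ¬ x ∈ L → x ∈ R := fun {x} h => (List.mem_append.1 (hs.2 x)).resolve_left h
  have iL : ∀ {i x}, InS sL i x → x ∈ L := fun h => by rw [← eL]; exact inS_mem h
  have iR : ∀ {i x}, InS sR i x → x ∈ R := fun h => by rw [← eR]; exact inS_mem h
  have ltL : ∀ {x : V}, x ∈ L → (L ++ R).idxOf x < L.length := fun h => by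
    rw [idxL h]; exact List.idxOf_lt_length_iff.2 h
  have geR : ∀ {x : V}, x ∈ R → L.length ≤ (L ++ R).idxOf x := fun h => by
    rw [idxR hs.1 h]; omega
  refine ⟨crD_sepr hs, ?_, ?_, ?_, fun _ h => h, ?_, ?_, ?_, ?_⟩
  · intro a b c d ha hb hc hd hx
    have h1 := ltL ha
    have h2 := ltL hb
    have h3 := geR (mem hc)
    have h4 := geR (mem hd)
    have h5 := hx.2
    unfold Cross SOC.Btw at h5
    omega
  · rintro a b (⟨_, _, i, h1, h2⟩ | ⟨_, _, i, h1, h2⟩) ha
    · exact iL h2
    · exact absurd (iR h1) fun h => cutL_disj hs.1 ha h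
  · rintro a b (⟨h0, _, i, h1, h2⟩ | ⟨h0, _, i, h1, h2⟩)
    · exact Or.inl ⟨iL h1, h0⟩
    · exact Or.inr ⟨iR h1, h0⟩
  · rintro a b (⟨h0, h0', i, h1, h2⟩ | ⟨h0, h0', i, h1, h2⟩)
    · exact Or.inl ⟨h0', h0, i, h2, h1⟩
    · exact Or.inr ⟨h0', h0, i, h2, h1⟩
  · rintro a b c (⟨h0, h0', i, h1, h2⟩ | ⟨h0, h0', i, h1, h2⟩) (⟨h3, h3', j, h4, h5⟩ | ⟨h3, h3', j, h4, h5⟩)
    · obtain rfl := inS_uniq hL.nd h2 h4
      exact Or.inl ⟨h0, h3', i, h1, h5⟩
    · exact (cutL_disj hs.1 (iL h2) (iR h4)).elim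
    · exact (cutL_disj hs.1 (iL h4) (iR h2)).elim
    · obtain rfl := inS_uniq hR.nd h2 h4
      exact Or.inr ⟨h0, h3', i, h1, h5⟩
  · rintro a b c d (⟨h0, h0', i, h1, h2⟩ | ⟨h0, h0', i, h1, h2⟩) hc ha hcL hd hx
    · have hc' : Atd G R c := by
        rcases hc with h | h
        · exact h.2
        · exact (cutL_disj hs.1 hcL h.1).elim
      have k1 := ltL ha
      have k2 := ltL (iL h2)
      have k3 := ltL hcL
      have k4 := geR (mem hd)
      have k5 := hx.2
      have e1 := idxL (R := R) ha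
      have e2 := idxL (R := R) (iL h2)
      have e3 := idxL (R := R) hcL
      unfold Cross SOC.Btw at k5
      refine Or.inl ⟨h0, hc', i, h1, ?_⟩
      have h1' := h1
      have h2' := h2
      by_cases g : L.idxOf a < L.idxOf c
      · refine inS_btw hL.nd h1 h2 (by rw [eL]; exact hcL) (by rw [eL]; exact g) ?_
        rw [eL]
        omega
      · refine inS_btw hL.nd h2 h1 (by rw [eL]; exact hcL) ?_ ?_
        · rw [eL]
          omega
        · rw [eL]
          omega
    · exact (cutL_disj hs.1 ha (iR h1)).elim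
  · rintro a b c d (⟨h0, h0', i, h1, h2⟩ | ⟨h0, h0', i, h1, h2⟩) hc ha hcL hd hx
    · exact (ha (iL h1)).elim
    · have hc' : Atd G L c := by
        rcases hc with h | h
        · exact (hcL h.1).elim
        · exact h.2
      have k1 := geR (mem ha)
      have k2 := geR (iR h2)
      have k3 := geR (mem hcL)
      have k4 := ltL hd
      have k5 := hx.2
      have e1 := idxR hs.1 (mem ha)
      have e2 := idxR hs.1 (iR h2)
      have e3 := idxR hs.1 (mem hcL)
      unfold Cross SOC.Btw at k5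
      refine Or.inr ⟨h0, hc', i, h1, ?_⟩
      by_cases g : R.idxOf a < R.idxOf c
      · refine inS_btw hR.nd h1 h2 (by rw [eR]; exact mem hcL) (by rw [eR]; exact g) ?_
        rw [eR]
        omega
      · refine inS_btw hR.nd h2 h1 (by rw [eR]; exact mem hcL) ?_ ?_
        · rw [eR]
          omega
        · rw [eR]
          omega

/-- blocks have the same neighbours on the other side -/
theorem cutL_bi (hs : IsEnum (L ++ R)) (hL : Sd G R sL rL) (hR : Sd G L sR rR) (eL : sL.flatten = L)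
    (eR : sR.flatten = R) : (cutL G L R sL sR).Bi G := by
  have mem : ∀ {x : V}, ¬ x ∈ L → x ∈ R := fun {x} h => (List.mem_append.1 (hs.2 x)).resolve_left h
  have iL : ∀ {i x}, InS sL i x → x ∈ L := fun h => by rw [← eL]; exact inS_mem h
  have iR : ∀ {i x}, InS sR i x → x ∈ R := fun h => by rw [← eR]; exact inS_mem h
  refine ⟨?_, ?_, ?_⟩
  · intro a b ha hb hab
    exact ⟨Or.inl ⟨ha, b, mem hb, hab⟩, Or.inr ⟨mem hb, a, ha, hab.symm⟩⟩
  · rintro a b c (⟨h0, h0', i, h1, h2⟩ | ⟨h0, h0', i, h1, h2⟩) ha hc hac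
    · exact (hL.same h1 h2 h0 h0' c (mem hc)).1 hac
    · exact (cutL_disj hs.1 ha (iR h1)).elim
  · rintro a b c (⟨h0, h0', i, h1, h2⟩ | ⟨h0, h0', i, h1, h2⟩) ha hc hac
    · exact (ha (iL h1)).elim
    · exact (hR.same h1 h2 h0 h0' c hc).1 hac

/-- blocks are maximal: between two attached vertices of different blocks with the same row there is an attached vertex
with a different row -/
theorem sd_mx {O : List V} {segs : List (List V)} {rp : List V} (h : Sd G O segs rp) {i j : ℕ} {x y : V} (hx : InS segs i x)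
    (hy : InS segs j y) (ax : Atd G O x) (_ay : Atd G O y) (hij : i < j) (hr : SR G O x y) :
    ∃ c, Atd G O c ∧ ¬ SR G O x c ∧ segs.flatten.idxOf x < segs.flatten.idxOf c ∧
      segs.flatten.idxOf c < segs.flatten.idxOf y ∧ c ∈ segs.flatten := by
  have hj := inS_len hy
  obtain ⟨b, hb1, hb2, hb3⟩ := h.ex hx
  have hl : i + 1 < rp.length := by rw [h.len]; omega
  have hc1 : rp[i + 1]? = some rp[i + 1] := List.getElem?_eq_getElem hl
  obtain ⟨hc2, hc3⟩ := h.rep hc1
  have h1 := h.mx hb1 hc1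
  have h2 := h.same hx hb2 ax hb3
  have h3 : ¬ SR G O x rp[i + 1] := fun h4 => h1 (h2.symm.trans h4)
  have h4 : i + 1 < j := by
    rcases Nat.lt_or_ge (i + 1) j with g | g
    · exact g
    · have e : i + 1 = j := by omega
      exact absurd (hr.trans (h.same hy (by rw [← e]; exact hc2) _ay hc3)) h3
  exact ⟨rp[i + 1], hc3, h3, inS_lt h.nd hx hc2 (by omega), inS_lt h.nd hc2 hy h4, inS_mem hc2⟩

end

end Pool.Agent.SOK
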