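import Pool.Agent.SOK.Vo

/-! Project SOK, module ExtG: the graph with one new vertex, adjacent to the members of a list. -/

set_option autoImplicit false

namespace Pool.Agent.SOK

open Pool.Agent.SOC Pool.Agent.SOD Pool.Agent.SOV

/-- the graph with one new vertex, adjacent to the members of `B` -/
def extG {V : Type} (G : SimpleGraph V) (B : List V) : SimpleGraph (Option V) where
  Adj x y := match x, y with
    | some a, some b => G.Adj a b
    | none, some b => b ∈ B
    | some a, none => a ∈ B
    | none, none => False
  symm := ⟨by
    rintro (_ | a) (_ | b) h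
    · exact h
    · exact h
    · exact h
    · exact SimpleGraph.Adj.symm h⟩
  loopless := ⟨by
    rintro (_ | a) h
    · exact h
    · exact G.loopless.irrefl a h⟩

/-- order with the new vertex before `B` -/
def ctx1 {V : Type} (L B : List V) : List (Option V) := L.map some ++ (none :: B.map some)

/-- order with the new vertex after `B` -/
def ctx2 {V : Type} (L B : List V) : List (Option V) := L.map some ++ (B.map some ++ [none])

section
variable {M : List (List Bool)} {B : List ℕ}

theorem row_ext {i : ℕ} (hi : i < M.length) :
    (ext M B).getD i [] = (List.range M.length).map fun j => adjB M i j := by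
  unfold ext
  have h1 : i < ((List.range M.length).map fun i => (List.range M.length).map fun j => adjB M i j).length := by
    rw [List.length_map, List.length_range]; exact hi
  rw [List.getD_append _ _ _ _ h1, List.getD_eq_getElem _ _ h1, List.getElem_map, List.getElem_range]

theorem row_ext_n : (ext M B).getD M.length [] = (List.range M.length).map fun i => decide (i ∈ B) := by
  unfold ext
  rw [List.getD_append_right _ _ _ _ (by rw [List.length_map, List.length_range])]
  simp only [List.length_map, List.length_range, Nat.sub_self, List.getD_cons_zero]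

theorem getD_map_range {f : ℕ → Bool} {n j : ℕ} (hj : j < n) : ((List.range n).map f).getD j false = f j := by
  have h1 : j < ((List.range n).map f).length := by rw [List.length_map, List.length_range]; exact hj
  rw [List.getD_eq_getElem _ _ h1, List.getElem_map, List.getElem_range]

theorem entry_ext {i j : ℕ} (hi : i < M.length) (hj : j < M.length) :
    ((ext M B).getD i []).getD j false = adjB M i j := by
  rw [row_ext hi, getD_map_range hj]

theorem entry_ext_n {j : ℕ} (hj : j < M.length) : ((ext M B).getD M.length []).getD j false = decide (j ∈ B) := by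
  rw [row_ext_n, getD_map_range hj]

theorem entry_ext_r {i : ℕ} (hi : i < M.length) : ((ext M B).getD i []).getD M.length false = false := by
  rw [row_ext hi, List.getD_eq_default _ _ (by rw [List.length_map, List.length_range])]

theorem adjB_symm (M : List (List Bool)) (i j : ℕ) : adjB M i j = adjB M j i := by
  unfold adjB
  rw [Bool.or_comm]
  congr 1
  exact decide_eq_decide.2 ⟨fun h e => h e.symm, fun h e => h e.symm⟩

theorem adjB_ext {i j : ℕ} (hi : i < M.length) (hj : j < M.length) : adjB (ext M B) i j = adjB M i j := by
  have h : adjB (ext M B) i j = (decide (i ≠ j) && (adjB M i j || adjB M j i)) := by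
    conv_lhs => unfold adjB
    rw [entry_ext (B := B) hi hj, entry_ext (B := B) hj hi]
  rw [h, adjB_symm M j i, Bool.or_self]
  unfold adjB
  by_cases e : i = j
  · simp [e]
  · simp [e]

theorem adjB_ext_n {j : ℕ} (hj : j < M.length) : adjB (ext M B) M.length j = decide (j ∈ B) := by
  have e : M.length ≠ j := by omega
  unfold adjB
  rw [entry_ext_n (B := B) hj, entry_ext_r (B := B) hj]
  simp [e]

end

/-- the vertices of the extended graph as numbers -/
def fo (n : ℕ) : Option (Fin n) → ℕ
  | some i => i.val
  | none => n

theorem fo_inj {n : ℕ} : Function.Injective (fo n) := by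
  rintro (_ | a) (_ | b) h
  · rfl
  · have := b.2
    simp only [fo] at h
    omega
  · have := a.2
    simp only [fo] at h
    omega
  · simp only [fo] at h
    rw [Fin.ext h]

theorem fo_adj {M : List (List Bool)} {B : List (Fin M.length)} (x y : Option (Fin M.length)) :
    (extG (graphOf M) B).Adj x y ↔ (gN (ext M (B.map Fin.val))).Adj (fo M.length x) (fo M.length y) := by
  have hm : ∀ b : Fin M.length, b.val ∈ B.map Fin.val ↔ b ∈ B := fun b => by
    rw [List.mem_map]
    constructor
    · rintro ⟨c, hc, e⟩
      rwa [Fin.ext e] at hc
    · exact fun h => ⟨b, h, rfl⟩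
  have h0 : ∀ i j : ℕ, (gN (ext M (B.map Fin.val))).Adj i j ↔ adjB (ext M (B.map Fin.val)) i j = true :=
    fun i j => Iff.rfl
  rw [h0]
  rcases x with _ | a <;> rcases y with _ | b
  · simp only [fo]
    constructor
    · exact fun h => h.elim
    · intro h
      unfold adjB at h
      simp at h
  · simp only [fo]
    rw [adjB_ext_n b.2, decide_eq_true_eq, hm]
    exact Iff.rfl
  · simp only [fo]
    rw [adjB_symm, adjB_ext_n a.2, decide_eq_true_eq, hm]
    exact Iff.rfl
  · simp only [fo]
    rw [adjB_ext a.2 b.2]
    exact Iff.rfl

theorem val_ext {M : List (List Bool)} {B : List (Fin M.length)} {l : List (Option (Fin M.length))} (hl : l.Nodup) :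
    tOk (ext M (B.map Fin.val)) (l.map (fo M.length)) = true ↔ Val (extG (graphOf M) B) l := by
  rw [tOk_iff (hl.map fo_inj)]
  exact (Val_map (fun _ _ _ _ h => fo_inj h) fun a _ b _ => fo_adj a b).symm

theorem ctx1_map {n : ℕ} (L B : List (Fin n)) : (ctx1 L B).map (fo n) = L.map Fin.val ++ (n :: B.map Fin.val) := by
  unfold ctx1
  rw [List.map_append, List.map_cons, List.map_map, List.map_map]
  rfl

theorem ctx2_map {n : ℕ} (L B : List (Fin n)) : (ctx2 L B).map (fo n) = L.map Fin.val ++ (B.map Fin.val ++ [n]) := by
  unfold ctx2
  rw [List.map_append, List.map_append, List.map_map, List.map_map]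
  rfl

theorem ctx1_nodup {V : Type} {L B : List V} (h : (L ++ B).Nodup) : (ctx1 L B).Nodup := by
  have h1 : (L.map some ++ B.map some).Nodup := by
    rw [← List.map_append]
    exact h.map (Option.some_injective V)
  unfold ctx1
  rw [List.nodup_append] at h1 ⊢
  refine ⟨h1.1, List.nodup_cons.2 ⟨by simp, h1.2.1⟩, ?_⟩
  intro a ha b hb e
  rcases List.mem_cons.1 hb with h2 | h2
  · subst h2
    rw [e] at ha
    simp at ha
  · exact h1.2.2 a ha b h2 e

theorem ctx2_nodup {V : Type} {L B : List V} (h : (L ++ B).Nodup) : (ctx2 L B).Nodup := by
  have h1 : (L.map some ++ B.map some).Nodup := by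
    rw [← List.map_append]
    exact h.map (Option.some_injective V)
  unfold ctx2
  rw [← List.append_assoc, List.nodup_append]
  refine ⟨h1, List.nodup_singleton _, ?_⟩
  intro a ha b hb e
  rw [List.mem_singleton.1 hb] at e
  rw [e] at ha
  simp at ha

/-- the order without the new vertex -/
theorem val_of_ctx1 {V : Type} [DecidableEq V] {G : SimpleGraph V} {L B : List V} (h : (L ++ B).Nodup)
    (hv : Val (extG G B) (ctx1 L B)) : Val G (L ++ B) := by
  have h1 : Val (extG G B) ((L ++ B).map some) := by
    refine Val_sublist ?_ (ctx1_nodup h) hv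
    rw [List.map_append]
    exact List.Sublist.append (List.Sublist.refl _) (List.sublist_cons_self _ _)
  exact (Val_map (G := extG G B) (G' := G) (f := some) (l := L ++ B) (fun _ _ _ _ e => Option.some_injective V e)
    fun _ _ _ _ => Iff.rfl).2 h1

theorem val_of_ctx2 {V : Type} [DecidableEq V] {G : SimpleGraph V} {L B : List V} (h : (L ++ B).Nodup)
    (hv : Val (extG G B) (ctx2 L B)) : Val G (L ++ B) := by
  have h1 : Val (extG G B) ((L ++ B).map some) := by
    refine Val_sublist ?_ (ctx2_nodup h) hv
    rw [List.map_append]
    exact List.Sublist.append (List.Sublist.refl _) (List.sublist_append_left _ _)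
  exact (Val_map (G := extG G B) (G' := G) (f := some) (l := L ++ B) (fun _ _ _ _ e => Option.some_injective V e)
    fun _ _ _ _ => Iff.rfl).2 h1

end Pool.Agent.SOK
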