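import Pool.Agent.SOK.RepG
import Pool.Agent.SOK.TyDefs

/-! Project SOK, module Rule: the facts about cuts which are used, adjacency of attached vertices in different blocks. -/

set_option autoImplicit false

namespace Pool.Agent.SOK

open Pool.Agent.SOC Pool.Agent.SOD Pool.Agent.RUP Pool.Agent.SOF Pool.Agent.SOG Pool.Agent.SOV
open Pool.Agent.SOE (EPC)

variable {V : Type} {G : SimpleGraph V} {S : V → Prop}

/-- four blocks in the locked order -/
structure Lock (C : Cut V) (G : SimpleGraph V) (X : V → V → V → V → Prop) (p s q r : V) : Prop where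
  sp : C.S p
  ss : C.S s
  sq : ¬ C.S q
  sr : ¬ C.S r
  pq : G.Adj p q
  pr : G.Adj p r
  aq : G.Adj s q
  ar : ¬ G.Adj s r
  x : X s r p q
  cov : ∀ v, C.A v → C.K v p ∨ C.K v s ∨ C.K v q ∨ C.K v r

/-- the structure of the side `S` is not locked -/
def Unl1 (C : Cut V) (G : SimpleGraph V) (T : V → V → V → V → Prop) : Prop :=
  ∀ q p s x r, ¬ C.S q → ¬ C.S r → C.S p → C.S s → C.S x → G.Adj p r → ¬ G.Adj s r → ¬ T q x p s

/-- the structure of the other side is not locked -/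
def Unl2 (C : Cut V) (G : SimpleGraph V) (T : V → V → V → V → Prop) : Prop :=
  ∀ q p s x r, C.S q → C.S r → ¬ C.S p → ¬ C.S s → ¬ C.S x → G.Adj p r → ¬ G.Adj s r → ¬ T q x p s

/-- a cut between two intervals of an order, with maximal blocks -/
structure CutS [DecidableEq V] (C : Cut V) (G : SimpleGraph V) (s : List V) : Prop where
  en : IsEnum s
  ok : C.Ok (CrD s)
  bi : C.Bi G
  mx : Mx C G (CrD s)

/-- the adjacency of attached vertices in different blocks -/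
def RuleF : Prop := ∀ {V : Type} [DecidableEq V] {G : SimpleGraph V} {C : Cut V} {s : List V} {T : V → V → V → V → Prop},
  CutS C G s → EPC G {x | C.S x} → Half C G (CrD s) C.S T → ∀ {a b : V}, C.S a → C.S b → C.A a → C.A b → ¬ C.K a b →
    (G.Adj a b ↔ (¬ ∀ z, ¬ C.S z → (G.Adj a z ↔ G.Adj b z)) ∨ ∃ u, C.S u ∧ C.A u ∧
      (∀ z, ¬ C.S z → G.Adj u z → G.Adj a z) ∧ ∃ e, ¬ C.S e ∧ G.Adj a e ∧ ¬ G.Adj u e)

/-- there are at most five blocks -/
def SixF : Prop := ∀ {V : Type} [DecidableEq V] {G : SimpleGraph V} {C : Cut V} {s : List V} {T : V → V → V → V → Prop},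
  CutS C G s → EPC G {x | C.S x} → Half C G (CrD s) C.S T → ∀ x : ℕ → V, (∀ i < 6, C.S (x i) ∧ C.A (x i)) →
    (∀ i j k d, i < j → j < k → k < 6 → ¬ C.S d → CrD s (x i) (x k) (x j) d) →
    (∀ i, i + 1 < 6 → ∃ z, ¬ C.S z ∧ ¬ (G.Adj (x i) z ↔ G.Adj (x (i + 1)) z)) → False

/-- structures of the sides can be glued -/
def GlueF : Prop := ∀ {V : Type} [DecidableEq V] {G : SimpleGraph V} {C : Cut V} {s : List V}
  {T1 T2 : V → V → V → V → Prop}, CutS C G s → Mx (comp C) G (CrD s) → EPC G {x | C.S x} → Half C G (CrD s) C.S T1 →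
    Half C G (CrD s) (fun x => ¬ C.S x) T2 →
    (∀ p s' q r, Lock C G (CrD s) p s' q r → Unl1 C G T1 ∨ Unl2 C G T2) → ∃ T, QT G (CrD s) T

/-- one of the sides is not locked -/
def BothF : Prop := ∀ {V : Type} [DecidableEq V] {G : SimpleGraph V} {C : Cut V} {s : List V} {T : V → V → V → V → Prop},
  CutS C G s → Mx (comp C) G (CrD s) → EPC G {x | C.S x} → QT G (CrD s) T → ∀ {p s' q r : V},
    Lock C G (CrD s) p s' q r → Unl1 C G T ∨ Unl2 C G T

/-- attached vertices in different blocks are adjacent, unless they have the same row and this row is minimal -/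
def Rl (G : SimpleGraph V) (S : V → Prop) (a b : V) : Prop :=
  ¬ ((Sub G S a b ∧ Sub G S b a) ∧ ∀ z, S z → At G S z → ¬ Str G S a z)

theorem Sub.trans {a b c : V} (h : Sub G S a b) (h' : Sub G S b c) : Sub G S a c := fun z hz e => h' z hz (h z hz e)

theorem Str.congr {a a' z : V} (h : Sub G S a a') (hs : Str G S a z) : Str G S a' z := by
  obtain ⟨h1, w, hw, e, n⟩ := hs
  exact ⟨h1.trans h, w, hw, h w hw e, n⟩

/-- the rule depends only on the rows -/
theorem Rl_congr {a a' b b' : V} (ha : Sub G S a a') (ha' : Sub G S a' a) (hb : Sub G S b b') (hb' : Sub G S b' b) :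
    Rl G S a b ↔ Rl G S a' b' := by
  unfold Rl
  refine not_congr ⟨?_, ?_⟩
  · rintro ⟨⟨h1, h2⟩, h3⟩
    exact ⟨⟨(ha'.trans h1).trans hb, (hb'.trans h2).trans ha⟩, fun z hz hA hs => h3 z hz hA (hs.congr ha')⟩
  · rintro ⟨⟨h1, h2⟩, h3⟩
    exact ⟨⟨(ha.trans h1).trans hb', (hb.trans h2).trans ha'⟩, fun z hz hA hs => h3 z hz hA (hs.congr ha)⟩

/-- the facts about one side -/
structure Ax1 [DecidableEq V] (G : SimpleGraph V) (S : V → Prop) : Prop where
  cls : ∀ {C : Cut V} {s : List V} {T : V → V → V → V → Prop}, C.S = S → CutS C G s → Half C G (CrD s) C.S T →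
    ∀ {a b : V}, C.S a → C.S b → C.A a → C.A b → ¬ C.K a b → (G.Adj a b ↔ Rl G S a b)
  cnt : ∀ {C : Cut V} {s : List V} {T : V → V → V → V → Prop}, C.S = S → CutS C G s → QT G (CrD s) T →
    ∀ l : List V, (∀ x ∈ l, C.S x ∧ C.A x) → (∀ a b c, [a, b, c].Sublist l → ∀ z, ¬ C.S z → CrD s a c b z) →
      l.IsChain (fun a b => ¬ (Sub G S a b ∧ Sub G S b a)) → l.length ≤ 5

/-- the blocks on the other side are single vertices -/
def sng (C : Cut V) : Cut V := ⟨C.S, C.A, C.B, fun x y => (C.S x ∧ C.K x y) ∨ (¬ C.S x ∧ C.A x ∧ x = y)⟩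

theorem sng_ok {C : Cut V} {X : V → V → V → V → Prop} (h : C.Ok X) : (sng C).Ok X where
  sepr := h.sepr
  int := h.int
  kS := by
    rintro a b (⟨_, h1⟩ | ⟨h1, _⟩) ha
    · exact h.kS h1 ha
    · exact absurd ha h1
  kA := by
    rintro a b (⟨_, h1⟩ | ⟨_, h1, _⟩)
    · exact h.kA h1
    · exact h1
  kB := by
    rintro a b (⟨_, h1⟩ | ⟨_, _, rfl⟩) hb
    · exact h.kB h1 hb
    · exact hb
  ksym := by
    rintro a b (⟨h0, h1⟩ | ⟨h0, h1, rfl⟩)
    · exact Or.inl ⟨h.kS h1 h0, h.ksym h1⟩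
    · exact Or.inr ⟨h0, h1, rfl⟩
  ktr := by
    rintro a b c (⟨h0, h1⟩ | ⟨h0, h1, rfl⟩) (⟨h2, h3⟩ | ⟨h2, h3, rfl⟩)
    · exact Or.inl ⟨h0, h.ktr h1 h3⟩
    · exact absurd (h.kS h1 h0) h2
    · exact absurd h2 h0
    · exact Or.inr ⟨h0, h1, rfl⟩
  kb := by
    rintro a b c d (⟨_, h1⟩ | ⟨h0, _⟩) hc ha hcS hd hx
    · exact Or.inl ⟨ha, h.kb h1 hc ha hcS hd hx⟩
    · exact absurd ha h0
  kb' := by
    rintro a b c d (⟨h0, _⟩ | ⟨_, _, rfl⟩) hc ha hcS hd hx
    · exact absurd h0 ha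
    · exact absurd rfl (h.sepr.dist hx).1

theorem sng_bi {C : Cut V} (h : C.Bi G) : (sng C).Bi G where
  xa := h.xa
  bi := by
    rintro a b c (⟨_, h1⟩ | ⟨h0, _⟩) ha hc e
    · exact h.bi h1 ha hc e
    · exact absurd ha h0
  bi' := by
    rintro a b c (⟨h0, _⟩ | ⟨_, _, rfl⟩) ha hc e
    · exact absurd h0 ha
    · exact e

theorem sng_mx {C : Cut V} {X : V → V → V → V → Prop} (h : Mx C G X) : Mx (sng C) G X where
  refl := by
    intro a ha
    by_cases h0 : C.S a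
    · exact Or.inl ⟨h0, h.refl ha⟩
    · exact Or.inr ⟨h0, ha, rfl⟩
  at1 := h.at1
  at2 := h.at2
  mx := fun ha hb hA hB hk hr => h.mx ha hb hA hB (fun k => hk (Or.inl ⟨ha, k⟩)) hr

/-- a structure of the whole graph gives a structure of the side -/
theorem sng_half {C : Cut V} {X T : V → V → V → V → Prop} (hc : C.Ok X) (h : QT G X T) :
    Half (sng C) G X C.S fun a b c d => ((C.S a ∨ C.A a) ∧ (C.S b ∨ C.A b) ∧ (C.S c ∨ C.A c) ∧ (C.S d ∨ C.A d)) ∧
      T a b c d where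
  swap₁ := fun ⟨⟨h1, h2, h3, h4⟩, h5⟩ => ⟨⟨h2, h1, h3, h4⟩, h.swap₁ h5⟩
  swap₂ := fun ⟨⟨h1, h2, h3, h4⟩, h5⟩ => ⟨⟨h3, h4, h1, h2⟩, h.swap₂ h5⟩
  ne := fun ⟨_, h5⟩ => h.ne h5
  adj := fun ⟨_, h5⟩ => h.adj h5
  nocross := fun ⟨_, h5⟩ => h.nocross h5
  att := fun ⟨⟨h1, _⟩, _⟩ => h1
  d1 := by
    rintro a b c d ⟨_, h5⟩ ha hb (⟨h0, _⟩ | ⟨_, _, rfl⟩)
    · exact ha h0
    · exact h.ne h5 rfl
  d2 := by
    rintro a b c d ⟨_, h5⟩ ha hb (⟨h0, _⟩ | ⟨_, _, rfl⟩)
    · exact ha h0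
    · exact (h.adj h5).ne rfl
  nb := by
    rintro a b c d ⟨_, h5⟩ ⟨_, h6⟩
    exact h.notboth (h.swap₂ (h.swap₁ (h.swap₂ h5))) h6
  some := by
    intro a b c d ac bd hx ha hb hcc hd _ _ _ _ _ _
    have ab := (hc.sepr.dist hx).2
    have cb := (hc.sepr.dist (hc.sepr.swap hx)).2
    have ad := (hc.sepr.dist (hc.sepr.comm (hc.sepr.swap (hc.sepr.comm hx)))).2
    have cd := (hc.sepr.dist (hc.sepr.swap (hc.sepr.comm (hc.sepr.swap (hc.sepr.comm hx))))).2
    rcases h.some ac bd ab ad cb.symm cd hx with h1 | h1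
    · exact Or.inl ⟨⟨ha, hb, hcc, hd⟩, h1⟩
    · exact Or.inr ⟨⟨ha, hd, hb, hcc⟩, h1⟩
  trans := fun xz _ ⟨⟨h1, h2, h3, _⟩, h5⟩ ⟨⟨_, _, _, h6⟩, h7⟩ => ⟨⟨h1, h2, h3, h6⟩, h.trans h5 h7 xz⟩
  ferrers := by
    rintro a b x y x' y' ⟨⟨h1, h2, h3, h4⟩, h5⟩ ⟨⟨_, g2, _, g4⟩, h7⟩
    rcases h.ferrers h5 h7 with h8 | h8
    · exact Or.inl ⟨⟨h1, h2, h3, g4⟩, h8⟩
    · exact Or.inr ⟨⟨h1, g2, h3, h4⟩, h8⟩
  inv := by
    rintro a b c d e hd (⟨h0, _⟩ | ⟨_, _, rfl⟩) ht
    · exact absurd h0 hd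
    · exact ht

theorem sng_s [DecidableEq V] {C : Cut V} {s : List V} (h : CutS C G s) : CutS (sng C) G s :=
  ⟨h.en, sng_ok h.ok, sng_bi h.bi, sng_mx h.mx⟩

/-- the class rule for a structure of the whole graph -/
theorem Ax1.clsQ [DecidableEq V] (h : Ax1 G S) {C : Cut V} {s : List V} {T : V → V → V → V → Prop} (hS : C.S = S)
    (hc : CutS C G s) (hT : QT G (CrD s) T) {a b : V} (ha : C.S a) (hb : C.S b) (hA : C.A a) (hB : C.A b)
    (hk : ¬ C.K a b) : G.Adj a b ↔ Rl G S a b :=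
  h.cls (C := sng C) hS (sng_s hc) (sng_half hc.ok hT) ha hb hA hB
    (by
      rintro (⟨_, k⟩ | ⟨k, _⟩)
      · exact hk k
      · exact k ha)

theorem sub3 {l : List V} {i j k : ℕ} {a b c : V} (hij : i < j) (hjk : j < k) (ha : l[i]? = some a)
    (hb : l[j]? = some b) (hc : l[k]? = some c) : [a, b, c].Sublist l := by
  obtain ⟨h1, e1⟩ := List.getElem?_eq_some_iff.1 ha
  obtain ⟨h2, e2⟩ := List.getElem?_eq_some_iff.1 hb
  obtain ⟨h3, e3⟩ := List.getElem?_eq_some_iff.1 hc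
  rw [List.sublist_iff_exists_fin_orderEmbedding_get_eq]
  refine ⟨OrderEmbedding.ofStrictMono (fun x : Fin 3 => match x with
    | 0 => ⟨i, h1⟩
    | 1 => ⟨j, h2⟩
    | 2 => ⟨k, h3⟩) ?_, ?_⟩
  · intro x y hxy
    fin_cases x <;> fin_cases y <;> simp_all [Fin.lt_def] <;> omega
  · intro x
    fin_cases x
    · exact e1.symm
    · exact e2.symm
    · exact e3.symm

/-- the facts for one side of a cut -/
theorem ax1_of [DecidableEq V] (f1 : RuleF) (f2 : SixF) (hE : EPC G {x | S x}) : Ax1 G S where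
  cls := by
    rintro C s T rfl hc hT a b ha hb hA hB hk
    rw [f1 hc hE hT ha hb hA hB hk]
    unfold Rl
    constructor
    · rintro (h1 | ⟨u, h1, h2, h3, h4⟩) ⟨⟨g1, g2⟩, g3⟩
      · exact h1 fun z hz => ⟨g1 z hz, g2 z hz⟩
      · exact g3 u h1 (hc.mx.at1 h1 h2) ⟨h3, h4⟩
    · intro h
      by_contra hn
      rw [not_or, not_not] at hn
      obtain ⟨g1, g2⟩ := hn
      refine h ⟨⟨fun z hz => (g1 z hz).1, fun z hz => (g1 z hz).2⟩, ?_⟩
      rintro z hz ⟨w, hw, e⟩ ⟨h3, h4⟩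
      exact g2 ⟨z, hz, (hc.bi.xa hz hw e).1, h3, h4⟩
  cnt := by
    rintro C s T rfl hc hT l hl h3 hch
    by_contra hlen
    have hlen' : 6 ≤ l.length := by omega
    obtain ⟨x0, hx0⟩ : ∃ x, x ∈ l := by
      cases l with
      | nil => exact absurd hlen' (by simp)
      | cons a l => exact ⟨a, List.mem_cons_self⟩
    have get : ∀ i, i < 6 → l[i]? = some (l.getD i x0) := by
      intro i hi
      rw [List.getD_eq_getElem _ _ (by omega)]
      exact List.getElem?_eq_getElem (by omega)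
    refine f2 (sng_s hc) hE (sng_half hc.ok hT) (fun i => l.getD i x0) ?_ ?_ ?_
    · intro i hi
      exact hl _ (List.mem_of_getElem? (get i hi))
    · intro i j k d hij hjk hk hd
      exact h3 _ _ _ (sub3 hij hjk (get i (by omega)) (get j (by omega)) (get k hk)) d hd
    · intro i hi
      by_contra hn
      push Not at hn
      rw [List.isChain_iff_getElem] at hch
      have h4 := hch i (by omega)
      have e1 := get i (by omega)
      have e2 := get (i + 1) hi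
      rw [List.getElem?_eq_getElem (by omega)] at e1 e2
      rw [Option.some.inj e1, Option.some.inj e2] at h4
      exact h4 ⟨fun z hz => (hn z hz).1, fun z hz => (hn z hz).2⟩

end Pool.Agent.SOK
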