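import Pool.Agent.SOK.GadO
import Pool.Agent.SOK.Rule

/-! Project SOK, module GadE: if the structure is not locked, then there is a structure with the gadget. -/

set_option autoImplicit false

namespace Pool.Agent.SOK

open Pool.Agent.SOC Pool.Agent.SOD Pool.Agent.RUP Pool.Agent.SOF Pool.Agent.SOG Pool.Agent.SOV Pool.Agent.SOS

variable {V : Type} [DecidableEq V] {G : SimpleGraph V}

/-- the situation of the lock, for the list `m` of the members of `L` and of `q`, `r` -/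
structure GHyp (G : SimpleGraph V) (L : List V) (q r s : V) (m : List V) (T : V → V → V → V → Prop) : Prop where
  vl : Vl G m T
  memm : ∀ x, x ∈ m ↔ x ∈ L ∨ x = q ∨ x = r
  qL : q ∉ L
  rL : r ∉ L
  sL : s ∈ L
  sq : G.Adj s q
  sr : ¬ G.Adj s r
  row : ∀ x ∈ L, G.Adj x r → G.Adj x q
  adj : ∀ x ∈ L, G.Adj x r → G.Adj s x
  o1 : ∀ a s', a ∈ L → G.Adj a r → s' ∈ L → G.Adj s' q → ¬ G.Adj s' r → Cross m a q r s'
  o2 : ∀ a a', a ∈ L → a' ∈ L → G.Adj a r → G.Adj a' r → a ≠ a' →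
    (Cross m s a' a r ∧ Cross m s a' a q) ∨ (Cross m s a a' r ∧ Cross m s a a' q)
  unl : ∀ p s x, p ∈ L → s ∈ L → x ∈ L → G.Adj p r → ¬ G.Adj s r → ¬ T q x p s

theorem GHyp.main {L : List V} {q r s : V} {m : List V} {T : V → V → V → V → Prop} (h : GHyp G L q r s m T)
    {a a' : V} (ha : a ∈ L) (ha' : a' ∈ L) (ar : G.Adj a r) (ar' : G.Adj a' r) (hne : a ≠ a')
    (x1 : Cross m s a' a r) (x2 : Cross m s a' a q) : T q r a a' := by
  have mL : ∀ {x}, x ∈ L → x ∈ m := fun hx => (h.memm _).2 (Or.inl hx)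
  have mq : q ∈ m := (h.memm _).2 (Or.inr (Or.inl rfl))
  have mr : r ∈ m := (h.memm _).2 (Or.inr (Or.inr rfl))
  have sa : s ≠ a := fun e => h.sr (e ▸ ar)
  have sne : s ≠ r := fun e => h.rL (e ▸ h.sL)
  have snq : s ≠ q := fun e => h.qL (e ▸ h.sL)
  have qr : q ≠ r := fun e => h.sr (e ▸ h.sq)
  have sw : ∀ {a b c d}, T a b c d → T a b d c := fun h' => h.vl.swap₂ (h.vl.swap₁ (h.vl.swap₂ h'))
  have e1 : (restr G {v | v ∈ m}).Adj s a' := ⟨h.adj a' ha' ar', mL h.sL, mL ha'⟩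
  have e2 : (restr G {v | v ∈ m}).Adj a r := ⟨ar, mL ha, mr⟩
  have e3 : (restr G {v | v ∈ m}).Adj a q := ⟨h.row a ha ar, mL ha, mq⟩
  have t1 : T s r a a' := by
    rcases h.vl.some e1 e2 sa sne hne ar'.ne x1 with t | t
    · exact absurd (Vl.sq h.vl t).2.2.2.1 h.sr
    · exact t
  have t2 : T s q a a' := by
    rcases h.vl.some e1 e3 sa snq hne (h.row a' ha' ar').ne x2 with t | t
    · exact absurd (sw (h.vl.swap₁ (h.vl.swap₂ t))) (h.unl a s a' ha h.sL ha' ar h.sr)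
    · exact t
  have t3 := h.vl.trans (sw (h.vl.swap₂ t1)) (h.vl.swap₂ t2) qr.symm
  exact h.vl.swap₂ (sw t3)

/-- the structure with the gadget -/
theorem GHyp.gad {L : List V} {q r s : V} {m : List V} {T : V → V → V → V → Prop} (h : GHyp G L q r s m T)
    {l : List (Option V)} (ho : GOrd L q r l m) {B : List V} (hB : ∀ x, x ∈ B ↔ x = q ∨ x = r) : Val (extG G B) l := by
  refine ⟨_, gad_qt (P := fun x => x ∈ L ∧ G.Adj x r) ho h.vl hB (fun x => Iff.rfl) (fun x hx => h.row x hx.1 hx.2) ?_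
    ?_ ?_⟩
  · intro a a' ha ha' hne
    rcases h.o2 a a' ha.1 ha'.1 ha.2 ha'.2 hne with ⟨x1, x2⟩ | ⟨x1, x2⟩
    · exact h.main ha.1 ha'.1 ha.2 ha'.2 hne x1 x2
    · exact h.vl.swap₂ (h.vl.swap₁ (h.vl.swap₂ (h.main ha'.1 ha.1 ha'.2 ha.2 hne.symm x1 x2)))
  · exact fun p s x hp hs hx ne => h.unl p s x hp.1 hs hx hp.2 ne
  · exact fun a s ha hs e ne => h.o1 a s ha.1 ha.2 hs e ne

end Pool.Agent.SOK
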