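import Pool.Agent.SOK.GadX

/-! Project SOK, module GadO: the two orders with the gadget. -/

set_option autoImplicit false

namespace Pool.Agent.SOK

open Pool.Agent.SOC Pool.Agent.SOD Pool.Agent.RUP Pool.Agent.SOF Pool.Agent.SOG Pool.Agent.SOV Pool.Agent.SOS

variable {V V' : Type} [DecidableEq V] [DecidableEq V'] {G : SimpleGraph V}

/-- positions -/
theorem idx3 {K : List V'} {a b c : V'} (h : (K ++ [a, b, c]).Nodup) :
    (∀ x ∈ K, (K ++ [a, b, c]).idxOf x < K.length) ∧ (K ++ [a, b, c]).idxOf a = K.length ∧
      (K ++ [a, b, c]).idxOf b = K.length + 1 ∧ (K ++ [a, b, c]).idxOf c = K.length + 2 := by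
  rw [List.nodup_append] at h
  obtain ⟨_, h2, h3⟩ := h
  have nL : ∀ y ∈ [a, b, c], y ∉ K := fun y hy hL => h3 y hL y hy rfl
  simp only [List.nodup_cons, List.mem_cons, List.not_mem_nil, or_false, not_or, not_false_eq_true, List.nodup_nil,
    and_true] at h2
  refine ⟨fun x hx => ?_, ?_, ?_, ?_⟩
  · rw [List.idxOf_append_of_mem hx]
    exact List.idxOf_lt_length_iff.2 hx
  · rw [List.idxOf_append_of_notMem (nL a (by simp)), List.idxOf_cons_self]
    omega
  · rw [List.idxOf_append_of_notMem (nL b (by simp)), List.idxOf_cons_ne _ h2.1.1, List.idxOf_cons_self]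
  · rw [List.idxOf_append_of_notMem (nL c (by simp)), List.idxOf_cons_ne _ h2.1.2, List.idxOf_cons_ne _ h2.2,
      List.idxOf_cons_self]

/-- positions -/
theorem idx2 {K : List V'} {a b : V'} (h : (K ++ [a, b]).Nodup) :
    (∀ x ∈ K, (K ++ [a, b]).idxOf x = K.idxOf x ∧ K.idxOf x < K.length) ∧ (K ++ [a, b]).idxOf a = K.length ∧
      (K ++ [a, b]).idxOf b = K.length + 1 := by
  rw [List.nodup_append] at h
  obtain ⟨_, h2, h3⟩ := h
  have nL : ∀ y ∈ [a, b], y ∉ K := fun y hy hL => h3 y hL y hy rfl
  simp only [List.nodup_cons, List.mem_cons, List.not_mem_nil, or_false, not_false_eq_true, List.nodup_nil,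
    and_true] at h2
  refine ⟨fun x hx => ?_, ?_, ?_⟩
  · rw [List.idxOf_append_of_mem hx]
    exact ⟨rfl, List.idxOf_lt_length_iff.2 hx⟩
  · rw [List.idxOf_append_of_notMem (nL a (by simp)), List.idxOf_cons_self]
    omega
  · rw [List.idxOf_append_of_notMem (nL b (by simp)), List.idxOf_cons_ne _ h2, List.idxOf_cons_self]

theorem cr_sub {l : List (Option V)} {m : List V} (hs : (m.map some).Sublist l) (hl : l.Nodup) {a b c d : V}
    (ha : a ∈ m) (hb : b ∈ m) (hc : c ∈ m) (hd : d ∈ m) :
    Cross l (some a) (some b) (some c) (some d) ↔ Cross m a b c d := by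
  refine (cross_of_lt (l := l) (l' := m) (f := some) (S := {v | v ∈ m}) ?_ ha hb hc hd).symm
  intro a ha b hb
  rw [← idxOf_map_of (f := some) (fun _ _ _ _ e => Option.some.inj e) ha,
    ← idxOf_map_of (f := some) (fun _ _ _ _ e => Option.some.inj e) hb]
  exact idxOf_sublist hs hl (List.mem_map_of_mem ha) (List.mem_map_of_mem hb)

theorem gord1 {L : List V} {q r : V} (h : (L ++ [r, q]).Nodup) : GOrd L q r (ctx1 L [r, q]) (L ++ [r, q]) := by
  have hl := ctx1_nodup h
  obtain ⟨i1, i2, i3, i4⟩ := idx3 (K := L.map some) (a := none) (b := some r) (c := some q) hl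
  have h0 := List.nodup_append.1 h
  have iL : ∀ {x : V}, x ∈ L → _ := fun {x} hx => i1 (some x) (List.mem_map_of_mem hx)
  have hqr : q ≠ r := by
    have h1 := h0.2.1
    simp only [List.nodup_cons, List.mem_cons, List.not_mem_nil, or_false, not_false_eq_true, List.nodup_nil,
      and_true] at h1
    exact fun e => h1 e.symm
  have mm : ∀ x, x ∈ L ++ [r, q] ↔ x ∈ L ∨ x = q ∨ x = r := by
    intro x
    simp [or_comm]
  refine ⟨by simp [ctx1], by intro x; simp [ctx1], mm, ?_, ?_, ?_, ?_, ?_, ?_, hqr⟩
  · intro a b c d ha hb hc hd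
    refine cr_sub ?_ hl ha hb hc hd
    rw [List.map_append]
    exact List.Sublist.append (List.Sublist.refl _) (List.sublist_cons_self _ _)
  · intro a ha hx
    have e := iL ha
    change Cross (L.map some ++ [none, some r, some q]) none (some a) (some q) (some r) at hx
    unfold Cross SOC.Btw at hx
    omega
  · intro b d hb hd nb nd hx
    change Cross (L.map some ++ [none, some r, some q]) none (some q) (some b) (some d) at hx
    rcases (mm b).1 hb with h1 | rfl | rfl
    · rcases (mm d).1 hd with h2 | rfl | rfl
      · exfalso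
        have e1 := iL h1
        have e2 := iL h2
        unfold Cross SOC.Btw at hx
        omega
      · exact absurd rfl nd
      · exact Or.inr ⟨rfl, h1⟩
    · exact absurd rfl nb
    · rcases (mm d).1 hd with h2 | rfl | rfl
      · exact Or.inl ⟨rfl, h2⟩
      · exact absurd rfl nd
      · exfalso
        unfold Cross SOC.Btw at hx
        omega
  · intro b d hb hd nb nd hx
    change Cross (L.map some ++ [none, some r, some q]) none (some r) (some b) (some d) at hx
    rcases (mm b).1 hb with h1 | rfl | rfl
    · have e1 := iL h1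
      rcases (mm d).1 hd with h2 | rfl | rfl
      · have e2 := iL h2
        unfold Cross SOC.Btw at hx
        omega
      · unfold Cross SOC.Btw at hx
        omega
      · exact absurd rfl nd
    · rcases (mm d).1 hd with h2 | rfl | rfl
      · have e2 := iL h2
        unfold Cross SOC.Btw at hx
        omega
      · unfold Cross SOC.Btw at hx
        omega
      · exact absurd rfl nd
    · exact absurd rfl nb
  · exact fun hq => h0.2.2 q hq q (by simp) rfl
  · exact fun hq => h0.2.2 r hq r (by simp) rfl

theorem gord2 {L : List V} {q r : V} (h : (L ++ [q, r]).Nodup) : GOrd L q r (ctx2 L [q, r]) (L ++ [q, r]) := by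
  have hl := ctx2_nodup h
  obtain ⟨i1, i2, i3, i4⟩ := idx3 (K := L.map some) (a := some q) (b := some r) (c := none) hl
  have h0 := List.nodup_append.1 h
  have iL : ∀ {x : V}, x ∈ L → _ := fun {x} hx => i1 (some x) (List.mem_map_of_mem hx)
  have hqr : q ≠ r := by
    have h1 := h0.2.1
    simp only [List.nodup_cons, List.mem_cons, List.not_mem_nil, or_false, not_false_eq_true, List.nodup_nil,
      and_true] at h1
    exact fun e => h1 e
  have mm : ∀ x, x ∈ L ++ [q, r] ↔ x ∈ L ∨ x = q ∨ x = r := by
    intro x
    simp
  refine ⟨by simp [ctx2], by intro x; simp [ctx2], mm, ?_, ?_, ?_, ?_, ?_, ?_, hqr⟩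
  · intro a b c d ha hb hc hd
    refine cr_sub ?_ hl ha hb hc hd
    rw [List.map_append]
    exact List.Sublist.append (List.Sublist.refl _) (List.sublist_append_left _ _)
  · intro a ha hx
    have e := iL ha
    change Cross (L.map some ++ [some q, some r, none]) none (some a) (some q) (some r) at hx
    unfold Cross SOC.Btw at hx
    omega
  · intro b d hb hd nb nd hx
    change Cross (L.map some ++ [some q, some r, none]) none (some q) (some b) (some d) at hx
    rcases (mm b).1 hb with h1 | rfl | rfl
    · rcases (mm d).1 hd with h2 | rfl | rfl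
      · exfalso
        have e1 := iL h1
        have e2 := iL h2
        unfold Cross SOC.Btw at hx
        omega
      · exact absurd rfl nd
      · exact Or.inr ⟨rfl, h1⟩
    · exact absurd rfl nb
    · rcases (mm d).1 hd with h2 | rfl | rfl
      · exact Or.inl ⟨rfl, h2⟩
      · exact absurd rfl nd
      · exfalso
        unfold Cross SOC.Btw at hx
        omega
  · intro b d hb hd nb nd hx
    change Cross (L.map some ++ [some q, some r, none]) none (some r) (some b) (some d) at hx
    rcases (mm b).1 hb with h1 | rfl | rfl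
    · have e1 := iL h1
      rcases (mm d).1 hd with h2 | rfl | rfl
      · have e2 := iL h2
        unfold Cross SOC.Btw at hx
        omega
      · unfold Cross SOC.Btw at hx
        omega
      · exact absurd rfl nd
    · rcases (mm d).1 hd with h2 | rfl | rfl
      · have e2 := iL h2
        unfold Cross SOC.Btw at hx
        omega
      · unfold Cross SOC.Btw at hx
        omega
      · exact absurd rfl nd
    · exact absurd rfl nb
  · exact fun hq => h0.2.2 q hq q (by simp) rfl
  · exact fun hq => h0.2.2 r hq r (by simp) rfl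

end Pool.Agent.SOK
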