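import Pool.Agent.SOK.GadU

/-! Project SOK, module GadX: a structure with the gadget. -/

set_option autoImplicit false

namespace Pool.Agent.SOK

open Pool.Agent.SOC Pool.Agent.SOD Pool.Agent.RUP Pool.Agent.SOF Pool.Agent.SOG Pool.Agent.SOV Pool.Agent.SOS

variable {V V' : Type} [DecidableEq V] [DecidableEq V'] {G : SimpleGraph V}

omit [DecidableEq V] in
/-- the structure with the gadget -/
def gadT (P : V → Prop) (q r : V) (T : V → V → V → V → Prop) : Option V → Option V → Option V → Option V → Prop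
  | some a, some b, some c, some d => T a b c d
  | none, some b, some c, some d => P b ∧ ((c = q ∧ d = r) ∨ (c = r ∧ d = q))
  | some a, none, some c, some d => P a ∧ ((c = q ∧ d = r) ∨ (c = r ∧ d = q))
  | some a, some b, none, some d => P d ∧ ((a = q ∧ b = r) ∨ (a = r ∧ b = q))
  | some a, some b, some c, none => P c ∧ ((a = q ∧ b = r) ∨ (a = r ∧ b = q))
  | _, _, _, _ => False

/-- chords and distinct points -/
theorem cross_cm {l : List V'} {a b c d : V'} (hl : ∀ x ∈ l, ∀ y ∈ l, l.idxOf x = l.idxOf y → x = y) (ha : a ∈ l)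
    (hb : b ∈ l) (hc : c ∈ l) (hd : d ∈ l) (ac : a ≠ c) (ad : a ≠ d) (bc : b ≠ c) (bd : b ≠ d)
    (h : Cross l a b c d) : Cross l c d a b := by
  have h1 : l.idxOf a ≠ l.idxOf c := fun e => ac (hl a ha c hc e)
  have h2 : l.idxOf a ≠ l.idxOf d := fun e => ad (hl a ha d hd e)
  have h3 : l.idxOf b ≠ l.idxOf c := fun e => bc (hl b hb c hc e)
  have h4 : l.idxOf b ≠ l.idxOf d := fun e => bd (hl b hb d hd e)
  unfold Cross SOC.Btw at h ⊢
  omega

theorem cross_l {l : List V'} {a b c d : V'} (h : Cross l a b c d) : Cross l b a c d := by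
  unfold Cross SOC.Btw at h ⊢
  omega

theorem idx_inj {l : List V'} : ∀ x ∈ l, ∀ y ∈ l, l.idxOf x = l.idxOf y → x = y := fun _ hx _ _ e =>
  (List.idxOf_inj hx).1 e

/-- the conditions for the order -/
structure GOrd (L : List V) (q r : V) (l : List (Option V)) (m : List V) : Prop where
  nn : none ∈ l
  mem : ∀ x, some x ∈ l ↔ x ∈ m
  memm : ∀ x, x ∈ m ↔ x ∈ L ∨ x = q ∨ x = r
  cr : ∀ {a b c d}, a ∈ m → b ∈ m → c ∈ m → d ∈ m → (Cross l (some a) (some b) (some c) (some d) ↔ Cross m a b c d)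
  x1 : ∀ {a}, a ∈ L → ¬ Cross l none (some a) (some q) (some r)
  x2 : ∀ {b d}, b ∈ m → d ∈ m → b ≠ q → d ≠ q → Cross l none (some q) (some b) (some d) →
    (b = r ∧ d ∈ L) ∨ (d = r ∧ b ∈ L)
  x3 : ∀ {b d}, b ∈ m → d ∈ m → b ≠ r → d ≠ r → ¬ Cross l none (some r) (some b) (some d)
  qL : q ∉ L
  rL : r ∉ L
  qr : q ≠ r

theorem gad_qt {L B : List V} {q r : V} {l : List (Option V)} {m : List V} {P : V → Prop} {T : V → V → V → V → Prop}
    (ho : GOrd L q r l m) (hT : Vl G m T) (hB : ∀ x, x ∈ B ↔ x = q ∨ x = r) (hP : ∀ x, P x ↔ x ∈ L ∧ G.Adj x r)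
    (hPq : ∀ x, P x → G.Adj x q) (h1 : ∀ a a', P a → P a' → a ≠ a' → T q r a a')
    (h2 : ∀ p s x, P p → s ∈ L → x ∈ L → ¬ G.Adj s r → ¬ T q x p s)
    (h3 : ∀ a s, P a → s ∈ L → G.Adj s q → ¬ G.Adj s r → Cross m a q r s) : Vl (extG G B) l (gadT P q r T) := by
  have nq : ¬ P q := fun h => ho.qL ((hP q).1 h).1
  have nr : ¬ P r := fun h => ho.rL ((hP r).1 h).1
  have pr : ∀ {x}, P x → G.Adj x r := fun h => ((hP _).1 h).2
  have pL : ∀ {x}, P x → x ∈ L := fun h => ((hP _).1 h).1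
  have mP : ∀ {x}, P x → x ∈ m := fun h => (ho.memm _).2 (Or.inl (pL h))
  have mq : q ∈ m := (ho.memm _).2 (Or.inr (Or.inl rfl))
  have mr : r ∈ m := (ho.memm _).2 (Or.inr (Or.inr rfl))
  have bq : q ∈ B := (hB _).2 (Or.inl rfl)
  have br : r ∈ B := (hB _).2 (Or.inr rfl)
  have sm : ∀ {x}, x ∈ m → some x ∈ l := fun h => (ho.mem _).2 h
  have im : ∀ {x}, some x ∈ l → x ∈ m := fun h => (ho.mem _).1 h
  have nx1 : ∀ {a b c d : Option V}, a ∈ l → b ∈ l → c ∈ l → d ∈ l → a ≠ c → a ≠ d → b ≠ c → b ≠ d →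
      Cross l a b c d → Cross l c d a b := fun ha hb hc hd n1 n2 n3 n4 h => cross_cm idx_inj ha hb hc hd n1 n2 n3 n4 h
  have PT : ∀ {y z}, T q r y z → P y ∧ P z := by
    intro y z h
    obtain ⟨_, _, a1, a2, a3, a4⟩ := Vl.sq hT h
    obtain ⟨_, _, m3, m4⟩ := Vl.mem hT h
    refine ⟨(hP y).2 ⟨?_, a3.symm⟩, (hP z).2 ⟨?_, a4.symm⟩⟩
    · rcases (ho.memm y).1 m3 with e | rfl | rfl
      · exact e
      · exact absurd rfl a1.ne
      · exact absurd rfl a3.ne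
    · rcases (ho.memm z).1 m4 with e | rfl | rfl
      · exact e
      · exact absurd rfl a2.ne
      · exact absurd rfl a4.ne
  have sw : ∀ {a b c d}, T a b c d → T a b d c := fun h => hT.swap₂ (hT.swap₁ (hT.swap₂ h))
  have F1 : ∀ {a x' b y y' : V}, P a → ((b = q ∧ y = r) ∨ (b = r ∧ y = q)) → T a x' b y' → y' = y ∨ T a x' b y := by
    rintro a x' b y y' ha hby ht
    by_cases hy : y' = y
    · exact Or.inl hy
    refine Or.inr ?_
    obtain ⟨n1, n2, a1, a2, a3, a4⟩ := Vl.sq hT ht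
    obtain ⟨m1, m2, m3, m4⟩ := Vl.mem hT ht
    rcases hby with ⟨rfl, rfl⟩ | ⟨rfl, rfl⟩
    · have yL : y' ∈ L := by
        rcases (ho.memm y').1 m4 with e | rfl | rfl
        · exact e
        · exact absurd rfl n2
        · exact absurd rfl hy
      rcases (ho.memm x').1 m2 with e | rfl | rfl
      · by_cases hx : G.Adj x' y
        · have h4 := h1 a x' ha ((hP x').2 ⟨e, hx⟩) n1
          exact hT.swap₂ h4
        · exact absurd (hT.swap₂ ht) (h2 a x' y' ha e yL hx)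
      · exact absurd rfl a3.ne
      · have h4 := h1 a y' ha ((hP y').2 ⟨yL, a4.symm⟩) a2.ne
        exact absurd (sw (hT.swap₂ ht)) (hT.notboth h4)
    · have yL : y' ∈ L := by
        rcases (ho.memm y').1 m4 with e | rfl | rfl
        · exact e
        · exact absurd rfl hy
        · exact absurd rfl n2
      rcases (ho.memm x').1 m2 with e | rfl | rfl
      · have h4 := h1 a x' ha ((hP x').2 ⟨e, a3⟩) n1
        exact sw (hT.swap₂ h4)
      · by_cases hyr : G.Adj y' b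
        · have h4 := h1 a y' ha ((hP y').2 ⟨yL, hyr⟩) a2.ne
          exact absurd (hT.swap₁ ht) (hT.notboth (sw h4))
        · exact absurd (h3 a y' ha yL a4.symm hyr) (hT.nocross ht)
      · exact absurd rfl a3.ne
  refine ⟨?_, ?_, ?_, ?_, ?_, ?_, ?_, ?_, ?_⟩
  · rintro (_ | a) (_ | b) (_ | c) (_ | d) h <;> first | exact h.elim | exact h | exact hT.swap₁ h | exact ⟨h.1, h.2.symm.imp And.symm And.symm⟩
  · rintro (_ | a) (_ | b) (_ | c) (_ | d) h <;> first | exact h.elim | exact h | exact hT.swap₂ h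
  · rintro (_ | a) (_ | b) (_ | c) (_ | d) h <;> first | exact h.elim | simp | skip
    · rcases h.2 with ⟨rfl, rfl⟩ | ⟨rfl, rfl⟩
      · exact ho.qr
      · exact ho.qr.symm
    · rcases h.2 with ⟨rfl, rfl⟩ | ⟨rfl, rfl⟩
      · exact ho.qr
      · exact ho.qr.symm
    · exact hT.ne h
  · rintro (_ | a) (_ | b) (_ | c) (_ | d) h <;> first | exact h.elim | skip
    · rcases h.2 with ⟨rfl, rfl⟩ | ⟨rfl, rfl⟩
      · exact ⟨bq, ho.nn, sm mq⟩
      · exact ⟨br, ho.nn, sm mr⟩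
    · rcases h.2 with ⟨rfl, rfl⟩ | ⟨rfl, rfl⟩
      · exact ⟨hPq _ h.1, sm (mP h.1), sm mq⟩
      · exact ⟨pr h.1, sm (mP h.1), sm mr⟩
    · rcases h.2 with ⟨rfl, rfl⟩ | ⟨rfl, rfl⟩
      · exact ⟨bq, sm mq, ho.nn⟩
      · exact ⟨br, sm mr, ho.nn⟩
    · rcases h.2 with ⟨rfl, rfl⟩ | ⟨rfl, rfl⟩
      · exact ⟨(hPq _ h.1).symm, sm mq, sm (mP h.1)⟩
      · exact ⟨(pr h.1).symm, sm mr, sm (mP h.1)⟩
    · exact ⟨(hT.adj h).1, sm (hT.adj h).2.1, sm (hT.adj h).2.2⟩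
  · -- nocross
    have fx : ∀ {a : V}, P a → ¬ Cross l none (some a) (some q) (some r) := fun h => ho.x1 (pL h)
    have fx2 : ∀ {a : V}, P a → ¬ Cross l none (some a) (some r) (some q) := fun h h' => ho.x1 (pL h) fun h3 => h' h3.symm
    have g : ∀ {a c d : V}, P a → ((c = q ∧ d = r) ∨ (c = r ∧ d = q)) → ¬ Cross l none (some a) (some c) (some d) := by
      rintro a c d ha (⟨rfl, rfl⟩ | ⟨rfl, rfl⟩)
      · exact fx ha
      · exact fx2 ha
    have g' : ∀ {a c d : V}, P a → ((c = q ∧ d = r) ∨ (c = r ∧ d = q)) → ¬ Cross l (some c) (some d) none (some a) := by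
      intro a c d ha hcd hx
      have hc : c ∈ m := by rcases hcd with ⟨rfl, rfl⟩ | ⟨rfl, rfl⟩ <;> assumption
      have hd : d ∈ m := by rcases hcd with ⟨rfl, rfl⟩ | ⟨rfl, rfl⟩ <;> assumption
      have ca : c ≠ a := by rintro rfl; rcases hcd with ⟨rfl, rfl⟩ | ⟨rfl, rfl⟩ <;> contradiction
      have da : d ≠ a := by rintro rfl; rcases hcd with ⟨rfl, rfl⟩ | ⟨rfl, rfl⟩ <;> contradiction
      exact g ha hcd (nx1 (sm hc) (sm hd) ho.nn (sm (mP ha)) (by simp) (by simpa using ca) (by simp)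
        (by simpa using da) hx)
    rintro (_ | a) (_ | b) (_ | c) (_ | d) h hx <;> first | exact h.elim | skip
    · exact g h.1 h.2 hx
    · exact g h.1 h.2 (cross_l hx)
    · exact g' h.1 h.2 hx
    · exact g' h.1 h.2 fun h3 => hx h3.symm
    · obtain ⟨m1, m2, m3, m4⟩ := Vl.mem hT h
      exact hT.nocross h ((ho.cr m1 m2 m3 m4).1 hx)
  · -- some
    -- edges at the new vertex
    have key : ∀ {c b d : V}, c ∈ B → b ∈ m → d ∈ m → G.Adj b d → b ≠ c → d ≠ c →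
        Cross l none (some c) (some b) (some d) → c = q ∧ ((b = r ∧ P d) ∨ (d = r ∧ P b)) := by
      intro c b d hc hb hd e nb nd hx
      rcases (hB c).1 hc with rfl | rfl
      · refine ⟨rfl, ?_⟩
        rcases ho.x2 hb hd nb nd hx with ⟨rfl, h⟩ | ⟨rfl, h⟩
        · exact Or.inl ⟨rfl, (hP _).2 ⟨h, e.symm⟩⟩
        · exact Or.inr ⟨rfl, (hP _).2 ⟨h, e⟩⟩
      · exact absurd hx (ho.x3 hb hd nb nd)
    rintro (_ | a) (_ | b) (_ | c) (_ | d) ⟨e1, m1, m3⟩ ⟨e2, m2, m4⟩ n1 n2 n3 n4 hx <;>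
      first | exact absurd rfl n1 | exact absurd rfl n2 | exact absurd rfl n3 | exact absurd rfl n4 | exact e1.elim | exact e2.elim | skip
    · rcases key e1 (im m2) (im m4) e2 (fun e => n3 (by rw [e])) (fun e => n4 (by rw [e])) hx with
        ⟨rfl, ⟨rfl, h⟩ | ⟨rfl, h⟩⟩
      · exact Or.inr ⟨h, Or.inr ⟨rfl, rfl⟩⟩
      · exact Or.inl ⟨h, Or.inl ⟨rfl, rfl⟩⟩
    · have hx' := nx1 m1 m3 m2 m4 n1 n2 n3.symm n4 hx
      rcases key e2 (im m1) (im m3) e1 (fun e => n2 (by rw [e])) (fun e => n4 (by rw [e])) hx' with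
        ⟨rfl, ⟨rfl, h⟩ | ⟨rfl, h⟩⟩
      · exact Or.inr ⟨h, Or.inr ⟨rfl, rfl⟩⟩
      · exact Or.inl ⟨h, Or.inr ⟨rfl, rfl⟩⟩
    · rcases key e1 (im m2) (im m4) e2 (fun e => n1 (by rw [e])) (fun e => n2 (by rw [e])) (cross_l hx) with
        ⟨rfl, ⟨rfl, h⟩ | ⟨rfl, h⟩⟩
      · exact Or.inl ⟨h, Or.inl ⟨rfl, rfl⟩⟩
      · exact Or.inr ⟨h, Or.inl ⟨rfl, rfl⟩⟩
    · have hx' := cross_l (nx1 m1 m3 m2 m4 n1 n2 n3.symm n4 hx)
      rcases key e2 (im m1) (im m3) e1 (fun e => n1 (by rw [e])) (fun e => n3 (by rw [e])) hx' with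
        ⟨rfl, ⟨rfl, h⟩ | ⟨rfl, h⟩⟩
      · exact Or.inl ⟨h, Or.inr ⟨rfl, rfl⟩⟩
      · exact Or.inr ⟨h, Or.inl ⟨rfl, rfl⟩⟩
    · exact hT.some ⟨e1, im m1, im m3⟩ ⟨e2, im m2, im m4⟩ (fun e => n1 (by rw [e])) (fun e => n2 (by rw [e]))
        (fun e => n3 (by rw [e])) (fun e => n4 (by rw [e])) ((ho.cr (im m1) (im m3) (im m2) (im m4)).1 hx)
  · -- notboth
    rintro (_ | a) (_ | b) (_ | c) (_ | d) h h' <;> first | exact h.elim | skip
    · rcases h.2 with ⟨rfl, rfl⟩ | ⟨rfl, rfl⟩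
      · exact nr h'.1
      · exact nq h'.1
    · rcases h.2 with ⟨rfl, rfl⟩ | ⟨rfl, rfl⟩
      · rcases h'.2 with ⟨rfl, _⟩ | ⟨rfl, _⟩
        · exact nq h.1
        · exact nr h.1
      · rcases h'.2 with ⟨rfl, _⟩ | ⟨rfl, _⟩
        · exact nq h.1
        · exact nr h.1
    · rcases h'.2 with ⟨_, rfl⟩ | ⟨_, rfl⟩
      · exact nr h.1
      · exact nq h.1
    · rcases h'.2 with ⟨_, rfl⟩ | ⟨_, rfl⟩
      · exact nr h.1
      · exact nq h.1
    · exact hT.notboth h h'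
  · -- trans
    rintro (_ | u) (_ | w) (_ | x) (_ | y) (_ | z) h h' hne <;>
      first | exact h.elim | exact h'.elim | exact absurd rfl hne | skip
    · refine absurd ?_ hne
      rcases h.2 with ⟨rfl, rfl⟩ | ⟨rfl, rfl⟩ <;> rcases h'.2 with ⟨e, rfl⟩ | ⟨e, rfl⟩
      · exact absurd e ho.qr.symm
      · rfl
      · rfl
      · exact absurd e ho.qr
    · refine absurd ?_ hne
      rcases h.2 with ⟨rfl, rfl⟩ | ⟨rfl, rfl⟩ <;> rcases h'.2 with ⟨e, rfl⟩ | ⟨e, rfl⟩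
      · exact absurd e ho.qr.symm
      · rfl
      · rfl
      · exact absurd e ho.qr
    · have e : P z := by
        rcases h.2 with ⟨rfl, rfl⟩ | ⟨rfl, rfl⟩
        · exact (PT h').2
        · exact (PT (hT.swap₁ h')).2
      exact ⟨e, h.2⟩
    · rcases h.2 with ⟨rfl, rfl⟩ | ⟨rfl, rfl⟩
      · exact h1 x z h.1 h'.1 fun e => hne (by rw [e])
      · exact hT.swap₁ (h1 x z h.1 h'.1 fun e => hne (by rw [e]))
    · have e : P x := by
        rcases h'.2 with ⟨rfl, rfl⟩ | ⟨rfl, rfl⟩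
        · exact (PT h).1
        · exact (PT (hT.swap₁ h)).1
      exact ⟨e, h'.2⟩
    · exact hT.trans h h' fun e => hne (by rw [e])
  · -- ferrers
    rintro (_ | a) (_ | b) (_ | x) (_ | y) (_ | x') (_ | y') h h' <;>
      first | exact h.elim | exact h'.elim | skip
    · exact Or.inl ⟨h.1, h'.2⟩
    · exact Or.inl ⟨h'.1, h.2⟩
    · exact Or.inl h'
    · rcases h.2 with ⟨rfl, _⟩ | ⟨rfl, _⟩
      · exact absurd h'.1 nq
      · exact absurd h'.1 nr
    · rcases F1 h.1 h.2 h' with rfl | h4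
      · exact Or.inl h
      · exact Or.inr h4
    · rcases h'.2 with ⟨rfl, _⟩ | ⟨rfl, _⟩
      · exact absurd h.1 nq
      · exact absurd h.1 nr
    · exact Or.inl h
    · rcases F1 h.1 h.2 (hT.swap₂ h') with rfl | h4
      · exact Or.inr h
      · exact Or.inl (hT.swap₂ h4)
    · rcases F1 h'.1 h'.2 h with rfl | h4
      · exact Or.inr h'
      · exact Or.inl h4
    · rcases F1 h'.1 h'.2 (hT.swap₂ h) with rfl | h4
      · exact Or.inl h'
      · exact Or.inr (hT.swap₂ h4)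
    · exact hT.ferrers h h'

end Pool.Agent.SOK
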