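import Pool.Agent.SOK.Lck
import Pool.Agent.SOK.GadE

/-! Project SOK, module Lck2: locks of the first order, structures which are not locked. -/

set_option autoImplicit false

namespace Pool.Agent.SOK

open Pool.Agent.SOC Pool.Agent.SOD Pool.Agent.RUP Pool.Agent.SOF Pool.Agent.SOG Pool.Agent.SOV

variable {V : Type} {G : SimpleGraph V}

section
variable [DecidableEq V] {L R B W W' : List V} {sL sR : List (List V)} {ad : V → V → Bool}

/-- a vertex of a list of two blocks -/
theorem in_two {O : List V} {segs : List (List V)} {w0 w1 : V} (h : Sd G O segs [w0, w1]) {x : V} (hx : x ∈ segs.flatten) :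
    InS segs 0 x ∨ InS segs 1 x := by
  obtain ⟨i, hi⟩ := inS_ex hx
  have h1 := inS_len hi
  rw [← h.len] at h1
  simp only [List.length_cons, List.length_nil] at h1
  have h2 : i = 0 ∨ i = 1 := by omega
  rcases h2 with rfl | rfl
  · exact Or.inl hi
  · exact Or.inr hi

/-- four blocks in the locked order -/
theorem llk_lock {p s q r : V} (hs : IsEnum (L ++ R)) (eL : sL.flatten = L) (eR : sR.flatten = R)
    (h : (W = [s, p] ∧ B = [r, q]) ∨ (W = [p, s] ∧ B = [q, r])) (hL : Sd G R sL W) (hR : Sd G L sR B)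
    (a1 : G.Adj p q) (a2 : G.Adj p r) (a3 : G.Adj s q) (a4 : ¬ G.Adj s r) :
    Lock (cutL G L R sL sR) G (CrD (L ++ R)) p s q r := by
  have mem : ∀ {x : V}, ¬ x ∈ L → x ∈ R := fun {x} h => (List.mem_append.1 (hs.2 x)).resolve_left h
  have nm : ∀ {x : V}, x ∈ R → ¬ x ∈ L := fun h h' => cutL_disj hs.1 h' h
  have iL : ∀ {i x}, InS sL i x → x ∈ L := fun h => by rw [← eL]; exact inS_mem h
  have iR : ∀ {i x}, InS sR i x → x ∈ R := fun h => by rw [← eR]; exact inS_mem h
  rcases h with ⟨rfl, rfl⟩ | ⟨rfl, rfl⟩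
  · obtain ⟨k1, t1⟩ := hL.rep (i := 0) (b := s) rfl
    obtain ⟨k2, t2⟩ := hL.rep (i := 1) (b := p) rfl
    obtain ⟨k3, t3⟩ := hR.rep (i := 0) (b := r) rfl
    obtain ⟨k4, t4⟩ := hR.rep (i := 1) (b := q) rfl
    have y1 : L.idxOf s < L.idxOf p := by rw [← eL]; exact inS_lt hL.nd k1 k2 (by omega)
    have y2 : R.idxOf r < R.idxOf q := by rw [← eR]; exact inS_lt hR.nd k3 k4 (by omega)
    have m1 := iL k1
    have m2 := iL k2
    have m3 := iR k3
    have m4 := iR k4
    refine ⟨m2, m1, nm m4, nm m3, a1, a2, a3, a4, ⟨⟨?_, ?_, ?_, ?_, ?_, ?_⟩, ?_⟩, ?_⟩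
    · rintro rfl
      exact nm m3 m1
    · rintro rfl
      exact a4 a2
    · exact a3.ne
    · exact a2.ne.symm
    · rintro rfl
      exact a4 a3
    · exact a1.ne
    · have x1 := idxL (R := R) m1
      have x2 := idxL (R := R) m2
      have x3 := idxR hs.1 m3
      have x4 := idxR hs.1 m4
      have x5 := List.idxOf_lt_length_iff.2 m1
      have x6 := List.idxOf_lt_length_iff.2 m2
      unfold Cross SOC.Btw
      omega
    · rintro v (⟨hv, av⟩ | ⟨hv, av⟩)
      · rcases in_two hL (x := v) (by rw [eL]; exact hv) with g | g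
        · exact Or.inr (Or.inl (Or.inl ⟨av, t1, 0, g, k1⟩))
        · exact Or.inl (Or.inl ⟨av, t2, 1, g, k2⟩)
      · rcases in_two hR (x := v) (by rw [eR]; exact hv) with g | g
        · exact Or.inr (Or.inr (Or.inr (Or.inr ⟨av, t3, 0, g, k3⟩)))
        · exact Or.inr (Or.inr (Or.inl (Or.inr ⟨av, t4, 1, g, k4⟩)))
  · obtain ⟨k1, t1⟩ := hL.rep (i := 0) (b := p) rfl
    obtain ⟨k2, t2⟩ := hL.rep (i := 1) (b := s) rfl
    obtain ⟨k3, t3⟩ := hR.rep (i := 0) (b := q) rfl
    obtain ⟨k4, t4⟩ := hR.rep (i := 1) (b := r) rfl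
    have y1 : L.idxOf p < L.idxOf s := by rw [← eL]; exact inS_lt hL.nd k1 k2 (by omega)
    have y2 : R.idxOf q < R.idxOf r := by rw [← eR]; exact inS_lt hR.nd k3 k4 (by omega)
    have m1 := iL k1
    have m2 := iL k2
    have m3 := iR k3
    have m4 := iR k4
    refine ⟨m1, m2, nm m3, nm m4, a1, a2, a3, a4, ⟨⟨?_, ?_, ?_, ?_, ?_, ?_⟩, ?_⟩, ?_⟩
    · rintro rfl
      exact nm m4 m2
    · rintro rfl
      exact a4 a2
    · exact a3.ne
    · exact a2.ne.symm
    · rintro rfl
      exact a4 a3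
    · exact a1.ne
    · have x1 := idxL (R := R) m1
      have x2 := idxL (R := R) m2
      have x3 := idxR hs.1 m3
      have x4 := idxR hs.1 m4
      have x5 := List.idxOf_lt_length_iff.2 m1
      have x6 := List.idxOf_lt_length_iff.2 m2
      unfold Cross SOC.Btw
      omega
    · rintro v (⟨hv, av⟩ | ⟨hv, av⟩)
      · rcases in_two hL (x := v) (by rw [eL]; exact hv) with g | g
        · exact Or.inl (Or.inl ⟨av, t1, 0, g, k1⟩)
        · exact Or.inr (Or.inl (Or.inl ⟨av, t2, 1, g, k2⟩))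
      · rcases in_two hR (x := v) (by rw [eR]; exact hv) with g | g
        · exact Or.inr (Or.inr (Or.inl (Or.inr ⟨av, t3, 0, g, k3⟩)))
        · exact Or.inr (Or.inr (Or.inr (Or.inr ⟨av, t4, 1, g, k4⟩)))

/-- the structure of the side, from a structure with representatives -/
theorem unl1_of (hs : IsEnum (L ++ R)) (hR : Sd G L sR B) (eR : sR.flatten = R) {T : V → V → V → V → Prop}
    (h : Un G L B T) : Unl1 (cutL G L R sL sR) G (repT (cutL G L R sL sR) (fun x => x ∈ L) T
      (fun x => if x ∈ L then x else rho sR B x)) := by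
  have mem : ∀ {x : V}, ¬ x ∈ L → x ∈ R := fun {x} h => (List.mem_append.1 (hs.2 x)).resolve_left h
  have key : ∀ {x : V}, ¬ x ∈ L → Atd G L x → rho sR B x ∈ B ∧ SR G L x (rho sR B x) := by
    intro x hx ax
    obtain ⟨i, hi⟩ := seg_of eR (mem hx)
    have h1 := rho_spec hR.nd hR.len hi
    exact ⟨List.mem_of_getElem? h1, hR.same hi (hR.rep h1).1 ax (hR.rep h1).2⟩
  rintro q p s x r hq hr hp hs' hx e ne ⟨⟨h1, h2, h3, h4⟩, h5⟩
  have aq : Atd G L q := by
    rcases h1 with g | g | g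
    · exact absurd g hq
    · exact absurd g.1 hq
    · exact g.2
  have ar : Atd G L r := ⟨p, hp, e.symm⟩
  obtain ⟨k1, k2⟩ := key hq aq
  obtain ⟨k3, k4⟩ := key hr ar
  have e1 : (if q ∈ L then q else rho sR B q) = rho sR B q := if_neg hq
  have e2 : (if x ∈ L then x else rho sR B x) = x := if_pos hx
  have e3 : (if p ∈ L then p else rho sR B p) = p := if_pos hp
  have e4 : (if s ∈ L then s else rho sR B s) = s := if_pos hs'
  simp only [e1, e2, e3, e4] at h5
  exact h _ k1 _ k3 p hp s hs' x hx ((k4 p hp).1 e.symm).symm (fun h' => ne ((k4 s hs').2 h'.symm).symm) h5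

/-- the structure of the other side -/
theorem unl2_of (hs : IsEnum (L ++ R)) (hL : Sd G R sL W') (eL : sL.flatten = L) (hlen : W.length = sL.length)
    (hrow : ∀ {i : ℕ} {a b : V}, W'[i]? = some a → W[i]? = some b → SR G R a b) {T : V → V → V → V → Prop}
    (h : Un G R W T) : Unl2 (cutL G L R sL sR) G (repT (cutL G L R sL sR) (fun x => ¬ x ∈ L) T
      (fun x => if x ∈ L then rho sL W x else x)) := by
  have mem : ∀ {x : V}, ¬ x ∈ L → x ∈ R := fun {x} h => (List.mem_append.1 (hs.2 x)).resolve_left h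
  have key : ∀ {x : V}, x ∈ L → Atd G R x → rho sL W x ∈ W ∧ SR G R x (rho sL W x) := by
    intro x hx ax
    obtain ⟨i, hi⟩ := seg_of eL hx
    have h1 := rho_spec hL.nd hlen hi
    obtain ⟨b, hb, _, _⟩ := hL.ex hi
    exact ⟨List.mem_of_getElem? h1, (hL.same hi (hL.rep hb).1 ax (hL.rep hb).2).trans (hrow hb h1)⟩
  rintro q p s x r hq hr hp hs' hx e ne ⟨⟨h1, h2, h3, h4⟩, h5⟩
  have hq' : q ∈ L := hq
  have hr' : r ∈ L := hr
  have hp' : ¬ p ∈ L := hp
  have hs'' : ¬ s ∈ L := hs'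
  have hx' : ¬ x ∈ L := hx
  have aq : Atd G R q := by
    rcases h1 with g | g | g
    · exact absurd hq g
    · exact g.2
    · exact (cutL_disj hs.1 hq' g.1).elim
  have ar : Atd G R r := ⟨p, mem hp, e.symm⟩
  obtain ⟨k1, k2⟩ := key hq' aq
  obtain ⟨k3, k4⟩ := key hr' ar
  have e1 : (if q ∈ L then rho sL W q else q) = rho sL W q := if_pos hq'
  have e2 : (if x ∈ L then rho sL W x else x) = x := if_neg hx'
  have e3 : (if p ∈ L then rho sL W p else p) = p := if_neg hp'
  have e4 : (if s ∈ L then rho sL W s else s) = s := if_neg hs''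
  simp only [e1, e2, e3, e4] at h5
  exact h _ k1 _ k3 p (mem hp) s (mem hs') x (mem hx) ((k4 p (mem hp)).1 e.symm).symm
    (fun h' => ne ((k4 s (mem hs')).2 h'.symm).symm) h5

end

end Pool.Agent.SOK
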