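import Pool.Agent.SOK.RulL
import Pool.Agent.SOK.Lck2

/-! Project SOK, module GlueL: GLUING FOR LISTS. -/

set_option autoImplicit false

namespace Pool.Agent.SOK

open Pool.Agent.SOC Pool.Agent.SOD Pool.Agent.RUP Pool.Agent.SOF Pool.Agent.SOG Pool.Agent.SOV Pool.Agent.SOS
open Pool.Agent.SOE (EPC)

variable {U V : Type} {G' : SimpleGraph U} {G : SimpleGraph V} {f : U → V}

/-- gluing, for an enumeration -/
theorem glueE [DecidableEq V] (f1 : RuleF) (f2 : SixF) (f3 : GlueF) {L R B W : List V} (hs : IsEnum (L ++ R))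
    (hE : LEp G L R) {sL sR : List (List V)} {rL : List V} (eL : sL.flatten = L) (eR : sR.flatten = R)
    (hL : Sd G R sL rL) (hR : Sd G L sR B) (hlen : W.length = rL.length) (hnd : W.Nodup) (hsub : ∀ w ∈ W, w ∈ L)
    (hrow : ∀ (i : ℕ) (w x : V), W[i]? = some w → rL[i]? = some x → SR G R w x) {T1 T2 : V → V → V → V → Prop}
    (v1 : Vl G (L ++ B) T1) (v2 : Vl G (W ++ R) T2) (hl : LLk G W B → Un G L B T1 ∨ Un G R W T2) : Val G (L ++ R) := by
  have nd := List.nodup_append.1 hs.1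
  have hE' : EPC G {x | x ∈ L} := epc_lift (G := G) (G' := G) (f := id) (fun _ _ => Iff.rfl) (fun _ _ h => h)
    (by rw [List.map_id, List.map_id]; exact hE) hs.2
  have iL : ∀ {i x}, InS sL i x → x ∈ L := fun h => by rw [← eL]; exact inS_mem h
  have iR : ∀ {i x}, InS sR i x → x ∈ R := fun h => by rw [← eR]; exact inS_mem h
  have hB : LRp G L R B := ⟨sR, eR, hR⟩
  have hW : LWr G R L W := ⟨sL, rL, eL, hL, hlen, hnd, hsub, hrow⟩
  have cB := hB.cov
  have cW := hW.cov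
  have ndB : B.Nodup := by
    have h1 := (sd_single hR).nd
    rwa [flatten_single] at h1
  -- the two lists
  have ep1 : LEp G L B := hE.mono (by
    rw [List.nodup_append]
    exact ⟨nd.1, ndB, fun a ha b hb => nd.2.2 a ha b (cB.1 b hb)⟩) (fun _ h => h) cB.1
  have ep2 : LEp G W R := hE.mono (by
    rw [List.nodup_append]
    exact ⟨hnd, nd.2.1, fun a ha b hb => nd.2.2 a (cW.1 a ha) b hb⟩) cW.1 (fun _ h => h)
  have sdWR : Sd G W sR B := Sd.cov hR cW eR
  have sdLB : Sd G B sL rL := Sd.cov hL cB eL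
  have sW := hW.sd
  have sB := sd_single hR
  -- rows
  have rR : ∀ {i : ℕ} {x b : V}, InS sR i x → Atd G L x → B[i]? = some b → SR G L x b := fun hx ax hb =>
    hR.same hx (hR.rep hb).1 ax (hR.rep hb).2
  have rW : ∀ {i : ℕ} {x b : V}, InS sL i x → Atd G R x → W[i]? = some b → SR G R x b := by
    intro i x b hx ax hb
    have h1 : i < rL.length := by
      rw [← hlen]
      exact (List.getElem?_eq_some_iff.1 hb).1
    have h2 := List.getElem?_eq_getElem h1
    exact (hL.same hx (hL.rep h2).1 ax (hL.rep h2).2).trans (hrow i _ _ hb h2).symm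
  have r1 : RepOk (cutL G L R sL sR) G (CrD (L ++ R)) (fun x => x ∈ L) (SOS.restr G {v | v ∈ L ++ B}) (CrD (L ++ B))
      (fun x => if x ∈ L then x else rho sR B x) := by
    refine repA hs hR eL eR hR.len ndB cB.1 rR ?_ ?_
    · intro i j x y b c hi hj hij ax ay hb hc
      obtain ⟨kb1, kb2⟩ := hR.rep hb
      obtain ⟨kc1, kc2⟩ := hR.rep hc
      have e1 := ruleR f1 f2 ep2 sW (flatten_single W) sdWR eR ⟨_, v2⟩ hi hj hij ((cW.att (iR hi)).2 ax)
        ((cW.att (iR hj)).2 ay)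
      have e2 := ruleR f1 f2 ep2 sW (flatten_single W) sdWR eR ⟨_, v2⟩ kb1 kc1 hij ((cW.att (iR kb1)).2 kb2)
        ((cW.att (iR kc1)).2 kc2)
      rw [e1, e2]
      exact RlL.congr ((cW.sr (iR hi) (iR kb1)).2 (rR hi ax hb)) ((cW.sr (iR hj) (iR kc1)).2 (rR hj ay hc))
    · intro x hx y hy
      exact ⟨fun h => h.1, fun h => ⟨h, hx, hy⟩⟩
  have r2 : RepOk (cutL G L R sL sR) G (CrD (L ++ R)) (fun x => ¬ x ∈ L) (SOS.restr G {v | v ∈ W ++ R}) (CrD (W ++ R))
      (fun x => if x ∈ L then rho sL W x else x) := by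
    refine repB hs hL eL eR (by rw [hlen, hL.len]) hnd hsub rW ?_ ?_
    · intro i j x y b c hi hj hij ax ay hb hc
      obtain ⟨kb1, kb2⟩ := sW.rep hb
      obtain ⟨kc1, kc2⟩ := sW.rep hc
      have e1 := ruleL f1 f2 ep1 sdLB eL sB (flatten_single B) ⟨_, v1⟩ hi hj hij ((cB.att (iL hi)).2 ax)
        ((cB.att (iL hj)).2 ay)
      have e2 := ruleL f1 f2 ep2 sW (flatten_single W) sdWR eR ⟨_, v2⟩ kb1 kc1 hij kb2 kc2
      rw [e1, e2, cB.rl (iL hi) (iL hj), cW.rl']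
      exact RlL.congr (rW hi ax hb) (rW hj ay hc)
    · intro x hx y hy
      exact ⟨fun h => h.1, fun h => ⟨h, hx, hy⟩⟩
  have cs : CutS (cutL G L R sL sR) G (L ++ R) := ⟨hs, cutL_ok hs hL hR eL eR, cutL_bi hs hL hR eL eR,
    cutL_mx (sR := sR) hs hL eL eR⟩
  have k1 := half_of_qt (crD_sepr hs) cs.ok r1 (qt_crD v1)
  have k2 := half_of_qt (crD_sepr hs) cs.ok r2 (qt_crD v2)
  have hrow' : ∀ {i : ℕ} {a b : V}, rL[i]? = some a → W[i]? = some b → SR G R a b := fun ha hb =>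
    (hrow _ _ _ hb ha).symm
  obtain ⟨T, hT⟩ := f3 cs (cutL_mx' (sL := sL) hs hR eL eR) hE' k1 k2 (by
    intro p s q r hk
    have h2 := lock_llk hs hL hR eL eR (W := W) hsub hlen hrow' hk
    rcases hl h2 with h3 | h3
    · exact Or.inl (unl1_of hs hR eR h3)
    · exact Or.inr (unl2_of hs hL eL (by rw [hlen, hL.len]) hrow' h3))
  exact (Val_enum hs).2 ⟨T, qt_cross hT⟩

section
variable [DecidableEq U] [DecidableEq V] {L R B W : List V} {L' R' B' W' : List U}

/-- structures for lists and injective maps -/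
theorem vl_lift (hf : Function.Injective f) (hadj : ∀ a b, G'.Adj a b ↔ G.Adj (f a) (f b)) {l : List U}
    {T : V → V → V → V → Prop} (h : Vl G (l.map f) T) (hl : l.Nodup) :
    Vl G' l (fun a b c d => (a ∈ l ∧ b ∈ l ∧ c ∈ l ∧ d ∈ l) ∧ T (f a) (f b) (f c) (f d)) :=
  h.pull hf (List.Sublist.refl _) (hl.map hf) fun a _ b _ => hadj a b

omit [DecidableEq U] [DecidableEq V] in
theorem un_lift (hadj : ∀ a b, G'.Adj a b ↔ G.Adj (f a) (f b)) {D E : List U} {T : V → V → V → V → Prop} {l : List U}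
    (h : Un G (D.map f) (E.map f) T) :
    Un G' D E (fun a b c d => (a ∈ l ∧ b ∈ l ∧ c ∈ l ∧ d ∈ l) ∧ T (f a) (f b) (f c) (f d)) := by
  intro q hq r hr p hp s hs x hx e ne h'
  exact h _ (List.mem_map_of_mem hq) _ (List.mem_map_of_mem hr) _ (List.mem_map_of_mem hp) _ (List.mem_map_of_mem hs) _
    (List.mem_map_of_mem hx) ((hadj _ _).1 e) (fun e' => ne ((hadj _ _).2 e')) h'.2

omit [DecidableEq U] [DecidableEq V] in
theorem llk_lift (hadj : ∀ a b, G'.Adj a b ↔ G.Adj (f a) (f b)) {W B : List U} (h : LLk G' W B) :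
    LLk G (W.map f) (B.map f) := by
  obtain ⟨p, s, q, r, h1, h2, h3, h4, h5⟩ := h
  refine ⟨f p, f s, f q, f r, ?_, (hadj _ _).1 h2, (hadj _ _).1 h3, (hadj _ _).1 h4, fun e => h5 ((hadj _ _).2 e)⟩
  rcases h1 with ⟨rfl, rfl⟩ | ⟨rfl, rfl⟩
  · exact Or.inl ⟨rfl, rfl⟩
  · exact Or.inr ⟨rfl, rfl⟩

theorem glue_lft (f1 : RuleF) (f2 : SixF) (f3 : GlueF) (h : Lft G L R f G' L' R') (hE : LEp G L R) (hB : LRp G L R B)
    (hW : LWr G R L W) {T1 T2 : V → V → V → V → Prop} (v1 : Vl G (L ++ B) T1) (v2 : Vl G (W ++ R) T2)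
    (hl : LLk G W B → Un G L B T1 ∨ Un G R W T2) : Val G (L ++ R) := by
  have cB := hB.cov
  have cW := hW.cov
  obtain ⟨sR, eR, hR⟩ := hB
  obtain ⟨sL, rL, eL, hL, hlen, hnd, hsub, hrow⟩ := hW
  obtain ⟨sL', rL', h1, h2, h3, h4⟩ := h.seg hL eL
  obtain ⟨sR', B', g1, g2, g3, g4⟩ := h.seg' hR eR
  obtain ⟨W', k1⟩ := lift_list (f := f) (l := W) fun x hx => by
    have h5 := hsub x hx
    rw [← h.mK] at h5
    obtain ⟨y, _, e⟩ := List.mem_map.1 h5
    exact ⟨y, e⟩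
  have eU : LEp G' L' R' := by
    rw [← h.mK, ← h.mD] at hE
    refine ⟨h.en.1, ?_, ?_⟩
    · intro a b c d ha hb hc hd e e' n n'
      rcases hE.rig (List.mem_map_of_mem ha) (List.mem_map_of_mem hb) (List.mem_map_of_mem hc) (List.mem_map_of_mem hd)
        ((h.adj _ _).1 e) ((h.adj _ _).1 e') (fun e => n (h.inj e)) (fun e => n' (h.inj e)) with ⟨x1, x2⟩ | ⟨x1, x2⟩
      · exact Or.inl ⟨(h.adj _ _).2 x1, (h.adj _ _).2 x2⟩
      · exact Or.inr ⟨(h.adj _ _).2 x1, (h.adj _ _).2 x2⟩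
    · intro p p' q q' r hp hp' hq hq' hr hw
      refine hE.w4 (List.mem_map_of_mem hp) (List.mem_map_of_mem hp') (List.mem_map_of_mem hq) (List.mem_map_of_mem hq')
        (r := f r) (by rw [← List.map_append]; exact List.mem_map_of_mem hr) ?_
      exact ⟨fun e => hw.n1 ((h.adj _ _).2 e), fun e => hw.n2 ((h.adj _ _).2 e), fun e => hw.d1 (h.inj e),
        fun e => hw.d2 (h.inj e), (h.adj _ _).1 hw.pq, (h.adj _ _).1 hw.pq', (h.adj _ _).1 hw.p'q,
        (h.adj _ _).1 hw.p'q', (h.adj _ _).1 hw.rp, (h.adj _ _).1 hw.rp', (h.adj _ _).1 hw.rq, (h.adj _ _).1 hw.rq'⟩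
  have nd := List.nodup_append.1 h.en.1
  have mW' : ∀ w ∈ W', w ∈ L' := by
    intro w hw
    have h5 := hsub (f w) (by rw [← k1]; exact List.mem_map_of_mem hw)
    rw [← h.mK] at h5
    obtain ⟨y, hy, e⟩ := List.mem_map.1 h5
    rwa [h.inj e] at hy
  have mB' : ∀ b ∈ B', b ∈ R' := by
    intro b hb
    have h5 := cB.1 (f b) (by rw [← g2]; exact List.mem_map_of_mem hb)
    rw [← h.mD] at h5
    obtain ⟨y, hy, e⟩ := List.mem_map.1 h5
    rwa [h.inj e] at hy
  have ndW' : W'.Nodup := by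
    rw [← k1] at hnd
    exact List.Nodup.of_map f hnd
  have ndB' : B'.Nodup := by
    have h5 := (sd_single g4).nd
    rwa [flatten_single] at h5
  have n1 : (L' ++ B').Nodup := by
    rw [List.nodup_append]
    exact ⟨nd.1, ndB', fun a ha b hb => nd.2.2 a ha b (mB' b hb)⟩
  have n2 : (W' ++ R').Nodup := by
    rw [List.nodup_append]
    exact ⟨ndW', nd.2.1, fun a ha b hb => nd.2.2 a (mW' a ha) b hb⟩
  have v1' := vl_lift (G' := G') (G := G) h.inj h.adj (l := L' ++ B') (T := T1) (by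
    rw [List.map_append, h.mK, g2]
    exact v1) n1
  have v2' := vl_lift (G' := G') (G := G) h.inj h.adj (l := W' ++ R') (T := T2) (by
    rw [List.map_append, h.mD, k1]
    exact v2) n2
  refine (h.val).2 (glueE f1 f2 f3 h.en eU h3 g3 h4 g4 ?_ ndW' mW' ?_ v1' v2' ?_)
  · rw [← k1, ← h2, List.length_map, List.length_map] at hlen
    exact hlen
  · intro i w x hw hx
    have h5 := hrow i (f w) (f x) (by rw [← k1, List.getElem?_map, hw]; rfl) (by rw [← h2, List.getElem?_map, hx]; rfl)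
    rw [← h.mD] at h5
    exact (sr_map h.adj).1 h5
  · intro hk
    have h5 := llk_lift h.adj hk
    rw [k1, g2] at h5
    rcases hl h5 with h6 | h6
    · left
      rw [← h.mK, ← g2] at h6
      exact un_lift h.adj h6
    · right
      rw [← h.mD, ← k1] at h6
      exact un_lift h.adj h6

end

/-- GLUING FOR LISTS: `B` stands for the blocks of `R`, `W` stands for the blocks of `L` -/
theorem glueL [DecidableEq V] (f1 : RuleF) (f2 : SixF) (f3 : GlueF) {L R B W : List V} (hE : LEp G L R)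
    (hB : LRp G L R B) (hW : LWr G R L W) {T1 T2 : V → V → V → V → Prop} (v1 : Vl G (L ++ B) T1)
    (v2 : Vl G (W ++ R) T2) (hl : LLk G W B → Un G L B T1 ∨ Un G R W T2) : Val G (L ++ R) := by
  obtain ⟨L', R', h⟩ := lft_ex (G := G) hE.nd
  exact glue_lft f1 f2 f3 h hE hB hW v1 v2 hl

/-- five blocks -/
theorem glue5 [DecidableEq V] (f1 : RuleF) (f2 : SixF) (f3 : GlueF) {L R B W : List V} (hE : LEp G L R)
    (hB : LRp G L R B) (hW : LWr G R L W) (v1 : Val G (L ++ B)) (v2 : Val G (W ++ R)) (h5 : 5 ≤ B.length + W.length) :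
    Val G (L ++ R) := by
  obtain ⟨T1, v1⟩ := v1
  obtain ⟨T2, v2⟩ := v2
  refine glueL f1 f2 f3 hE hB hW v1 v2 ?_
  rintro ⟨p, s, q, r, ⟨rfl, rfl⟩ | ⟨rfl, rfl⟩, _⟩
  · simp at h5
  · simp at h5

end Pool.Agent.SOK
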