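import Pool.Agent.SOK.CutL
import Pool.Agent.SOV.Val

/-! Project SOK, module HalfL: the two halves. -/

set_option autoImplicit false

namespace Pool.Agent.SOK

open Pool.Agent.SOC Pool.Agent.SOD Pool.Agent.RUP Pool.Agent.SOF Pool.Agent.SOG Pool.Agent.SOV

variable {V : Type} {G : SimpleGraph V}

section
variable [DecidableEq V]

theorem qt_crD {s : List V} {T : V → V → V → V → Prop} (h : QT G (Cross s) T) : QT G (CrD s) T :=
  ⟨h.swap₁, h.swap₂, h.ne, h.adj, fun h1 h2 => h.nocross h1 h2.2, fun e1 e2 h1 h2 h3 h4 h5 => h.some e1 e2 h1 h2 h3 h4 h5.2,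
    h.notboth, h.trans, h.ferrers⟩

theorem qt_cross {s : List V} {T : V → V → V → V → Prop} (h : QT G (CrD s) T) : QT G (Cross s) T := by
  refine ⟨h.swap₁, h.swap₂, h.ne, h.adj, ?_, ?_, h.notboth, h.trans, h.ferrers⟩
  · intro a b c d h1 h2
    have h3 := h.swap₂ (h.swap₁ (h.swap₂ h1))
    exact h.nocross h1 ⟨⟨h.ne h1, (h.adj h1).ne, (h.adj h3).ne, (h.adj (h.swap₁ h1)).ne, (h.adj (h.swap₁ h3)).ne,
      h.ne (h.swap₂ h1)⟩, h2⟩
  · intro a b c d e1 e2 h1 h2 h3 h4 h5
    exact h.some e1 e2 h1 h2 h3 h4 ⟨⟨e1.ne, h1, h2, h3.symm, h4, e2.ne⟩, h5⟩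

end

open Classical in
/-- the representative of the segment of `x` -/
noncomputable def rho (segs : List (List V)) (rp : List V) (x : V) : V :=
  if h : ∃ b, ∃ i, rp[i]? = some b ∧ InS segs i x then h.choose else x

theorem rho_spec [DecidableEq V] {segs : List (List V)} {rp : List V} (hn : segs.flatten.Nodup)
    (hl : rp.length = segs.length) {i : ℕ} {x : V} (hx : InS segs i x) : rp[i]? = some (rho segs rp x) := by
  have h0 : ∃ b, ∃ i, rp[i]? = some b ∧ InS segs i x := by
    have h1 := inS_len hx
    rw [← hl] at h1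
    exact ⟨rp[i], i, List.getElem?_eq_getElem h1, hx⟩
  unfold rho
  rw [dif_pos h0]
  obtain ⟨j, h1, h2⟩ := h0.choose_spec
  rw [inS_uniq hn hx h2]
  exact h1

section
variable [DecidableEq V] {L R : List V} {sL sR : List (List V)} {rL rR : List V}

/-- crossing chords and a map which preserves the order of points with different images -/
theorem crD_of_lt {V' : Type} [DecidableEq V'] {l : List V} {l' : List V'} {f : V → V'} {P : V → Prop}
    (h : ∀ a b, P a → P b → f a ≠ f b → (l.idxOf a < l.idxOf b ↔ l'.idxOf (f a) < l'.idxOf (f b))) {a b c d : V}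
    (ha : P a) (hb : P b) (hc : P c) (hd : P d) (ab : f a ≠ f b) (ac : f a ≠ f c) (ad : f a ≠ f d) (bc : f b ≠ f c)
    (bd : f b ≠ f d) (cd : f c ≠ f d) : CrD l a b c d ↔ CrD l' (f a) (f b) (f c) (f d) := by
  have nf : ∀ {x y : V}, f x ≠ f y → x ≠ y := fun h e => h (by rw [e])
  unfold CrD Cross SOC.Btw
  rw [h a c ha hc ac, h c b hc hb bc.symm, h b c hb hc bc, h c a hc ha ac.symm, h a d ha hd ad, h d b hd hb bd.symm,
    h b d hb hd bd, h d a hd ha ad.symm]
  constructor
  · rintro ⟨_, h2⟩
    exact ⟨⟨ab, ac, ad, bc, bd, cd⟩, h2⟩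
  · rintro ⟨_, h2⟩
    exact ⟨⟨nf ab, nf ac, nf ad, nf bc, nf bd, nf cd⟩, h2⟩

omit [DecidableEq V] in
/-- attached vertices have segments -/
theorem seg_of {x : V} (eR : sR.flatten = R) (hx : x ∈ R) : ∃ i, InS sR i x := by
  rw [← eR] at hx
  exact inS_ex hx

/-- the left half: the attached vertices of the right side stand for the members of the list `B` -/
theorem repA {B : List V} (hs : IsEnum (L ++ R)) (hR : Sd G L sR rR) (eL : sL.flatten = L) (eR : sR.flatten = R)
    (hlen : B.length = sR.length) (hnd : B.Nodup) (hsub : ∀ b ∈ B, b ∈ R)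
    (hrow : ∀ {i x b}, InS sR i x → Atd G L x → B[i]? = some b → SR G L x b)
    (hadj : ∀ {i j x y b c}, InS sR i x → InS sR j y → i ≠ j → Atd G L x → Atd G L y → B[i]? = some b →
      B[j]? = some c → (G.Adj x y ↔ G.Adj b c)) {G' : SimpleGraph V}
    (hG' : ∀ x ∈ L ++ B, ∀ y ∈ L ++ B, (G'.Adj x y ↔ G.Adj x y)) :
    RepOk (cutL G L R sL sR) G (CrD (L ++ R)) (fun x => x ∈ L) G' (CrD (L ++ B))
      (fun x => if x ∈ L then x else rho sR B x) := by
  have dj : ∀ {x : V}, x ∈ L → x ∈ R → False := fun h h' => cutL_disj hs.1 h h'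
  have mem : ∀ {x : V}, ¬ x ∈ L → x ∈ R := fun {x} h => (List.mem_append.1 (hs.2 x)).resolve_left h
  have iL : ∀ {i x}, InS sL i x → x ∈ L := fun h => by rw [← eL]; exact inS_mem h
  have iR : ∀ {i x}, InS sR i x → x ∈ R := fun h => by rw [← eR]; exact inS_mem h
  -- an attached vertex of the right side and its representative
  have key : ∀ {x : V}, x ∉ L → (x ∈ L ∨ (cutL G L R sL sR).A x) →
      ∃ i, InS sR i x ∧ Atd G L x ∧ B[i]? = some (rho sR B x) ∧ SR G L x (rho sR B x) ∧ rho sR B x ∈ B ∧
        rho sR B x ∉ L := by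
    intro x hx hA
    have h1 : Atd G L x := by
      rcases hA with h | h | h
      · exact absurd h hx
      · exact absurd h.1 hx
      · exact h.2
    obtain ⟨i, hi⟩ := seg_of eR (mem hx)
    have h2 := rho_spec hR.nd hlen hi
    have h3 := List.mem_of_getElem? h2
    exact ⟨i, hi, h1, h2, hrow hi h1 h2, h3, fun h5 => dj h5 (hsub _ h3)⟩
  -- positions
  have pos : ∀ a b : V, (a ∈ L ∨ (cutL G L R sL sR).A a) → (b ∈ L ∨ (cutL G L R sL sR).A b) →
      (if a ∈ L then a else rho sR B a) ≠ (if b ∈ L then b else rho sR B b) →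
      ((L ++ R).idxOf a < (L ++ R).idxOf b ↔ (L ++ B).idxOf (if a ∈ L then a else rho sR B a) <
        (L ++ B).idxOf (if b ∈ L then b else rho sR B b)) := by
    intro a b ha hb hne
    by_cases ha' : a ∈ L
    · rw [if_pos ha', List.idxOf_append_of_mem ha', List.idxOf_append_of_mem ha'] at *
      have := List.idxOf_lt_length_iff.2 ha'
      by_cases hb' : b ∈ L
      · rw [if_pos hb', List.idxOf_append_of_mem hb', List.idxOf_append_of_mem hb']
      · rw [if_neg hb', idxR hs.1 (mem hb')]
        obtain ⟨i, _, _, _, _, _, h8⟩ := key hb' hb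
        rw [List.idxOf_append_of_notMem h8]
        omega
    · obtain ⟨i, h1, _, h3, _, h7, h8⟩ := key ha' ha
      rw [if_neg ha', idxR hs.1 (mem ha'), List.idxOf_append_of_notMem h8] at *
      by_cases hb' : b ∈ L
      · rw [if_pos hb', List.idxOf_append_of_mem hb', List.idxOf_append_of_mem hb']
        have := List.idxOf_lt_length_iff.2 hb'
        omega
      · obtain ⟨j, g1, _, g3, _, g7, g8⟩ := key hb' hb
        rw [if_neg hb', idxR hs.1 (mem hb'), List.idxOf_append_of_notMem g8] at *
        have hij : i ≠ j := by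
          rintro rfl
          rw [h3] at g3
          exact hne (Option.some.inj g3)
        have e1 := inS_lt_iff (segs := sR) (segs' := B.map fun b => [b]) hR.nd (by rw [flatten_single]; exact hnd) h1 g1
          (inS_single.2 h3) (inS_single.2 g3) hij
        rw [eR, flatten_single] at e1
        omega
  refine ⟨?_, ?_, ?_, ?_, ?_⟩
  · intro p q hp hq he
    by_cases hp' : p ∈ L
    · by_cases hq' : q ∈ L
      · simp only [hp', hq', if_true] at he
        exact Or.inl he
      · obtain ⟨j, _, _, _, _, _, h8⟩ := key hq' hq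
        simp only [hp', hq', if_true, if_false] at he
        exact absurd (he ▸ hp') h8
    · obtain ⟨i, h1, h2, h3, _, _, h8⟩ := key hp' hp
      by_cases hq' : q ∈ L
      · simp only [hp', hq', if_true, if_false] at he
        exact absurd (by rw [he]; exact hq') h8
      · obtain ⟨j, g1, g2, g3, _, _, g8⟩ := key hq' hq
        simp only [hp', hq', if_false] at he
        refine Or.inr ⟨hp', Or.inr ⟨h2, g2, i, h1, ?_⟩⟩
        have h4 : i = j := by
          have hl1 := (List.getElem?_eq_some_iff.1 h3).1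
          have hl2 := (List.getElem?_eq_some_iff.1 g3).1
          have k1 := (List.getElem?_eq_some_iff.1 h3).2
          have k2 := (List.getElem?_eq_some_iff.1 g3).2
          exact (List.Nodup.getElem_inj_iff hnd).1 (k1.trans (he.trans k2.symm))
        rw [h4]
        exact g1
  · rintro p q hp (⟨_, _, i, h1, h2⟩ | ⟨_, _, i, h1, h2⟩)
    · exact absurd (iL h1) hp
    · have hq : q ∉ L := fun h => dj h (iR h2)
      simp only [hp, hq, if_false]
      have e1 := rho_spec hR.nd hlen h1
      rw [rho_spec hR.nd hlen h2] at e1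
      exact (Option.some.inj e1).symm
  · rintro p q (⟨_, _, i, h1, h2⟩ | ⟨_, _, i, h1, h2⟩) hp
    · exact iL h2
    · exact (dj hp (iR h1)).elim
  · intro p q hp hq hne
    by_cases hp' : p ∈ L
    · by_cases hq' : q ∈ L
      · simp only [hp', hq', if_true]
        exact (hG' p (List.mem_append_left _ hp') q (List.mem_append_left _ hq')).symm
      · obtain ⟨j, g1, g2, g3, g6, g7, g8⟩ := key hq' hq
        simp only [hp', hq', if_true, if_false]
        rw [hG' p (List.mem_append_left _ hp') _ (List.mem_append_right _ g7), G.adj_comm p q, g6 p hp',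
          G.adj_comm]
    · obtain ⟨i, h1, h2, h3, h6, h7, h8⟩ := key hp' hp
      by_cases hq' : q ∈ L
      · simp only [hp', hq', if_true, if_false]
        rw [hG' _ (List.mem_append_right _ h7) q (List.mem_append_left _ hq'), h6 q hq']
      · obtain ⟨j, g1, g2, g3, g6, g7, g8⟩ := key hq' hq
        simp only [hp', hq', if_false] at hne ⊢
        rw [hG' _ (List.mem_append_right _ h7) _ (List.mem_append_right _ g7)]
        refine hadj h1 g1 ?_ h2 g2 h3 g3
        rintro rfl
        rw [h3] at g3
        exact hne (Option.some.inj g3)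
  · intro p q r t hp hq hr ht h1 h2 h3 h4 h5 h6
    exact crD_of_lt (P := fun x => x ∈ L ∨ (cutL G L R sL sR).A x) (l := L ++ R) (l' := L ++ B)
      (f := fun x => if x ∈ L then x else rho sR B x) pos hp hq hr ht h1 h2 h3 h4 h5 h6

/-- the right half: the attached vertices of the left side stand for the members of the list `W` -/
theorem repB {W : List V} (hs : IsEnum (L ++ R)) (hL : Sd G R sL rL) (eL : sL.flatten = L) (eR : sR.flatten = R)
    (hlen : W.length = sL.length) (hnd : W.Nodup) (hsub : ∀ b ∈ W, b ∈ L)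
    (hrow : ∀ {i x b}, InS sL i x → Atd G R x → W[i]? = some b → SR G R x b)
    (hadj : ∀ {i j x y b c}, InS sL i x → InS sL j y → i ≠ j → Atd G R x → Atd G R y → W[i]? = some b →
      W[j]? = some c → (G.Adj x y ↔ G.Adj b c)) {G' : SimpleGraph V}
    (hG' : ∀ x ∈ W ++ R, ∀ y ∈ W ++ R, (G'.Adj x y ↔ G.Adj x y)) :
    RepOk (cutL G L R sL sR) G (CrD (L ++ R)) (fun x => ¬ x ∈ L) G' (CrD (W ++ R))
      (fun x => if x ∈ L then rho sL W x else x) := by
  have dj : ∀ {x : V}, x ∈ L → x ∈ R → False := fun h h' => cutL_disj hs.1 h h'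
  have mem : ∀ {x : V}, ¬ x ∈ L → x ∈ R := fun {x} h => (List.mem_append.1 (hs.2 x)).resolve_left h
  have iL : ∀ {i x}, InS sL i x → x ∈ L := fun h => by rw [← eL]; exact inS_mem h
  have iR : ∀ {i x}, InS sR i x → x ∈ R := fun h => by rw [← eR]; exact inS_mem h
  -- an attached vertex of the left side and its representative
  have key : ∀ {x : V}, x ∈ L → (¬ x ∈ L ∨ (cutL G L R sL sR).A x) →
      ∃ i, InS sL i x ∧ Atd G R x ∧ W[i]? = some (rho sL W x) ∧ SR G R x (rho sL W x) ∧ rho sL W x ∈ W := by
    intro x hx hA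
    have h1 : Atd G R x := by
      rcases hA with h | h | h
      · exact absurd hx h
      · exact h.2
      · exact (dj hx h.1).elim
    obtain ⟨i, hi⟩ := seg_of eL hx
    have h2 := rho_spec hL.nd hlen hi
    exact ⟨i, hi, h1, h2, hrow hi h1 h2, List.mem_of_getElem? h2⟩
  have iW : ∀ {x : V}, ¬ x ∈ L → (W ++ R).idxOf x = W.length + R.idxOf x := fun {x} h =>
    List.idxOf_append_of_notMem fun h' => h (hsub _ h')
  -- positions
  have pos : ∀ a b : V, (¬ a ∈ L ∨ (cutL G L R sL sR).A a) → (¬ b ∈ L ∨ (cutL G L R sL sR).A b) →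
      (if a ∈ L then rho sL W a else a) ≠ (if b ∈ L then rho sL W b else b) →
      ((L ++ R).idxOf a < (L ++ R).idxOf b ↔ (W ++ R).idxOf (if a ∈ L then rho sL W a else a) <
        (W ++ R).idxOf (if b ∈ L then rho sL W b else b)) := by
    intro a b ha hb hne
    by_cases ha' : a ∈ L
    · obtain ⟨i, h1, _, h3, _, h7⟩ := key ha' ha
      rw [if_pos ha', List.idxOf_append_of_mem ha', List.idxOf_append_of_mem h7] at *
      have k1 := List.idxOf_lt_length_iff.2 ha'
      have k2 := List.idxOf_lt_length_iff.2 h7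
      by_cases hb' : b ∈ L
      · obtain ⟨j, g1, _, g3, _, g7⟩ := key hb' hb
        rw [if_pos hb', List.idxOf_append_of_mem hb', List.idxOf_append_of_mem g7] at *
        have hij : i ≠ j := by
          rintro rfl
          rw [h3] at g3
          exact hne (Option.some.inj g3)
        have e1 := inS_lt_iff (segs := sL) (segs' := W.map fun b => [b]) hL.nd (by rw [flatten_single]; exact hnd) h1 g1
          (inS_single.2 h3) (inS_single.2 g3) hij
        rwa [eL, flatten_single] at e1
      · rw [if_neg hb', idxR hs.1 (mem hb'), iW hb']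
        omega
    · rw [if_neg ha', idxR hs.1 (mem ha'), iW ha']
      by_cases hb' : b ∈ L
      · obtain ⟨j, g1, _, g3, _, g7⟩ := key hb' hb
        rw [if_pos hb', List.idxOf_append_of_mem hb', List.idxOf_append_of_mem g7]
        have k1 := List.idxOf_lt_length_iff.2 hb'
        have k2 := List.idxOf_lt_length_iff.2 g7
        omega
      · rw [if_neg hb', idxR hs.1 (mem hb'), iW hb']
        omega
  refine ⟨?_, ?_, ?_, ?_, ?_⟩
  · intro p q hp hq he
    by_cases hp' : p ∈ L
    · obtain ⟨i, h1, h2, h3, h5, h7⟩ := key hp' hp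
      by_cases hq' : q ∈ L
      · obtain ⟨j, g1, g2, g3, g5, g7⟩ := key hq' hq
        simp only [hp', hq', if_true] at he
        refine Or.inr ⟨fun h => h hp', Or.inl ⟨h2, g2, i, h1, ?_⟩⟩
        have h4 : i = j := by
          have hl1 := (List.getElem?_eq_some_iff.1 h3).1
          have hl2 := (List.getElem?_eq_some_iff.1 g3).1
          have k1 := (List.getElem?_eq_some_iff.1 h3).2
          have k2 := (List.getElem?_eq_some_iff.1 g3).2
          exact (List.Nodup.getElem_inj_iff hnd).1 (k1.trans (he.trans k2.symm))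
        rw [h4]
        exact g1
      · simp only [hp', hq', if_true, if_false] at he
        rw [he] at h7
        exact absurd (hsub _ h7) hq'
    · by_cases hq' : q ∈ L
      · obtain ⟨j, g1, g2, g3, g5, g7⟩ := key hq' hq
        simp only [hp', hq', if_true, if_false] at he
        rw [← he] at g7
        exact absurd (hsub _ g7) hp'
      · simp only [hp', hq', if_false] at he
        exact Or.inl he
  · rintro p q hp (⟨_, _, i, h1, h2⟩ | ⟨_, _, i, h1, h2⟩)
    · simp only [iL h1, iL h2, if_true]
      have e1 := rho_spec hL.nd hlen h1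
      rw [rho_spec hL.nd hlen h2] at e1
      exact (Option.some.inj e1).symm
    · exact (hp (fun h => dj h (iR h1))).elim
  · rintro p q (⟨_, _, i, h1, h2⟩ | ⟨_, _, i, h1, h2⟩) hp
    · exact absurd (iL h1) hp
    · exact fun h => dj h (iR h2)
  · intro p q hp hq hne
    by_cases hp' : p ∈ L
    · obtain ⟨i, h1, h2, h3, h5, h7⟩ := key hp' hp
      by_cases hq' : q ∈ L
      · obtain ⟨j, g1, g2, g3, g5, g7⟩ := key hq' hq
        simp only [hp', hq', if_true] at hne ⊢
        rw [hG' _ (List.mem_append_left _ h7) _ (List.mem_append_left _ g7)]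
        refine hadj h1 g1 ?_ h2 g2 h3 g3
        rintro rfl
        rw [h3] at g3
        exact hne (Option.some.inj g3)
      · simp only [hp', hq', if_true, if_false]
        rw [hG' _ (List.mem_append_left _ h7) _ (List.mem_append_right _ (mem hq'))]
        exact h5 q (mem hq')
    · by_cases hq' : q ∈ L
      · obtain ⟨j, g1, g2, g3, g5, g7⟩ := key hq' hq
        simp only [hp', hq', if_true, if_false]
        rw [hG' _ (List.mem_append_right _ (mem hp')) _ (List.mem_append_left _ g7), G.adj_comm, g5 p (mem hp'),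
          G.adj_comm]
      · simp only [hp', hq', if_false]
        exact (hG' p (List.mem_append_right _ (mem hp')) q (List.mem_append_right _ (mem hq'))).symm
  · intro p q r t hp hq hr ht h1 h2 h3 h4 h5 h6
    exact crD_of_lt (P := fun x => ¬ x ∈ L ∨ (cutL G L R sL sR).A x) (l := L ++ R) (l' := W ++ R)
      (f := fun x => if x ∈ L then rho sL W x else x) pos hp hq hr ht h1 h2 h3 h4 h5 h6

end

end Pool.Agent.SOK
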