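import Pool.Agent.SOK.Seg
import Pool.Agent.SOV.TstOk

/-! Project SOK, module KDefs: keys, in polynomial time. A key consists of a number `f < 3`, a list `B` of vertices
(one vertex for each block of the other side) and a word `w` (the rows of the blocks of this side on `B`). -/

set_option autoImplicit false

namespace Pool.Agent.SOK

open Pool.Agent.SOC FP Pool.Agent.SOV

/-- keys -/
abbrev Ky : Type := ℕ × List ℕ × List (List Bool)

/-- the row of `x` on `B` -/
def rowB (M : List (List Bool)) (B : List ℕ) (x : ℕ) : List Bool := B.map fun b => adjB M x b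

/-- `x` is adjacent to a member of `B` -/
def attB (M : List (List Bool)) (B : List ℕ) (x : ℕ) : Bool := B.any fun b => adjB M x b

/-- the word of `L` -/
def wordB (M : List (List Bool)) (B L : List ℕ) : List (List Bool) := dst ((L.filter (attB M B)).map (rowB M B))

/-- the matrix with one new vertex, number `M.length`, adjacent to the members of `B` -/
def ext (M : List (List Bool)) (B : List ℕ) : List (List Bool) :=
  ((List.range M.length).map fun i => (List.range M.length).map fun j => adjB M i j) ++
    [(List.range M.length).map fun i => decide (i ∈ B)]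

/-- the order with the context -/
def ctx (M : List (List Bool)) (L : List ℕ) (k : Ky) : Bool :=
  bif decide (k.1 = 0) then tOk M (L ++ k.2.1) else
    (bif decide (k.1 = 1) then tOk (ext M k.2.1) (L ++ (M.length :: k.2.1)) else
      tOk (ext M k.2.1) (L ++ (k.2.1 ++ [M.length])))

/-- the order `L` has the key `k` -/
def good (M : List (List Bool)) (L : List ℕ) (k : Ky) : Bool :=
  decide (wordB M k.2.1 L = k.2.2) && ctx M L k

/-- lists with one more element -/
def stp {α : Type} (S : List α) (Ls : List (List α)) : List (List α) := [] :: S.flatMap fun a => Ls.map fun l => a :: l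

/-- all lists with at most five elements -/
def all5 {α : Type} (S : List α) : List (List α) := stp S (stp S (stp S (stp S (stp S [[]]))))

/-- all words -/
def words : List (List (List Bool)) := all5 (all5 [true, false])

/-- all keys -/
def keys (M : List (List Bool)) : List Ky :=
  (List.range 3).flatMap fun f => (all5 (List.range M.length)).flatMap fun B => words.map fun w => (f, B, w)

theorem mem_stp {α : Type} {S : List α} {Ls : List (List α)} {n : ℕ}
    (h : ∀ l : List α, l.length ≤ n → (∀ x ∈ l, x ∈ S) → l ∈ Ls) (l : List α) (hl : l.length ≤ n + 1)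
    (hS : ∀ x ∈ l, x ∈ S) : l ∈ stp S Ls := by
  unfold stp
  cases l with
  | nil => exact List.mem_cons_self
  | cons a l =>
    refine List.mem_cons_of_mem _ (List.mem_flatMap.2 ⟨a, hS a List.mem_cons_self, List.mem_map_of_mem ?_⟩)
    rw [List.length_cons] at hl
    exact h l (by omega) fun x hx => hS x (List.mem_cons_of_mem _ hx)

theorem mem_all5 {α : Type} {S l : List α} (hl : l.length ≤ 5) (hS : ∀ x ∈ l, x ∈ S) : l ∈ all5 S := by
  have h0 : ∀ l : List α, l.length ≤ 0 → (∀ x ∈ l, x ∈ S) → l ∈ ([[]] : List (List α)) := by
    intro l hl _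
    rw [List.length_eq_zero_iff.1 (by omega : l.length = 0)]
    exact List.mem_cons_self
  exact mem_stp (n := 4) (mem_stp (n := 3) (mem_stp (n := 2) (mem_stp (n := 1) (mem_stp (n := 0) h0)))) l hl hS

theorem mem_words {w : List (List Bool)} (hw : w.length ≤ 5) (h : ∀ r ∈ w, r.length ≤ 5) : w ∈ words :=
  mem_all5 hw fun r hr => mem_all5 (h r hr) fun b _ => by cases b <;> simp

theorem mem_keys {M : List (List Bool)} {f : ℕ} {B : List ℕ} {w : List (List Bool)} (hf : f < 3) (hB : B.length ≤ 5)
    (hM : ∀ b ∈ B, b < M.length) (hw : w.length ≤ 5) (h : ∀ r ∈ w, r.length ≤ 5) : (f, B, w) ∈ keys M :=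
  List.mem_flatMap.2 ⟨f, List.mem_range.2 hf, List.mem_flatMap.2 ⟨B, mem_all5 hB fun b hb => List.mem_range.2 (hM b hb),
    List.mem_map_of_mem (mem_words hw h)⟩⟩

/-! ### polynomial time -/

section
variable {α : Type} [Code α] {M : α → List (List Bool)} {L B : α → List ℕ} {x : α → ℕ} {k : α → Ky}

theorem poly_rowB (hM : Poly M) (hB : Poly B) (hx : Poly x) : Poly (fun a => rowB (M a) (B a) (x a)) := by
  unfold rowB
  refine FP.Poly.map (f := B) (g := fun a b => adjB (M a) (x a) b) hB ?_
  exact AlgoPoly_adjB (by fun_prop) (by fun_prop) (by fun_prop)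

theorem poly_attB (hM : Poly M) (hB : Poly B) (hx : Poly x) : Poly (fun a => attB (M a) (B a) (x a)) := by
  unfold attB
  refine Poly.any (f := B) (g := fun a b => adjB (M a) (x a) b) hB ?_
  exact AlgoPoly_adjB (by fun_prop) (by fun_prop) (by fun_prop)

theorem poly_dst {β : Type} [Code β] [DecidableEq β] {l : α → List β} (hl : Poly l) : Poly (fun a => dst (l a)) := by
  unfold dst
  refine Poly.append ?_ ?_
  · refine FP.Poly.map (f := fun a => ((l a).zip (l a).tail).filter fun p => decide (p.1 ≠ p.2))
      (g := fun _ p => p.1) ?_ (by fun_prop)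
    exact Poly.filter (f := fun a => (l a).zip (l a).tail) (g := fun _ p => decide (p.1 ≠ p.2))
      (Poly.zip hl (by fun_prop)) (by fun_prop)
  · fun_prop

theorem poly_wordB (hM : Poly M) (hB : Poly B) (hL : Poly L) : Poly (fun a => wordB (M a) (B a) (L a)) := by
  unfold wordB
  refine poly_dst ?_
  refine FP.Poly.map (f := fun a => (L a).filter (attB (M a) (B a))) (g := fun a x => rowB (M a) (B a) x) ?_ ?_
  · refine Poly.filter (f := L) (g := fun a x => attB (M a) (B a) x) hL ?_
    exact poly_attB (by fun_prop) (by fun_prop) (by fun_prop)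
  · exact poly_rowB (by fun_prop) (by fun_prop) (by fun_prop)

theorem poly_ext (hM : Poly M) (hB : Poly B) : Poly (fun a => ext (M a) (B a)) := by
  unfold ext
  have hr : Poly (fun a => List.range (M a).length) := Poly.range (by fun_prop) (PolyBdd.length (by fun_prop))
  refine Poly.append ?_ (Poly.cons ?_ (FP.Poly.const []))
  · refine FP.Poly.map (f := fun a => List.range (M a).length)
      (g := fun a i => (List.range (M a).length).map fun j => adjB (M a) i j) hr ?_
    refine FP.Poly.map (f := fun p : α × ℕ => List.range (M p.1).length) (g := fun (p : α × ℕ) j => adjB (M p.1) p.2 j)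
      (hr.comp Poly.fst') ?_
    exact AlgoPoly_adjB (by fun_prop) (by fun_prop) (by fun_prop)
  · refine FP.Poly.map (f := fun a => List.range (M a).length) (g := fun a i => decide (i ∈ B a)) hr ?_
    exact Poly.decideMem (by fun_prop) (by fun_prop)

theorem poly_ctx (hM : Poly M) (hL : Poly L) (hk : Poly k) : Poly (fun a => ctx (M a) (L a) (k a)) := by
  unfold ctx
  have hn : Poly (fun a => (M a).length) := by fun_prop
  have he : Poly (fun a => ext (M a) (k a).2.1) := poly_ext hM (by fun_prop)
  refine Poly.cond (by fun_prop) (poly_tOk hM (by fun_prop)) (Poly.cond (by fun_prop) (poly_tOk he ?_) (poly_tOk he ?_))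
  · fun_prop
  · fun_prop

/-- the test for a key runs in polynomial time -/
theorem poly_good (hM : Poly M) (hL : Poly L) (hk : Poly k) : Poly (fun a => good (M a) (L a) (k a)) := by
  unfold good
  refine Poly.and ?_ (poly_ctx hM hL hk)
  exact Poly.decideEq (poly_wordB hM (by fun_prop) hL) (by fun_prop)

theorem poly_stp {β : Type} [Code β] {S : α → List β} {Ls : α → List (List β)} (hS : Poly S) (hL : Poly Ls) :
    Poly (fun a => stp (S a) (Ls a)) := by
  unfold stp
  refine Poly.cons (FP.Poly.const []) ?_
  refine Poly.flatMap (f := S) (g := fun a b => (Ls a).map fun l => b :: l) hS ?_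
  exact FP.Poly.map (f := fun p : α × β => Ls p.1) (g := fun (p : α × β) l => p.2 :: l) (by fun_prop) (by fun_prop)

theorem poly_all5 {β : Type} [Code β] {S : α → List β} (hS : Poly S) : Poly (fun a => all5 (S a)) := by
  unfold all5
  exact poly_stp hS (poly_stp hS (poly_stp hS (poly_stp hS (poly_stp hS (FP.Poly.const [[]])))))

/-- the list of the keys is computed in polynomial time -/
theorem poly_keys (hM : Poly M) : Poly (fun a => keys (M a)) := by
  unfold keys
  have hr : Poly (fun a => all5 (List.range (M a).length)) :=
    poly_all5 (Poly.range (by fun_prop) (PolyBdd.length (by fun_prop)))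
  refine Poly.flatMap (f := fun _ => List.range 3) (g := fun a f => (all5 (List.range (M a).length)).flatMap fun B =>
    words.map fun w => (f, B, w)) (FP.Poly.const _) ?_
  refine Poly.flatMap (f := fun p : α × ℕ => all5 (List.range (M p.1).length)) (g := fun (p : α × ℕ) B =>
    words.map fun w => (p.2, B, w)) (hr.comp Poly.fst') ?_
  exact FP.Poly.map (f := fun _ : (α × ℕ) × List ℕ => words) (g := fun (p : (α × ℕ) × List ℕ) w => (p.1.2, p.2, w))
    (FP.Poly.const _) (by fun_prop)

end

end Pool.Agent.SOK
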