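import Pool.Agent.SOK.Core

/-! Project SOK, module Lck: locks and representatives. -/

set_option autoImplicit false

namespace Pool.Agent.SOK

open Pool.Agent.SOC Pool.Agent.SOD Pool.Agent.RUP Pool.Agent.SOF Pool.Agent.SOG Pool.Agent.SOV

variable {V : Type} {G : SimpleGraph V}

/-- the locked words, by representatives -/
def LLk (G : SimpleGraph V) (W B : List V) : Prop := ∃ p s q r,
  ((W = [s, p] ∧ B = [r, q]) ∨ (W = [p, s] ∧ B = [q, r])) ∧ G.Adj p q ∧ G.Adj p r ∧ G.Adj s q ∧ ¬ G.Adj s r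

/-- the vertices of a block of the side and of its representative -/
theorem K_seg [DecidableEq V] {L R : List V} {sL sR : List (List V)} (hs : (L ++ R).Nodup) (eR : sR.flatten = R) {x y : V}
    (hx : x ∈ L) (h : (cutL G L R sL sR).K x y) : ∃ i, InS sL i x ∧ InS sL i y := by
  rcases h with ⟨_, _, i, h1, h2⟩ | ⟨_, _, i, h1, _⟩
  · exact ⟨i, h1, h2⟩
  · have h3 := inS_mem h1
    rw [eR] at h3
    exact (cutL_disj hs hx h3).elim

theorem K_seg' [DecidableEq V] {L R : List V} {sL sR : List (List V)} (hs : (L ++ R).Nodup) (eL : sL.flatten = L) {x y : V}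
    (hx : x ∈ R) (h : (cutL G L R sL sR).K x y) : ∃ i, InS sR i x ∧ InS sR i y := by
  rcases h with ⟨_, _, i, h1, _⟩ | ⟨_, _, i, h1, h2⟩
  · have h3 := inS_mem h1
    rw [eL] at h3
    exact (cutL_disj hs h3 hx).elim
  · exact ⟨i, h1, h2⟩

/-- lists with two members -/
theorem two_len {α : Type} {l : List α} {i j : ℕ} (hij : i ≠ j) (hi : i < l.length) (hj : j < l.length)
    (h : ∀ k < l.length, k = i ∨ k = j) : ∃ x y, l = [x, y] ∧ ((i = 0 ∧ j = 1) ∨ (i = 1 ∧ j = 0)) := by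
  match l, hi, hj, h with
  | [], hi, _, _ => exact absurd hi (by simp)
  | [x], hi, hj, _ =>
    simp only [List.length_cons, List.length_nil] at hi hj
    omega
  | [x, y], hi, hj, _ =>
    refine ⟨x, y, rfl, ?_⟩
    simp only [List.length_cons, List.length_nil] at hi hj
    omega
  | x :: y :: z :: t, hi, hj, h =>
    exfalso
    have h0 := h 0 (by simp)
    have h1 := h 1 (by simp)
    have h2 := h 2 (by simp)
    omega

section
variable [DecidableEq V] {L R B W W' : List V} {sL sR : List (List V)}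

/-- a lock gives locked words -/
theorem lock_llk (hs : IsEnum (L ++ R)) (hL : Sd G R sL W') (hR : Sd G L sR B) (eL : sL.flatten = L) (eR : sR.flatten = R)
    (hWL : ∀ w ∈ W, w ∈ L) (hlen : W.length = W'.length)
    (hrow : ∀ {i : ℕ} {a b : V}, W'[i]? = some a → W[i]? = some b → SR G R a b) {p s q r : V}
    (h : Lock (cutL G L R sL sR) G (CrD (L ++ R)) p s q r) : LLk G W B := by
  have mem : ∀ {x : V}, ¬ x ∈ L → x ∈ R := fun {x} h => (List.mem_append.1 (hs.2 x)).resolve_left h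
  have pL : p ∈ L := h.sp
  have sL' : s ∈ L := h.ss
  have qR : q ∈ R := mem h.sq
  have rR : r ∈ R := mem h.sr
  have ap : Atd G R p := ⟨q, qR, h.pq⟩
  have as : Atd G R s := ⟨q, qR, h.aq⟩
  have aq : Atd G L q := ⟨p, pL, h.pq.symm⟩
  have ar : Atd G L r := ⟨p, pL, h.pr.symm⟩
  obtain ⟨i, hi⟩ := seg_of eL pL
  obtain ⟨j, hj⟩ := seg_of eL sL'
  obtain ⟨k, hk⟩ := seg_of eR qR
  obtain ⟨l, hl⟩ := seg_of eR rR
  have hij : i ≠ j := by
    rintro rfl
    exact h.ar ((hL.same hi hj ap as r rR).1 h.pr)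
  have hkl : k ≠ l := by
    rintro rfl
    exact h.ar ((hR.same hk hl aq ar s sL').1 h.aq.symm).symm
  -- all blocks are among the four
  have cL : ∀ n < W'.length, n = i ∨ n = j := by
    intro n hn
    obtain ⟨g1, g2⟩ := hL.rep (List.getElem?_eq_getElem hn)
    have g3 : W'[n] ∈ L := by rw [← eL]; exact inS_mem g1
    rcases h.cov W'[n] (Or.inl ⟨g3, g2⟩) with g | g | g | g
    · obtain ⟨m, m1, m2⟩ := K_seg hs.1 eR g3 g
      exact Or.inl ((inS_uniq hL.nd g1 m1).trans (inS_uniq hL.nd hi m2).symm)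
    · obtain ⟨m, m1, m2⟩ := K_seg hs.1 eR g3 g
      exact Or.inr ((inS_uniq hL.nd g1 m1).trans (inS_uniq hL.nd hj m2).symm)
    · obtain ⟨m, m1, m2⟩ := K_seg hs.1 eR g3 g
      have m3 := inS_mem m2
      rw [eL] at m3
      exact absurd m3 h.sq
    · obtain ⟨m, m1, m2⟩ := K_seg hs.1 eR g3 g
      have m3 := inS_mem m2
      rw [eL] at m3
      exact absurd m3 h.sr
  have cR : ∀ n < B.length, n = k ∨ n = l := by
    intro n hn
    obtain ⟨g1, g2⟩ := hR.rep (List.getElem?_eq_getElem hn)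
    have g3 : B[n] ∈ R := by rw [← eR]; exact inS_mem g1
    rcases h.cov B[n] (Or.inr ⟨g3, g2⟩) with g | g | g | g
    · obtain ⟨m, m1, m2⟩ := K_seg' hs.1 eL g3 g
      have m3 := inS_mem m2
      rw [eR] at m3
      exact (cutL_disj hs.1 pL m3).elim
    · obtain ⟨m, m1, m2⟩ := K_seg' hs.1 eL g3 g
      have m3 := inS_mem m2
      rw [eR] at m3
      exact (cutL_disj hs.1 sL' m3).elim
    · obtain ⟨m, m1, m2⟩ := K_seg' hs.1 eL g3 g
      exact Or.inl ((inS_uniq hR.nd g1 m1).trans (inS_uniq hR.nd hk m2).symm)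
    · obtain ⟨m, m1, m2⟩ := K_seg' hs.1 eL g3 g
      exact Or.inr ((inS_uniq hR.nd g1 m1).trans (inS_uniq hR.nd hl m2).symm)
  have li := inS_len hi
  have lj := inS_len hj
  have lk := inS_len hk
  have ll := inS_len hl
  rw [← hL.len] at li lj
  rw [← hR.len] at lk ll
  rw [← hlen] at cL li lj
  obtain ⟨w0, w1, eW, cW⟩ := two_len hij li lj cL
  obtain ⟨b0, b1, eB, cB⟩ := two_len hkl lk ll cR
  -- representatives
  have hp : ∀ {w : V}, W[i]? = some w → SR G R p w := fun {w} hw => by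
    have h1 : i < W'.length := by rw [← hlen]; exact li
    have h2 := List.getElem?_eq_getElem h1
    exact (hL.same hi (hL.rep h2).1 ap (hL.rep h2).2).trans (hrow h2 hw)
  have hs' : ∀ {w : V}, W[j]? = some w → SR G R s w := fun {w} hw => by
    have h1 : j < W'.length := by rw [← hlen]; exact lj
    have h2 := List.getElem?_eq_getElem h1
    exact (hL.same hj (hL.rep h2).1 as (hL.rep h2).2).trans (hrow h2 hw)
  have hq : ∀ {w : V}, B[k]? = some w → SR G L q w := fun hw => hR.same hk (hR.rep hw).1 aq (hR.rep hw).2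
  have hr : ∀ {w : V}, B[l]? = some w → SR G L r w := fun hw => hR.same hl (hR.rep hw).1 ar (hR.rep hw).2
  have inB : ∀ {w : V}, w ∈ B → w ∈ R := by
    intro w hw
    obtain ⟨n, hn⟩ := List.mem_iff_getElem?.1 hw
    rw [← eR]
    exact inS_mem (hR.rep hn).1
  -- adjacency of the representatives
  have adj : ∀ {p' s' q' r' : V}, W[i]? = some p' → W[j]? = some s' → B[k]? = some q' → B[l]? = some r' →
      G.Adj p' q' ∧ G.Adj p' r' ∧ G.Adj s' q' ∧ ¬ G.Adj s' r' := by
    intro p' s' q' r' k1 k2 k3 k4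
    have m1 := hWL _ (List.mem_of_getElem? k1)
    have m2 := hWL _ (List.mem_of_getElem? k2)
    have e1 := (hp k1 q qR).1 h.pq
    have e2 := (hp k1 r rR).1 h.pr
    have e3 := (hs' k2 q qR).1 h.aq
    have e4 : ¬ G.Adj s' r := fun h' => h.ar ((hs' k2 r rR).2 h')
    exact ⟨((hq k3 p' m1).1 e1.symm).symm, ((hr k4 p' m1).1 e2.symm).symm, ((hq k3 s' m2).1 e3.symm).symm,
      fun h' => e4 ((hr k4 s' m2).2 h'.symm).symm⟩
  -- positions
  have ordL : i < j → L.idxOf p < L.idxOf s := fun hlt => by rw [← eL]; exact inS_lt hL.nd hi hj hlt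
  have ordL' : j < i → L.idxOf s < L.idxOf p := fun hlt => by rw [← eL]; exact inS_lt hL.nd hj hi hlt
  have ordR : k < l → R.idxOf q < R.idxOf r := fun hlt => by rw [← eR]; exact inS_lt hR.nd hk hl hlt
  have ordR' : l < k → R.idxOf r < R.idxOf q := fun hlt => by rw [← eR]; exact inS_lt hR.nd hl hk hlt
  have hx := h.x.2
  have x1 := idxL (R := R) pL
  have x2 := idxL (R := R) sL'
  have x3 := idxR hs.1 qR
  have x4 := idxR hs.1 rR
  have x5 := List.idxOf_lt_length_iff.2 pL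
  have x6 := List.idxOf_lt_length_iff.2 sL'
  unfold Cross SOC.Btw at hx
  subst eW eB
  rcases cW with ⟨rfl, rfl⟩ | ⟨rfl, rfl⟩ <;> rcases cB with ⟨rfl, rfl⟩ | ⟨rfl, rfl⟩
  · exact ⟨w0, w1, b0, b1, Or.inr ⟨rfl, rfl⟩, adj rfl rfl rfl rfl⟩
  · have y1 := ordL (by omega)
    have y2 := ordR' (by omega)
    omega
  · have y1 := ordL' (by omega)
    have y2 := ordR (by omega)
    omega
  · exact ⟨w1, w0, b1, b0, Or.inl ⟨rfl, rfl⟩, adj rfl rfl rfl rfl⟩

end

end Pool.Agent.SOK
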