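import Pool.Agent.SOK.LiftS
import Pool.Agent.SOK.GadU
import Pool.Agent.SOK.Rule

/-! Project SOK, module LstD: cuts between lists. -/

set_option autoImplicit false

namespace Pool.Agent.SOK

open Pool.Agent.SOC Pool.Agent.SOD Pool.Agent.RUP Pool.Agent.SOF Pool.Agent.SOG Pool.Agent.SOV Pool.Agent.SOS
open Pool.Agent.SOE (EPC)

variable {V : Type} {G : SimpleGraph V}

/-- the cut between the lists is an E-P-cut of the graph induced by the members of the lists -/
structure LEp (G : SimpleGraph V) (L R : List V) : Prop where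
  nd : (L ++ R).Nodup
  rig : ∀ {a b c d}, a ∈ L → b ∈ R → c ∈ L → d ∈ R → G.Adj a b → G.Adj c d → a ≠ c → b ≠ d →
    (G.Adj a c ∧ G.Adj b d) ∨ (G.Adj a d ∧ G.Adj b c)
  w4 : ∀ {p p' q q' r}, p ∈ L → p' ∈ R → q ∈ L → q' ∈ R → r ∈ L ++ R → ¬ Pool.Agent.SOW.W4 G p p' q q' r

/-- `B` are members of `R`, one in every block of `R`, in this order -/
def LRp (G : SimpleGraph V) (L R B : List V) : Prop := ∃ sR, sR.flatten = R ∧ Sd G L sR B

/-- `W` are members of `L` which stand for the blocks of `L` -/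
def LWr (G : SimpleGraph V) (R L W : List V) : Prop := ∃ sL rL, sL.flatten = L ∧ Sd G R sL rL ∧ W.length = rL.length ∧
  W.Nodup ∧ (∀ w ∈ W, w ∈ L) ∧ ∀ (i : ℕ) (w x : V), W[i]? = some w → rL[i]? = some x → SR G R w x

theorem LEp.mono {L R L' R' : List V} (h : LEp G L R) (hn : (L' ++ R').Nodup) (hL : ∀ x ∈ L', x ∈ L) (hR : ∀ x ∈ R', x ∈ R) :
    LEp G L' R' where
  nd := hn
  rig := fun ha hb hc hd => h.rig (hL _ ha) (hR _ hb) (hL _ hc) (hR _ hd)
  w4 := fun hp hp' hq hq' hr => h.w4 (hL _ hp) (hR _ hp') (hL _ hq) (hR _ hq') (by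
    rcases List.mem_append.1 hr with h1 | h1
    · exact List.mem_append_left _ (hL _ h1)
    · exact List.mem_append_right _ (hR _ h1))

/-- the rule for the adjacency, for lists -/
def RlL (G : SimpleGraph V) (K D : List V) (x y : V) : Prop :=
  ¬ (SR G D x y ∧ ∀ z ∈ K, Atd G D z → ¬ ((∀ w ∈ D, G.Adj z w → G.Adj x w) ∧ ∃ w ∈ D, G.Adj x w ∧ ¬ G.Adj z w))

/-- `B` represents the rows of the attached members of `R` -/
def CovL (G : SimpleGraph V) (L R B : List V) : Prop := (∀ b ∈ B, b ∈ R) ∧ ∀ z ∈ R, Atd G L z → ∃ b ∈ B, SR G L z b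

theorem CovL.sub {L R B : List V} (h : CovL G L R B) {x y : V} (hx : x ∈ L) (hy : y ∈ L) :
    (∀ w ∈ B, G.Adj x w → G.Adj y w) ↔ (∀ w ∈ R, G.Adj x w → G.Adj y w) := by
  constructor
  · intro h1 w hw e
    obtain ⟨b, hb, hs⟩ := h.2 w hw ⟨x, hx, e.symm⟩
    exact ((hs y hy).2 (h1 b hb ((hs x hx).1 e.symm).symm).symm).symm
  · intro h1 w hw
    exact h1 w (h.1 w hw)

theorem CovL.sr {L R B : List V} (h : CovL G L R B) {x y : V} (hx : x ∈ L) (hy : y ∈ L) :
    SR G B x y ↔ SR G R x y := by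
  have e1 := h.sub hx hy
  have e2 := h.sub hy hx
  constructor
  · intro h1 z hz
    exact ⟨e1.1 (fun w hw => (h1 w hw).1) z hz, e2.1 (fun w hw => (h1 w hw).2) z hz⟩
  · intro h1 z hz
    exact h1 z (h.1 z hz)

theorem CovL.ex {L R B : List V} (h : CovL G L R B) {x y : V} (hx : x ∈ L) (hy : y ∈ L) :
    (∃ w ∈ B, G.Adj x w ∧ ¬ G.Adj y w) ↔ (∃ w ∈ R, G.Adj x w ∧ ¬ G.Adj y w) := by
  have e1 := h.sub hx hy
  constructor
  · rintro ⟨w, hw, h2⟩
    exact ⟨w, h.1 w hw, h2⟩
  · rintro ⟨w, hw, h2, h3⟩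
    by_contra hn
    push Not at hn
    exact h3 (e1.1 hn w hw h2)

theorem CovL.att {L R B : List V} (h : CovL G L R B) {x : V} (hx : x ∈ L) : Atd G B x ↔ Atd G R x := by
  constructor
  · rintro ⟨z, hz, e⟩
    exact ⟨z, h.1 z hz, e⟩
  · rintro ⟨z, hz, e⟩
    obtain ⟨b, hb, hs⟩ := h.2 z hz ⟨x, hx, e.symm⟩
    exact ⟨b, hb, ((hs x hx).1 e.symm).symm⟩

/-- the rule does not change when the other side is replaced by representatives -/
theorem CovL.rl {L R B : List V} (h : CovL G L R B) {x y : V} (hx : x ∈ L) (hy : y ∈ L) :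
    RlL G L B x y ↔ RlL G L R x y := by
  unfold RlL
  rw [h.sr hx hy]
  refine not_congr (and_congr Iff.rfl (forall₂_congr fun z hz => ?_))
  rw [h.att hz, h.sub hz hx, h.ex hx hz]

/-- the rule does not change when this side is replaced by representatives -/
theorem CovL.rl' {L R W : List V} (h : CovL G R L W) {x y : V} : RlL G W R x y ↔ RlL G L R x y := by
  unfold RlL
  refine not_congr (and_congr Iff.rfl ?_)
  constructor
  · intro h1 z hz hA
    obtain ⟨w, hw, hs⟩ := h.2 z hz hA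
    have hA' : Atd G R w := by
      obtain ⟨u, hu, e⟩ := hA
      exact ⟨u, hu, (hs u hu).1 e⟩
    rintro ⟨h2, u, hu, h3, h4⟩
    exact h1 w hw hA' ⟨fun v hv e => h2 v hv ((hs v hv).2 e), u, hu, h3, fun e => h4 ((hs u hu).2 e)⟩
  · intro h1 z hz hA
    exact h1 z (h.1 z hz) hA

theorem RlL.congr {K D : List V} {x y x' y' : V} (hx : SR G D x x') (hy : SR G D y y') : RlL G K D x y ↔ RlL G K D x' y' := by
  unfold RlL
  refine not_congr (and_congr ⟨fun h => hx.symm.trans (h.trans hy), fun h => hx.trans (h.trans hy.symm)⟩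
    (forall₂_congr fun z hz => imp_congr Iff.rfl (not_congr (and_congr ?_ ?_))))
  · exact forall₂_congr fun w hw => imp_congr Iff.rfl (hx w hw)
  · exact exists_congr fun w => and_congr_right fun hw => and_congr (hx w hw) Iff.rfl

/-- representatives cover the attached members -/
theorem LRp.cov {L R B : List V} (h : LRp G L R B) : CovL G L R B := by
  obtain ⟨sR, rfl, h⟩ := h
  refine ⟨?_, ?_⟩
  · intro b hb
    obtain ⟨i, hi⟩ := List.mem_iff_getElem?.1 hb
    exact inS_mem (h.rep hi).1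
  · intro z hz ha
    obtain ⟨i, hi⟩ := inS_ex hz
    obtain ⟨b, h1, h2, h3⟩ := h.ex hi
    exact ⟨b, List.mem_of_getElem? h1, h.same hi h2 ha h3⟩

theorem LWr.cov {R L W : List V} (h : LWr G R L W) : CovL G R L W := by
  obtain ⟨sL, rL, rfl, h, hlen, _, hs, hr⟩ := h
  refine ⟨hs, ?_⟩
  intro z hz ha
  obtain ⟨i, hi⟩ := inS_ex hz
  obtain ⟨b, h1, h2, h3⟩ := h.ex hi
  have hl : i < W.length := by
    rw [hlen]
    exact (List.getElem?_eq_some_iff.1 h1).1
  refine ⟨W[i], List.getElem_mem hl, (h.same hi h2 ha h3).trans (hr i _ _ (List.getElem?_eq_getElem hl) h1).symm⟩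

/-- single vertices as blocks -/
theorem LWr.sd {R L W : List V} (h : LWr G R L W) : Sd G R (W.map fun b => [b]) W := by
  obtain ⟨sL, rL, rfl, h, hlen, hn, hs, hr⟩ := h
  have get : ∀ {i : ℕ} {b : V}, W[i]? = some b → ∃ x, rL[i]? = some x ∧ SR G R b x ∧ Atd G R x := by
    intro i b hb
    have hl : i < rL.length := by
      rw [← hlen]
      exact (List.getElem?_eq_some_iff.1 hb).1
    have e := List.getElem?_eq_getElem hl
    exact ⟨_, e, hr i _ _ hb e, (h.rep e).2⟩
  refine ⟨by rw [flatten_single]; exact hn, ?_, by rw [List.length_map], ?_, ?_⟩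
  · intro i x y hx hy _ _
    rw [inS_single] at hx hy
    rw [hx] at hy
    rw [Option.some.inj hy]
    exact fun _ _ => Iff.rfl
  · intro i b hb
    obtain ⟨x, _, h2, u, hu, e⟩ := get hb
    exact ⟨inS_single.2 hb, u, hu, (h2 u hu).2 e⟩
  · intro i b c hb hc hbc
    obtain ⟨x, h1, h2, _⟩ := get hb
    obtain ⟨y, g1, g2, _⟩ := get hc
    exact h.mx h1 g1 (h2.symm.trans (hbc.trans g2))

/-- the blocks of `R` on representatives of `L` -/
theorem Sd.cov {L R W B : List V} {sR : List (List V)} (h : Sd G L sR B) (hc : CovL G R L W) (e : sR.flatten = R) :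
    Sd G W sR B := by
  have iR : ∀ {i x}, InS sR i x → x ∈ R := fun h => by rw [← e]; exact inS_mem h
  refine ⟨h.nd, ?_, h.len, ?_, ?_⟩
  · intro i x y hx hy ax ay
    exact (hc.sr (iR hx) (iR hy)).2 (h.same hx hy ((hc.att (iR hx)).1 ax) ((hc.att (iR hy)).1 ay))
  · intro i b hb
    obtain ⟨h1, h2⟩ := h.rep hb
    exact ⟨h1, (hc.att (iR h1)).2 h2⟩
  · intro i b c hb hc' hs
    exact h.mx hb hc' ((hc.sr (iR (h.rep hb).1) (iR (h.rep hc').1)).1 hs)

/-- single representatives as blocks -/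
theorem sd_single {L B : List V} {sR : List (List V)} (h : Sd G L sR B) : Sd G L (B.map fun b => [b]) B := by
  classical
  have hn : B.Nodup := by
    rw [List.nodup_iff_injective_getElem]
    intro i j hij
    have h1 := (h.rep (List.getElem?_eq_getElem i.2)).1
    have h2 := (h.rep (List.getElem?_eq_getElem j.2)).1
    have hij' : B[i.1] = B[j.1] := hij
    rw [hij'] at h1
    exact Fin.ext (inS_uniq h.nd h1 h2)
  refine ⟨by rw [flatten_single]; exact hn, ?_, by rw [List.length_map], ?_, h.mx⟩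
  · intro i x y hx hy _ _
    rw [inS_single] at hx hy
    rw [hx] at hy
    rw [Option.some.inj hy]
    exact fun _ _ => Iff.rfl
  · intro i b hb
    exact ⟨inS_single.2 hb, (h.rep hb).2⟩

end Pool.Agent.SOK
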