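import Pool.Agent.SOK.LstD

/-! Project SOK, module RulL: the rule for the adjacency of vertices in different blocks, for lists. -/

set_option autoImplicit false

namespace Pool.Agent.SOK

open Pool.Agent.SOC Pool.Agent.SOD Pool.Agent.RUP Pool.Agent.SOF Pool.Agent.SOG Pool.Agent.SOV Pool.Agent.SOS
open Pool.Agent.SOE (EPC)

/-- the vertices of a block of the side -/
theorem K_segL {V : Type} [DecidableEq V] {G : SimpleGraph V} {L R : List V} {sL sR : List (List V)} (hs : (L ++ R).Nodup)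
    (eR : sR.flatten = R) {x y : V} (hx : x ∈ L) (h : (cutL G L R sL sR).K x y) : ∃ i, InS sL i x ∧ InS sL i y := by
  rcases h with ⟨_, _, i, h1, h2⟩ | ⟨_, _, i, h1, _⟩
  · exact ⟨i, h1, h2⟩
  · have h3 := inS_mem h1
    rw [eR] at h3
    exact (cutL_disj hs hx h3).elim

variable {U V : Type} {G' : SimpleGraph U} {G : SimpleGraph V} {f : U → V}

/-- E-P-cuts of the induced graph -/
theorem epc_lift (hadj : ∀ a b, G'.Adj a b ↔ G.Adj (f a) (f b)) (hf : Function.Injective f)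
    {K D : List U} (h : LEp G (K.map f) (D.map f)) (he : ∀ v, v ∈ K ++ D) : EPC G' {x | x ∈ K} where
  cut := by
    intro x hx x' hx' y hy y' hy' hr
    have mD : ∀ {z}, z ∉ K → z ∈ D := fun {z} hz => (List.mem_append.1 (he z)).resolve_left hz
    rcases h.rig (List.mem_map_of_mem hx) (List.mem_map_of_mem (mD hy)) (List.mem_map_of_mem hx')
      (List.mem_map_of_mem (mD hy')) ((hadj _ _).1 hr.ab) ((hadj _ _).1 hr.cd) (fun e => hr.ac (hf e))
      (fun e => hr.bd (hf e)) with ⟨h1, h2⟩ | ⟨h1, h2⟩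
    · exact hr.n1 ⟨(hadj _ _).2 h1, (hadj _ _).2 h2⟩
    · exact hr.n2 ⟨(hadj _ _).2 h1, (hadj _ _).2 h2⟩
  w4 := by
    intro p p' q q' r hw hs
    have mD : ∀ {z}, z ∉ K → z ∈ D := fun {z} hz => (List.mem_append.1 (he z)).resolve_left hz
    have hw' : Pool.Agent.SOW.W4 G (f p) (f p') (f q) (f q') (f r) :=
      ⟨fun e => hw.n1 ((hadj _ _).2 e), fun e => hw.n2 ((hadj _ _).2 e), fun e => hw.d1 (hf e), fun e => hw.d2 (hf e),
        (hadj _ _).1 hw.pq, (hadj _ _).1 hw.pq', (hadj _ _).1 hw.p'q, (hadj _ _).1 hw.p'q', (hadj _ _).1 hw.rp,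
        (hadj _ _).1 hw.rp', (hadj _ _).1 hw.rq, (hadj _ _).1 hw.rq'⟩
    have mr : f r ∈ K.map f ++ D.map f := by
      rw [← List.map_append]
      exact List.mem_map_of_mem (he r)
    obtain ⟨s1, s2⟩ := hs
    have i : ∀ {z}, z ∈ K → f z ∈ K.map f := fun h => List.mem_map_of_mem h
    have j : ∀ {z}, z ∉ K → f z ∈ D.map f := fun h => List.mem_map_of_mem (mD h)
    by_cases h1 : p ∈ K
    · have h2 : p' ∉ K := fun h2 => s1 ⟨fun _ => h2, fun _ => h1⟩
      by_cases h3 : q ∈ K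
      · have h4 : q' ∉ K := fun h4 => s2 ⟨fun _ => h4, fun _ => h3⟩
        exact h.w4 (i h1) (j h2) (i h3) (j h4) mr hw'
      · have h4 : q' ∈ K := by
          by_contra h4
          exact s2 ⟨fun h => absurd h h3, fun h => absurd h h4⟩
        exact h.w4 (i h1) (j h2) (i h4) (j h3) mr (Pool.Agent.SOE.w4_swap' hw')
    · have h2 : p' ∈ K := by
        by_contra h2
        exact s1 ⟨fun h => absurd h h1, fun h => absurd h h2⟩
      by_cases h3 : q ∈ K
      · have h4 : q' ∉ K := fun h4 => s2 ⟨fun _ => h4, fun _ => h3⟩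
        exact h.w4 (i h2) (j h1) (i h3) (j h4) mr (Pool.Agent.SOE.w4_swap hw')
      · have h4 : q' ∈ K := by
          by_contra h4
          exact s2 ⟨fun h => absurd h h3, fun h => absurd h h4⟩
        exact h.w4 (i h2) (j h1) (i h4) (j h3) mr (Pool.Agent.SOE.w4_swap (Pool.Agent.SOE.w4_swap' hw'))

/-- a type on which the lists are an enumeration -/
structure Lft (G : SimpleGraph V) (K D : List V) (f : U → V) (G' : SimpleGraph U) (K' D' : List U) : Prop where
  inj : Function.Injective f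
  adj : ∀ a b, G'.Adj a b ↔ G.Adj (f a) (f b)
  mK : K'.map f = K
  mD : D'.map f = D
  en : IsEnum (K' ++ D')

theorem lft_ex {K D : List V} (h : (K ++ D).Nodup) : ∃ K' D' : List {v // v ∈ K ++ D},
    Lft G K D (Subtype.val : {v // v ∈ K ++ D} → V) (G.comap Subtype.val) K' D' := by
  obtain ⟨l', hl⟩ := lift_sub (l := K ++ D)
  obtain ⟨K', D', rfl, hK, hD⟩ := List.map_eq_append_iff.1 hl
  refine ⟨K', D', Subtype.val_injective, fun _ _ => Iff.rfl, hK, hD, ?_, ?_⟩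
  · have h1 : ((K' ++ D').map Subtype.val).Nodup := by rw [hl]; exact h
    exact List.Nodup.of_map _ h1
  · intro v
    have h1 : v.val ∈ (K' ++ D').map Subtype.val := by rw [hl]; exact v.2
    obtain ⟨u, hu, e⟩ := List.mem_map.1 h1
    rwa [Subtype.ext e] at hu

section
variable {K D : List V} {K' D' : List U}

theorem Lft.seg (h : Lft G K D f G' K' D') {sK : List (List V)} {rK : List V} (hK : Sd G D sK rK) (eK : sK.flatten = K) :
    ∃ sK' rK', sK'.map (List.map f) = sK ∧ rK'.map f = rK ∧ sK'.flatten = K' ∧ Sd G' D' sK' rK' := by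
  obtain ⟨sK', h1, h2⟩ := lift_seg (f := f) (segs := sK) (K := K') (by rw [eK, h.mK])
  obtain ⟨rK', h3⟩ := lift_list (f := f) (l := rK) fun x hx => by
    obtain ⟨i, hi⟩ := List.mem_iff_getElem?.1 hx
    have h4 := inS_mem (hK.rep hi).1
    rw [eK, ← h.mK] at h4
    obtain ⟨y, _, e⟩ := List.mem_map.1 h4
    exact ⟨y, e⟩
  refine ⟨sK', rK', h1, h3, h2, ?_⟩
  rw [← h1, ← h3, ← h.mD] at hK
  exact (sd_map h.inj h.adj).1 hK

theorem Lft.seg' (h : Lft G K D f G' K' D') {sD : List (List V)} {rD : List V} (hD : Sd G K sD rD) (eD : sD.flatten = D) :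
    ∃ sD' rD', sD'.map (List.map f) = sD ∧ rD'.map f = rD ∧ sD'.flatten = D' ∧ Sd G' K' sD' rD' := by
  obtain ⟨sD', h1, h2⟩ := lift_seg (f := f) (segs := sD) (K := D') (by rw [eD, h.mD])
  obtain ⟨rD', h3⟩ := lift_list (f := f) (l := rD) fun x hx => by
    obtain ⟨i, hi⟩ := List.mem_iff_getElem?.1 hx
    have h4 := inS_mem (hD.rep hi).1
    rw [eD, ← h.mD] at h4
    obtain ⟨y, _, e⟩ := List.mem_map.1 h4
    exact ⟨y, e⟩
  refine ⟨sD', rD', h1, h3, h2, ?_⟩
  rw [← h1, ← h3, ← h.mK] at hD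
  exact (sd_map h.inj h.adj).1 hD

theorem Lft.epc (h : Lft G K D f G' K' D') (hE : LEp G K D) : EPC G' {x | x ∈ K'} := by
  rw [← h.mK, ← h.mD] at hE
  exact epc_lift h.adj h.inj hE h.en.2

theorem rl_map (h : Lft G K D f G' K' D') {x y : U} : Rl G' (fun x => x ∈ K') x y ↔ RlL G K D (f x) (f y) := by
  have nK : ∀ {z}, z ∈ D' → ¬ z ∈ K' := fun hz hz' => (List.nodup_append.1 h.en.1).2.2 _ hz' _ hz rfl
  have mD : ∀ {z}, ¬ z ∈ K' → z ∈ D' := fun {z} hz => (List.mem_append.1 (h.en.2 z)).resolve_left hz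
  have s1 : ∀ {a b : U}, Sub G' (fun x => x ∈ K') a b ↔ ∀ w ∈ D, G.Adj (f a) w → G.Adj (f b) w := by
    intro a b
    constructor
    · intro h1 w hw e
      rw [← h.mD] at hw
      obtain ⟨u, hu, rfl⟩ := List.mem_map.1 hw
      exact (h.adj _ _).1 (h1 u (nK hu) ((h.adj _ _).2 e))
    · intro h1 z hz e
      exact (h.adj _ _).2 (h1 (f z) (by rw [← h.mD]; exact List.mem_map_of_mem (mD hz)) ((h.adj _ _).1 e))
  have s2 : ∀ {a b : U}, (∃ z, ¬ z ∈ K' ∧ G'.Adj a z ∧ ¬ G'.Adj b z) ↔ ∃ w ∈ D, G.Adj (f a) w ∧ ¬ G.Adj (f b) w := by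
    intro a b
    constructor
    · rintro ⟨z, hz, e1, e2⟩
      exact ⟨f z, by rw [← h.mD]; exact List.mem_map_of_mem (mD hz), (h.adj _ _).1 e1, fun e => e2 ((h.adj _ _).2 e)⟩
    · rintro ⟨w, hw, e1, e2⟩
      rw [← h.mD] at hw
      obtain ⟨u, hu, rfl⟩ := List.mem_map.1 hw
      exact ⟨u, nK hu, (h.adj _ _).2 e1, fun e => e2 ((h.adj _ _).1 e)⟩
  have s3 : ∀ {a : U}, At G' (fun x => x ∈ K') a ↔ Atd G D (f a) := by
    intro a
    constructor
    · rintro ⟨z, hz, e⟩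
      exact ⟨f z, by rw [← h.mD]; exact List.mem_map_of_mem (mD hz), (h.adj _ _).1 e⟩
    · rintro ⟨w, hw, e⟩
      rw [← h.mD] at hw
      obtain ⟨u, hu, rfl⟩ := List.mem_map.1 hw
      exact ⟨u, nK hu, (h.adj _ _).2 e⟩
  unfold Rl RlL Str
  rw [s1, s1]
  refine not_congr (and_congr ?_ ?_)
  · constructor
    · rintro ⟨h1, h2⟩ w hw
      exact ⟨h1 w hw, h2 w hw⟩
    · intro h1
      exact ⟨fun w hw => (h1 w hw).1, fun w hw => (h1 w hw).2⟩
  · constructor
    · intro h1 z hz hA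
      rw [← h.mK] at hz
      obtain ⟨u, hu, rfl⟩ := List.mem_map.1 hz
      have h2 := h1 u hu (s3.2 hA)
      rw [s1, s2] at h2
      exact h2
    · intro h1 z hz hA
      have h2 := h1 (f z) (by rw [← h.mK]; exact List.mem_map_of_mem hz) (s3.1 hA)
      rw [s1, s2]
      exact h2

end

theorem Lft.val [DecidableEq U] [DecidableEq V] {K D : List V} {K' D' : List U} (h : Lft G K D f G' K' D') :
    Val G (K ++ D) ↔ Val G' (K' ++ D') := by
  rw [← h.mK, ← h.mD, ← List.map_append]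
  exact (Val_map (G' := G') (G := G) (l := K' ++ D') (f := f) (fun _ _ _ _ e => h.inj e) (fun a _ b _ => h.adj a b)).symm

theorem rule_lft [DecidableEq U] [DecidableEq V] (f1 : RuleF) (f2 : SixF) {K D : List V} {K' D' : List U}
    (h : Lft G K D f G' K' D') {sK sD : List (List V)} {rK rD : List V}
    (hE : LEp G K D) (hK : Sd G D sK rK) (eK : sK.flatten = K) (hD : Sd G K sD rD) (eD : sD.flatten = D)
    (hv : Val G (K ++ D)) {i j : ℕ} {x y : V} (hx : InS sK i x) (hy : InS sK j y) (hij : i ≠ j) (ax : Atd G D x)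
    (ay : Atd G D y) : G.Adj x y ↔ RlL G K D x y := by
  obtain ⟨sK', rK', h1, h2, h3, h4⟩ := h.seg hK eK
  obtain ⟨sD', rD', g1, g2, g3, g4⟩ := h.seg' hD eD
  have he := h.epc hE
  obtain ⟨T, hT⟩ := (Val_enum h.en).1 (h.val.1 hv)
  have cs : CutS (cutL G' K' D' sK' sD') G' (K' ++ D') := ⟨h.en, cutL_ok h.en h4 g4 h3 g3,
    cutL_bi h.en h4 g4 h3 g3, cutL_mx (sR := sD') h.en h4 h3 g3⟩
  rw [← h1] at hx hy
  obtain ⟨x', rfl, hx'⟩ := inS_map_ex hx
  obtain ⟨y', rfl, hy'⟩ := inS_map_ex hy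
  rw [← h.mD] at ax ay
  have ax' := (atd_map h.adj).1 ax
  have ay' := (atd_map h.adj).1 ay
  have iK : ∀ {i x}, InS sK' i x → x ∈ K' := fun h => by rw [← h3]; exact inS_mem h
  have h5 : G'.Adj x' y' ↔ Rl G' (fun x => x ∈ K') x' y' :=
    (ax1_of f1 f2 (S := fun x => x ∈ K') he).clsQ (C := cutL G' K' D' sK' sD') rfl cs (qt_crD hT) (iK hx')
      (iK hy') (Or.inl ⟨iK hx', ax'⟩) (Or.inl ⟨iK hy', ay'⟩) (by
        intro hk
        obtain ⟨k, k1, k2⟩ := K_segL h.en.1 g3 (iK hx') hk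
        exact hij ((inS_uniq h4.nd hx' k1).trans (inS_uniq h4.nd hy' k2).symm))
  rw [← h.adj, h5, rl_map h]

/-- THE RULE FOR LISTS -/
theorem ruleL [DecidableEq V] (f1 : RuleF) (f2 : SixF) {K D : List V} {sK sD : List (List V)} {rK rD : List V}
    (hE : LEp G K D) (hK : Sd G D sK rK) (eK : sK.flatten = K) (hD : Sd G K sD rD) (eD : sD.flatten = D)
    (hv : Val G (K ++ D)) {i j : ℕ} {x y : V} (hx : InS sK i x) (hy : InS sK j y) (hij : i ≠ j) (ax : Atd G D x)
    (ay : Atd G D y) : G.Adj x y ↔ RlL G K D x y := by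
  obtain ⟨K', D', h⟩ := lft_ex (G := G) hE.nd
  exact rule_lft f1 f2 h hE hK eK hD eD hv hx hy hij ax ay

theorem LEp.symm {K D : List V} (h : LEp G K D) : LEp G D K where
  nd := List.nodup_append_comm.1 h.nd
  rig := fun {a b c d} ha hb hc hd e e' n n' => by
    rcases h.rig hb ha hd hc e.symm e'.symm n' n with h1 | h1
    · exact Or.inl ⟨h1.2, h1.1⟩
    · exact Or.inr ⟨h1.2, h1.1⟩
  w4 := fun {p p' q q' r} hp hp' hq hq' hr hw =>
    h.w4 hp' hp hq' hq (by
      rcases List.mem_append.1 hr with h1 | h1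
      · exact List.mem_append_right _ h1
      · exact List.mem_append_left _ h1) (Pool.Agent.SOE.w4_swap (Pool.Agent.SOE.w4_swap' hw))

/-- the rule for the second list -/
theorem ruleR [DecidableEq V] (f1 : RuleF) (f2 : SixF) {K D : List V} {sK sD : List (List V)} {rK rD : List V}
    (hE : LEp G K D) (hK : Sd G D sK rK) (eK : sK.flatten = K) (hD : Sd G K sD rD) (eD : sD.flatten = D)
    (hv : Val G (K ++ D)) {i j : ℕ} {x y : V} (hx : InS sD i x) (hy : InS sD j y) (hij : i ≠ j) (ax : Atd G K x)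
    (ay : Atd G K y) : G.Adj x y ↔ RlL G D K x y :=
  ruleL f1 f2 hE.symm hD eD hK eK ((Val_rotate hE.nd).1 hv) hx hy hij ax ay

end Pool.Agent.SOK
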