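import Pool.Agent.SOK.WdR
import Pool.Agent.SOK.RulL

/-! Project SOK, module Mdl: models for the refutations, from lists. -/

set_option autoImplicit false

namespace Pool.Agent.SOK

open Pool.Agent.SOC Pool.Agent.SOD Pool.Agent.RUP Pool.Agent.SOF Pool.Agent.SOG Pool.Agent.SOV Pool.Agent.SOS

variable {U V : Type} {G : SimpleGraph V} {W B : List V}

/-- a model of a structure for the list `W ++ B` -/
structure Mdl (G : SimpleGraph V) (W B : List V) (f : U → V) (Y : QSy U) : Prop where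
  inj : Function.Injective f
  adj : ∀ a b, Y.G.Adj a b ↔ G.Adj (f a) (f b)
  hq : QC Y.G Y.X Y.T Y.S
  sur : ∀ v ∈ W ++ B, ∃ u, f u = v
  sW : ∀ u, f u ∈ W → Y.S u
  sB : ∀ u, f u ∈ B → ¬ Y.S u
  ord : ∀ a b c d, [f a, f b, f c, f d].Sublist (W ++ B) → Y.X a c b d

/-- positions of a sublist with four members -/
theorem crD_sub4 {V : Type} [DecidableEq V] {s : List V} (hs : s.Nodup) {a b c d : V} (h : [a, b, c, d].Sublist s) :
    CrD s a c b d := by
  have hn : [a, b, c, d].Nodup := h.nodup hs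
  simp only [List.nodup_cons, List.mem_cons, List.not_mem_nil, or_false, not_or, not_false_eq_true, List.nodup_nil,
    and_true] at hn
  obtain ⟨⟨ab, ac, ad⟩, ⟨bc, bd⟩, cd⟩ := hn
  have i0 : [a, b, c, d].idxOf a = 0 := List.idxOf_cons_self
  have i1 : [a, b, c, d].idxOf b = 1 := by
    rw [List.idxOf_cons_ne _ ab, List.idxOf_cons_self]
  have i2 : [a, b, c, d].idxOf c = 2 := by
    rw [List.idxOf_cons_ne _ ac, List.idxOf_cons_ne _ bc, List.idxOf_cons_self]
  have i3 : [a, b, c, d].idxOf d = 3 := by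
    rw [List.idxOf_cons_ne _ ad, List.idxOf_cons_ne _ bd, List.idxOf_cons_ne _ cd, List.idxOf_cons_self]
  have e1 : s.idxOf a < s.idxOf b := (idxOf_sublist h hs (by simp) (by simp)).1 (by rw [i0, i1]; omega)
  have e2 : s.idxOf b < s.idxOf c := (idxOf_sublist h hs (by simp) (by simp)).1 (by rw [i1, i2]; omega)
  have e3 : s.idxOf c < s.idxOf d := (idxOf_sublist h hs (by simp) (by simp)).1 (by rw [i2, i3]; omega)
  refine ⟨⟨ac, ab, ad, fun e => bc e.symm, cd, bd⟩, ?_⟩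
  unfold Cross SOC.Btw
  omega

theorem int_crD {V : Type} [DecidableEq V] {K D : List V} (hs : IsEnum (K ++ D)) {a b c d : V} (ha : a ∈ K) (hb : b ∈ K)
    (hc : ¬ c ∈ K) (hd : ¬ d ∈ K) : ¬ CrD (K ++ D) a b c d := by
  have mem : ∀ {x : V}, ¬ x ∈ K → x ∈ D := fun {x} h => (List.mem_append.1 (hs.2 x)).resolve_left h
  intro hx
  have h1 := idxL (R := D) ha
  have h2 := idxL (R := D) hb
  have h3 := idxR hs.1 (mem hc)
  have h4 := idxR hs.1 (mem hd)
  have l1 := List.idxOf_lt_length_iff.2 ha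
  have l2 := List.idxOf_lt_length_iff.2 hb
  have h5 := hx.2
  unfold Cross SOC.Btw at h5
  omega

theorem mdl_lft [DecidableEq U] [DecidableEq V] {f : U → V} {G' : SimpleGraph U} {K' D' : List U}
    (h : Lft G W B f G' K' D') (hv : Val G (W ++ B)) : ∃ Y : QSy U, Mdl G W B f Y := by
  obtain ⟨T, hT⟩ := (Val_enum h.en).1 (h.val.1 hv)
  have hq := qt_crD hT
  have hX := crD_sepr h.en
  refine ⟨⟨G', CrD (K' ++ D'), T, fun x => x ∈ K', ⟨fun _ _ _ _ e => hX.swap e, fun _ _ _ _ e => hX.comm e⟩,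
    ⟨fun _ _ _ _ e => hq.swap₁ e, fun _ _ _ _ e => hq.swap₂ e⟩⟩, h.inj, h.adj, ⟨hX, hq, int_crD h.en⟩, ?_, ?_, ?_, ?_⟩
  · intro v hv'
    rw [← h.mK, ← h.mD, ← List.map_append] at hv'
    obtain ⟨u, _, e⟩ := List.mem_map.1 hv'
    exact ⟨u, e⟩
  · intro u hu
    rw [← h.mK] at hu
    obtain ⟨u', hu', e⟩ := List.mem_map.1 hu
    rwa [h.inj e] at hu'
  · intro u hu hu'
    rw [← h.mD] at hu
    obtain ⟨u2, hu2, e⟩ := List.mem_map.1 hu
    rw [h.inj e] at hu2
    exact (List.nodup_append.1 h.en.1).2.2 u hu' u hu2 rfl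
  · intro a b c d hs
    refine crD_sub4 h.en.1 ?_
    rw [← h.mK, ← h.mD, ← List.map_append] at hs
    obtain ⟨l', h1, h2⟩ := List.sublist_map_iff.1 hs
    have h3 : l' = [a, b, c, d] := by
      refine (List.map_injective_iff.2 h.inj) ?_
      rw [← h2]
      rfl
    rwa [h3] at h1

/-- models exist -/
theorem mdl_ex [DecidableEq V] (hn : (W ++ B).Nodup) (hv : Val G (W ++ B)) :
    ∃ (U : Type) (f : U → V) (Y : QSy U), Mdl G W B f Y := by
  obtain ⟨K', D', h⟩ := lft_ex (G := G) hn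
  obtain ⟨Y, hY⟩ := mdl_lft h hv
  exact ⟨_, _, Y, hY⟩

/-- order of lifted points -/
theorem Mdl.sub {f : U → V} {Y : QSy U} (m : Mdl G W B f Y) {l : List U} (hl : (l.map f).Sublist (W ++ B)) :
    ∀ a b c d : U, [a, b, c, d].Sublist l → Y.X a c b d := by
  intro a b c d hs
  exact m.ord a b c d ((hs.map f).trans hl)

theorem Mdl.nd {f : U → V} {Y : QSy U} {l : List U} (_m : Mdl G W B f Y) (hn : (W ++ B).Nodup)
    (hl : (l.map f).Sublist (W ++ B)) : l.Nodup := List.Nodup.of_map f (hl.nodup hn)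

end Pool.Agent.SOK
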