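import Pool.Agent.SOK.WordL

/-! Project SOK, module Mx: blocks are maximal; structures of the whole graph as structures of a side. -/

set_option autoImplicit false

namespace Pool.Agent.SOK

open Pool.Agent.SOC Pool.Agent.SOD Pool.Agent.RUP Pool.Agent.SOF Pool.Agent.SOG Pool.Agent.SOV

variable {V : Type} {G : SimpleGraph V}

/-- attached vertices have neighbours on the other side; blocks on the side `S` are maximal -/
structure Mx (C : Cut V) (G : SimpleGraph V) (X : V → V → V → V → Prop) : Prop where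
  refl : ∀ {a}, C.A a → C.K a a
  at1 : ∀ {a}, C.S a → C.A a → ∃ z, ¬ C.S z ∧ G.Adj a z
  at2 : ∀ {a}, ¬ C.S a → C.A a → ∃ z, C.S z ∧ G.Adj a z
  mx : ∀ {a b}, C.S a → C.S b → C.A a → C.A b → ¬ C.K a b → (∀ z, ¬ C.S z → (G.Adj a z ↔ G.Adj b z)) →
    ∃ c, C.S c ∧ C.A c ∧ (∃ z, ¬ C.S z ∧ ¬ (G.Adj a z ↔ G.Adj c z)) ∧ ∀ d, ¬ C.S d → X a b c d

/-- the same cut, seen from the other side -/
def comp (C : Cut V) : Cut V := ⟨fun x => ¬ C.S x, C.A, C.B, C.K⟩

theorem comp_ok {C : Cut V} {X : V → V → V → V → Prop} (h : C.Ok X) : (comp C).Ok X where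
  sepr := h.sepr
  int := fun ha hb hc hd hx => h.int (not_not.1 hc) (not_not.1 hd) ha hb (h.sepr.comm hx)
  kS := fun hk ha hb => ha (h.kS (h.ksym hk) hb)
  kA := h.kA
  kB := h.kB
  ksym := h.ksym
  ktr := h.ktr
  kb := fun hk hc ha hcS hd hx => h.kb' hk hc ha hcS (not_not.1 hd) hx
  kb' := fun hk hc ha hcS hd hx => h.kb hk hc (not_not.1 ha) (not_not.1 hcS) hd hx

theorem comp_bi {C : Cut V} (h : C.Bi G) : (comp C).Bi G where
  xa := fun ha hb e => (h.xa (not_not.1 hb) ha e.symm).symm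
  bi := fun hk ha hc e => h.bi' hk ha (not_not.1 hc) e
  bi' := fun hk ha hc e => h.bi hk (not_not.1 ha) hc e

/-- a structure for one side of the complementary cut -/
theorem half_comp {C : Cut V} {X T : V → V → V → V → Prop} {s : V → Prop} (h : Half C G X s T) : Half (comp C) G X s T :=
  ⟨h.swap₁, h.swap₂, h.ne, h.adj, h.nocross, h.att, h.d1, h.d2, h.nb, h.some, h.trans, h.ferrers, h.inv⟩

section
variable [DecidableEq V] {L R : List V} {sL sR : List (List V)} {rL rR : List V}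

omit [DecidableEq V] in
theorem cutL_refl (eL : sL.flatten = L) (eR : sR.flatten = R) {a : V}
    (h : (cutL G L R sL sR).A a) : (cutL G L R sL sR).K a a := by
  rcases h with ⟨h1, h2⟩ | ⟨h1, h2⟩
  · obtain ⟨i, hi⟩ := seg_of eL h1
    exact Or.inl ⟨h2, h2, i, hi, hi⟩
  · obtain ⟨i, hi⟩ := seg_of eR h1
    exact Or.inr ⟨h2, h2, i, hi, hi⟩

omit [DecidableEq V] in
theorem cutL_at1 (hs : IsEnum (L ++ R)) {a : V} (ha : a ∈ L) (hA : (cutL G L R sL sR).A a) :
    ∃ z, ¬ z ∈ L ∧ G.Adj a z := by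
  rcases hA with h | h
  · obtain ⟨z, hz, e⟩ := h.2
    exact ⟨z, fun h' => cutL_disj hs.1 h' hz, e⟩
  · exact (cutL_disj hs.1 ha h.1).elim

omit [DecidableEq V] in
theorem cutL_at2 {a : V} (ha : ¬ a ∈ L) (hA : (cutL G L R sL sR).A a) : ∃ z, z ∈ L ∧ G.Adj a z := by
  rcases hA with h | h
  · exact absurd h.1 ha
  · exact h.2

theorem cutL_mx (hs : IsEnum (L ++ R)) (hL : Sd G R sL rL) (eL : sL.flatten = L) (eR : sR.flatten = R) :
    Mx (cutL G L R sL sR) G (CrD (L ++ R)) := by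
  have mem : ∀ {x : V}, ¬ x ∈ L → x ∈ R := fun {x} h => (List.mem_append.1 (hs.2 x)).resolve_left h
  have nm : ∀ {x : V}, x ∈ R → ¬ x ∈ L := fun h h' => cutL_disj hs.1 h' h
  have at1 : ∀ {a : V}, a ∈ L → (cutL G L R sL sR).A a → Atd G R a := by
    rintro a ha (h | h)
    · exact h.2
    · exact (nm h.1 ha).elim
  refine ⟨cutL_refl eL eR, cutL_at1 hs, cutL_at2, ?_⟩
  · intro a b ha hb hA hB hk hr
    have aa := at1 ha hA
    have ab := at1 hb hB
    have hsr : SR G R a b := fun z hz => hr z (nm hz)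
    obtain ⟨i, hi⟩ := seg_of eL ha
    obtain ⟨j, hj⟩ := seg_of eL hb
    have hij : i ≠ j := by
      rintro rfl
      exact hk (Or.inl ⟨aa, ab, i, hi, hj⟩)
    have fin : ∀ {x y : V}, x ∈ L → y ∈ L → SR G R a x → (∃ c, Atd G R c ∧ ¬ SR G R x c ∧ sL.flatten.idxOf x <
        sL.flatten.idxOf c ∧ sL.flatten.idxOf c < sL.flatten.idxOf y ∧ c ∈ sL.flatten) →
        ∃ c, c ∈ L ∧ (cutL G L R sL sR).A c ∧ (∃ z, ¬ z ∈ L ∧ ¬ (G.Adj a z ↔ G.Adj c z)) ∧
          ∀ d, ¬ d ∈ L → CrD (L ++ R) x y c d := by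
      rintro x y hx hy hax ⟨c, h1, h2, h3, h4, h5⟩
      rw [eL] at h3 h4 h5
      refine ⟨c, h5, Or.inl ⟨h5, h1⟩, ?_, ?_⟩
      · by_contra hn
        push Not at hn
        exact h2 fun z hz => (hax z hz).symm.trans (hn z (nm hz))
      · intro d hd
        have e1 := idxL (R := R) hx
        have e2 := idxL (R := R) hy
        have e3 := idxL (R := R) h5
        have e4 := idxR hs.1 (mem hd)
        have l1 := List.idxOf_lt_length_iff.2 hx
        have l2 := List.idxOf_lt_length_iff.2 hy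
        have l3 := List.idxOf_lt_length_iff.2 h5
        refine ⟨⟨?_, ?_, ?_, ?_, ?_, ?_⟩, ?_⟩
        · rintro rfl
          omega
        · rintro rfl
          omega
        · rintro rfl
          exact hd hx
        · rintro rfl
          omega
        · rintro rfl
          exact hd hy
        · rintro rfl
          exact hd h5
        · unfold Cross SOC.Btw
          omega
    rcases lt_or_gt_of_ne hij with h | h
    · exact fin ha hb (fun _ _ => Iff.rfl) (sd_mx hL hi hj aa ab h hsr)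
    · obtain ⟨c, h1, h2, h3, h4⟩ := fin hb ha hsr (sd_mx hL hj hi ab aa h hsr.symm)
      exact ⟨c, h1, h2, h3, fun d hd => (crD_sepr hs).swap (h4 d hd)⟩

/-- the same for the other side -/
theorem cutL_mx' (hs : IsEnum (L ++ R)) (hR : Sd G L sR rR) (eL : sL.flatten = L) (eR : sR.flatten = R) :
    Mx (comp (cutL G L R sL sR)) G (CrD (L ++ R)) := by
  have mem : ∀ {x : V}, ¬ x ∈ L → x ∈ R := fun {x} h => (List.mem_append.1 (hs.2 x)).resolve_left h
  have at1 : ∀ {a : V}, ¬ a ∈ L → (cutL G L R sL sR).A a → Atd G L a := by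
    rintro a ha (h | h)
    · exact absurd h.1 ha
    · exact h.2
  refine ⟨cutL_refl eL eR, fun {a} ha hA => ?_, fun {a} ha hA => ?_, ?_⟩
  · obtain ⟨z, hz, e⟩ := at1 ha hA
    exact ⟨z, not_not.2 hz, e⟩
  · exact cutL_at1 (sL := sL) (sR := sR) hs (not_not.1 ha) hA
  · intro a b ha hb hA hB hk hr
    have aa := at1 ha hA
    have ab := at1 hb hB
    have hsr : SR G L a b := fun z hz => hr z (not_not.2 hz)
    obtain ⟨i, hi⟩ := seg_of eR (mem ha)
    obtain ⟨j, hj⟩ := seg_of eR (mem hb)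
    have hij : i ≠ j := by
      rintro rfl
      exact hk (Or.inr ⟨aa, ab, i, hi, hj⟩)
    have fin : ∀ {x y : V}, ¬ x ∈ L → ¬ y ∈ L → SR G L a x → (∃ c, Atd G L c ∧ ¬ SR G L x c ∧ sR.flatten.idxOf x <
        sR.flatten.idxOf c ∧ sR.flatten.idxOf c < sR.flatten.idxOf y ∧ c ∈ sR.flatten) →
        ∃ c, ¬ c ∈ L ∧ (cutL G L R sL sR).A c ∧ (∃ z, ¬ ¬ z ∈ L ∧ ¬ (G.Adj a z ↔ G.Adj c z)) ∧
          ∀ d, ¬ ¬ d ∈ L → CrD (L ++ R) x y c d := by
      rintro x y hx hy hax ⟨c, h1, h2, h3, h4, h5⟩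
      rw [eR] at h3 h4 h5
      have hc : ¬ c ∈ L := fun h => cutL_disj hs.1 h h5
      refine ⟨c, hc, Or.inr ⟨h5, h1⟩, ?_, ?_⟩
      · by_contra hn
        push Not at hn
        exact h2 fun z hz => (hax z hz).symm.trans (hn z hz)
      · intro d hd
        have hd' := not_not.1 hd
        have e1 := idxR hs.1 (mem hx)
        have e2 := idxR hs.1 (mem hy)
        have e3 := idxR hs.1 h5
        have e4 := idxL (R := R) hd'
        have l4 := List.idxOf_lt_length_iff.2 hd'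
        refine ⟨⟨?_, ?_, ?_, ?_, ?_, ?_⟩, ?_⟩
        · rintro rfl
          omega
        · rintro rfl
          omega
        · rintro rfl
          exact hx hd'
        · rintro rfl
          omega
        · rintro rfl
          exact hy hd'
        · rintro rfl
          exact hc hd'
        · unfold Cross SOC.Btw
          omega
    rcases lt_or_gt_of_ne hij with h | h
    · exact fin ha hb (fun _ _ => Iff.rfl) (sd_mx hR hi hj aa ab h hsr)
    · obtain ⟨c, h1, h2, h3, h4⟩ := fin hb ha hsr (sd_mx hR hj hi ab aa h hsr.symm)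
      exact ⟨c, h1, h2, h3, fun d hd => (crD_sepr hs).swap (h4 d hd)⟩

end

end Pool.Agent.SOK
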