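import Pool.Agent.SOK.ExtG

/-! Project SOK, module RepG: from lists of vertices to lists of numbers. -/

set_option autoImplicit false

namespace Pool.Agent.SOK

open Pool.Agent.SOC Pool.Agent.SOD Pool.Agent.SOV Pool.Agent.SOS

/-- the order `L` with the context `B`, three kinds -/
def Cx {V : Type} [DecidableEq V] (G : SimpleGraph V) (f : ℕ) (L B : List V) : Prop :=
  (f = 0 ∧ Val G (L ++ B)) ∨ (f = 1 ∧ Val (extG G B) (ctx1 L B)) ∨ (f = 2 ∧ Val (extG G B) (ctx2 L B))

/-- the representation property of the order `L ++ R` -/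
def RepP {V : Type} [DecidableEq V] (G : SimpleGraph V) (ad : V → V → Bool) (L R : List V) : Prop :=
  ∃ f B, B.Sublist R ∧ B.length ≤ 5 ∧ (wordF ad B L).length ≤ 5 ∧ Cx G f L B ∧
    ∀ L' : List V, L'.Perm L → wordF ad B L' = wordF ad B L → Cx G f L' B → Val G (L' ++ R)

/-- adjacency in the graph of the matrix -/
def adF (M : List (List Bool)) (i j : Fin M.length) : Bool := adjB M i.val j.val

theorem wordB_fin {M : List (List Bool)} {B L : List (Fin M.length)} :
    wordB M (B.map Fin.val) (L.map Fin.val) = wordF (adF M) B L :=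
  wordF_map (ad := adjB M) (f := Fin.val)

theorem ctx_fin {M : List (List Bool)} {f : ℕ} {B L : List (Fin M.length)} {w : List (List Bool)} (hf : f < 3)
    (h : (L ++ B).Nodup) : ctx M (L.map Fin.val) (f, B.map Fin.val, w) = true ↔ Cx (graphOf M) f L B := by
  have hf' : f = 0 ∨ f = 1 ∨ f = 2 := by omega
  rcases hf' with rfl | rfl | rfl
  · have e : ctx M (L.map Fin.val) (0, B.map Fin.val, w) = tOk M (L.map Fin.val ++ B.map Fin.val) := rfl
    rw [e, ← List.map_append, tOk_fin h]
    unfold Cx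
    simp
  · have e : ctx M (L.map Fin.val) (1, B.map Fin.val, w) =
        tOk (ext M (B.map Fin.val)) (L.map Fin.val ++ (M.length :: B.map Fin.val)) := rfl
    rw [e, ← ctx1_map, val_ext (ctx1_nodup h)]
    unfold Cx
    simp
  · have e : ctx M (L.map Fin.val) (2, B.map Fin.val, w) =
        tOk (ext M (B.map Fin.val)) (L.map Fin.val ++ (B.map Fin.val ++ [M.length])) := rfl
    rw [e, ← ctx2_map, val_ext (ctx2_nodup h)]
    unfold Cx
    simp

theorem good_fin {M : List (List Bool)} {f : ℕ} {B L : List (Fin M.length)} {w : List (List Bool)} (hf : f < 3)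
    (h : (L ++ B).Nodup) : good M (L.map Fin.val) (f, B.map Fin.val, w) = true ↔
      wordF (adF M) B L = w ∧ Cx (graphOf M) f L B := by
  unfold good
  rw [Bool.and_eq_true, decide_eq_true_eq, ctx_fin hf h]
  show wordB M (B.map Fin.val) (L.map Fin.val) = w ∧ _ ↔ _
  rw [wordB_fin]

theorem row_len {α : Type} {ad : α → α → Bool} {B L : List α} {r : List Bool} (h : r ∈ wordF ad B L) :
    r.length = B.length := by
  have h1 := mem_dst h
  obtain ⟨x, _, rfl⟩ := List.mem_map.1 h1
  unfold rowF
  rw [List.length_map]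

/-- THE HYPOTHESIS ON THE KEYS, from the representation property for lists of vertices -/
theorem repS_of {M : List (List Bool)} (h : ∀ L R : List (Fin M.length), IsEnum (L ++ R) →
    Pool.Agent.SOE.StrE (graphOf M) {v | v ∈ L} → (∃ T, QT (graphOf M) (Cross (L ++ R)) T) →
    RepP (graphOf M) (adF M) L R) : Pool.Agent.SOT.RepS good keys M := by
  intro L R hst hvo
  obtain ⟨s, hs, he, T, hT⟩ := hvo
  obtain ⟨l, r, rfl, hl, hr⟩ := List.map_eq_append_iff.1 hs
  subst hl hr
  have hset : setW M (l.map Fin.val) = {v | v ∈ l} := by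
    ext v
    show v.val ∈ l.map Fin.val ↔ v ∈ l
    rw [List.mem_map]
    constructor
    · rintro ⟨c, hc, e⟩
      rwa [Fin.ext e] at hc
    · exact fun h => ⟨v, h, rfl⟩
  rw [hset] at hst
  obtain ⟨f, B, h1, h2, h3, h4, h5⟩ := h l r he hst ⟨T, hT⟩
  have hf : f < 3 := by
    rcases h4 with h4 | h4 | h4 <;> omega
  have nd : ∀ l' : List (Fin M.length), l'.Perm l → (l' ++ B).Nodup := by
    intro l' hp
    have e1 : (l' ++ r).Perm (l ++ r) := hp.append_right r
    have e2 : (l' ++ r).Nodup := e1.nodup_iff.2 he.1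
    exact (List.Sublist.append (List.Sublist.refl l') h1).nodup e2
  refine ⟨(f, B.map Fin.val, wordF (adF M) B l), mem_keys hf (by rw [List.length_map]; exact h2) ?_ h3 ?_, ?_, ?_⟩
  · intro b hb
    obtain ⟨c, _, rfl⟩ := List.mem_map.1 hb
    exact c.2
  · intro rr hrr
    rw [row_len hrr]
    exact h2
  · exact (good_fin hf (nd l (List.Perm.refl _))).2 ⟨rfl, h4⟩
  · intro L' hp hg
    obtain ⟨l', rfl⟩ := fin_list (n := M.length) (l := L') fun x hx => by
      obtain ⟨c, _, rfl⟩ := List.mem_map.1 (hp.mem_iff.1 hx)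
      exact c.2
    have hp' : l'.Perm l := (List.map_perm_map_iff Fin.val_injective).1 hp
    obtain ⟨g1, g2⟩ := (good_fin hf (nd l' hp')).1 hg
    have hv := h5 l' hp' g1 g2
    have he' : IsEnum (l' ++ r) := by
      have e1 : (l' ++ r).Perm (l ++ r) := hp'.append_right r
      exact ⟨e1.nodup_iff.2 he.1, fun v => e1.mem_iff.2 (he.2 v)⟩
    obtain ⟨T', hT'⟩ := (Val_enum he').1 hv
    exact ⟨l' ++ r, by rw [List.map_append], he', T', hT'⟩

end Pool.Agent.SOK
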