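import Pool.Agent.SOK.Lck2

/-! Project SOK, module RepM: the representation property. -/

set_option autoImplicit false

namespace Pool.Agent.SOK

open Pool.Agent.SOC Pool.Agent.SOD Pool.Agent.RUP Pool.Agent.SOF Pool.Agent.SOG Pool.Agent.SOV
open Pool.Agent.SOE (EPC)

variable {V : Type} {G : SimpleGraph V}

section
variable [DecidableEq V] {L R : List V} {ad : V → V → Bool}

/-- GLUING, by representatives -/
theorem glue_all (f1 : RuleF) (f2 : SixF) (f3 : GlueF) (had : ∀ x y, ad x y = true ↔ G.Adj x y) {B W : List V}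
    {sL sR : List (List V)} (hb : Base G ad L R B W sL sR) (hE : EPC G {x | x ∈ L}) (hA : ∃ x ∈ L, Atd G R x)
    {L' : List V} (hp : L'.Perm L) {W1 : List V} (hW1 : W1.Sublist W) (hw : wordF ad B L' = W1.map (rowF ad B))
    {T1 T2 : V → V → V → V → Prop} (v1 : Vl G (L' ++ B) T1) (v2 : Vl G (W1 ++ R) T2)
    (hl : LLk G W1 B → Un G L' B T1 ∨ Un G R W1 T2) : Val G (L' ++ R) := by
  have h1 : Ax1 G (fun x => x ∈ L) := ax1_of f1 f2 hE
  obtain ⟨sL', W', ho, r1, r2⟩ := base_use had hb h1 hA hp hW1 hw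
  have hm : ∀ x, x ∈ L' ↔ x ∈ L := fun x => hp.mem_iff
  have subW1 : W1.Sublist L := hW1.trans hb.subW
  have k1 := half_of_qt (crD_sepr ho.en) ho.cs.ok r1 (qt_crD v1)
  have k2 := half_of_qt (crD_sepr ho.en) ho.cs.ok (r2 ⟨_, k1⟩) (qt_crD v2)
  have hE' : EPC G {x | (cutL G L' R sL' sR).S x} := by
    have e : {x | (cutL G L' R sL' sR).S x} = {x | x ∈ L} := Set.ext fun x => hm x
    rw [e]
    exact hE
  have hlen : W1.length = W'.length := by
    have e2 := congrArg List.length ho.mapW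
    rw [List.length_map, hw, List.length_map] at e2
    exact e2.symm
  have hrow : ∀ {i : ℕ} {a b : V}, W'[i]? = some a → W1[i]? = some b → SR G R a b := by
    intro i a b ha hb'
    have e1 : (W'.map (rowF ad B))[i]? = some (rowF ad B a) := by rw [List.getElem?_map, ha]; rfl
    have e2 : (W1.map (rowF ad B))[i]? = some (rowF ad B b) := by rw [List.getElem?_map, hb']; rfl
    rw [ho.mapW, hw, e2] at e1
    have e3 := rowF_eq.1 (Option.some.inj e1)
    have ma : a ∈ L := by
      rw [← hm, ← ho.eL]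
      exact inS_mem (ho.sdL.rep ha).1
    refine hb.rpb.row a ma b (subW1.subset (List.mem_of_getElem? hb')) fun z hz => ?_
    rw [← had, ← had, e3 z hz]
  obtain ⟨T, hT⟩ := f3 ho.cs ho.mx hE' k1 k2 (by
    intro p s q r hk
    have h2 := lock_llk ho.en ho.sdL ho.sdR ho.eL hb.eR (W := W1) (fun w hw => (hm w).2 (subW1.subset hw)) hlen hrow hk
    rcases hl h2 with h3 | h3
    · exact Or.inl (unl1_of ho.en ho.sdR hb.eR h3)
    · exact Or.inr (unl2_of ho.en ho.sdL ho.eL (by rw [hlen, ho.sdL.len]) hrow h3))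
  exact (Val_enum ho.en).2 ⟨T, qt_cross hT⟩

/-- if the structure of the whole graph is not locked on the first side, then there is a structure with the gadget -/
theorem gad_of (hs : IsEnum (L ++ R)) {B W : List V} {sL sR : List (List V)} (eL : sL.flatten = L)
    (eR : sR.flatten = R) (subB : B.Sublist R)
    (hL : Sd G R sL W) (hR : Sd G L sR B) (hE : EPC G {x | x ∈ L}) {T : V → V → V → V → Prop}
    (hT : QT G (Cross (L ++ R)) T) {p s q r : V} (h : (W = [s, p] ∧ B = [r, q]) ∨ (W = [p, s] ∧ B = [q, r]))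
    (a1 : G.Adj p q) (a2 : G.Adj p r) (a3 : G.Adj s q) (a4 : ¬ G.Adj s r) (hu : Unl1 (cutL G L R sL sR) G T) :
    (∃ b0 b1, B = [b0, b1]) ∧ (Val (extG G B) (ctx1 L B) ∨ Val (extG G B) (ctx2 L B)) := by
  have mem : ∀ {x : V}, ¬ x ∈ L → x ∈ R := fun {x} h => (List.mem_append.1 (hs.2 x)).resolve_left h
  have nm : ∀ {x : V}, x ∈ R → ¬ x ∈ L := fun h h' => cutL_disj hs.1 h' h
  have iL : ∀ {i x}, InS sL i x → x ∈ L := fun h => by rw [← eL]; exact inS_mem h
  have iR : ∀ {i x}, InS sR i x → x ∈ R := fun h => by rw [← eR]; exact inS_mem h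
  have lk := llk_lock hs eL eR h hL hR a1 a2 a3 a4
  have nd := List.nodup_append.1 hs.1
  have hEP : EP G (fun x => x ∈ L) := EP.of_epc hE
  have v0 : Vl G (L ++ R) T := by
    refine ⟨hT.swap₁, hT.swap₂, hT.ne, fun h => ⟨hT.adj h, hs.2 _, hs.2 _⟩, hT.nocross, ?_, hT.notboth, hT.trans,
      hT.ferrers⟩
    intro a b c d e1 e2 n1 n2 n3 n4 hx
    exact hT.some e1.1 e2.1 n1 n2 n3 n4 hx
  have subm : (L ++ B).Sublist (L ++ R) := List.Sublist.append (List.Sublist.refl _) subB
  have hm := subm.nodup hs.1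
  have v1 := Vl.sub v0 subm hs.1
  have qR : q ∈ R := mem lk.sq
  have rR : r ∈ R := mem lk.sr
  have sL0 : s ∈ L := lk.ss
  -- rows of the members of L
  have rowT : ∀ x ∈ L, Atd G R x → SR G R x p ∨ SR G R x s := by
    intro x hx ax
    rcases h with ⟨rfl, rfl⟩ | ⟨rfl, rfl⟩
    · rcases in_two hL (x := x) (by rw [eL]; exact hx) with g | g
      · exact Or.inr (hL.same g (hL.rep (i := 0) (b := s) rfl).1 ax (hL.rep (i := 0) (b := s) rfl).2)
      · exact Or.inl (hL.same g (hL.rep (i := 1) (b := p) rfl).1 ax (hL.rep (i := 1) (b := p) rfl).2)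
    · rcases in_two hL (x := x) (by rw [eL]; exact hx) with g | g
      · exact Or.inl (hL.same g (hL.rep (i := 0) (b := p) rfl).1 ax (hL.rep (i := 0) (b := p) rfl).2)
      · exact Or.inr (hL.same g (hL.rep (i := 1) (b := s) rfl).1 ax (hL.rep (i := 1) (b := s) rfl).2)
  have row : ∀ x ∈ L, G.Adj x r → G.Adj x q := by
    intro x hx e
    rcases rowT x hx ⟨r, rR, e⟩ with g | g
    · exact (g q qR).2 a1
    · exact absurd ((g r rR).1 e) a4
  have adj : ∀ x ∈ L, G.Adj x r → G.Adj s x := by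
    intro x hx e
    exact (hEP.adj hx sL0 (nm rR) e a4 ⟨q, nm qR, a3⟩).symm
  obtain ⟨Tm, v1, unl⟩ : ∃ Tm, Vl G (L ++ B) Tm ∧
      ∀ p s x, p ∈ L → s ∈ L → x ∈ L → G.Adj p r → ¬ G.Adj s r → ¬ Tm q x p s :=
    ⟨_, v1, fun p s x hp hs' hx e ne h' => hu q p s x r (nm qR) (nm rR) hp hs' hx e ne h'.2⟩
  rcases h with ⟨rfl, rfl⟩ | ⟨rfl, rfl⟩
  · refine ⟨⟨r, q, rfl⟩, Or.inl ?_⟩
    obtain ⟨i1, i2, i3⟩ := idx2 (K := L) (a := r) (b := q) hm
    have ho := gord1 hm
    have pos : ∀ a s', a ∈ L → G.Adj a r → s' ∈ L → G.Adj s' q → ¬ G.Adj s' r → L.idxOf s' < L.idxOf a := by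
      intro a s' ha e hs' e' ne
      rcases in_two hL (x := a) (by rw [eL]; exact ha) with g | g
      · exact absurd ((hL.same g (hL.rep (i := 0) (b := s) rfl).1 ⟨r, rR, e⟩ ⟨q, qR, a3⟩ r rR).1 e) a4
      · rcases in_two hL (x := s') (by rw [eL]; exact hs') with g' | g'
        · rw [← eL]
          exact inS_lt hL.nd g' g (by omega)
        · exact absurd ((hL.same g' (hL.rep (i := 1) (b := p) rfl).1 ⟨q, qR, e'⟩ ⟨q, qR, a1⟩ r rR).2 a2) ne
    have hG : GHyp G L q r s (L ++ [r, q]) Tm := by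
      refine ⟨v1, ho.memm, nm qR, nm rR, sL0, a3, a4, row, adj, ?_, ?_, unl⟩
      · intro a s' ha e hs' e' ne
        have y := pos a s' ha e hs' e' ne
        have z1 := i1 a ha
        have z2 := i1 s' hs'
        unfold Cross SOC.Btw
        omega
      · intro a a' ha ha' e e' hne
        have y1 := pos a s ha e sL0 a3 a4
        have y2 := pos a' s ha' e' sL0 a3 a4
        have z1 := i1 a ha
        have z2 := i1 a' ha'
        have z3 := i1 s sL0
        have z4 : L.idxOf a ≠ L.idxOf a' := fun e3 => hne ((List.idxOf_inj ha).1 e3)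
        unfold Cross SOC.Btw
        omega
    exact hG.gad ho fun x => by simp [or_comm]
  · refine ⟨⟨q, r, rfl⟩, Or.inr ?_⟩
    obtain ⟨i1, i2, i3⟩ := idx2 (K := L) (a := q) (b := r) hm
    have ho := gord2 hm
    have pos : ∀ a s', a ∈ L → G.Adj a r → s' ∈ L → G.Adj s' q → ¬ G.Adj s' r → L.idxOf a < L.idxOf s' := by
      intro a s' ha e hs' e' ne
      rcases in_two hL (x := a) (by rw [eL]; exact ha) with g | g
      · rcases in_two hL (x := s') (by rw [eL]; exact hs') with g' | g'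
        · exact absurd ((hL.same g' (hL.rep (i := 0) (b := p) rfl).1 ⟨q, qR, e'⟩ ⟨q, qR, a1⟩ r rR).2 a2) ne
        · rw [← eL]
          exact inS_lt hL.nd g g' (by omega)
      · exact absurd ((hL.same g (hL.rep (i := 1) (b := s) rfl).1 ⟨r, rR, e⟩ ⟨q, qR, a3⟩ r rR).1 e) a4
    have hG : GHyp G L q r s (L ++ [q, r]) Tm := by
      refine ⟨v1, ho.memm, nm qR, nm rR, sL0, a3, a4, row, adj, ?_, ?_, unl⟩
      · intro a s' ha e hs' e' ne
        have y := pos a s' ha e hs' e' ne
        have z1 := i1 a ha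
        have z2 := i1 s' hs'
        unfold Cross SOC.Btw
        omega
      · intro a a' ha ha' e e' hne
        have y1 := pos a s ha e sL0 a3 a4
        have y2 := pos a' s ha' e' sL0 a3 a4
        have z1 := i1 a ha
        have z2 := i1 a' ha'
        have z3 := i1 s sL0
        have z4 : L.idxOf a ≠ L.idxOf a' := fun e3 => hne ((List.idxOf_inj ha).1 e3)
        unfold Cross SOC.Btw
        omega
    exact hG.gad ho fun x => by simp

end

end Pool.Agent.SOK
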