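import Pool.Agent.SOK.RepM

/-! Project SOK, module RepN: THE REPRESENTATION PROPERTY. -/

set_option autoImplicit false

namespace Pool.Agent.SOK

open Pool.Agent.SOC Pool.Agent.SOD Pool.Agent.RUP Pool.Agent.SOF Pool.Agent.SOG Pool.Agent.SOV
open Pool.Agent.SOE (EPC)

variable {V : Type} {G : SimpleGraph V}

/-- the representation property of the order `L ++ R`, with the blocks of `R` -/
def RepQ [DecidableEq V] (G : SimpleGraph V) (ad : V → V → Bool) (L R : List V) : Prop :=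
  ∃ (f : ℕ) (B : List V) (sR : List (List V)), sR.flatten = R ∧ Sd G L sR B ∧ B.Sublist R ∧ B.length ≤ 5 ∧
    (wordF ad B L).length ≤ 5 ∧ Cx G f L B ∧
      ∀ L' : List V, L'.Perm L → wordF ad B L' = wordF ad B L → Cx G f L' B → Val G (L' ++ R)

theorem RepQ.repP [DecidableEq V] {ad : V → V → Bool} {L R : List V} (h : RepQ G ad L R) : RepP G ad L R := by
  obtain ⟨f, B, sR, _, _, h1, h2, h3, h4, h5⟩ := h
  exact ⟨f, B, h1, h2, h3, h4, h5⟩

section
variable [DecidableEq V] {L R : List V} {ad : V → V → Bool}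

theorem rep4 (f1 : RuleF) (f2 : SixF) (f3 : GlueF) (f4 : BothF) (had : ∀ x y, ad x y = true ↔ G.Adj x y)
    (hs : IsEnum (L ++ R)) (hT : ∃ T, QT G (Cross (L ++ R)) T) (hE : EPC G {x | x ∈ L}) (hA : ∃ x ∈ L, Atd G R x) :
    RepQ G ad L R := by
  obtain ⟨T, hT'⟩ := hT
  have hE2 : EPC G {x | ¬ x ∈ L} := hE.compl
  obtain ⟨B, W, sL, sR, hb⟩ := base_ex had hs hT' (ax1_of f1 f2 hE) (ax1_of f1 f2 hE2) hA
  have mem : ∀ {x : V}, ¬ x ∈ L → x ∈ R := fun {x} h => (List.mem_append.1 (hs.2 x)).resolve_left h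
  have nm : ∀ {x : V}, x ∈ R → ¬ x ∈ L := fun h h' => cutL_disj hs.1 h' h
  have v0 : Vl G (L ++ R) T := by
    refine ⟨hT'.swap₁, hT'.swap₂, hT'.ne, fun h => ⟨hT'.adj h, hs.2 _, hs.2 _⟩, hT'.nocross, ?_, hT'.notboth,
      hT'.trans, hT'.ferrers⟩
    intro a b c d e1 e2 n1 n2 n3 n4 hx
    exact hT'.some e1.1 e2.1 n1 n2 n3 n4 hx
  have subm : (L ++ B).Sublist (L ++ R) := List.Sublist.append (List.Sublist.refl _) hb.subB
  have subn : (W ++ R).Sublist (L ++ R) := List.Sublist.append hb.subW (List.Sublist.refl _)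
  have v1 := Vl.sub v0 subm hs.1
  have v2 := Vl.sub v0 subn hs.1
  have hnB : ∀ {L' : List V}, L'.Perm L → (L' ++ B).Nodup := fun hp => (hp.append_right B).nodup_iff.2 (subm.nodup hs.1)
  have lw : (wordF ad B L).length ≤ 5 := by
    have e1 := congrArg List.length hb.mapW
    rw [List.length_map] at e1
    rw [← e1]
    exact hb.lenW
  have hw : ∀ {L' : List V}, wordF ad B L' = wordF ad B L → wordF ad B L' = W.map (rowF ad B) := fun h => by
    rw [h, hb.mapW]
  have cx0 : ∀ {L' : List V}, Cx G 0 L' B → Val G (L' ++ B) := by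
    rintro L' (h | h | h)
    · exact h.2
    · exact absurd h.1 (by omega)
    · exact absurd h.1 (by omega)
  by_cases hk : LLk G W B
  · obtain ⟨p, s, q, r, hWB, a1, a2, a3, a4⟩ := hk
    have lk := llk_lock hs hb.eL hb.eR hWB hb.sdL hb.sdR a1 a2 a3 a4
    have cs : CutS (cutL G L R sL sR) G (L ++ R) := ⟨hs, cutL_ok hs hb.sdL hb.sdR hb.eL hb.eR,
      cutL_bi hs hb.sdL hb.sdR hb.eL hb.eR, cutL_mx (sR := sR) hs hb.sdL hb.eL hb.eR⟩
    rcases f4 cs (cutL_mx' (sL := sL) hs hb.sdR hb.eL hb.eR) hE (qt_crD hT') lk with hu | hu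
    · obtain ⟨⟨b0, b1, eB⟩, hg⟩ := gad_of hs hb.eL hb.eR hb.subB hb.sdL hb.sdR hE hT' hWB a1 a2 a3 a4 hu
      rcases hg with hg | hg
      · refine ⟨1, B, sR, hb.eR, hb.sdR, hb.subB, hb.lenB, lw, Or.inr (Or.inl ⟨rfl, hg⟩), ?_⟩
        intro L' hp hw' hc
        have hc' : Val (extG G B) (ctx1 L' B) := by
          rcases hc with h | h | h
          · exact absurd h.1 (by omega)
          · exact h.2
          · exact absurd h.1 (by omega)
        have hn := hnB hp
        rw [eB] at hc' hn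
        obtain ⟨T1, k1, k2⟩ := un_ctx1 hn hc'
        rw [← eB] at k1 k2
        exact glue_all f1 f2 f3 had hb hE hA hp (List.Sublist.refl _) (hw hw') k1 v2 fun _ => Or.inl k2
      · refine ⟨2, B, sR, hb.eR, hb.sdR, hb.subB, hb.lenB, lw, Or.inr (Or.inr ⟨rfl, hg⟩), ?_⟩
        intro L' hp hw' hc
        have hc' : Val (extG G B) (ctx2 L' B) := by
          rcases hc with h | h | h
          · exact absurd h.1 (by omega)
          · exact absurd h.1 (by omega)
          · exact h.2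
        have hn := hnB hp
        rw [eB] at hc' hn
        obtain ⟨T1, k1, k2⟩ := un_ctx2 hn hc'
        rw [← eB] at k1 k2
        exact glue_all f1 f2 f3 had hb hE hA hp (List.Sublist.refl _) (hw hw') k1 v2 fun _ => Or.inl k2
    · refine ⟨0, B, sR, hb.eR, hb.sdR, hb.subB, hb.lenB, lw, Or.inl ⟨rfl, _, v1⟩, ?_⟩
      intro L' hp hw' hc
      obtain ⟨T1, k1⟩ := cx0 hc
      refine glue_all f1 f2 f3 had hb hE hA hp (List.Sublist.refl _) (hw hw') k1 v2 fun _ => Or.inr ?_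
      intro q hq r hr p hp s hs' x hx e ne h'
      exact hu q p s x r (hb.subW.subset hq) (hb.subW.subset hr) (nm hp) (nm hs') (nm hx) e ne h'.2
  · refine ⟨0, B, sR, hb.eR, hb.sdR, hb.subB, hb.lenB, lw, Or.inl ⟨rfl, _, v1⟩, ?_⟩
    intro L' hp hw' hc
    obtain ⟨T1, k1⟩ := cx0 hc
    exact glue_all f1 f2 f3 had hb hE hA hp (List.Sublist.refl _) (hw hw') k1 v2 fun h => absurd h hk

end

end Pool.Agent.SOK
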