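import Mathlib

/-! Project SOK (MP_66ba69_lc, keys of the orders of a side of a cut), module Seg: segments of lists. -/

set_option autoImplicit false

namespace Pool.Agent.SOK

variable {α β : Type}

/-- the word of a list of rows: every run gives one letter -/
def dst [DecidableEq β] (l : List β) : List β :=
  ((l.zip l.tail).filter fun p => decide (p.1 ≠ p.2)).map Prod.fst ++ l.getLast?.toList

section
variable [DecidableEq β]

theorem dst_nil : dst ([] : List β) = [] := rfl

theorem dst_one (a : β) : dst [a] = [a] := rfl

theorem dst_cons (a b : β) (l : List β) : dst (a :: b :: l) = (if a ≠ b then [a] else []) ++ dst (b :: l) := by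
  unfold dst
  have e : ((a :: b :: l).zip (a :: b :: l).tail) = (a, b) :: ((b :: l).zip (b :: l).tail) := rfl
  rw [e, List.filter_cons]
  by_cases h : a = b
  · subst h
    simp
  · simp [h]

theorem dst_head (b : β) (l : List β) : ∃ l', dst (b :: l) = b :: l' := by
  induction l generalizing b with
  | nil => exact ⟨[], rfl⟩
  | cons c l ih =>
    rw [dst_cons]
    by_cases h : b = c
    · subst h
      obtain ⟨l', hl'⟩ := ih b
      exact ⟨l', by simp [hl']⟩
    · exact ⟨dst (c :: l), by simp [h]⟩

/-- neighbouring letters of the word are different -/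
theorem dst_chain (l : List β) : (dst l).IsChain (· ≠ ·) := by
  induction l with
  | nil => simp [dst_nil]
  | cons a l ih =>
    cases l with
    | nil => simp [dst_one]
    | cons b l =>
      rw [dst_cons]
      by_cases h : a = b
      · simp [h, ih]
      · obtain ⟨l', hl'⟩ := dst_head b l
        rw [hl'] at ih ⊢
        rw [if_pos h, List.singleton_append, List.isChain_cons_cons]
        exact ⟨h, ih⟩

theorem mem_dst {l : List β} {b : β} (h : b ∈ dst l) : b ∈ l := by
  induction l with
  | nil => simp [dst_nil] at h
  | cons a l ih =>
    cases l with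
    | nil => simpa [dst_one] using h
    | cons c l =>
      rw [dst_cons, List.mem_append] at h
      rcases h with h | h
      · by_cases hac : a = c
        · simp [hac] at h
        · simp only [ne_eq, hac, not_false_eq_true, if_true, List.mem_singleton] at h
          rw [h]
          exact List.mem_cons_self
      · exact List.mem_cons_of_mem _ (ih h)

end

/-- the segment `seg` belongs to the letter `r` -/
def SegR (P : α → Bool) (f : α → β) (seg : List α) (r : β) : Prop :=
  (∀ x ∈ seg, P x = true → f x = r) ∧ ∃ x ∈ seg, P x = true

/-- a list with word `w` is the concatenation of segments which belong to the letters of `w` -/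
theorem seg_ex [DecidableEq β] (P : α → Bool) (f : α → β) (L : List α) (h : ∃ x ∈ L, P x = true) :
    ∃ segs : List (List α), segs.flatten = L ∧ List.Forall₂ (SegR P f) segs (dst ((L.filter P).map f)) := by
  induction L with
  | nil => obtain ⟨x, hx, _⟩ := h; exact absurd hx List.not_mem_nil
  | cons a L ih =>
    by_cases hL : ∃ x ∈ L, P x = true
    · obtain ⟨segs, h1, h2⟩ := ih hL
      -- the word of the rest is not empty
      obtain ⟨x, hx, hPx⟩ := hL
      have hne : L.filter P ≠ [] := by
        intro e
        have : x ∈ L.filter P := List.mem_filter.2 ⟨hx, hPx⟩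
        rw [e] at this
        exact absurd this List.not_mem_nil
      obtain ⟨b, l, hbl⟩ := List.exists_cons_of_ne_nil hne
      rw [hbl, List.map_cons] at h2
      obtain ⟨w, hw⟩ := dst_head (f b) (l.map f)
      rw [hw] at h2
      cases h2 with
      | @cons seg _ segs _ hs hrest =>
        by_cases hPa : P a = true
        · rw [List.filter_cons_of_pos hPa, hbl, List.map_cons, List.map_cons, dst_cons]
          by_cases hab : f a = f b
          · refine ⟨(a :: seg) :: segs, by rw [List.flatten_cons] at h1 ⊢; rw [List.cons_append, h1], ?_⟩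
            simp only [hab, ne_eq, not_true_eq_false, if_false, List.nil_append]
            rw [hw]
            refine List.Forall₂.cons ⟨?_, a, List.mem_cons_self, hPa⟩ hrest
            intro y hy hPy
            rcases List.mem_cons.1 hy with rfl | hy
            · exact hab
            · exact hs.1 y hy hPy
          · refine ⟨[a] :: seg :: segs, ?_, ?_⟩
            · rw [List.flatten_cons, h1]
              rfl
            · simp only [hab, ne_eq, not_false_eq_true, if_true, List.singleton_append]
              rw [hw]
              refine List.Forall₂.cons ⟨?_, a, List.mem_cons_self, hPa⟩ (List.Forall₂.cons hs hrest)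
              intro y hy _
              rw [List.mem_singleton.1 hy]
        · rw [List.filter_cons_of_neg hPa, hbl, List.map_cons, hw]
          refine ⟨(a :: seg) :: segs, by rw [List.flatten_cons] at h1 ⊢; rw [List.cons_append, h1], ?_⟩
          refine List.Forall₂.cons ⟨?_, ?_⟩ hrest
          · intro y hy hPy
            rcases List.mem_cons.1 hy with rfl | hy
            · exact absurd hPy hPa
            · exact hs.1 y hy hPy
          · obtain ⟨y, hy, hPy⟩ := hs.2
            exact ⟨y, List.mem_cons_of_mem _ hy, hPy⟩
    · push Not at hL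
      obtain ⟨x, hx, hPx⟩ := h
      have hPa : P a = true := by
        rcases List.mem_cons.1 hx with rfl | hx
        · exact hPx
        · exact absurd hPx (hL x hx)
      have he : L.filter P = [] := List.filter_eq_nil_iff.2 hL
      rw [List.filter_cons_of_pos hPa, he]
      refine ⟨[a :: L], by simp, ?_⟩
      rw [List.map_cons, List.map_nil, dst_one]
      refine List.Forall₂.cons ⟨?_, a, List.mem_cons_self, hPa⟩ List.Forall₂.nil
      intro y hy hPy
      rcases List.mem_cons.1 hy with rfl | hy
      · rfl
      · exact absurd hPy (hL y hy)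

/-- `x` is in the segment number `i` -/
def InS (segs : List (List α)) (i : ℕ) (x : α) : Prop := ∃ seg, segs[i]? = some seg ∧ x ∈ seg

theorem inS_ex {segs : List (List α)} {x : α} (h : x ∈ segs.flatten) : ∃ i, InS segs i x := by
  obtain ⟨seg, h1, h2⟩ := List.mem_flatten.1 h
  obtain ⟨i, hi⟩ := List.mem_iff_getElem?.1 h1
  exact ⟨i, seg, hi, h2⟩

theorem inS_mem {segs : List (List α)} {i : ℕ} {x : α} (h : InS segs i x) : x ∈ segs.flatten := by
  obtain ⟨seg, h1, h2⟩ := h
  exact List.mem_flatten.2 ⟨seg, List.mem_of_getElem? h1, h2⟩

theorem inS_zero {seg : List α} {segs : List (List α)} {x : α} : InS (seg :: segs) 0 x ↔ x ∈ seg := by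
  unfold InS
  simp

theorem inS_succ {seg : List α} {segs : List (List α)} {i : ℕ} {x : α} : InS (seg :: segs) (i + 1) x ↔ InS segs i x := by
  unfold InS
  simp

theorem inS_lt [DecidableEq α] : ∀ {segs : List (List α)} {i j : ℕ} {x y : α}, segs.flatten.Nodup → InS segs i x →
    InS segs j y → i < j → segs.flatten.idxOf x < segs.flatten.idxOf y
  | [], i, j, x, y, _, hx, _, _ => by
    obtain ⟨seg, h1, _⟩ := hx
    simp at h1
  | seg :: segs, 0, j + 1, x, y, hn, hx, hy, _ => by
    rw [inS_zero] at hx
    rw [inS_succ] at hy
    rw [List.flatten_cons] at hn ⊢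
    have hy' := inS_mem hy
    have h1 : y ∉ seg := fun h => (List.nodup_append.1 hn).2.2 y h y hy' rfl
    rw [List.idxOf_append_of_mem hx, List.idxOf_append_of_notMem h1]
    have := List.idxOf_lt_length_iff.2 hx
    omega
  | seg :: segs, i + 1, j + 1, x, y, hn, hx, hy, hij => by
    rw [inS_succ] at hx hy
    rw [List.flatten_cons] at hn ⊢
    have hx' := inS_mem hx
    have hy' := inS_mem hy
    have h1 : y ∉ seg := fun h => (List.nodup_append.1 hn).2.2 y h y hy' rfl
    have h2 : x ∉ seg := fun h => (List.nodup_append.1 hn).2.2 x h x hx' rfl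
    rw [List.idxOf_append_of_notMem h2, List.idxOf_append_of_notMem h1]
    have := inS_lt (List.nodup_append.1 hn).2.1 hx hy (by omega)
    omega

theorem inS_uniq [DecidableEq α] {segs : List (List α)} {i j : ℕ} {x : α} (hn : segs.flatten.Nodup) (hx : InS segs i x)
    (hy : InS segs j x) : i = j := by
  rcases lt_trichotomy i j with h | h | h
  · exact absurd (inS_lt hn hx hy h) (lt_irrefl _)
  · exact h
  · exact absurd (inS_lt hn hy hx h) (lt_irrefl _)

theorem inS_btw [DecidableEq α] {segs : List (List α)} {i : ℕ} {a b c : α} (hn : segs.flatten.Nodup) (ha : InS segs i a)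
    (hb : InS segs i b) (hc : c ∈ segs.flatten) (h1 : segs.flatten.idxOf a < segs.flatten.idxOf c)
    (h2 : segs.flatten.idxOf c < segs.flatten.idxOf b) : InS segs i c := by
  obtain ⟨j, hj⟩ := inS_ex hc
  rcases lt_trichotomy i j with h | h | h
  · have := inS_lt hn hb hj h
    omega
  · rw [h]
    exact hj
  · have := inS_lt hn hj ha h
    omega

/-- members of corresponding segments are in the same order -/
theorem inS_lt_iff [DecidableEq α] {segs segs' : List (List α)} {i j : ℕ} {x y x' y' : α} (hn : segs.flatten.Nodup)
    (hn' : segs'.flatten.Nodup) (hx : InS segs i x) (hy : InS segs j y) (hx' : InS segs' i x') (hy' : InS segs' j y')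
    (hij : i ≠ j) : segs.flatten.idxOf x < segs.flatten.idxOf y ↔ segs'.flatten.idxOf x' < segs'.flatten.idxOf y' := by
  rcases lt_or_gt_of_ne hij with h | h
  · exact ⟨fun _ => inS_lt hn' hx' hy' h, fun _ => inS_lt hn hx hy h⟩
  · have h1 := inS_lt hn hy hx h
    have h2 := inS_lt hn' hy' hx' h
    omega

/-- the list of singletons -/
theorem flatten_single (B : List α) : (B.map fun b => [b]).flatten = B := by
  induction B with
  | nil => rfl
  | cons b B ih => rw [List.map_cons, List.flatten_cons, ih]; rfl

theorem inS_single {B : List α} {i : ℕ} {b : α} : InS (B.map fun b => [b]) i b ↔ B[i]? = some b := by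
  unfold InS
  rw [List.getElem?_map]
  cases h : B[i]? with
  | none => simp
  | some c => simp [eq_comm]

/-- one representative for every segment -/
theorem rep_ex {P : α → Bool} {f : α → β} {segs : List (List α)} {w : List β} (h : List.Forall₂ (SegR P f) segs w) :
    ∃ B : List α, B.Sublist segs.flatten ∧ B.length = segs.length ∧ B.map f = w ∧
      ∀ i b, B[i]? = some b → InS segs i b ∧ P b = true := by
  induction h with
  | nil => exact ⟨[], List.Sublist.refl _, rfl, rfl, fun i b h => by simp at h⟩
  | @cons seg r segs w h1 h2 ih =>
    obtain ⟨B, k1, k2, k3, k4⟩ := ih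
    obtain ⟨x, hx, hPx⟩ := h1.2
    refine ⟨x :: B, ?_, ?_, ?_, ?_⟩
    · rw [List.flatten_cons]
      exact List.Sublist.append (l₁ := [x]) (List.singleton_sublist.2 hx) k1
    · rw [List.length_cons, List.length_cons, k2]
    · rw [List.map_cons, k3, h1.1 x hx hPx]
    · intro i b hb
      cases i with
      | zero =>
        simp only [List.getElem?_cons_zero, Option.some.injEq] at hb
        subst hb
        exact ⟨inS_zero.2 hx, hPx⟩
      | succ i =>
        rw [List.getElem?_cons_succ] at hb
        obtain ⟨g1, g2⟩ := k4 i b hb
        exact ⟨inS_succ.2 g1, g2⟩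

/-- the row of a member of a segment -/
theorem row_of_inS {P : α → Bool} {f : α → β} {segs : List (List α)} {w : List β} (h : List.Forall₂ (SegR P f) segs w)
    {i : ℕ} {x : α} (hx : InS segs i x) (hP : P x = true) : w[i]? = some (f x) := by
  induction h generalizing i with
  | nil => obtain ⟨seg, h1, _⟩ := hx; simp at h1
  | @cons seg r segs w h1 h2 ih =>
    cases i with
    | zero =>
      rw [inS_zero] at hx
      simp [h1.1 x hx hP]
    | succ i =>
      rw [inS_succ] at hx
      rw [List.getElem?_cons_succ]
      exact ih hx

/-- every segment has a member with the property -/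
theorem inS_att {P : α → Bool} {f : α → β} {segs : List (List α)} {w : List β} (h : List.Forall₂ (SegR P f) segs w)
    {i : ℕ} (hi : i < segs.length) : ∃ x, InS segs i x ∧ P x = true := by
  induction h generalizing i with
  | nil => simp at hi
  | @cons seg r segs w h1 h2 ih =>
    cases i with
    | zero =>
      obtain ⟨x, hx, hPx⟩ := h1.2
      exact ⟨x, inS_zero.2 hx, hPx⟩
    | succ i =>
      obtain ⟨x, hx, hPx⟩ := ih (i := i) (by rw [List.length_cons] at hi; omega)
      exact ⟨x, inS_succ.2 hx, hPx⟩

theorem inS_len {segs : List (List α)} {i : ℕ} {x : α} (h : InS segs i x) : i < segs.length := by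
  obtain ⟨seg, h1, _⟩ := h
  exact (List.getElem?_eq_some_iff.1 h1).1

end Pool.Agent.SOK
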