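import Pool.Agent.SOK.TyT

/-! Project SOK: refutations for the types (generated). -/

set_option autoImplicit false
set_option maxRecDepth 100000
set_option linter.unusedVariables false

namespace Pool.Agent.SOK

open Pool.Agent.SOC Pool.Agent.SOD Pool.Agent.RUP Pool.Agent.SOF Pool.Agent.SOG

/-- templates -/
def ty3K2_x : List Tm := [
  ⟨0, [], [], [.b true 2 8 8]⟩,
  ⟨0, [], [], [.b true 2 9 9]⟩,
  ⟨0, [], [], [.b true 2 10 10]⟩,
  ⟨0, [], [], [.b false 2 11 11]⟩,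
  ⟨0, [], [], [.b false 2 12 12]⟩,
  ⟨0, [], [], [.b false 2 13 13]⟩,
  ⟨0, [], [], [.b true 0 8 9]⟩,
  ⟨0, [], [], [.b true 0 8 10]⟩,
  ⟨0, [], [], [.b true 0 8 11]⟩,
  ⟨0, [], [], [.b false 0 8 12]⟩,
  ⟨0, [], [], [.b false 0 8 13]⟩,
  ⟨0, [], [], [.b true 0 9 10]⟩,
  ⟨0, [], [], [.b false 0 9 11]⟩,
  ⟨0, [], [], [.b true 0 9 12]⟩,
  ⟨0, [], [], [.b false 0 9 13]⟩,
  ⟨0, [], [], [.b false 0 10 11]⟩,
  ⟨0, [], [], [.b false 0 10 12]⟩,
  ⟨0, [], [], [.b true 0 10 13]⟩,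
  ⟨0, [], [], [.b true 0 11 12]⟩,
  ⟨0, [], [], [.b true 0 11 13]⟩,
  ⟨0, [], [], [.b true 0 12 13]⟩]

def ty3K2_p0 : List Nat := [
0x86420900000001f00000001d00000001b0000000210606000501,
0xa8200900000002100000001b0000000190000000230786000501,
0x48200b00000002b05c9000201,
0x2a400b00000002d06b9000201,
0x46020b0000000310521000201,
0xa420b000000035067d000201,
0x26040b0000000370509000201,
0x46201100000000a00000002f00000002900000000e04ee000501,
0x68042070000000020000000100576000301,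
0x8240b0000000390579000201,
0x842011000000006000000033000000027000000014059e000501,
0x84200100000001200000001601b3000301,
0xa84200700000000400000001802df000301,
0xa2401100000000800000000c00000002500000001a0446000501,
0x3b00000001c000200]

def ty3K2_pf : List Nat := ty3K2_p0

theorem ty3K2_ref {V : Type} {S : SRel V} {p : Nat → V} (hp : ∀ i j, i < 6 → j < 6 → p i = p j → i = j)
    (hts : PHs S p 6 ((qO ++ qQ) ++ ty3K2_x)) : False :=
  refuteS (k := 6) (n2 := 3) (n3 := 1) (n4 := 4) (o3 := 63) (o4 := 119) (M := 1043) ((qO ++ qQ) ++ ty3K2_x) ty3K2_pf (by decide +kernel)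
    (by decide +kernel) (by decide +kernel) (by decide +kernel) hp hts

theorem ty3K2 {V : Type} {Y : QSy V} (hq : QC Y.G Y.X Y.T Y.S) {a b c p q r : V}
    (nd : [a, b, c, p, q, r].Nodup) 
    (sa : Y.S a) (sb : Y.S b) (sc : Y.S c) (sp : ¬ Y.S p)
    (sq : ¬ Y.S q) (sr : ¬ Y.S r) (eab : Y.G.Adj a b) (eac : Y.G.Adj a c)
    (eap : Y.G.Adj a p) (eaq : ¬ Y.G.Adj a q) (ear : ¬ Y.G.Adj a r) (ebc : Y.G.Adj b c)
    (ebp : ¬ Y.G.Adj b p) (ebq : Y.G.Adj b q) (ebr : ¬ Y.G.Adj b r) (ecp : ¬ Y.G.Adj c p)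
    (ecq : ¬ Y.G.Adj c q) (ecr : Y.G.Adj c r) (epq : Y.G.Adj p q) (epr : Y.G.Adj p r)
    (eqr : Y.G.Adj q r) : False :=
  ty3K2_ref (S := Y.rel) (pt_inj (o := a) nd rfl) (PHs.app (UHs.phs ((qO_h hq).app (qQ_h hq)) _ _) (
  .cons (fun d hd h0 => h0 ⟨rfl, sa⟩) (
  .cons (fun d hd h0 => h0 ⟨rfl, sb⟩) (
  .cons (fun d hd h0 => h0 ⟨rfl, sc⟩) (
  .cons (fun d hd h0 => sp h0.2) (
  .cons (fun d hd h0 => sq h0.2) (
  .cons (fun d hd h0 => sr h0.2) (
  .cons (fun d hd h0 => h0 eab) (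
  .cons (fun d hd h0 => h0 eac) (
  .cons (fun d hd h0 => h0 eap) (
  .cons (fun d hd h0 => eaq h0) (
  .cons (fun d hd h0 => ear h0) (
  .cons (fun d hd h0 => h0 ebc) (
  .cons (fun d hd h0 => ebp h0) (
  .cons (fun d hd h0 => h0 ebq) (
  .cons (fun d hd h0 => ebr h0) (
  .cons (fun d hd h0 => ecp h0) (
  .cons (fun d hd h0 => ecq h0) (
  .cons (fun d hd h0 => h0 ecr) (
  .cons (fun d hd h0 => h0 epq) (
  .cons (fun d hd h0 => h0 epr) (
  .cons (fun d hd h0 => h0 eqr) (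
  .nil)))))))))))))))))))))))

/-- templates -/
def tyKH_x : List Tm := [
  ⟨0, [], [], [.b true 2 8 8]⟩,
  ⟨0, [], [], [.b true 2 9 9]⟩,
  ⟨0, [], [], [.b true 2 10 10]⟩,
  ⟨0, [], [], [.b true 2 11 11]⟩,
  ⟨0, [], [], [.b false 2 12 12]⟩,
  ⟨0, [], [], [.b false 2 13 13]⟩,
  ⟨0, [], [], [.b false 2 14 14]⟩,
  ⟨0, [], [], [.b false 2 15 15]⟩,
  ⟨0, [], [], [.b true 0 8 9]⟩,
  ⟨0, [], [], [.b true 0 8 10]⟩,
  ⟨0, [], [], [.b true 0 8 11]⟩,
  ⟨0, [], [], [.b true 0 8 12]⟩,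
  ⟨0, [], [], [.b true 0 8 13]⟩,
  ⟨0, [], [], [.b true 0 8 14]⟩,
  ⟨0, [], [], [.b false 0 8 15]⟩,
  ⟨0, [], [], [.b true 0 9 10]⟩,
  ⟨0, [], [], [.b true 0 9 11]⟩,
  ⟨0, [], [], [.b true 0 9 12]⟩,
  ⟨0, [], [], [.b true 0 9 13]⟩,
  ⟨0, [], [], [.b false 0 9 14]⟩,
  ⟨0, [], [], [.b false 0 9 15]⟩,
  ⟨0, [], [], [.b true 0 10 11]⟩,
  ⟨0, [], [], [.b true 0 10 12]⟩,
  ⟨0, [], [], [.b false 0 10 13]⟩,
  ⟨0, [], [], [.b false 0 10 14]⟩,
  ⟨0, [], [], [.b false 0 10 15]⟩,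
  ⟨0, [], [], [.b false 0 11 12]⟩,
  ⟨0, [], [], [.b false 0 11 13]⟩,
  ⟨0, [], [], [.b false 0 11 14]⟩,
  ⟨0, [], [], [.b true 0 11 15]⟩,
  ⟨0, [], [], [.b true 0 12 13]⟩,
  ⟨0, [], [], [.b true 0 12 14]⟩,
  ⟨0, [], [], [.b true 0 12 15]⟩,
  ⟨0, [], [], [.b true 0 13 14]⟩,
  ⟨0, [], [], [.b true 0 13 15]⟩,
  ⟨0, [], [], [.b true 0 14 15]⟩]

def tyKH_p0 : List Nat := [
0xa8640900000002100000001f00000001d0000000230f48000501,
0xc8200900000002100000001b0000000190000000251148000501,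
0xc8420900000002100000001d00000001b0000000251154000501,
0xca420900000002300000001d00000001b00000002511bc000501,
0xe8200900000002100000001b0000000190000000271474000501,
0xe8400900000002100000001d000000019000000027147c000501,
0xea200900000002300000001b00000001900000002714f8000501,
0x2e600b0000000351317000201,
0x4e600b000000035138f000201,
0x4c020b00000003f1087000201,
0x8c020b00000003f114b000201,
0xac020b00000003f11b3000201,
0xe620b00000004112a7000201,
0x6a040b0000000470eeb000201,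
0x8a040b0000000470f37000201,
0x6a240b0000000470eef000201,
0x8a240b0000000470f3b000201,
0x2c040b0000000491033000201,
0x4c20110000000140000000370000000330000000240fdc000501,
0xc8042070000000060000000260d1c000301,
0xca042070000000080000000260e20000301,
0xe640b00000004b12ab000201,
0x8260b00000004d0d2b000201,
0x8460b00000004d0d2f000201,
0x8a60b00000004d0f07000201,
0x4a060b00000004f0eaf000201,
0xa260b00000004f0e2f000201,
0x4a260b00000004f0eb3000201,
0x4a860b00000004f0ecb000201,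
0x6a401100000001c0000000430000000310000000340e30000501,
0x6a421100000002000000004300000003d0000000380e70000501,
0xa20640700000003e00000003c0cc4000301,
0xa80640700000000200000003c0d2c000301,
0x462a00700000002a00000003c0e2c000301,
0x46280070000000280000000420d28000301,
0xc860b0000000511003000201,
0x2c860b000000051105b000201,
0x2ca60b000000051106f000201,
0xe2601100000001000000001a00000002900000005313f4000501,
0xe4601100000001200000002c00000002b00000005313fc000501,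
0xe86200700000000a00000004e0da0000301,
0xea6200700000000e00000004e0ee0000301,
0xe86400700000000c0000000500da8000301,
0x68420070000000400000000520d6c000301,
0x8620010000000460000000520204000301,
0x6a420070000000400000000540e98000301,
0xa62001000000044000000054031c000301,
0x8640010000000420000000560234000301,
0x84200100000002800000005801f8000301,
0x86201100000002e00000003b00000002d00000005a0257000501,
0xa4200100000002a00000005c0310000301,
0xa6201100000003600000003d00000002d00000005e0397000501,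
0x86401100000003000000004500000002d000000060025f000501,
0x82400d0000000620d47000201,
0xc60821500000004a000000064104f000301,
0xc60a21500000004c0000000681063000301,
0xc862a01700000001800000003200000006811d7000401,
0xac64801700000004800000001e00000006a101b000401,
0x2a60841700000003a00000006c00000006a0ec3000401,
0x8c201100000001600000003b00000003300000006e0ff8000501,
0xac201100000001800000003d000000033000000070100c000501,
0x8a421100000002200000004500000003d0000000760e80000501,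
0xc820010000000040000000780500000301,
0x2a8c00700000007a0000000781018000301,
0x840a20700000006600000007c032c000301,
0xca2800500000008200000007e11d4000301,
0xca80010000000840000000800634000301,
0xca80110000000720000000740000000310000000860b97000501,
0x57000000088000200]

def tyKH_pf : List Nat := tyKH_p0

theorem tyKH_ref {V : Type} {S : SRel V} {p : Nat → V} (hp : ∀ i j, i < 8 → j < 8 → p i = p j → i = j)
    (hts : PHs S p 8 ((qO ++ qQ) ++ tyKH_x)) : False :=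
  refuteS (k := 8) (n2 := 3) (n3 := 1) (n4 := 4) (o3 := 108) (o4 := 228) (M := 2892) ((qO ++ qQ) ++ tyKH_x) tyKH_pf (by decide +kernel)
    (by decide +kernel) (by decide +kernel) (by decide +kernel) hp hts

theorem tyKH {V : Type} {Y : QSy V} (hq : QC Y.G Y.X Y.T Y.S) {a b c d p q r s : V}
    (nd : [a, b, c, d, p, q, r, s].Nodup) 
    (sa : Y.S a) (sb : Y.S b) (sc : Y.S c) (sd : Y.S d)
    (sp : ¬ Y.S p) (sq : ¬ Y.S q) (sr : ¬ Y.S r) (ss : ¬ Y.S s)
    (eab : Y.G.Adj a b) (eac : Y.G.Adj a c) (ead : Y.G.Adj a d) (eap : Y.G.Adj a p)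
    (eaq : Y.G.Adj a q) (ear : Y.G.Adj a r) (eas : ¬ Y.G.Adj a s) (ebc : Y.G.Adj b c)
    (ebd : Y.G.Adj b d) (ebp : Y.G.Adj b p) (ebq : Y.G.Adj b q) (ebr : ¬ Y.G.Adj b r)
    (ebs : ¬ Y.G.Adj b s) (ecd : Y.G.Adj c d) (ecp : Y.G.Adj c p) (ecq : ¬ Y.G.Adj c q)
    (ecr : ¬ Y.G.Adj c r) (ecs : ¬ Y.G.Adj c s) (edp : ¬ Y.G.Adj d p) (edq : ¬ Y.G.Adj d q)
    (edr : ¬ Y.G.Adj d r) (eds : Y.G.Adj d s) (epq : Y.G.Adj p q) (epr : Y.G.Adj p r)
    (eps : Y.G.Adj p s) (eqr : Y.G.Adj q r) (eqs : Y.G.Adj q s) (ers : Y.G.Adj r s) : False :=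
  tyKH_ref (S := Y.rel) (pt_inj (o := a) nd rfl) (PHs.app (UHs.phs ((qO_h hq).app (qQ_h hq)) _ _) (
  .cons (fun d hd h0 => h0 ⟨rfl, sa⟩) (
  .cons (fun d hd h0 => h0 ⟨rfl, sb⟩) (
  .cons (fun d hd h0 => h0 ⟨rfl, sc⟩) (
  .cons (fun d hd h0 => h0 ⟨rfl, sd⟩) (
  .cons (fun d hd h0 => sp h0.2) (
  .cons (fun d hd h0 => sq h0.2) (
  .cons (fun d hd h0 => sr h0.2) (
  .cons (fun d hd h0 => ss h0.2) (
  .cons (fun d hd h0 => h0 eab) (
  .cons (fun d hd h0 => h0 eac) (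
  .cons (fun d hd h0 => h0 ead) (
  .cons (fun d hd h0 => h0 eap) (
  .cons (fun d hd h0 => h0 eaq) (
  .cons (fun d hd h0 => h0 ear) (
  .cons (fun d hd h0 => eas h0) (
  .cons (fun d hd h0 => h0 ebc) (
  .cons (fun d hd h0 => h0 ebd) (
  .cons (fun d hd h0 => h0 ebp) (
  .cons (fun d hd h0 => h0 ebq) (
  .cons (fun d hd h0 => ebr h0) (
  .cons (fun d hd h0 => ebs h0) (
  .cons (fun d hd h0 => h0 ecd) (
  .cons (fun d hd h0 => h0 ecp) (
  .cons (fun d hd h0 => ecq h0) (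
  .cons (fun d hd h0 => ecr h0) (
  .cons (fun d hd h0 => ecs h0) (
  .cons (fun d hd h0 => edp h0) (
  .cons (fun d hd h0 => edq h0) (
  .cons (fun d hd h0 => edr h0) (
  .cons (fun d hd h0 => h0 eds) (
  .cons (fun d hd h0 => h0 epq) (
  .cons (fun d hd h0 => h0 epr) (
  .cons (fun d hd h0 => h0 eps) (
  .cons (fun d hd h0 => h0 eqr) (
  .cons (fun d hd h0 => h0 eqs) (
  .cons (fun d hd h0 => h0 ers) (
  .nil))))))))))))))))))))))))))))))))))))))

/-- templates -/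
def tyPP_x : List Tm := [
  ⟨0, [], [], [.b true 2 8 8]⟩,
  ⟨0, [], [], [.b true 2 9 9]⟩,
  ⟨0, [], [], [.b true 2 10 10]⟩,
  ⟨0, [], [], [.b true 2 11 11]⟩,
  ⟨0, [], [], [.b false 2 12 12]⟩,
  ⟨0, [], [], [.b false 2 13 13]⟩,
  ⟨0, [], [], [.b false 2 14 14]⟩,
  ⟨0, [], [], [.b false 2 15 15]⟩,
  ⟨0, [], [], [.b true 0 8 9]⟩,
  ⟨0, [], [], [.b true 0 8 10]⟩,
  ⟨0, [], [], [.b true 0 8 11]⟩,
  ⟨0, [], [], [.b true 0 8 12]⟩,
  ⟨0, [], [], [.b true 0 8 13]⟩,
  ⟨0, [], [], [.b false 0 8 14]⟩,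
  ⟨0, [], [], [.b false 0 8 15]⟩,
  ⟨0, [], [], [.b true 0 9 10]⟩,
  ⟨0, [], [], [.b true 0 9 11]⟩,
  ⟨0, [], [], [.b true 0 9 12]⟩,
  ⟨0, [], [], [.b false 0 9 13]⟩,
  ⟨0, [], [], [.b false 0 9 14]⟩,
  ⟨0, [], [], [.b false 0 9 15]⟩,
  ⟨0, [], [], [.b true 0 10 11]⟩,
  ⟨0, [], [], [.b false 0 10 12]⟩,
  ⟨0, [], [], [.b false 0 10 13]⟩,
  ⟨0, [], [], [.b true 0 10 14]⟩,
  ⟨0, [], [], [.b true 0 10 15]⟩,
  ⟨0, [], [], [.b false 0 11 12]⟩,
  ⟨0, [], [], [.b false 0 11 13]⟩,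
  ⟨0, [], [], [.b true 0 11 14]⟩,
  ⟨0, [], [], [.b false 0 11 15]⟩,
  ⟨0, [], [], [.b true 0 12 13]⟩,
  ⟨0, [], [], [.b true 0 12 14]⟩,
  ⟨0, [], [], [.b true 0 12 15]⟩,
  ⟨0, [], [], [.b true 0 13 14]⟩,
  ⟨0, [], [], [.b true 0 13 15]⟩,
  ⟨0, [], [], [.b true 0 14 15]⟩]

def tyPP_p0 : List Nat := [
0xa8200900000002100000001b0000000190000000230f2c000501,
0xa8420900000002100000001d00000001b0000000230f38000501,
0xc8200900000002100000001b0000000190000000251148000501,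
0xea400900000002300000001d0000000190000000271500000501,
0x2c400b0000000331033000201,
0xae400b0000000351503000201,
0x8ea00b00000003514af000201,
0x4a020b00000003d0e9b000201,
0x8a020b00000003d0f2f000201,
0xc420b00000003f0fdf000201,
0x8240b0000000450d1f000201,
0x68240b0000000450daf000201,
0xe8a40b00000004514b7000201,
0x2a040b0000000470e5f000201,
0x2a840b0000000470e83000201,
0xea840b0000000471527000201,
0x4a201100000001000000003700000003100000001c0e20000501,
0xa8042070000000040000000220d1c000301,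
0xc2401100000000a0000000140000000290000000491084000501,
0xc8420070000000060000000260d6c000301,
0x84200100000002400000002801f8000301,
0x84201100000001600000003b00000002b00000002a0223000501,
0xa40821500000001e00000002c0e7b000301,
0x8a201100000001200000003b00000003100000002e0e3c000501,
0xa82001000000002000000030032c000301,
0x4a280070000000240000000320370000301,
0x8260b00000004d0d2b000201,
0x48260b00000004d0d87000201,
0x68421100000001800000004300000003b0000000380d58000501,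
0x640820700000002a00000003a0204000301,
0x86201100000003600000003b00000002d00000003c0257000501,
0x684201300000002c00000003e017b000301,
0xe460b00000005312ab000201,
0xe860b00000005312bf000201,
0xae62401700000004000000001000000004212cf000401,
0xae62801700000003e00000001200000004412d7000401,
0xea401100000000c00000004b00000003100000004613b0000501,
0xea400100000000800000004a0780000301,
0xe80a40500000003400000004c14b4000301,
0xae841100000002000000001a00000004b00000005513c0000501,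
0xea840100000004e00000005009d8000301,
0x84ea0700000000800000005209d0000301,
0xe8a01100000000e00000004800000002f0000000540baf000501,
0x5d000000056000200]

def tyPP_pf : List Nat := tyPP_p0

theorem tyPP_ref {V : Type} {S : SRel V} {p : Nat → V} (hp : ∀ i j, i < 8 → j < 8 → p i = p j → i = j)
    (hts : PHs S p 8 ((qO ++ qQ) ++ tyPP_x)) : False :=
  refuteS (k := 8) (n2 := 3) (n3 := 1) (n4 := 4) (o3 := 108) (o4 := 228) (M := 2892) ((qO ++ qQ) ++ tyPP_x) tyPP_pf (by decide +kernel)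
    (by decide +kernel) (by decide +kernel) (by decide +kernel) hp hts

theorem tyPP {V : Type} {Y : QSy V} (hq : QC Y.G Y.X Y.T Y.S) {a b c d p q r s : V}
    (nd : [a, b, c, d, p, q, r, s].Nodup) 
    (sa : Y.S a) (sb : Y.S b) (sc : Y.S c) (sd : Y.S d)
    (sp : ¬ Y.S p) (sq : ¬ Y.S q) (sr : ¬ Y.S r) (ss : ¬ Y.S s)
    (eab : Y.G.Adj a b) (eac : Y.G.Adj a c) (ead : Y.G.Adj a d) (eap : Y.G.Adj a p)
    (eaq : Y.G.Adj a q) (ear : ¬ Y.G.Adj a r) (eas : ¬ Y.G.Adj a s) (ebc : Y.G.Adj b c)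
    (ebd : Y.G.Adj b d) (ebp : Y.G.Adj b p) (ebq : ¬ Y.G.Adj b q) (ebr : ¬ Y.G.Adj b r)
    (ebs : ¬ Y.G.Adj b s) (ecd : Y.G.Adj c d) (ecp : ¬ Y.G.Adj c p) (ecq : ¬ Y.G.Adj c q)
    (ecr : Y.G.Adj c r) (ecs : Y.G.Adj c s) (edp : ¬ Y.G.Adj d p) (edq : ¬ Y.G.Adj d q)
    (edr : Y.G.Adj d r) (eds : ¬ Y.G.Adj d s) (epq : Y.G.Adj p q) (epr : Y.G.Adj p r)
    (eps : Y.G.Adj p s) (eqr : Y.G.Adj q r) (eqs : Y.G.Adj q s) (ers : Y.G.Adj r s) : False :=
  tyPP_ref (S := Y.rel) (pt_inj (o := a) nd rfl) (PHs.app (UHs.phs ((qO_h hq).app (qQ_h hq)) _ _) (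
  .cons (fun d hd h0 => h0 ⟨rfl, sa⟩) (
  .cons (fun d hd h0 => h0 ⟨rfl, sb⟩) (
  .cons (fun d hd h0 => h0 ⟨rfl, sc⟩) (
  .cons (fun d hd h0 => h0 ⟨rfl, sd⟩) (
  .cons (fun d hd h0 => sp h0.2) (
  .cons (fun d hd h0 => sq h0.2) (
  .cons (fun d hd h0 => sr h0.2) (
  .cons (fun d hd h0 => ss h0.2) (
  .cons (fun d hd h0 => h0 eab) (
  .cons (fun d hd h0 => h0 eac) (
  .cons (fun d hd h0 => h0 ead) (
  .cons (fun d hd h0 => h0 eap) (
  .cons (fun d hd h0 => h0 eaq) (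
  .cons (fun d hd h0 => ear h0) (
  .cons (fun d hd h0 => eas h0) (
  .cons (fun d hd h0 => h0 ebc) (
  .cons (fun d hd h0 => h0 ebd) (
  .cons (fun d hd h0 => h0 ebp) (
  .cons (fun d hd h0 => ebq h0) (
  .cons (fun d hd h0 => ebr h0) (
  .cons (fun d hd h0 => ebs h0) (
  .cons (fun d hd h0 => h0 ecd) (
  .cons (fun d hd h0 => ecp h0) (
  .cons (fun d hd h0 => ecq h0) (
  .cons (fun d hd h0 => h0 ecr) (
  .cons (fun d hd h0 => h0 ecs) (
  .cons (fun d hd h0 => edp h0) (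
  .cons (fun d hd h0 => edq h0) (
  .cons (fun d hd h0 => h0 edr) (
  .cons (fun d hd h0 => eds h0) (
  .cons (fun d hd h0 => h0 epq) (
  .cons (fun d hd h0 => h0 epr) (
  .cons (fun d hd h0 => h0 eps) (
  .cons (fun d hd h0 => h0 eqr) (
  .cons (fun d hd h0 => h0 eqs) (
  .cons (fun d hd h0 => h0 ers) (
  .nil))))))))))))))))))))))))))))))))))))))

end Pool.Agent.SOK
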