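import Pool.Agent.SOK.TyDefs

/-! Project SOK: templates for structures with a cut (generated). -/

set_option autoImplicit false
set_option maxRecDepth 100000
set_option linter.unusedVariables false

namespace Pool.Agent.SOK

open Pool.Agent.SOC Pool.Agent.SOD Pool.Agent.RUP Pool.Agent.SOF Pool.Agent.SOG

/-- templates -/
def qO : List Tm := [
  ⟨4, [], ad4, [.q true 0 0 1 2 3, .q true 0 0 2 1 3, .q true 0 0 3 1 2]⟩,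
  ⟨4, [], ad4, [.q false 0 0 1 2 3, .q false 0 0 2 1 3]⟩,
  ⟨5, [], ad5, [.q false 0 0 1 2 3, .q false 0 0 1 3 4, .q false 0 0 1 2 4]⟩,
  ⟨5, [], ad5, [.q false 0 0 1 2 3, .q true 0 0 1 3 4, .q true 0 0 1 2 4]⟩]

theorem qO_h {V : Type} {Y : QSy V} (hq : QC Y.G Y.X Y.T Y.S) : UHs Y.rel qO :=
  .cons (fun v n01 n02 n03 n12 n13 n23 h0 h1 h2 => (hq.sepr.one n01 n02 n03 n12 n13 n23).elim h0 (fun k => k.elim h1 h2)) (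
  .cons (fun v n01 n02 n03 n12 n13 n23 h0 h1 => hq.sepr.amo h0 h1) (
  .cons (fun v n01 n02 n03 n04 n12 n13 n14 n23 n24 n34 h0 h1 h2 => hq.sepr.add h0 h1 h2) (
  .cons (fun v n01 n02 n03 n04 n12 n13 n14 n23 n24 n34 h0 h1 h2 => (hq.sepr.add2 h0 n34 n24 n04 n14).elim h1 h2) (
  .nil))))

/-- templates -/
def qQ : List Tm := [
  ⟨4, [], ad4, [.b false 2 0 0, .b false 2 1 1, .b true 2 2 2, .b true 2 3 3, .q false 0 0 1 2 3]⟩,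
  ⟨4, [], ad4, [.q false 3 0 1 2 3, .b true 0 0 2]⟩,
  ⟨4, [], ad4, [.q false 3 0 1 2 3, .q false 0 0 1 2 3]⟩,
  ⟨4, [], ad4, [.q false 3 0 1 2 3, .q false 3 0 2 1 3]⟩,
  ⟨4, [], ad4, [.b false 0 0 2, .b false 0 1 3, .q false 0 0 2 1 3, .q true 3 0 1 2 3, .q true 3 0 3 1 2]⟩,
  ⟨5, [], ad5, [.q false 3 0 1 2 3, .q false 3 0 1 3 4, .q true 3 0 1 2 4]⟩,
  ⟨5, [], ad5, [.q false 3 0 2 1 3, .q false 3 0 4 1 2, .q true 3 0 4 1 3]⟩,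
  ⟨6, [], ad6, [.q false 3 0 2 1 3, .q false 3 0 4 1 5, .q true 3 0 2 1 5, .q true 3 0 4 1 3]⟩]

theorem qQ_h {V : Type} {Y : QSy V} (hq : QC Y.G Y.X Y.T Y.S) : UHs Y.rel qQ :=
  .cons (fun v n01 n02 n03 n12 n13 n23 h0 h1 h2 h3 h4 => hq.int h0.2 h1.2 (ng h2) (ng h3) h4) (
  .cons (fun v n01 n02 n03 n12 n13 n23 h0 h1 => h1 (hq.qt.adj h0)) (
  .cons (fun v n01 n02 n03 n12 n13 n23 h0 h1 => hq.qt.nocross h0 h1) (
  .cons (fun v n01 n02 n03 n12 n13 n23 h0 h1 => hq.qt.notboth (hq.qt.swap₂ (hq.qt.swap₁ (hq.qt.swap₂ h0))) h1) (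
  .cons (fun v n01 n02 n03 n12 n13 n23 h0 h1 h2 h3 h4 => (hq.qt.some h0 h1 n01 n03 n12 n23 h2).elim h3 h4) (
  .cons (fun v n01 n02 n03 n04 n12 n13 n14 n23 n24 n34 h0 h1 h2 => h2 (hq.qt.trans h0 h1 n24)) (
  .cons (fun v n01 n02 n03 n04 n12 n13 n14 n23 n24 n34 h0 h1 h2 => (hq.qt.ferrers h0 h1).elim (fun k => (hq.qt.adj (hq.qt.swap₂ (hq.qt.swap₁ (hq.qt.swap₂ (hq.qt.swap₁ k))))).ne rfl) h2) (
  .cons (fun v n01 n02 n03 n04 n05 n12 n13 n14 n15 n23 n24 n25 n34 n35 n45 h0 h1 h2 h3 => (hq.qt.ferrers h0 h1).elim h2 h3) (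
  .nil))))))))

end Pool.Agent.SOK
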