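import Pool.Agent.SOK.KDefs
import Pool.Agent.SOK.Mx
import Pool.Agent.SOT.Defs2

/-! Project SOK, module Vo: orders as lists of numbers. -/

set_option autoImplicit false

namespace Pool.Agent.SOK

open Pool.Agent.SOC Pool.Agent.SOD Pool.Agent.SOV

/-- lists of small numbers are lists of vertices -/
theorem fin_list {n : ℕ} {l : List ℕ} (h : ∀ x ∈ l, x < n) : ∃ s : List (Fin n), s.map Fin.val = l := by
  refine ⟨l.pmap (fun x hx => ⟨x, hx⟩) h, ?_⟩
  rw [List.map_pmap]
  exact List.pmap_eq_self.2 fun _ _ => rfl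

theorem enum_of_perm {n : ℕ} {s : List (Fin n)} (h : (s.map Fin.val).Perm (List.range n)) : IsEnum s := by
  refine ⟨List.Nodup.of_map Fin.val (h.nodup_iff.2 List.nodup_range), fun v => ?_⟩
  have h1 : v.val ∈ s.map Fin.val := h.mem_iff.2 (List.mem_range.2 v.2)
  obtain ⟨u, hu, e⟩ := List.mem_map.1 h1
  rwa [Fin.ext e] at hu

/-- the test of an order of the whole graph -/
theorem vo_tok {M : List (List Bool)} {l : List ℕ} (hp : l.Perm (List.range M.length)) :
    tOk M l = true ↔ Pool.Agent.SOT.VO M l := by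
  obtain ⟨s, hs⟩ := fin_list (n := M.length) (l := l) fun x hx => List.mem_range.1 (hp.mem_iff.1 hx)
  have he : IsEnum s := enum_of_perm (by rw [hs]; exact hp)
  rw [← hs, tOk_enum he]
  constructor
  · rintro ⟨T, h⟩
    exact ⟨s, rfl, he, T, h⟩
  · rintro ⟨s', h1, h2, T, h⟩
    have e : s' = s := List.map_injective_iff.2 Fin.val_injective h1
    rw [← e]
    exact ⟨T, h⟩

end Pool.Agent.SOK
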