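import Pool.Agent.SOK.WdL

/-! Project SOK, module WdF: THE WORDS of an order and its context. -/

set_option autoImplicit false

namespace Pool.Agent.SOK

open Pool.Agent.SOC Pool.Agent.SOD Pool.Agent.RUP Pool.Agent.SOF Pool.Agent.SOG Pool.Agent.SOV Pool.Agent.SOS

variable {V : Type} {G : SimpleGraph V} {L R B W : List V}

/-! ### alternating words with two letters -/

/-- words which are not short -/
theorem alt_cases {l : List Bool} (hc : l.IsChain (fun a b => a ≠ b)) (ha : ∀ i, i ∈ l) :
    ∃ a t, l = a :: (!a) :: t ∧ (t = [] ∨ ∃ t', t = a :: t') := by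
  match l, hc, ha with
  | [], _, ha => exact absurd (ha true) List.not_mem_nil
  | [a], _, ha =>
    have h1 := ha (!a)
    simp at h1
  | [a, b], hc, _ =>
    have h1 : a ≠ b := by simpa using hc
    exact ⟨a, [], by cases a <;> cases b <;> simp_all, Or.inl rfl⟩
  | a :: b :: c :: t, hc, _ =>
    have h1 : a ≠ b ∧ b ≠ c := by
      simp only [List.isChain_cons_cons] at hc
      exact ⟨hc.1, hc.2.1⟩
    refine ⟨a, c :: t, by cases a <;> cases b <;> simp_all, Or.inr ⟨t, ?_⟩⟩
    cases a <;> cases b <;> cases c <;> simp_all

theorem alt_two {l : List Bool} (hc : l.IsChain (fun a b => a ≠ b)) (ha : ∀ i, i ∈ l) {c : Bool}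
    (h : ¬ [c, !c].Sublist l) : l = [!c, c] := by
  obtain ⟨a, t, rfl, h1⟩ := alt_cases hc ha
  by_cases e : a = c
  · subst e
    exact absurd (.cons_cons _ (.cons_cons _ (List.nil_sublist _))) h
  · have e' : a = !c := by cases a <;> cases c <;> simp_all
    subst e'
    rcases h1 with rfl | ⟨t', rfl⟩
    · simp
    · exfalso
      apply h
      rw [Bool.not_not]
      exact .cons _ (.cons_cons _ (.cons_cons _ (List.nil_sublist _)))

theorem alt_three {l : List Bool} (hc : l.IsChain (fun a b => a ≠ b)) (ha : ∀ i, i ∈ l) {c : Bool}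
    (h : ¬ [c, !c, c].Sublist l) : l = [c, !c] ∨ l = [!c, c] ∨ l = [!c, c, !c] := by
  obtain ⟨a, t, rfl, h1⟩ := alt_cases hc ha
  by_cases e : a = c
  · subst e
    rcases h1 with rfl | ⟨t', rfl⟩
    · exact Or.inl rfl
    · exact absurd (.cons_cons _ (.cons_cons _ (.cons_cons _ (List.nil_sublist _)))) h
  · have e' : a = !c := by cases a <;> cases c <;> simp_all
    subst e'
    rcases h1 with rfl | ⟨t', rfl⟩
    · simp
    · rw [Bool.not_not] at h hc ⊢
      match t', hc, h with
      | [], _, _ => simp
      | b :: t2, hc, h =>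
        exfalso
        simp only [List.isChain_cons_cons] at hc
        have e2 : b = c := by
          have := hc.2.2.1
          cases b <;> cases c <;> simp_all
        subst e2
        exact h (.cons _ (.cons_cons _ (.cons_cons _ (.cons_cons _ (List.nil_sublist _)))))

theorem ne_not {a b : Bool} (h : a ≠ b) : b = !a := by
  revert h
  revert a b
  decide

/-- the beginning of a long alternating word -/
theorem alt_len {l : List Bool} (hc : l.IsChain (fun a b => a ≠ b)) (h5 : 5 ≤ l.length) :
    ∃ a, [a, !a, a, !a, a].Sublist l := by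
  match l, hc, h5 with
  | a :: b :: c :: d :: e :: t, hc, _ =>
    simp only [List.isChain_cons_cons] at hc
    refine ⟨a, ?_⟩
    obtain ⟨h1, h2, h3, h4, _⟩ := hc
    obtain rfl := ne_not h1
    obtain rfl := ne_not h2
    obtain rfl := ne_not h3
    obtain rfl := ne_not h4
    simp only [Bool.not_not]
    exact .cons_cons _ (.cons_cons _ (.cons_cons _ (.cons_cons _ (.cons_cons _ (List.nil_sublist _)))))

theorem alt_eq4 {l : List Bool} (hc : l.IsChain (fun a b => a ≠ b)) (h4 : l.length = 4) : ∃ a, l = [a, !a, a, !a] := by
  match l, hc, h4 with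
  | [a, b, c, d], hc, _ =>
    simp only [List.isChain_cons_cons] at hc
    refine ⟨a, ?_⟩
    obtain ⟨h1, h2, h3, _⟩ := hc
    obtain rfl := ne_not h1
    obtain rfl := ne_not h2
    obtain rfl := ne_not h3
    simp only [Bool.not_not]

theorem alt_eq3 {l : List Bool} (hc : l.IsChain (fun a b => a ≠ b)) (h3 : l.length = 3) : ∃ a, l = [a, !a, a] := by
  match l, hc, h3 with
  | [a, b, c], hc, _ =>
    simp only [List.isChain_cons_cons] at hc
    refine ⟨a, ?_⟩
    obtain ⟨h1, h2, _⟩ := hc
    obtain rfl := ne_not h1
    obtain rfl := ne_not h2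
    simp only [Bool.not_not]

/-! ### two classes -/

/-- the forbidden pairs of words; `F` is the word of `L` for a context with four blocks, `u` the first letter of the words with three
letters -/
structure TwoW (G : SimpleGraph V) (W B : List V) (cl : V → Bool) (fo : Bool → Bool) (u : Bool → Bool) : Prop where
  five : ∀ a, [a, !a, a, !a, a].Sublist (B.map cl) → False
  four : ∀ a, B.map cl = [a, !a, a, !a] → ¬ [fo a, !(fo a)].Sublist (W.map cl)
  three : ∀ a, B.map cl = [a, !a, a] → ¬ [!(u a), u a, !(u a)].Sublist (W.map cl)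

theorem mem1 {α : Type} {l : List α} {a : α} (h : a ∈ l) : [a].Sublist l := List.singleton_sublist.2 h

theorem twoP [DecidableEq V] {cl : V → Bool} (h : RW fp fp G W B cl) (hW : ∀ i, i ∈ W.map cl) :
    TwoW G W B cl (fun a => a) (fun a => a) where
  five := by
    intro a ha
    cases a
    · exact pA1_w h (mem1 (hW true)) ha
    · exact pA2_w h (mem1 (hW false)) ha
  four := by
    intro a ha hs
    cases a
    · exact pBm_w h hs (by rw [ha]; exact List.Sublist.refl _)
    · exact pB_w h hs (by rw [ha]; exact List.Sublist.refl _)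
  three := by
    intro a ha hs
    cases a
    · exact pC2_w h hs (by rw [ha]; exact List.Sublist.refl _)
    · exact pC1_w h hs (by rw [ha]; exact List.Sublist.refl _)

/-- exchange of the classes -/
theorem RW.swap [DecidableEq V] {cl : V → Bool} (h : RW fk gk G W B cl) : RW fk gk G W B (fun v => !(cl v)) where
  nd := h.nd
  vl := h.vl
  ax := fun {x y} hx hy => by
    rw [h.ax hx hy]
    unfold fk
    cases cl x <;> cases cl y <;> simp
  aW := fun {x y} hx hy hn => by
    rw [h.aW hx hy hn]
    unfold gk
    cases cl x <;> cases cl y <;> simp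
  aB := fun {x y} hx hy hn => by
    rw [h.aB hx hy hn]
    unfold gk
    cases cl x <;> cases cl y <;> simp

theorem map_not {l : List V} {cl : V → Bool} {p : List Bool} (h : p.Sublist (l.map cl)) :
    (p.map not).Sublist (l.map fun v => !(cl v)) := by
  have h1 := h.map not
  rwa [List.map_map] at h1

theorem twoK [DecidableEq V] {cl : V → Bool} (h : RW fk gk G W B cl) (hW : ∀ i, i ∈ W.map cl) :
    TwoW G W B cl (fun a => !a) (fun a => !a) where
  five := by
    intro a ha
    cases a
    · exact kA_w h.swap (map_not (p := [false]) (mem1 (hW false))) (map_not (p := [false, true, false, true, false]) ha)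
    · exact kA_w h (mem1 (hW true)) ha
  four := by
    intro a ha hs
    cases a
    · exact kB_w h hs (by rw [ha]; exact List.Sublist.refl _)
    · exact kB_w h.swap (map_not (p := [false, true]) hs)
        (map_not (p := [true, false, true, false]) (by rw [ha]; exact List.Sublist.refl _))
  three := by
    intro a ha hs
    cases a
    · exact kC_w h.swap (map_not (p := [false, true, false]) hs)
        (map_not (p := [false, true, false]) (by rw [ha]; exact List.Sublist.refl _))
    · exact kC_w h hs (by rw [ha]; exact List.Sublist.refl _)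

end Pool.Agent.SOK
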