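import Pool.Agent.SOK.TyT

/-! Project SOK: refutations for words (generated). -/

set_option autoImplicit false
set_option maxRecDepth 100000
set_option linter.unusedVariables false

namespace Pool.Agent.SOK

open Pool.Agent.SOC Pool.Agent.SOD Pool.Agent.RUP Pool.Agent.SOF Pool.Agent.SOG

/-- templates -/
def pA1_x : List Tm := [
  ⟨0, [], [], [.b true 2 8 8]⟩,
  ⟨0, [], [], [.b false 2 9 9]⟩,
  ⟨0, [], [], [.b false 2 10 10]⟩,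
  ⟨0, [], [], [.b false 2 11 11]⟩,
  ⟨0, [], [], [.b false 2 12 12]⟩,
  ⟨0, [], [], [.b false 2 13 13]⟩,
  ⟨0, [], [], [.b true 0 8 9]⟩,
  ⟨0, [], [], [.b true 0 8 10]⟩,
  ⟨0, [], [], [.b true 0 8 11]⟩,
  ⟨0, [], [], [.b true 0 8 12]⟩,
  ⟨0, [], [], [.b true 0 8 13]⟩,
  ⟨0, [], [], [.b true 0 9 10]⟩,
  ⟨0, [], [], [.b false 0 9 11]⟩,
  ⟨0, [], [], [.b true 0 9 12]⟩,
  ⟨0, [], [], [.b false 0 9 13]⟩,
  ⟨0, [], [], [.b true 0 10 11]⟩,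
  ⟨0, [], [], [.b true 0 10 12]⟩,
  ⟨0, [], [], [.b true 0 10 13]⟩,
  ⟨0, [], [], [.b true 0 11 12]⟩,
  ⟨0, [], [], [.b false 0 11 13]⟩,
  ⟨0, [], [], [.b true 0 12 13]⟩,
  ⟨0, [], [], [.q true 0 8 12 9 13]⟩,
  ⟨0, [], [], [.q true 0 9 12 10 13]⟩,
  ⟨0, [], [], [.q true 0 10 12 11 13]⟩]

def pA1_p0 : List Nat := [
0x46020b0000000310521000201,
0x86020b00000003105fd000201,
0x8a420b0000000350795000201,
0x2a80030000000430696000201,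
0xa2800d00000004306d5000201,
0x4a820300000004506da000201,
0xa48207000000008000000045018b000301,
0xa8421100000000600000003b00000003300000004502ca000501,
0x84200300000000e05c6000201,
0xa04821500000000a0000000100579000301,
0x2a0840700000000c000000012069a000301,
0x84201100000000e00000003300000002700000001401b6000501,
0x26840150000000020000000180589000301,
0x26480150000000040000000180605000301,
0x86401100000001c00000003900000002900000001a05da000501,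
0xa6840700000001600000001e0766000301,
0x47000000020000200]

def pA1_pf : List Nat := pA1_p0

theorem pA1_ref {V : Type} {S : SRel V} {p : Nat → V} (hp : ∀ i j, i < 6 → j < 6 → p i = p j → i = j)
    (hts : PHs S p 6 ((qO ++ qQ) ++ pA1_x)) : False :=
  refuteS (k := 6) (n2 := 3) (n3 := 1) (n4 := 4) (o3 := 63) (o4 := 119) (M := 1043) ((qO ++ qQ) ++ pA1_x) pA1_pf (by decide +kernel)
    (by decide +kernel) (by decide +kernel) (by decide +kernel) hp hts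

theorem pA1 {V : Type} {Y : QSy V} (hq : QC Y.G Y.X Y.T Y.S) {x0 y0 y1 y2 y3 y4 : V}
    (nd : [x0, y0, y1, y2, y3, y4].Nodup) 
    (sx0 : Y.S x0) (sy0 : ¬ Y.S y0) (sy1 : ¬ Y.S y1) (sy2 : ¬ Y.S y2)
    (sy3 : ¬ Y.S y3) (sy4 : ¬ Y.S y4) (ex0y0 : Y.G.Adj x0 y0) (ex0y1 : Y.G.Adj x0 y1)
    (ex0y2 : Y.G.Adj x0 y2) (ex0y3 : Y.G.Adj x0 y3) (ex0y4 : Y.G.Adj x0 y4) (ey0y1 : Y.G.Adj y0 y1)
    (ey0y2 : ¬ Y.G.Adj y0 y2) (ey0y3 : Y.G.Adj y0 y3) (ey0y4 : ¬ Y.G.Adj y0 y4) (ey1y2 : Y.G.Adj y1 y2)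
    (ey1y3 : Y.G.Adj y1 y3) (ey1y4 : Y.G.Adj y1 y4) (ey2y3 : Y.G.Adj y2 y3) (ey2y4 : ¬ Y.G.Adj y2 y4)
    (ey3y4 : Y.G.Adj y3 y4)
    (hx : ∀ a b c d : V, [a, b, c, d].Sublist [x0, y0, y1, y2, y3, y4] → Y.X a c b d) : False :=
  pA1_ref (S := Y.rel) (pt_inj (o := x0) nd rfl) (PHs.app (UHs.phs ((qO_h hq).app (qQ_h hq)) _ _) (
  .cons (fun d hd h0 => h0 ⟨rfl, sx0⟩) (
  .cons (fun d hd h0 => sy0 h0.2) (
  .cons (fun d hd h0 => sy1 h0.2) (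
  .cons (fun d hd h0 => sy2 h0.2) (
  .cons (fun d hd h0 => sy3 h0.2) (
  .cons (fun d hd h0 => sy4 h0.2) (
  .cons (fun d hd h0 => h0 ex0y0) (
  .cons (fun d hd h0 => h0 ex0y1) (
  .cons (fun d hd h0 => h0 ex0y2) (
  .cons (fun d hd h0 => h0 ex0y3) (
  .cons (fun d hd h0 => h0 ex0y4) (
  .cons (fun d hd h0 => h0 ey0y1) (
  .cons (fun d hd h0 => ey0y2 h0) (
  .cons (fun d hd h0 => h0 ey0y3) (
  .cons (fun d hd h0 => ey0y4 h0) (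
  .cons (fun d hd h0 => h0 ey1y2) (
  .cons (fun d hd h0 => h0 ey1y3) (
  .cons (fun d hd h0 => h0 ey1y4) (
  .cons (fun d hd h0 => h0 ey2y3) (
  .cons (fun d hd h0 => ey2y4 h0) (
  .cons (fun d hd h0 => h0 ey3y4) (
  .cons (fun d hd h0 => h0 (hx x0 y0 y3 y4 (.cons_cons _ (.cons_cons _ (.cons _ (.cons _ (.cons_cons _ (.cons_cons _ .slnil)))))))) (
  .cons (fun d hd h0 => h0 (hx y0 y1 y3 y4 (.cons _ (.cons_cons _ (.cons_cons _ (.cons _ (.cons_cons _ (.cons_cons _ .slnil)))))))) (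
  .cons (fun d hd h0 => h0 (hx y1 y2 y3 y4 (.cons _ (.cons _ (.cons_cons _ (.cons_cons _ (.cons_cons _ (.cons_cons _ .slnil)))))))) (
  .nil))))))))))))))))))))))))))

/-- templates -/
def pA2_x : List Tm := [
  ⟨0, [], [], [.b true 2 8 8]⟩,
  ⟨0, [], [], [.b false 2 9 9]⟩,
  ⟨0, [], [], [.b false 2 10 10]⟩,
  ⟨0, [], [], [.b false 2 11 11]⟩,
  ⟨0, [], [], [.b false 2 12 12]⟩,
  ⟨0, [], [], [.b false 2 13 13]⟩,
  ⟨0, [], [], [.b true 0 8 9]⟩,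
  ⟨0, [], [], [.b false 0 8 10]⟩,
  ⟨0, [], [], [.b true 0 8 11]⟩,
  ⟨0, [], [], [.b false 0 8 12]⟩,
  ⟨0, [], [], [.b true 0 8 13]⟩,
  ⟨0, [], [], [.b true 0 9 10]⟩,
  ⟨0, [], [], [.b true 0 9 11]⟩,
  ⟨0, [], [], [.b true 0 9 12]⟩,
  ⟨0, [], [], [.b true 0 9 13]⟩,
  ⟨0, [], [], [.b true 0 10 11]⟩,
  ⟨0, [], [], [.b false 0 10 12]⟩,
  ⟨0, [], [], [.b true 0 10 13]⟩,
  ⟨0, [], [], [.b true 0 11 12]⟩,
  ⟨0, [], [], [.b true 0 11 13]⟩,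
  ⟨0, [], [], [.b true 0 12 13]⟩,
  ⟨0, [], [], [.q true 0 8 12 9 13]⟩,
  ⟨0, [], [], [.q true 0 9 12 10 13]⟩,
  ⟨0, [], [], [.q true 0 10 12 11 13]⟩]

def pA2_p0 : List Nat := [
0x64a00b000000027068d000201,
0xa8240b0000000390795000201,
0x2a80030000000430696000201,
0xa2800d00000004306d5000201,
0xa48207000000006000000045018b000301,
0xa8421100000000400000003b00000003300000004502ca000501,
0x28400300000000a0576000201,
0x840a21300000000800000000c06b9000301,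
0x4a2800700000004300000000e0303000301,
0x6a84030000000470722000201,
0xa6840d0000000470769000201,
0x680a40700000001200000001402f3000301,
0x2860a41700000000c0000000100000000160745000401,
0xa6401100000003b00000000200000002900000001a000000018000600]

def pA2_pf : List Nat := pA2_p0

theorem pA2_ref {V : Type} {S : SRel V} {p : Nat → V} (hp : ∀ i j, i < 6 → j < 6 → p i = p j → i = j)
    (hts : PHs S p 6 ((qO ++ qQ) ++ pA2_x)) : False :=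
  refuteS (k := 6) (n2 := 3) (n3 := 1) (n4 := 4) (o3 := 63) (o4 := 119) (M := 1043) ((qO ++ qQ) ++ pA2_x) pA2_pf (by decide +kernel)
    (by decide +kernel) (by decide +kernel) (by decide +kernel) hp hts

theorem pA2 {V : Type} {Y : QSy V} (hq : QC Y.G Y.X Y.T Y.S) {x0 y0 y1 y2 y3 y4 : V}
    (nd : [x0, y0, y1, y2, y3, y4].Nodup) 
    (sx0 : Y.S x0) (sy0 : ¬ Y.S y0) (sy1 : ¬ Y.S y1) (sy2 : ¬ Y.S y2)
    (sy3 : ¬ Y.S y3) (sy4 : ¬ Y.S y4) (ex0y0 : Y.G.Adj x0 y0) (ex0y1 : ¬ Y.G.Adj x0 y1)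
    (ex0y2 : Y.G.Adj x0 y2) (ex0y3 : ¬ Y.G.Adj x0 y3) (ex0y4 : Y.G.Adj x0 y4) (ey0y1 : Y.G.Adj y0 y1)
    (ey0y2 : Y.G.Adj y0 y2) (ey0y3 : Y.G.Adj y0 y3) (ey0y4 : Y.G.Adj y0 y4) (ey1y2 : Y.G.Adj y1 y2)
    (ey1y3 : ¬ Y.G.Adj y1 y3) (ey1y4 : Y.G.Adj y1 y4) (ey2y3 : Y.G.Adj y2 y3) (ey2y4 : Y.G.Adj y2 y4)
    (ey3y4 : Y.G.Adj y3 y4)
    (hx : ∀ a b c d : V, [a, b, c, d].Sublist [x0, y0, y1, y2, y3, y4] → Y.X a c b d) : False :=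
  pA2_ref (S := Y.rel) (pt_inj (o := x0) nd rfl) (PHs.app (UHs.phs ((qO_h hq).app (qQ_h hq)) _ _) (
  .cons (fun d hd h0 => h0 ⟨rfl, sx0⟩) (
  .cons (fun d hd h0 => sy0 h0.2) (
  .cons (fun d hd h0 => sy1 h0.2) (
  .cons (fun d hd h0 => sy2 h0.2) (
  .cons (fun d hd h0 => sy3 h0.2) (
  .cons (fun d hd h0 => sy4 h0.2) (
  .cons (fun d hd h0 => h0 ex0y0) (
  .cons (fun d hd h0 => ex0y1 h0) (
  .cons (fun d hd h0 => h0 ex0y2) (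
  .cons (fun d hd h0 => ex0y3 h0) (
  .cons (fun d hd h0 => h0 ex0y4) (
  .cons (fun d hd h0 => h0 ey0y1) (
  .cons (fun d hd h0 => h0 ey0y2) (
  .cons (fun d hd h0 => h0 ey0y3) (
  .cons (fun d hd h0 => h0 ey0y4) (
  .cons (fun d hd h0 => h0 ey1y2) (
  .cons (fun d hd h0 => ey1y3 h0) (
  .cons (fun d hd h0 => h0 ey1y4) (
  .cons (fun d hd h0 => h0 ey2y3) (
  .cons (fun d hd h0 => h0 ey2y4) (
  .cons (fun d hd h0 => h0 ey3y4) (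
  .cons (fun d hd h0 => h0 (hx x0 y0 y3 y4 (.cons_cons _ (.cons_cons _ (.cons _ (.cons _ (.cons_cons _ (.cons_cons _ .slnil)))))))) (
  .cons (fun d hd h0 => h0 (hx y0 y1 y3 y4 (.cons _ (.cons_cons _ (.cons_cons _ (.cons _ (.cons_cons _ (.cons_cons _ .slnil)))))))) (
  .cons (fun d hd h0 => h0 (hx y1 y2 y3 y4 (.cons _ (.cons _ (.cons_cons _ (.cons_cons _ (.cons_cons _ (.cons_cons _ .slnil)))))))) (
  .nil))))))))))))))))))))))))))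

/-- templates -/
def pB_x : List Tm := [
  ⟨0, [], [], [.b true 2 8 8]⟩,
  ⟨0, [], [], [.b true 2 9 9]⟩,
  ⟨0, [], [], [.b false 2 10 10]⟩,
  ⟨0, [], [], [.b false 2 11 11]⟩,
  ⟨0, [], [], [.b false 2 12 12]⟩,
  ⟨0, [], [], [.b false 2 13 13]⟩,
  ⟨0, [], [], [.b true 0 8 9]⟩,
  ⟨0, [], [], [.b true 0 8 10]⟩,
  ⟨0, [], [], [.b true 0 8 11]⟩,
  ⟨0, [], [], [.b true 0 8 12]⟩,
  ⟨0, [], [], [.b true 0 8 13]⟩,
  ⟨0, [], [], [.b true 0 9 10]⟩,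
  ⟨0, [], [], [.b false 0 9 11]⟩,
  ⟨0, [], [], [.b true 0 9 12]⟩,
  ⟨0, [], [], [.b false 0 9 13]⟩,
  ⟨0, [], [], [.b true 0 10 11]⟩,
  ⟨0, [], [], [.b true 0 10 12]⟩,
  ⟨0, [], [], [.b true 0 10 13]⟩,
  ⟨0, [], [], [.b true 0 11 12]⟩,
  ⟨0, [], [], [.b false 0 11 13]⟩,
  ⟨0, [], [], [.b true 0 12 13]⟩,
  ⟨0, [], [], [.q true 0 8 12 9 13]⟩,
  ⟨0, [], [], [.q true 0 9 12 10 13]⟩,
  ⟨0, [], [], [.q true 0 10 12 11 13]⟩]

def pB_p0 : List Nat := [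
0x84200900000001d00000001b00000001900000002105c6000501,
0x46020b0000000310521000201,
0x86020b00000003105fd000201,
0x8a420b0000000350795000201,
0x2a80030000000430696000201,
0xa2800d00000004306d5000201,
0x4a820300000004506da000201,
0xa4820700000000a000000045018b000301,
0xa8421100000000800000003b00000003300000004502ca000501,
0x2a0840700000000200000000e069a000301,
0xa04821500000000c0000000120579000301,
0x84201100000001000000003300000002700000001601b6000501,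
0x26840150000000040000000180589000301,
0x26480150000000060000000180605000301,
0x86401100000001c00000003900000002900000001a05da000501,
0xa6840700000001400000001e0766000301,
0x47000000020000200]

def pB_pf : List Nat := pB_p0

theorem pB_ref {V : Type} {S : SRel V} {p : Nat → V} (hp : ∀ i j, i < 6 → j < 6 → p i = p j → i = j)
    (hts : PHs S p 6 ((qO ++ qQ) ++ pB_x)) : False :=
  refuteS (k := 6) (n2 := 3) (n3 := 1) (n4 := 4) (o3 := 63) (o4 := 119) (M := 1043) ((qO ++ qQ) ++ pB_x) pB_pf (by decide +kernel)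
    (by decide +kernel) (by decide +kernel) (by decide +kernel) hp hts

theorem pB {V : Type} {Y : QSy V} (hq : QC Y.G Y.X Y.T Y.S) {x0 x1 y0 y1 y2 y3 : V}
    (nd : [x0, x1, y0, y1, y2, y3].Nodup) 
    (sx0 : Y.S x0) (sx1 : Y.S x1) (sy0 : ¬ Y.S y0) (sy1 : ¬ Y.S y1)
    (sy2 : ¬ Y.S y2) (sy3 : ¬ Y.S y3) (ex0x1 : Y.G.Adj x0 x1) (ex0y0 : Y.G.Adj x0 y0)
    (ex0y1 : Y.G.Adj x0 y1) (ex0y2 : Y.G.Adj x0 y2) (ex0y3 : Y.G.Adj x0 y3) (ex1y0 : Y.G.Adj x1 y0)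
    (ex1y1 : ¬ Y.G.Adj x1 y1) (ex1y2 : Y.G.Adj x1 y2) (ex1y3 : ¬ Y.G.Adj x1 y3) (ey0y1 : Y.G.Adj y0 y1)
    (ey0y2 : Y.G.Adj y0 y2) (ey0y3 : Y.G.Adj y0 y3) (ey1y2 : Y.G.Adj y1 y2) (ey1y3 : ¬ Y.G.Adj y1 y3)
    (ey2y3 : Y.G.Adj y2 y3)
    (hx : ∀ a b c d : V, [a, b, c, d].Sublist [x0, x1, y0, y1, y2, y3] → Y.X a c b d) : False :=
  pB_ref (S := Y.rel) (pt_inj (o := x0) nd rfl) (PHs.app (UHs.phs ((qO_h hq).app (qQ_h hq)) _ _) (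
  .cons (fun d hd h0 => h0 ⟨rfl, sx0⟩) (
  .cons (fun d hd h0 => h0 ⟨rfl, sx1⟩) (
  .cons (fun d hd h0 => sy0 h0.2) (
  .cons (fun d hd h0 => sy1 h0.2) (
  .cons (fun d hd h0 => sy2 h0.2) (
  .cons (fun d hd h0 => sy3 h0.2) (
  .cons (fun d hd h0 => h0 ex0x1) (
  .cons (fun d hd h0 => h0 ex0y0) (
  .cons (fun d hd h0 => h0 ex0y1) (
  .cons (fun d hd h0 => h0 ex0y2) (
  .cons (fun d hd h0 => h0 ex0y3) (
  .cons (fun d hd h0 => h0 ex1y0) (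
  .cons (fun d hd h0 => ex1y1 h0) (
  .cons (fun d hd h0 => h0 ex1y2) (
  .cons (fun d hd h0 => ex1y3 h0) (
  .cons (fun d hd h0 => h0 ey0y1) (
  .cons (fun d hd h0 => h0 ey0y2) (
  .cons (fun d hd h0 => h0 ey0y3) (
  .cons (fun d hd h0 => h0 ey1y2) (
  .cons (fun d hd h0 => ey1y3 h0) (
  .cons (fun d hd h0 => h0 ey2y3) (
  .cons (fun d hd h0 => h0 (hx x0 x1 y2 y3 (.cons_cons _ (.cons_cons _ (.cons _ (.cons _ (.cons_cons _ (.cons_cons _ .slnil)))))))) (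
  .cons (fun d hd h0 => h0 (hx x1 y0 y2 y3 (.cons _ (.cons_cons _ (.cons_cons _ (.cons _ (.cons_cons _ (.cons_cons _ .slnil)))))))) (
  .cons (fun d hd h0 => h0 (hx y0 y1 y2 y3 (.cons _ (.cons _ (.cons_cons _ (.cons_cons _ (.cons_cons _ (.cons_cons _ .slnil)))))))) (
  .nil))))))))))))))))))))))))))

/-- templates -/
def pBm_x : List Tm := [
  ⟨0, [], [], [.b true 2 8 8]⟩,
  ⟨0, [], [], [.b true 2 9 9]⟩,
  ⟨0, [], [], [.b false 2 10 10]⟩,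
  ⟨0, [], [], [.b false 2 11 11]⟩,
  ⟨0, [], [], [.b false 2 12 12]⟩,
  ⟨0, [], [], [.b false 2 13 13]⟩,
  ⟨0, [], [], [.b true 0 8 9]⟩,
  ⟨0, [], [], [.b false 0 8 10]⟩,
  ⟨0, [], [], [.b true 0 8 11]⟩,
  ⟨0, [], [], [.b false 0 8 12]⟩,
  ⟨0, [], [], [.b true 0 8 13]⟩,
  ⟨0, [], [], [.b true 0 9 10]⟩,
  ⟨0, [], [], [.b true 0 9 11]⟩,
  ⟨0, [], [], [.b true 0 9 12]⟩,
  ⟨0, [], [], [.b true 0 9 13]⟩,
  ⟨0, [], [], [.b true 0 10 11]⟩,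
  ⟨0, [], [], [.b false 0 10 12]⟩,
  ⟨0, [], [], [.b true 0 10 13]⟩,
  ⟨0, [], [], [.b true 0 11 12]⟩,
  ⟨0, [], [], [.b true 0 11 13]⟩,
  ⟨0, [], [], [.b true 0 12 13]⟩,
  ⟨0, [], [], [.q true 0 8 12 9 13]⟩,
  ⟨0, [], [], [.q true 0 9 12 10 13]⟩,
  ⟨0, [], [], [.q true 0 10 12 11 13]⟩]

def pBm_p0 : List Nat := [
0xa4200900000001d00000001b00000001900000002306f2000501,
0x64a00b000000027068d000201,
0xa8240b0000000390795000201,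
0xa2800d00000004306d5000201,
0x82a4070000000020000000450303000301,
0xa8421100000000600000003b00000003300000004502ca000501,
0x840a21300000000800000000c06b9000301,
0x6a84030000000470722000201,
0xa6840d0000000470769000201,
0x680a40700000000a00000001002f3000301,
0x2860a41700000000c00000000e0000000120745000401,
0xa6401100000003b000000004000000029000000016000000014000600]

def pBm_pf : List Nat := pBm_p0

theorem pBm_ref {V : Type} {S : SRel V} {p : Nat → V} (hp : ∀ i j, i < 6 → j < 6 → p i = p j → i = j)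
    (hts : PHs S p 6 ((qO ++ qQ) ++ pBm_x)) : False :=
  refuteS (k := 6) (n2 := 3) (n3 := 1) (n4 := 4) (o3 := 63) (o4 := 119) (M := 1043) ((qO ++ qQ) ++ pBm_x) pBm_pf (by decide +kernel)
    (by decide +kernel) (by decide +kernel) (by decide +kernel) hp hts

theorem pBm {V : Type} {Y : QSy V} (hq : QC Y.G Y.X Y.T Y.S) {x0 x1 y0 y1 y2 y3 : V}
    (nd : [x0, x1, y0, y1, y2, y3].Nodup) 
    (sx0 : Y.S x0) (sx1 : Y.S x1) (sy0 : ¬ Y.S y0) (sy1 : ¬ Y.S y1)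
    (sy2 : ¬ Y.S y2) (sy3 : ¬ Y.S y3) (ex0x1 : Y.G.Adj x0 x1) (ex0y0 : ¬ Y.G.Adj x0 y0)
    (ex0y1 : Y.G.Adj x0 y1) (ex0y2 : ¬ Y.G.Adj x0 y2) (ex0y3 : Y.G.Adj x0 y3) (ex1y0 : Y.G.Adj x1 y0)
    (ex1y1 : Y.G.Adj x1 y1) (ex1y2 : Y.G.Adj x1 y2) (ex1y3 : Y.G.Adj x1 y3) (ey0y1 : Y.G.Adj y0 y1)
    (ey0y2 : ¬ Y.G.Adj y0 y2) (ey0y3 : Y.G.Adj y0 y3) (ey1y2 : Y.G.Adj y1 y2) (ey1y3 : Y.G.Adj y1 y3)
    (ey2y3 : Y.G.Adj y2 y3)
    (hx : ∀ a b c d : V, [a, b, c, d].Sublist [x0, x1, y0, y1, y2, y3] → Y.X a c b d) : False :=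
  pBm_ref (S := Y.rel) (pt_inj (o := x0) nd rfl) (PHs.app (UHs.phs ((qO_h hq).app (qQ_h hq)) _ _) (
  .cons (fun d hd h0 => h0 ⟨rfl, sx0⟩) (
  .cons (fun d hd h0 => h0 ⟨rfl, sx1⟩) (
  .cons (fun d hd h0 => sy0 h0.2) (
  .cons (fun d hd h0 => sy1 h0.2) (
  .cons (fun d hd h0 => sy2 h0.2) (
  .cons (fun d hd h0 => sy3 h0.2) (
  .cons (fun d hd h0 => h0 ex0x1) (
  .cons (fun d hd h0 => ex0y0 h0) (
  .cons (fun d hd h0 => h0 ex0y1) (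
  .cons (fun d hd h0 => ex0y2 h0) (
  .cons (fun d hd h0 => h0 ex0y3) (
  .cons (fun d hd h0 => h0 ex1y0) (
  .cons (fun d hd h0 => h0 ex1y1) (
  .cons (fun d hd h0 => h0 ex1y2) (
  .cons (fun d hd h0 => h0 ex1y3) (
  .cons (fun d hd h0 => h0 ey0y1) (
  .cons (fun d hd h0 => ey0y2 h0) (
  .cons (fun d hd h0 => h0 ey0y3) (
  .cons (fun d hd h0 => h0 ey1y2) (
  .cons (fun d hd h0 => h0 ey1y3) (
  .cons (fun d hd h0 => h0 ey2y3) (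
  .cons (fun d hd h0 => h0 (hx x0 x1 y2 y3 (.cons_cons _ (.cons_cons _ (.cons _ (.cons _ (.cons_cons _ (.cons_cons _ .slnil)))))))) (
  .cons (fun d hd h0 => h0 (hx x1 y0 y2 y3 (.cons _ (.cons_cons _ (.cons_cons _ (.cons _ (.cons_cons _ (.cons_cons _ .slnil)))))))) (
  .cons (fun d hd h0 => h0 (hx y0 y1 y2 y3 (.cons _ (.cons _ (.cons_cons _ (.cons_cons _ (.cons_cons _ (.cons_cons _ .slnil)))))))) (
  .nil))))))))))))))))))))))))))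

/-- templates -/
def pC1_x : List Tm := [
  ⟨0, [], [], [.b true 2 8 8]⟩,
  ⟨0, [], [], [.b true 2 9 9]⟩,
  ⟨0, [], [], [.b true 2 10 10]⟩,
  ⟨0, [], [], [.b false 2 11 11]⟩,
  ⟨0, [], [], [.b false 2 12 12]⟩,
  ⟨0, [], [], [.b false 2 13 13]⟩,
  ⟨0, [], [], [.b true 0 8 9]⟩,
  ⟨0, [], [], [.b false 0 8 10]⟩,
  ⟨0, [], [], [.b true 0 8 11]⟩,
  ⟨0, [], [], [.b false 0 8 12]⟩,
  ⟨0, [], [], [.b true 0 8 13]⟩,
  ⟨0, [], [], [.b true 0 9 10]⟩,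
  ⟨0, [], [], [.b true 0 9 11]⟩,
  ⟨0, [], [], [.b true 0 9 12]⟩,
  ⟨0, [], [], [.b true 0 9 13]⟩,
  ⟨0, [], [], [.b true 0 10 11]⟩,
  ⟨0, [], [], [.b false 0 10 12]⟩,
  ⟨0, [], [], [.b true 0 10 13]⟩,
  ⟨0, [], [], [.b true 0 11 12]⟩,
  ⟨0, [], [], [.b true 0 11 13]⟩,
  ⟨0, [], [], [.b true 0 12 13]⟩,
  ⟨0, [], [], [.q true 0 8 12 9 13]⟩,
  ⟨0, [], [], [.q true 0 9 12 10 13]⟩,
  ⟨0, [], [], [.q true 0 10 12 11 13]⟩]

def pC1_p0 : List Nat := [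
0x64a00b000000027068d000201,
0xa8240b0000000390795000201,
0x2a80030000000430696000201,
0xa2800d00000004306d5000201,
0xa48207000000006000000045018b000301,
0xa8421100000000400000003b00000003300000004502ca000501,
0x28400300000000a0576000201,
0x840a21300000000800000000c06b9000301,
0x4a2800700000004300000000e0303000301,
0x6a84030000000470722000201,
0xa6840d0000000470769000201,
0x680a40700000001200000001402f3000301,
0x2860a41700000000c0000000100000000160745000401,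
0xa6401100000003b00000000200000002900000001a000000018000600]

def pC1_pf : List Nat := pC1_p0

theorem pC1_ref {V : Type} {S : SRel V} {p : Nat → V} (hp : ∀ i j, i < 6 → j < 6 → p i = p j → i = j)
    (hts : PHs S p 6 ((qO ++ qQ) ++ pC1_x)) : False :=
  refuteS (k := 6) (n2 := 3) (n3 := 1) (n4 := 4) (o3 := 63) (o4 := 119) (M := 1043) ((qO ++ qQ) ++ pC1_x) pC1_pf (by decide +kernel)
    (by decide +kernel) (by decide +kernel) (by decide +kernel) hp hts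

theorem pC1 {V : Type} {Y : QSy V} (hq : QC Y.G Y.X Y.T Y.S) {x0 x1 x2 y0 y1 y2 : V}
    (nd : [x0, x1, x2, y0, y1, y2].Nodup) 
    (sx0 : Y.S x0) (sx1 : Y.S x1) (sx2 : Y.S x2) (sy0 : ¬ Y.S y0)
    (sy1 : ¬ Y.S y1) (sy2 : ¬ Y.S y2) (ex0x1 : Y.G.Adj x0 x1) (ex0x2 : ¬ Y.G.Adj x0 x2)
    (ex0y0 : Y.G.Adj x0 y0) (ex0y1 : ¬ Y.G.Adj x0 y1) (ex0y2 : Y.G.Adj x0 y2) (ex1x2 : Y.G.Adj x1 x2)
    (ex1y0 : Y.G.Adj x1 y0) (ex1y1 : Y.G.Adj x1 y1) (ex1y2 : Y.G.Adj x1 y2) (ex2y0 : Y.G.Adj x2 y0)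
    (ex2y1 : ¬ Y.G.Adj x2 y1) (ex2y2 : Y.G.Adj x2 y2) (ey0y1 : Y.G.Adj y0 y1) (ey0y2 : Y.G.Adj y0 y2)
    (ey1y2 : Y.G.Adj y1 y2)
    (hx : ∀ a b c d : V, [a, b, c, d].Sublist [x0, x1, x2, y0, y1, y2] → Y.X a c b d) : False :=
  pC1_ref (S := Y.rel) (pt_inj (o := x0) nd rfl) (PHs.app (UHs.phs ((qO_h hq).app (qQ_h hq)) _ _) (
  .cons (fun d hd h0 => h0 ⟨rfl, sx0⟩) (
  .cons (fun d hd h0 => h0 ⟨rfl, sx1⟩) (
  .cons (fun d hd h0 => h0 ⟨rfl, sx2⟩) (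
  .cons (fun d hd h0 => sy0 h0.2) (
  .cons (fun d hd h0 => sy1 h0.2) (
  .cons (fun d hd h0 => sy2 h0.2) (
  .cons (fun d hd h0 => h0 ex0x1) (
  .cons (fun d hd h0 => ex0x2 h0) (
  .cons (fun d hd h0 => h0 ex0y0) (
  .cons (fun d hd h0 => ex0y1 h0) (
  .cons (fun d hd h0 => h0 ex0y2) (
  .cons (fun d hd h0 => h0 ex1x2) (
  .cons (fun d hd h0 => h0 ex1y0) (
  .cons (fun d hd h0 => h0 ex1y1) (
  .cons (fun d hd h0 => h0 ex1y2) (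
  .cons (fun d hd h0 => h0 ex2y0) (
  .cons (fun d hd h0 => ex2y1 h0) (
  .cons (fun d hd h0 => h0 ex2y2) (
  .cons (fun d hd h0 => h0 ey0y1) (
  .cons (fun d hd h0 => h0 ey0y2) (
  .cons (fun d hd h0 => h0 ey1y2) (
  .cons (fun d hd h0 => h0 (hx x0 x1 y1 y2 (.cons_cons _ (.cons_cons _ (.cons _ (.cons _ (.cons_cons _ (.cons_cons _ .slnil)))))))) (
  .cons (fun d hd h0 => h0 (hx x1 x2 y1 y2 (.cons _ (.cons_cons _ (.cons_cons _ (.cons _ (.cons_cons _ (.cons_cons _ .slnil)))))))) (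
  .cons (fun d hd h0 => h0 (hx x2 y0 y1 y2 (.cons _ (.cons _ (.cons_cons _ (.cons_cons _ (.cons_cons _ (.cons_cons _ .slnil)))))))) (
  .nil))))))))))))))))))))))))))

/-- templates -/
def pC2_x : List Tm := [
  ⟨0, [], [], [.b true 2 8 8]⟩,
  ⟨0, [], [], [.b true 2 9 9]⟩,
  ⟨0, [], [], [.b true 2 10 10]⟩,
  ⟨0, [], [], [.b false 2 11 11]⟩,
  ⟨0, [], [], [.b false 2 12 12]⟩,
  ⟨0, [], [], [.b false 2 13 13]⟩,
  ⟨0, [], [], [.b true 0 8 9]⟩,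
  ⟨0, [], [], [.b true 0 8 10]⟩,
  ⟨0, [], [], [.b true 0 8 11]⟩,
  ⟨0, [], [], [.b true 0 8 12]⟩,
  ⟨0, [], [], [.b true 0 8 13]⟩,
  ⟨0, [], [], [.b true 0 9 10]⟩,
  ⟨0, [], [], [.b false 0 9 11]⟩,
  ⟨0, [], [], [.b true 0 9 12]⟩,
  ⟨0, [], [], [.b false 0 9 13]⟩,
  ⟨0, [], [], [.b true 0 10 11]⟩,
  ⟨0, [], [], [.b true 0 10 12]⟩,
  ⟨0, [], [], [.b true 0 10 13]⟩,
  ⟨0, [], [], [.b true 0 11 12]⟩,
  ⟨0, [], [], [.b false 0 11 13]⟩,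
  ⟨0, [], [], [.b true 0 12 13]⟩,
  ⟨0, [], [], [.q true 0 8 12 9 13]⟩,
  ⟨0, [], [], [.q true 0 9 12 10 13]⟩,
  ⟨0, [], [], [.q true 0 10 12 11 13]⟩]

def pC2_p0 : List Nat := [
0x46020b0000000310521000201,
0x86020b00000003105fd000201,
0x8a420b0000000350795000201,
0x2a80030000000430696000201,
0xa2800d00000004306d5000201,
0x4a820300000004506da000201,
0xa48207000000008000000045018b000301,
0xa8421100000000600000003b00000003300000004502ca000501,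
0x84200300000000e05c6000201,
0xa04821500000000a0000000100579000301,
0x2a0840700000000c000000012069a000301,
0x84201100000000e00000003300000002700000001401b6000501,
0x26840150000000020000000180589000301,
0x26480150000000040000000180605000301,
0x86401100000001c00000003900000002900000001a05da000501,
0xa6840700000001600000001e0766000301,
0x47000000020000200]

def pC2_pf : List Nat := pC2_p0

theorem pC2_ref {V : Type} {S : SRel V} {p : Nat → V} (hp : ∀ i j, i < 6 → j < 6 → p i = p j → i = j)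
    (hts : PHs S p 6 ((qO ++ qQ) ++ pC2_x)) : False :=
  refuteS (k := 6) (n2 := 3) (n3 := 1) (n4 := 4) (o3 := 63) (o4 := 119) (M := 1043) ((qO ++ qQ) ++ pC2_x) pC2_pf (by decide +kernel)
    (by decide +kernel) (by decide +kernel) (by decide +kernel) hp hts

theorem pC2 {V : Type} {Y : QSy V} (hq : QC Y.G Y.X Y.T Y.S) {x0 x1 x2 y0 y1 y2 : V}
    (nd : [x0, x1, x2, y0, y1, y2].Nodup) 
    (sx0 : Y.S x0) (sx1 : Y.S x1) (sx2 : Y.S x2) (sy0 : ¬ Y.S y0)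
    (sy1 : ¬ Y.S y1) (sy2 : ¬ Y.S y2) (ex0x1 : Y.G.Adj x0 x1) (ex0x2 : Y.G.Adj x0 x2)
    (ex0y0 : Y.G.Adj x0 y0) (ex0y1 : Y.G.Adj x0 y1) (ex0y2 : Y.G.Adj x0 y2) (ex1x2 : Y.G.Adj x1 x2)
    (ex1y0 : ¬ Y.G.Adj x1 y0) (ex1y1 : Y.G.Adj x1 y1) (ex1y2 : ¬ Y.G.Adj x1 y2) (ex2y0 : Y.G.Adj x2 y0)
    (ex2y1 : Y.G.Adj x2 y1) (ex2y2 : Y.G.Adj x2 y2) (ey0y1 : Y.G.Adj y0 y1) (ey0y2 : ¬ Y.G.Adj y0 y2)
    (ey1y2 : Y.G.Adj y1 y2)
    (hx : ∀ a b c d : V, [a, b, c, d].Sublist [x0, x1, x2, y0, y1, y2] → Y.X a c b d) : False :=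
  pC2_ref (S := Y.rel) (pt_inj (o := x0) nd rfl) (PHs.app (UHs.phs ((qO_h hq).app (qQ_h hq)) _ _) (
  .cons (fun d hd h0 => h0 ⟨rfl, sx0⟩) (
  .cons (fun d hd h0 => h0 ⟨rfl, sx1⟩) (
  .cons (fun d hd h0 => h0 ⟨rfl, sx2⟩) (
  .cons (fun d hd h0 => sy0 h0.2) (
  .cons (fun d hd h0 => sy1 h0.2) (
  .cons (fun d hd h0 => sy2 h0.2) (
  .cons (fun d hd h0 => h0 ex0x1) (
  .cons (fun d hd h0 => h0 ex0x2) (
  .cons (fun d hd h0 => h0 ex0y0) (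
  .cons (fun d hd h0 => h0 ex0y1) (
  .cons (fun d hd h0 => h0 ex0y2) (
  .cons (fun d hd h0 => h0 ex1x2) (
  .cons (fun d hd h0 => ex1y0 h0) (
  .cons (fun d hd h0 => h0 ex1y1) (
  .cons (fun d hd h0 => ex1y2 h0) (
  .cons (fun d hd h0 => h0 ex2y0) (
  .cons (fun d hd h0 => h0 ex2y1) (
  .cons (fun d hd h0 => h0 ex2y2) (
  .cons (fun d hd h0 => h0 ey0y1) (
  .cons (fun d hd h0 => ey0y2 h0) (
  .cons (fun d hd h0 => h0 ey1y2) (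
  .cons (fun d hd h0 => h0 (hx x0 x1 y1 y2 (.cons_cons _ (.cons_cons _ (.cons _ (.cons _ (.cons_cons _ (.cons_cons _ .slnil)))))))) (
  .cons (fun d hd h0 => h0 (hx x1 x2 y1 y2 (.cons _ (.cons_cons _ (.cons_cons _ (.cons _ (.cons_cons _ (.cons_cons _ .slnil)))))))) (
  .cons (fun d hd h0 => h0 (hx x2 y0 y1 y2 (.cons _ (.cons _ (.cons_cons _ (.cons_cons _ (.cons_cons _ (.cons_cons _ .slnil)))))))) (
  .nil))))))))))))))))))))))))))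

/-- templates -/
def kA_x : List Tm := [
  ⟨0, [], [], [.b true 2 8 8]⟩,
  ⟨0, [], [], [.b false 2 9 9]⟩,
  ⟨0, [], [], [.b false 2 10 10]⟩,
  ⟨0, [], [], [.b false 2 11 11]⟩,
  ⟨0, [], [], [.b false 2 12 12]⟩,
  ⟨0, [], [], [.b false 2 13 13]⟩,
  ⟨0, [], [], [.b true 0 8 9]⟩,
  ⟨0, [], [], [.b false 0 8 10]⟩,
  ⟨0, [], [], [.b true 0 8 11]⟩,
  ⟨0, [], [], [.b false 0 8 12]⟩,
  ⟨0, [], [], [.b true 0 8 13]⟩,
  ⟨0, [], [], [.b true 0 9 10]⟩,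
  ⟨0, [], [], [.b false 0 9 11]⟩,
  ⟨0, [], [], [.b true 0 9 12]⟩,
  ⟨0, [], [], [.b false 0 9 13]⟩,
  ⟨0, [], [], [.b true 0 10 11]⟩,
  ⟨0, [], [], [.b false 0 10 12]⟩,
  ⟨0, [], [], [.b true 0 10 13]⟩,
  ⟨0, [], [], [.b true 0 11 12]⟩,
  ⟨0, [], [], [.b false 0 11 13]⟩,
  ⟨0, [], [], [.b true 0 12 13]⟩,
  ⟨0, [], [], [.q true 0 8 12 9 13]⟩,
  ⟨0, [], [], [.q true 0 9 12 10 13]⟩,
  ⟨0, [], [], [.q true 0 10 12 11 13]⟩]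

def kA_p0 : List Nat := [
0x64a00b000000027068d000201,
0x8a420b0000000350795000201,
0x2a80030000000430696000201,
0xa2800d00000004306d5000201,
0xa48207000000006000000045018b000301,
0xa8421100000000400000003b00000003300000004502ca000501,
0x28400300000000a0576000201,
0x840a21300000000800000000c06b9000301,
0x4a2800700000004300000000e0303000301,
0x6a84030000000470722000201,
0xa6840d0000000470769000201,
0x680a40700000001200000001402f3000301,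
0x2860a41700000000c0000000100000000160745000401,
0xa6401100000003b00000000200000002900000001a000000018000600]

def kA_pf : List Nat := kA_p0

theorem kA_ref {V : Type} {S : SRel V} {p : Nat → V} (hp : ∀ i j, i < 6 → j < 6 → p i = p j → i = j)
    (hts : PHs S p 6 ((qO ++ qQ) ++ kA_x)) : False :=
  refuteS (k := 6) (n2 := 3) (n3 := 1) (n4 := 4) (o3 := 63) (o4 := 119) (M := 1043) ((qO ++ qQ) ++ kA_x) kA_pf (by decide +kernel)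
    (by decide +kernel) (by decide +kernel) (by decide +kernel) hp hts

theorem kA {V : Type} {Y : QSy V} (hq : QC Y.G Y.X Y.T Y.S) {x0 y0 y1 y2 y3 y4 : V}
    (nd : [x0, y0, y1, y2, y3, y4].Nodup) 
    (sx0 : Y.S x0) (sy0 : ¬ Y.S y0) (sy1 : ¬ Y.S y1) (sy2 : ¬ Y.S y2)
    (sy3 : ¬ Y.S y3) (sy4 : ¬ Y.S y4) (ex0y0 : Y.G.Adj x0 y0) (ex0y1 : ¬ Y.G.Adj x0 y1)
    (ex0y2 : Y.G.Adj x0 y2) (ex0y3 : ¬ Y.G.Adj x0 y3) (ex0y4 : Y.G.Adj x0 y4) (ey0y1 : Y.G.Adj y0 y1)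
    (ey0y2 : ¬ Y.G.Adj y0 y2) (ey0y3 : Y.G.Adj y0 y3) (ey0y4 : ¬ Y.G.Adj y0 y4) (ey1y2 : Y.G.Adj y1 y2)
    (ey1y3 : ¬ Y.G.Adj y1 y3) (ey1y4 : Y.G.Adj y1 y4) (ey2y3 : Y.G.Adj y2 y3) (ey2y4 : ¬ Y.G.Adj y2 y4)
    (ey3y4 : Y.G.Adj y3 y4)
    (hx : ∀ a b c d : V, [a, b, c, d].Sublist [x0, y0, y1, y2, y3, y4] → Y.X a c b d) : False :=
  kA_ref (S := Y.rel) (pt_inj (o := x0) nd rfl) (PHs.app (UHs.phs ((qO_h hq).app (qQ_h hq)) _ _) (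
  .cons (fun d hd h0 => h0 ⟨rfl, sx0⟩) (
  .cons (fun d hd h0 => sy0 h0.2) (
  .cons (fun d hd h0 => sy1 h0.2) (
  .cons (fun d hd h0 => sy2 h0.2) (
  .cons (fun d hd h0 => sy3 h0.2) (
  .cons (fun d hd h0 => sy4 h0.2) (
  .cons (fun d hd h0 => h0 ex0y0) (
  .cons (fun d hd h0 => ex0y1 h0) (
  .cons (fun d hd h0 => h0 ex0y2) (
  .cons (fun d hd h0 => ex0y3 h0) (
  .cons (fun d hd h0 => h0 ex0y4) (
  .cons (fun d hd h0 => h0 ey0y1) (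
  .cons (fun d hd h0 => ey0y2 h0) (
  .cons (fun d hd h0 => h0 ey0y3) (
  .cons (fun d hd h0 => ey0y4 h0) (
  .cons (fun d hd h0 => h0 ey1y2) (
  .cons (fun d hd h0 => ey1y3 h0) (
  .cons (fun d hd h0 => h0 ey1y4) (
  .cons (fun d hd h0 => h0 ey2y3) (
  .cons (fun d hd h0 => ey2y4 h0) (
  .cons (fun d hd h0 => h0 ey3y4) (
  .cons (fun d hd h0 => h0 (hx x0 y0 y3 y4 (.cons_cons _ (.cons_cons _ (.cons _ (.cons _ (.cons_cons _ (.cons_cons _ .slnil)))))))) (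
  .cons (fun d hd h0 => h0 (hx y0 y1 y3 y4 (.cons _ (.cons_cons _ (.cons_cons _ (.cons _ (.cons_cons _ (.cons_cons _ .slnil)))))))) (
  .cons (fun d hd h0 => h0 (hx y1 y2 y3 y4 (.cons _ (.cons _ (.cons_cons _ (.cons_cons _ (.cons_cons _ (.cons_cons _ .slnil)))))))) (
  .nil))))))))))))))))))))))))))

/-- templates -/
def kB_x : List Tm := [
  ⟨0, [], [], [.b true 2 8 8]⟩,
  ⟨0, [], [], [.b true 2 9 9]⟩,
  ⟨0, [], [], [.b false 2 10 10]⟩,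
  ⟨0, [], [], [.b false 2 11 11]⟩,
  ⟨0, [], [], [.b false 2 12 12]⟩,
  ⟨0, [], [], [.b false 2 13 13]⟩,
  ⟨0, [], [], [.b true 0 8 9]⟩,
  ⟨0, [], [], [.b false 0 8 10]⟩,
  ⟨0, [], [], [.b true 0 8 11]⟩,
  ⟨0, [], [], [.b false 0 8 12]⟩,
  ⟨0, [], [], [.b true 0 8 13]⟩,
  ⟨0, [], [], [.b true 0 9 10]⟩,
  ⟨0, [], [], [.b false 0 9 11]⟩,
  ⟨0, [], [], [.b true 0 9 12]⟩,
  ⟨0, [], [], [.b false 0 9 13]⟩,
  ⟨0, [], [], [.b true 0 10 11]⟩,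
  ⟨0, [], [], [.b false 0 10 12]⟩,
  ⟨0, [], [], [.b true 0 10 13]⟩,
  ⟨0, [], [], [.b true 0 11 12]⟩,
  ⟨0, [], [], [.b false 0 11 13]⟩,
  ⟨0, [], [], [.b true 0 12 13]⟩,
  ⟨0, [], [], [.q true 0 8 12 9 13]⟩,
  ⟨0, [], [], [.q true 0 9 12 10 13]⟩,
  ⟨0, [], [], [.q true 0 10 12 11 13]⟩]

def kB_p0 : List Nat := [
0xa4200900000001d00000001b00000001900000002306f2000501,
0x64a00b000000027068d000201,
0x8a420b0000000350795000201,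
0xa2800d00000004306d5000201,
0x82a4070000000020000000450303000301,
0xa8421100000000600000003b00000003300000004502ca000501,
0x840a21300000000800000000c06b9000301,
0x6a84030000000470722000201,
0xa6840d0000000470769000201,
0x680a40700000000a00000001002f3000301,
0x2860a41700000000c00000000e0000000120745000401,
0xa6401100000003b000000004000000029000000016000000014000600]

def kB_pf : List Nat := kB_p0

theorem kB_ref {V : Type} {S : SRel V} {p : Nat → V} (hp : ∀ i j, i < 6 → j < 6 → p i = p j → i = j)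
    (hts : PHs S p 6 ((qO ++ qQ) ++ kB_x)) : False :=
  refuteS (k := 6) (n2 := 3) (n3 := 1) (n4 := 4) (o3 := 63) (o4 := 119) (M := 1043) ((qO ++ qQ) ++ kB_x) kB_pf (by decide +kernel)
    (by decide +kernel) (by decide +kernel) (by decide +kernel) hp hts

theorem kB {V : Type} {Y : QSy V} (hq : QC Y.G Y.X Y.T Y.S) {x0 x1 y0 y1 y2 y3 : V}
    (nd : [x0, x1, y0, y1, y2, y3].Nodup) 
    (sx0 : Y.S x0) (sx1 : Y.S x1) (sy0 : ¬ Y.S y0) (sy1 : ¬ Y.S y1)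
    (sy2 : ¬ Y.S y2) (sy3 : ¬ Y.S y3) (ex0x1 : Y.G.Adj x0 x1) (ex0y0 : ¬ Y.G.Adj x0 y0)
    (ex0y1 : Y.G.Adj x0 y1) (ex0y2 : ¬ Y.G.Adj x0 y2) (ex0y3 : Y.G.Adj x0 y3) (ex1y0 : Y.G.Adj x1 y0)
    (ex1y1 : ¬ Y.G.Adj x1 y1) (ex1y2 : Y.G.Adj x1 y2) (ex1y3 : ¬ Y.G.Adj x1 y3) (ey0y1 : Y.G.Adj y0 y1)
    (ey0y2 : ¬ Y.G.Adj y0 y2) (ey0y3 : Y.G.Adj y0 y3) (ey1y2 : Y.G.Adj y1 y2) (ey1y3 : ¬ Y.G.Adj y1 y3)
    (ey2y3 : Y.G.Adj y2 y3)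
    (hx : ∀ a b c d : V, [a, b, c, d].Sublist [x0, x1, y0, y1, y2, y3] → Y.X a c b d) : False :=
  kB_ref (S := Y.rel) (pt_inj (o := x0) nd rfl) (PHs.app (UHs.phs ((qO_h hq).app (qQ_h hq)) _ _) (
  .cons (fun d hd h0 => h0 ⟨rfl, sx0⟩) (
  .cons (fun d hd h0 => h0 ⟨rfl, sx1⟩) (
  .cons (fun d hd h0 => sy0 h0.2) (
  .cons (fun d hd h0 => sy1 h0.2) (
  .cons (fun d hd h0 => sy2 h0.2) (
  .cons (fun d hd h0 => sy3 h0.2) (
  .cons (fun d hd h0 => h0 ex0x1) (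
  .cons (fun d hd h0 => ex0y0 h0) (
  .cons (fun d hd h0 => h0 ex0y1) (
  .cons (fun d hd h0 => ex0y2 h0) (
  .cons (fun d hd h0 => h0 ex0y3) (
  .cons (fun d hd h0 => h0 ex1y0) (
  .cons (fun d hd h0 => ex1y1 h0) (
  .cons (fun d hd h0 => h0 ex1y2) (
  .cons (fun d hd h0 => ex1y3 h0) (
  .cons (fun d hd h0 => h0 ey0y1) (
  .cons (fun d hd h0 => ey0y2 h0) (
  .cons (fun d hd h0 => h0 ey0y3) (
  .cons (fun d hd h0 => h0 ey1y2) (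
  .cons (fun d hd h0 => ey1y3 h0) (
  .cons (fun d hd h0 => h0 ey2y3) (
  .cons (fun d hd h0 => h0 (hx x0 x1 y2 y3 (.cons_cons _ (.cons_cons _ (.cons _ (.cons _ (.cons_cons _ (.cons_cons _ .slnil)))))))) (
  .cons (fun d hd h0 => h0 (hx x1 y0 y2 y3 (.cons _ (.cons_cons _ (.cons_cons _ (.cons _ (.cons_cons _ (.cons_cons _ .slnil)))))))) (
  .cons (fun d hd h0 => h0 (hx y0 y1 y2 y3 (.cons _ (.cons _ (.cons_cons _ (.cons_cons _ (.cons_cons _ (.cons_cons _ .slnil)))))))) (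
  .nil))))))))))))))))))))))))))

/-- templates -/
def kC_x : List Tm := [
  ⟨0, [], [], [.b true 2 8 8]⟩,
  ⟨0, [], [], [.b true 2 9 9]⟩,
  ⟨0, [], [], [.b true 2 10 10]⟩,
  ⟨0, [], [], [.b false 2 11 11]⟩,
  ⟨0, [], [], [.b false 2 12 12]⟩,
  ⟨0, [], [], [.b false 2 13 13]⟩,
  ⟨0, [], [], [.b true 0 8 9]⟩,
  ⟨0, [], [], [.b false 0 8 10]⟩,
  ⟨0, [], [], [.b true 0 8 11]⟩,
  ⟨0, [], [], [.b false 0 8 12]⟩,
  ⟨0, [], [], [.b true 0 8 13]⟩,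
  ⟨0, [], [], [.b true 0 9 10]⟩,
  ⟨0, [], [], [.b false 0 9 11]⟩,
  ⟨0, [], [], [.b true 0 9 12]⟩,
  ⟨0, [], [], [.b false 0 9 13]⟩,
  ⟨0, [], [], [.b true 0 10 11]⟩,
  ⟨0, [], [], [.b false 0 10 12]⟩,
  ⟨0, [], [], [.b true 0 10 13]⟩,
  ⟨0, [], [], [.b true 0 11 12]⟩,
  ⟨0, [], [], [.b false 0 11 13]⟩,
  ⟨0, [], [], [.b true 0 12 13]⟩,
  ⟨0, [], [], [.q true 0 8 12 9 13]⟩,
  ⟨0, [], [], [.q true 0 9 12 10 13]⟩,
  ⟨0, [], [], [.q true 0 10 12 11 13]⟩]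

def kC_p0 : List Nat := [
0x64a00b000000027068d000201,
0x8a420b0000000350795000201,
0x2a80030000000430696000201,
0xa2800d00000004306d5000201,
0xa48207000000006000000045018b000301,
0xa8421100000000400000003b00000003300000004502ca000501,
0x28400300000000a0576000201,
0x840a21300000000800000000c06b9000301,
0x4a2800700000004300000000e0303000301,
0x6a84030000000470722000201,
0xa6840d0000000470769000201,
0x680a40700000001200000001402f3000301,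
0x2860a41700000000c0000000100000000160745000401,
0xa6401100000003b00000000200000002900000001a000000018000600]

def kC_pf : List Nat := kC_p0

theorem kC_ref {V : Type} {S : SRel V} {p : Nat → V} (hp : ∀ i j, i < 6 → j < 6 → p i = p j → i = j)
    (hts : PHs S p 6 ((qO ++ qQ) ++ kC_x)) : False :=
  refuteS (k := 6) (n2 := 3) (n3 := 1) (n4 := 4) (o3 := 63) (o4 := 119) (M := 1043) ((qO ++ qQ) ++ kC_x) kC_pf (by decide +kernel)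
    (by decide +kernel) (by decide +kernel) (by decide +kernel) hp hts

theorem kC {V : Type} {Y : QSy V} (hq : QC Y.G Y.X Y.T Y.S) {x0 x1 x2 y0 y1 y2 : V}
    (nd : [x0, x1, x2, y0, y1, y2].Nodup) 
    (sx0 : Y.S x0) (sx1 : Y.S x1) (sx2 : Y.S x2) (sy0 : ¬ Y.S y0)
    (sy1 : ¬ Y.S y1) (sy2 : ¬ Y.S y2) (ex0x1 : Y.G.Adj x0 x1) (ex0x2 : ¬ Y.G.Adj x0 x2)
    (ex0y0 : Y.G.Adj x0 y0) (ex0y1 : ¬ Y.G.Adj x0 y1) (ex0y2 : Y.G.Adj x0 y2) (ex1x2 : Y.G.Adj x1 x2)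
    (ex1y0 : ¬ Y.G.Adj x1 y0) (ex1y1 : Y.G.Adj x1 y1) (ex1y2 : ¬ Y.G.Adj x1 y2) (ex2y0 : Y.G.Adj x2 y0)
    (ex2y1 : ¬ Y.G.Adj x2 y1) (ex2y2 : Y.G.Adj x2 y2) (ey0y1 : Y.G.Adj y0 y1) (ey0y2 : ¬ Y.G.Adj y0 y2)
    (ey1y2 : Y.G.Adj y1 y2)
    (hx : ∀ a b c d : V, [a, b, c, d].Sublist [x0, x1, x2, y0, y1, y2] → Y.X a c b d) : False :=
  kC_ref (S := Y.rel) (pt_inj (o := x0) nd rfl) (PHs.app (UHs.phs ((qO_h hq).app (qQ_h hq)) _ _) (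
  .cons (fun d hd h0 => h0 ⟨rfl, sx0⟩) (
  .cons (fun d hd h0 => h0 ⟨rfl, sx1⟩) (
  .cons (fun d hd h0 => h0 ⟨rfl, sx2⟩) (
  .cons (fun d hd h0 => sy0 h0.2) (
  .cons (fun d hd h0 => sy1 h0.2) (
  .cons (fun d hd h0 => sy2 h0.2) (
  .cons (fun d hd h0 => h0 ex0x1) (
  .cons (fun d hd h0 => ex0x2 h0) (
  .cons (fun d hd h0 => h0 ex0y0) (
  .cons (fun d hd h0 => ex0y1 h0) (
  .cons (fun d hd h0 => h0 ex0y2) (
  .cons (fun d hd h0 => h0 ex1x2) (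
  .cons (fun d hd h0 => ex1y0 h0) (
  .cons (fun d hd h0 => h0 ex1y1) (
  .cons (fun d hd h0 => ex1y2 h0) (
  .cons (fun d hd h0 => h0 ex2y0) (
  .cons (fun d hd h0 => ex2y1 h0) (
  .cons (fun d hd h0 => h0 ex2y2) (
  .cons (fun d hd h0 => h0 ey0y1) (
  .cons (fun d hd h0 => ey0y2 h0) (
  .cons (fun d hd h0 => h0 ey1y2) (
  .cons (fun d hd h0 => h0 (hx x0 x1 y1 y2 (.cons_cons _ (.cons_cons _ (.cons _ (.cons _ (.cons_cons _ (.cons_cons _ .slnil)))))))) (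
  .cons (fun d hd h0 => h0 (hx x1 x2 y1 y2 (.cons _ (.cons_cons _ (.cons_cons _ (.cons _ (.cons_cons _ (.cons_cons _ .slnil)))))))) (
  .cons (fun d hd h0 => h0 (hx x2 y0 y1 y2 (.cons _ (.cons _ (.cons_cons _ (.cons_cons _ (.cons_cons _ (.cons_cons _ .slnil)))))))) (
  .nil))))))))))))))))))))))))))

/-- templates -/
def e1_x : List Tm := [
  ⟨0, [], [], [.b true 2 8 8]⟩,
  ⟨0, [], [], [.b false 2 9 9]⟩,
  ⟨0, [], [], [.b false 2 10 10]⟩,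
  ⟨0, [], [], [.b false 2 11 11]⟩,
  ⟨0, [], [], [.b false 0 8 9]⟩,
  ⟨0, [], [], [.b true 0 8 10]⟩,
  ⟨0, [], [], [.b false 0 8 11]⟩,
  ⟨0, [], [], [.b true 0 9 10]⟩,
  ⟨0, [], [], [.b true 0 9 11]⟩,
  ⟨0, [], [], [.b true 0 10 11]⟩,
  ⟨0, [], [], [.q true 0 8 10 9 11]⟩]

def e1_p0 : List Nat := [
0x42600b00000002101a7000201,
0x46200b00000002501d7000201,
0x64201100000000400000000200000002300000002901bc000501,
0x2d000000006000200]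

def e1_pf : List Nat := e1_p0

theorem e1_ref {V : Type} {S : SRel V} {p : Nat → V} (hp : ∀ i j, i < 4 → j < 4 → p i = p j → i = j)
    (hts : PHs S p 4 ((qO ++ qQ) ++ e1_x)) : False :=
  refuteS (k := 4) (n2 := 3) (n3 := 1) (n4 := 4) (o3 := 30) (o4 := 50) (M := 270) ((qO ++ qQ) ++ e1_x) e1_pf (by decide +kernel)
    (by decide +kernel) (by decide +kernel) (by decide +kernel) hp hts

theorem e1 {V : Type} {Y : QSy V} (hq : QC Y.G Y.X Y.T Y.S) {x0 y0 y1 y2 : V}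
    (nd : [x0, y0, y1, y2].Nodup) 
    (sx0 : Y.S x0) (sy0 : ¬ Y.S y0) (sy1 : ¬ Y.S y1) (sy2 : ¬ Y.S y2)
    (ex0y0 : ¬ Y.G.Adj x0 y0) (ex0y1 : Y.G.Adj x0 y1) (ex0y2 : ¬ Y.G.Adj x0 y2) (ey0y1 : Y.G.Adj y0 y1)
    (ey0y2 : Y.G.Adj y0 y2) (ey1y2 : Y.G.Adj y1 y2)
    (hx : ∀ a b c d : V, [a, b, c, d].Sublist [x0, y0, y1, y2] → Y.X a c b d) : False :=
  e1_ref (S := Y.rel) (pt_inj (o := x0) nd rfl) (PHs.app (UHs.phs ((qO_h hq).app (qQ_h hq)) _ _) (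
  .cons (fun d hd h0 => h0 ⟨rfl, sx0⟩) (
  .cons (fun d hd h0 => sy0 h0.2) (
  .cons (fun d hd h0 => sy1 h0.2) (
  .cons (fun d hd h0 => sy2 h0.2) (
  .cons (fun d hd h0 => ex0y0 h0) (
  .cons (fun d hd h0 => h0 ex0y1) (
  .cons (fun d hd h0 => ex0y2 h0) (
  .cons (fun d hd h0 => h0 ey0y1) (
  .cons (fun d hd h0 => h0 ey0y2) (
  .cons (fun d hd h0 => h0 ey1y2) (
  .cons (fun d hd h0 => h0 (hx x0 y0 y1 y2 (.cons_cons _ (.cons_cons _ (.cons_cons _ (.cons_cons _ .slnil)))))) (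
  .nil)))))))))))))

/-- templates -/
def e1b_x : List Tm := [
  ⟨0, [], [], [.b true 2 8 8]⟩,
  ⟨0, [], [], [.b false 2 9 9]⟩,
  ⟨0, [], [], [.b false 2 10 10]⟩,
  ⟨0, [], [], [.b false 2 11 11]⟩,
  ⟨0, [], [], [.b false 0 8 9]⟩,
  ⟨0, [], [], [.b true 0 8 10]⟩,
  ⟨0, [], [], [.b false 0 8 11]⟩,
  ⟨0, [], [], [.b true 0 9 10]⟩,
  ⟨0, [], [], [.b true 0 9 11]⟩,
  ⟨0, [], [], [.b true 0 10 11]⟩,
  ⟨0, [], [], [.q true 0 8 10 9 11]⟩]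

def e1b_p0 : List Nat := [
0x42600b00000002101a7000201,
0x46200b00000002501d7000201,
0x64201100000000400000000200000002300000002901bc000501,
0x2d000000006000200]

def e1b_pf : List Nat := e1b_p0

theorem e1b_ref {V : Type} {S : SRel V} {p : Nat → V} (hp : ∀ i j, i < 4 → j < 4 → p i = p j → i = j)
    (hts : PHs S p 4 ((qO ++ qQ) ++ e1b_x)) : False :=
  refuteS (k := 4) (n2 := 3) (n3 := 1) (n4 := 4) (o3 := 30) (o4 := 50) (M := 270) ((qO ++ qQ) ++ e1b_x) e1b_pf (by decide +kernel)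
    (by decide +kernel) (by decide +kernel) (by decide +kernel) hp hts

theorem e1b {V : Type} {Y : QSy V} (hq : QC Y.G Y.X Y.T Y.S) {x0 y0 y1 y2 : V}
    (nd : [x0, y0, y1, y2].Nodup) 
    (sx0 : Y.S x0) (sy0 : ¬ Y.S y0) (sy1 : ¬ Y.S y1) (sy2 : ¬ Y.S y2)
    (ex0y0 : ¬ Y.G.Adj x0 y0) (ex0y1 : Y.G.Adj x0 y1) (ex0y2 : ¬ Y.G.Adj x0 y2) (ey0y1 : Y.G.Adj y0 y1)
    (ey0y2 : Y.G.Adj y0 y2) (ey1y2 : Y.G.Adj y1 y2)
    (hx : ∀ a b c d : V, [a, b, c, d].Sublist [x0, y0, y1, y2] → Y.X a c b d) : False :=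
  e1b_ref (S := Y.rel) (pt_inj (o := x0) nd rfl) (PHs.app (UHs.phs ((qO_h hq).app (qQ_h hq)) _ _) (
  .cons (fun d hd h0 => h0 ⟨rfl, sx0⟩) (
  .cons (fun d hd h0 => sy0 h0.2) (
  .cons (fun d hd h0 => sy1 h0.2) (
  .cons (fun d hd h0 => sy2 h0.2) (
  .cons (fun d hd h0 => ex0y0 h0) (
  .cons (fun d hd h0 => h0 ex0y1) (
  .cons (fun d hd h0 => ex0y2 h0) (
  .cons (fun d hd h0 => h0 ey0y1) (
  .cons (fun d hd h0 => h0 ey0y2) (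
  .cons (fun d hd h0 => h0 ey1y2) (
  .cons (fun d hd h0 => h0 (hx x0 y0 y1 y2 (.cons_cons _ (.cons_cons _ (.cons_cons _ (.cons_cons _ .slnil)))))) (
  .nil)))))))))))))

/-- templates -/
def e2_x : List Tm := [
  ⟨0, [], [], [.b true 2 8 8]⟩,
  ⟨0, [], [], [.b false 2 9 9]⟩,
  ⟨0, [], [], [.b false 2 10 10]⟩,
  ⟨0, [], [], [.b false 2 11 11]⟩,
  ⟨0, [], [], [.b false 0 8 9]⟩,
  ⟨0, [], [], [.b true 0 8 10]⟩,
  ⟨0, [], [], [.b false 0 8 11]⟩,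
  ⟨0, [], [], [.b true 0 9 10]⟩,
  ⟨0, [], [], [.b true 0 9 11]⟩,
  ⟨0, [], [], [.b true 0 10 11]⟩,
  ⟨0, [], [], [.q true 0 8 10 9 11]⟩]

def e2_p0 : List Nat := [
0x42600b00000002101a7000201,
0x46200b00000002501d7000201,
0x64201100000000400000000200000002300000002901bc000501,
0x2d000000006000200]

def e2_pf : List Nat := e2_p0

theorem e2_ref {V : Type} {S : SRel V} {p : Nat → V} (hp : ∀ i j, i < 4 → j < 4 → p i = p j → i = j)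
    (hts : PHs S p 4 ((qO ++ qQ) ++ e2_x)) : False :=
  refuteS (k := 4) (n2 := 3) (n3 := 1) (n4 := 4) (o3 := 30) (o4 := 50) (M := 270) ((qO ++ qQ) ++ e2_x) e2_pf (by decide +kernel)
    (by decide +kernel) (by decide +kernel) (by decide +kernel) hp hts

theorem e2 {V : Type} {Y : QSy V} (hq : QC Y.G Y.X Y.T Y.S) {x0 y0 y1 y2 : V}
    (nd : [x0, y0, y1, y2].Nodup) 
    (sx0 : Y.S x0) (sy0 : ¬ Y.S y0) (sy1 : ¬ Y.S y1) (sy2 : ¬ Y.S y2)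
    (ex0y0 : ¬ Y.G.Adj x0 y0) (ex0y1 : Y.G.Adj x0 y1) (ex0y2 : ¬ Y.G.Adj x0 y2) (ey0y1 : Y.G.Adj y0 y1)
    (ey0y2 : Y.G.Adj y0 y2) (ey1y2 : Y.G.Adj y1 y2)
    (hx : ∀ a b c d : V, [a, b, c, d].Sublist [x0, y0, y1, y2] → Y.X a c b d) : False :=
  e2_ref (S := Y.rel) (pt_inj (o := x0) nd rfl) (PHs.app (UHs.phs ((qO_h hq).app (qQ_h hq)) _ _) (
  .cons (fun d hd h0 => h0 ⟨rfl, sx0⟩) (
  .cons (fun d hd h0 => sy0 h0.2) (
  .cons (fun d hd h0 => sy1 h0.2) (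
  .cons (fun d hd h0 => sy2 h0.2) (
  .cons (fun d hd h0 => ex0y0 h0) (
  .cons (fun d hd h0 => h0 ex0y1) (
  .cons (fun d hd h0 => ex0y2 h0) (
  .cons (fun d hd h0 => h0 ey0y1) (
  .cons (fun d hd h0 => h0 ey0y2) (
  .cons (fun d hd h0 => h0 ey1y2) (
  .cons (fun d hd h0 => h0 (hx x0 y0 y1 y2 (.cons_cons _ (.cons_cons _ (.cons_cons _ (.cons_cons _ .slnil)))))) (
  .nil)))))))))))))

/-- templates -/
def e2b_x : List Tm := [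
  ⟨0, [], [], [.b true 2 8 8]⟩,
  ⟨0, [], [], [.b false 2 9 9]⟩,
  ⟨0, [], [], [.b false 2 10 10]⟩,
  ⟨0, [], [], [.b false 2 11 11]⟩,
  ⟨0, [], [], [.b false 0 8 9]⟩,
  ⟨0, [], [], [.b true 0 8 10]⟩,
  ⟨0, [], [], [.b false 0 8 11]⟩,
  ⟨0, [], [], [.b true 0 9 10]⟩,
  ⟨0, [], [], [.b true 0 9 11]⟩,
  ⟨0, [], [], [.b true 0 10 11]⟩,
  ⟨0, [], [], [.q true 0 8 10 9 11]⟩]

def e2b_p0 : List Nat := [
0x42600b00000002101a7000201,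
0x46200b00000002501d7000201,
0x64201100000000400000000200000002300000002901bc000501,
0x2d000000006000200]

def e2b_pf : List Nat := e2b_p0

theorem e2b_ref {V : Type} {S : SRel V} {p : Nat → V} (hp : ∀ i j, i < 4 → j < 4 → p i = p j → i = j)
    (hts : PHs S p 4 ((qO ++ qQ) ++ e2b_x)) : False :=
  refuteS (k := 4) (n2 := 3) (n3 := 1) (n4 := 4) (o3 := 30) (o4 := 50) (M := 270) ((qO ++ qQ) ++ e2b_x) e2b_pf (by decide +kernel)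
    (by decide +kernel) (by decide +kernel) (by decide +kernel) hp hts

theorem e2b {V : Type} {Y : QSy V} (hq : QC Y.G Y.X Y.T Y.S) {x0 y0 y1 y2 : V}
    (nd : [x0, y0, y1, y2].Nodup) 
    (sx0 : Y.S x0) (sy0 : ¬ Y.S y0) (sy1 : ¬ Y.S y1) (sy2 : ¬ Y.S y2)
    (ex0y0 : ¬ Y.G.Adj x0 y0) (ex0y1 : Y.G.Adj x0 y1) (ex0y2 : ¬ Y.G.Adj x0 y2) (ey0y1 : Y.G.Adj y0 y1)
    (ey0y2 : Y.G.Adj y0 y2) (ey1y2 : Y.G.Adj y1 y2)
    (hx : ∀ a b c d : V, [a, b, c, d].Sublist [x0, y0, y1, y2] → Y.X a c b d) : False :=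
  e2b_ref (S := Y.rel) (pt_inj (o := x0) nd rfl) (PHs.app (UHs.phs ((qO_h hq).app (qQ_h hq)) _ _) (
  .cons (fun d hd h0 => h0 ⟨rfl, sx0⟩) (
  .cons (fun d hd h0 => sy0 h0.2) (
  .cons (fun d hd h0 => sy1 h0.2) (
  .cons (fun d hd h0 => sy2 h0.2) (
  .cons (fun d hd h0 => ex0y0 h0) (
  .cons (fun d hd h0 => h0 ex0y1) (
  .cons (fun d hd h0 => ex0y2 h0) (
  .cons (fun d hd h0 => h0 ey0y1) (
  .cons (fun d hd h0 => h0 ey0y2) (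
  .cons (fun d hd h0 => h0 ey1y2) (
  .cons (fun d hd h0 => h0 (hx x0 y0 y1 y2 (.cons_cons _ (.cons_cons _ (.cons_cons _ (.cons_cons _ .slnil)))))) (
  .nil)))))))))))))

/-- templates -/
def e3_x : List Tm := [
  ⟨0, [], [], [.b true 2 8 8]⟩,
  ⟨0, [], [], [.b true 2 9 9]⟩,
  ⟨0, [], [], [.b false 2 10 10]⟩,
  ⟨0, [], [], [.b false 2 11 11]⟩,
  ⟨0, [], [], [.b false 2 12 12]⟩,
  ⟨0, [], [], [.b true 0 8 9]⟩,
  ⟨0, [], [], [.b true 0 8 10]⟩,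
  ⟨0, [], [], [.b false 0 8 11]⟩,
  ⟨0, [], [], [.b false 0 8 12]⟩,
  ⟨0, [], [], [.b true 0 9 10]⟩,
  ⟨0, [], [], [.b true 0 9 11]⟩,
  ⟨0, [], [], [.b false 0 9 12]⟩,
  ⟨0, [], [], [.b true 0 10 11]⟩,
  ⟨0, [], [], [.b true 0 10 12]⟩,
  ⟨0, [], [], [.b true 0 11 12]⟩,
  ⟨0, [], [], [.q true 0 8 11 9 12]⟩,
  ⟨0, [], [], [.q true 0 9 11 10 12]⟩]

def e3_p0 : List Nat := [
0x46200b0000000270317000201,
0x28600b00000002903a3000201,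
0x68420b00000002f03ff000201,
0x2860030000000370378000201,
0x84620700000000800000003900cc000301,
0x86421100000000600000003300000002d000000039017b000501,
0x64201100000000200000002d00000002500000000a00b7000501,
0x804621500000000400000000e00000000c000400]

def e3_pf : List Nat := e3_p0

theorem e3_ref {V : Type} {S : SRel V} {p : Nat → V} (hp : ∀ i j, i < 5 → j < 5 → p i = p j → i = j)
    (hts : PHs S p 5 ((qO ++ qQ) ++ e3_x)) : False :=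
  refuteS (k := 5) (n2 := 3) (n3 := 1) (n4 := 4) (o3 := 45) (o4 := 80) (M := 560) ((qO ++ qQ) ++ e3_x) e3_pf (by decide +kernel)
    (by decide +kernel) (by decide +kernel) (by decide +kernel) hp hts

theorem e3 {V : Type} {Y : QSy V} (hq : QC Y.G Y.X Y.T Y.S) {x0 x1 y0 y1 y2 : V}
    (nd : [x0, x1, y0, y1, y2].Nodup) 
    (sx0 : Y.S x0) (sx1 : Y.S x1) (sy0 : ¬ Y.S y0) (sy1 : ¬ Y.S y1)
    (sy2 : ¬ Y.S y2) (ex0x1 : Y.G.Adj x0 x1) (ex0y0 : Y.G.Adj x0 y0) (ex0y1 : ¬ Y.G.Adj x0 y1)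
    (ex0y2 : ¬ Y.G.Adj x0 y2) (ex1y0 : Y.G.Adj x1 y0) (ex1y1 : Y.G.Adj x1 y1) (ex1y2 : ¬ Y.G.Adj x1 y2)
    (ey0y1 : Y.G.Adj y0 y1) (ey0y2 : Y.G.Adj y0 y2) (ey1y2 : Y.G.Adj y1 y2)
    (hx : ∀ a b c d : V, [a, b, c, d].Sublist [x0, x1, y0, y1, y2] → Y.X a c b d) : False :=
  e3_ref (S := Y.rel) (pt_inj (o := x0) nd rfl) (PHs.app (UHs.phs ((qO_h hq).app (qQ_h hq)) _ _) (
  .cons (fun d hd h0 => h0 ⟨rfl, sx0⟩) (
  .cons (fun d hd h0 => h0 ⟨rfl, sx1⟩) (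
  .cons (fun d hd h0 => sy0 h0.2) (
  .cons (fun d hd h0 => sy1 h0.2) (
  .cons (fun d hd h0 => sy2 h0.2) (
  .cons (fun d hd h0 => h0 ex0x1) (
  .cons (fun d hd h0 => h0 ex0y0) (
  .cons (fun d hd h0 => ex0y1 h0) (
  .cons (fun d hd h0 => ex0y2 h0) (
  .cons (fun d hd h0 => h0 ex1y0) (
  .cons (fun d hd h0 => h0 ex1y1) (
  .cons (fun d hd h0 => ex1y2 h0) (
  .cons (fun d hd h0 => h0 ey0y1) (
  .cons (fun d hd h0 => h0 ey0y2) (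
  .cons (fun d hd h0 => h0 ey1y2) (
  .cons (fun d hd h0 => h0 (hx x0 x1 y1 y2 (.cons_cons _ (.cons_cons _ (.cons _ (.cons_cons _ (.cons_cons _ .slnil))))))) (
  .cons (fun d hd h0 => h0 (hx x1 y0 y1 y2 (.cons _ (.cons_cons _ (.cons_cons _ (.cons_cons _ (.cons_cons _ .slnil))))))) (
  .nil)))))))))))))))))))

/-- templates -/
def e3b_x : List Tm := [
  ⟨0, [], [], [.b true 2 8 8]⟩,
  ⟨0, [], [], [.b true 2 9 9]⟩,
  ⟨0, [], [], [.b false 2 10 10]⟩,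
  ⟨0, [], [], [.b false 2 11 11]⟩,
  ⟨0, [], [], [.b false 2 12 12]⟩,
  ⟨0, [], [], [.b true 0 8 9]⟩,
  ⟨0, [], [], [.b false 0 8 10]⟩,
  ⟨0, [], [], [.b true 0 8 11]⟩,
  ⟨0, [], [], [.b true 0 8 12]⟩,
  ⟨0, [], [], [.b false 0 9 10]⟩,
  ⟨0, [], [], [.b false 0 9 11]⟩,
  ⟨0, [], [], [.b true 0 9 12]⟩,
  ⟨0, [], [], [.b true 0 10 11]⟩,
  ⟨0, [], [], [.b true 0 10 12]⟩,
  ⟨0, [], [], [.b true 0 11 12]⟩,
  ⟨0, [], [], [.q true 0 8 11 9 12]⟩,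
  ⟨0, [], [], [.q true 0 9 11 10 12]⟩]

def e3b_p0 : List Nat := [
0x84200900000001d00000001b00000001900000002103bc000501,
0x64800b000000025037f000201,
0x4620b00000002b02ff000201,
0x86020b00000002d03f3000201,
0x86201100000000800000002f000000027000000037014b000501,
0x428601500000000600000000a03fb000301,
0x86401100000003300000000400000002700000000c03d0000501,
0x62840700000000200000000e03d4000301,
0x39000000010000200]

def e3b_pf : List Nat := e3b_p0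

theorem e3b_ref {V : Type} {S : SRel V} {p : Nat → V} (hp : ∀ i j, i < 5 → j < 5 → p i = p j → i = j)
    (hts : PHs S p 5 ((qO ++ qQ) ++ e3b_x)) : False :=
  refuteS (k := 5) (n2 := 3) (n3 := 1) (n4 := 4) (o3 := 45) (o4 := 80) (M := 560) ((qO ++ qQ) ++ e3b_x) e3b_pf (by decide +kernel)
    (by decide +kernel) (by decide +kernel) (by decide +kernel) hp hts

theorem e3b {V : Type} {Y : QSy V} (hq : QC Y.G Y.X Y.T Y.S) {x0 x1 y0 y1 y2 : V}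
    (nd : [x0, x1, y0, y1, y2].Nodup) 
    (sx0 : Y.S x0) (sx1 : Y.S x1) (sy0 : ¬ Y.S y0) (sy1 : ¬ Y.S y1)
    (sy2 : ¬ Y.S y2) (ex0x1 : Y.G.Adj x0 x1) (ex0y0 : ¬ Y.G.Adj x0 y0) (ex0y1 : Y.G.Adj x0 y1)
    (ex0y2 : Y.G.Adj x0 y2) (ex1y0 : ¬ Y.G.Adj x1 y0) (ex1y1 : ¬ Y.G.Adj x1 y1) (ex1y2 : Y.G.Adj x1 y2)
    (ey0y1 : Y.G.Adj y0 y1) (ey0y2 : Y.G.Adj y0 y2) (ey1y2 : Y.G.Adj y1 y2)
    (hx : ∀ a b c d : V, [a, b, c, d].Sublist [x0, x1, y0, y1, y2] → Y.X a c b d) : False :=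
  e3b_ref (S := Y.rel) (pt_inj (o := x0) nd rfl) (PHs.app (UHs.phs ((qO_h hq).app (qQ_h hq)) _ _) (
  .cons (fun d hd h0 => h0 ⟨rfl, sx0⟩) (
  .cons (fun d hd h0 => h0 ⟨rfl, sx1⟩) (
  .cons (fun d hd h0 => sy0 h0.2) (
  .cons (fun d hd h0 => sy1 h0.2) (
  .cons (fun d hd h0 => sy2 h0.2) (
  .cons (fun d hd h0 => h0 ex0x1) (
  .cons (fun d hd h0 => ex0y0 h0) (
  .cons (fun d hd h0 => h0 ex0y1) (
  .cons (fun d hd h0 => h0 ex0y2) (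
  .cons (fun d hd h0 => ex1y0 h0) (
  .cons (fun d hd h0 => ex1y1 h0) (
  .cons (fun d hd h0 => h0 ex1y2) (
  .cons (fun d hd h0 => h0 ey0y1) (
  .cons (fun d hd h0 => h0 ey0y2) (
  .cons (fun d hd h0 => h0 ey1y2) (
  .cons (fun d hd h0 => h0 (hx x0 x1 y1 y2 (.cons_cons _ (.cons_cons _ (.cons _ (.cons_cons _ (.cons_cons _ .slnil))))))) (
  .cons (fun d hd h0 => h0 (hx x1 y0 y1 y2 (.cons _ (.cons_cons _ (.cons_cons _ (.cons_cons _ (.cons_cons _ .slnil))))))) (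
  .nil)))))))))))))))))))

/-- templates -/
def e4_x : List Tm := [
  ⟨0, [], [], [.b true 2 8 8]⟩,
  ⟨0, [], [], [.b true 2 9 9]⟩,
  ⟨0, [], [], [.b true 2 10 10]⟩,
  ⟨0, [], [], [.b false 2 11 11]⟩,
  ⟨0, [], [], [.b true 0 8 9]⟩,
  ⟨0, [], [], [.b true 0 8 10]⟩,
  ⟨0, [], [], [.b false 0 8 11]⟩,
  ⟨0, [], [], [.b true 0 9 10]⟩,
  ⟨0, [], [], [.b true 0 9 11]⟩,
  ⟨0, [], [], [.b false 0 10 11]⟩,
  ⟨0, [], [], [.q true 0 8 10 9 11]⟩]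

def e4_p0 : List Nat := [
0x46200b00000002501d7000201,
0x6240b00000002b01a7000201,
0x64201100000000200000002900000002300000000401bc000501,
0x2d000000006000200]

def e4_pf : List Nat := e4_p0

theorem e4_ref {V : Type} {S : SRel V} {p : Nat → V} (hp : ∀ i j, i < 4 → j < 4 → p i = p j → i = j)
    (hts : PHs S p 4 ((qO ++ qQ) ++ e4_x)) : False :=
  refuteS (k := 4) (n2 := 3) (n3 := 1) (n4 := 4) (o3 := 30) (o4 := 50) (M := 270) ((qO ++ qQ) ++ e4_x) e4_pf (by decide +kernel)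
    (by decide +kernel) (by decide +kernel) (by decide +kernel) hp hts

theorem e4 {V : Type} {Y : QSy V} (hq : QC Y.G Y.X Y.T Y.S) {x0 x1 x2 y0 : V}
    (nd : [x0, x1, x2, y0].Nodup) 
    (sx0 : Y.S x0) (sx1 : Y.S x1) (sx2 : Y.S x2) (sy0 : ¬ Y.S y0)
    (ex0x1 : Y.G.Adj x0 x1) (ex0x2 : Y.G.Adj x0 x2) (ex0y0 : ¬ Y.G.Adj x0 y0) (ex1x2 : Y.G.Adj x1 x2)
    (ex1y0 : Y.G.Adj x1 y0) (ex2y0 : ¬ Y.G.Adj x2 y0)
    (hx : ∀ a b c d : V, [a, b, c, d].Sublist [x0, x1, x2, y0] → Y.X a c b d) : False :=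
  e4_ref (S := Y.rel) (pt_inj (o := x0) nd rfl) (PHs.app (UHs.phs ((qO_h hq).app (qQ_h hq)) _ _) (
  .cons (fun d hd h0 => h0 ⟨rfl, sx0⟩) (
  .cons (fun d hd h0 => h0 ⟨rfl, sx1⟩) (
  .cons (fun d hd h0 => h0 ⟨rfl, sx2⟩) (
  .cons (fun d hd h0 => sy0 h0.2) (
  .cons (fun d hd h0 => h0 ex0x1) (
  .cons (fun d hd h0 => h0 ex0x2) (
  .cons (fun d hd h0 => ex0y0 h0) (
  .cons (fun d hd h0 => h0 ex1x2) (
  .cons (fun d hd h0 => h0 ex1y0) (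
  .cons (fun d hd h0 => ex2y0 h0) (
  .cons (fun d hd h0 => h0 (hx x0 x1 x2 y0 (.cons_cons _ (.cons_cons _ (.cons_cons _ (.cons_cons _ .slnil)))))) (
  .nil)))))))))))))

/-- templates -/
def e4b_x : List Tm := [
  ⟨0, [], [], [.b true 2 8 8]⟩,
  ⟨0, [], [], [.b true 2 9 9]⟩,
  ⟨0, [], [], [.b true 2 10 10]⟩,
  ⟨0, [], [], [.b false 2 11 11]⟩,
  ⟨0, [], [], [.b true 0 8 9]⟩,
  ⟨0, [], [], [.b true 0 8 10]⟩,
  ⟨0, [], [], [.b false 0 8 11]⟩,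
  ⟨0, [], [], [.b true 0 9 10]⟩,
  ⟨0, [], [], [.b true 0 9 11]⟩,
  ⟨0, [], [], [.b false 0 10 11]⟩,
  ⟨0, [], [], [.q true 0 8 10 9 11]⟩]

def e4b_p0 : List Nat := [
0x46200b00000002501d7000201,
0x6240b00000002b01a7000201,
0x64201100000000200000002900000002300000000401bc000501,
0x2d000000006000200]

def e4b_pf : List Nat := e4b_p0

theorem e4b_ref {V : Type} {S : SRel V} {p : Nat → V} (hp : ∀ i j, i < 4 → j < 4 → p i = p j → i = j)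
    (hts : PHs S p 4 ((qO ++ qQ) ++ e4b_x)) : False :=
  refuteS (k := 4) (n2 := 3) (n3 := 1) (n4 := 4) (o3 := 30) (o4 := 50) (M := 270) ((qO ++ qQ) ++ e4b_x) e4b_pf (by decide +kernel)
    (by decide +kernel) (by decide +kernel) (by decide +kernel) hp hts

theorem e4b {V : Type} {Y : QSy V} (hq : QC Y.G Y.X Y.T Y.S) {x0 x1 x2 y0 : V}
    (nd : [x0, x1, x2, y0].Nodup) 
    (sx0 : Y.S x0) (sx1 : Y.S x1) (sx2 : Y.S x2) (sy0 : ¬ Y.S y0)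
    (ex0x1 : Y.G.Adj x0 x1) (ex0x2 : Y.G.Adj x0 x2) (ex0y0 : ¬ Y.G.Adj x0 y0) (ex1x2 : Y.G.Adj x1 x2)
    (ex1y0 : Y.G.Adj x1 y0) (ex2y0 : ¬ Y.G.Adj x2 y0)
    (hx : ∀ a b c d : V, [a, b, c, d].Sublist [x0, x1, x2, y0] → Y.X a c b d) : False :=
  e4b_ref (S := Y.rel) (pt_inj (o := x0) nd rfl) (PHs.app (UHs.phs ((qO_h hq).app (qQ_h hq)) _ _) (
  .cons (fun d hd h0 => h0 ⟨rfl, sx0⟩) (
  .cons (fun d hd h0 => h0 ⟨rfl, sx1⟩) (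
  .cons (fun d hd h0 => h0 ⟨rfl, sx2⟩) (
  .cons (fun d hd h0 => sy0 h0.2) (
  .cons (fun d hd h0 => h0 ex0x1) (
  .cons (fun d hd h0 => h0 ex0x2) (
  .cons (fun d hd h0 => ex0y0 h0) (
  .cons (fun d hd h0 => h0 ex1x2) (
  .cons (fun d hd h0 => h0 ex1y0) (
  .cons (fun d hd h0 => ex2y0 h0) (
  .cons (fun d hd h0 => h0 (hx x0 x1 x2 y0 (.cons_cons _ (.cons_cons _ (.cons_cons _ (.cons_cons _ .slnil)))))) (
  .nil)))))))))))))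

/-- templates -/
def e5_x : List Tm := [
  ⟨0, [], [], [.b true 2 8 8]⟩,
  ⟨0, [], [], [.b true 2 9 9]⟩,
  ⟨0, [], [], [.b true 2 10 10]⟩,
  ⟨0, [], [], [.b false 2 11 11]⟩,
  ⟨0, [], [], [.b true 0 8 9]⟩,
  ⟨0, [], [], [.b true 0 8 10]⟩,
  ⟨0, [], [], [.b false 0 8 11]⟩,
  ⟨0, [], [], [.b true 0 9 10]⟩,
  ⟨0, [], [], [.b true 0 9 11]⟩,
  ⟨0, [], [], [.b false 0 10 11]⟩,
  ⟨0, [], [], [.q true 0 8 10 9 11]⟩]

def e5_p0 : List Nat := [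
0x46200b00000002501d7000201,
0x6240b00000002b01a7000201,
0x64201100000000200000002900000002300000000401bc000501,
0x2d000000006000200]

def e5_pf : List Nat := e5_p0

theorem e5_ref {V : Type} {S : SRel V} {p : Nat → V} (hp : ∀ i j, i < 4 → j < 4 → p i = p j → i = j)
    (hts : PHs S p 4 ((qO ++ qQ) ++ e5_x)) : False :=
  refuteS (k := 4) (n2 := 3) (n3 := 1) (n4 := 4) (o3 := 30) (o4 := 50) (M := 270) ((qO ++ qQ) ++ e5_x) e5_pf (by decide +kernel)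
    (by decide +kernel) (by decide +kernel) (by decide +kernel) hp hts

theorem e5 {V : Type} {Y : QSy V} (hq : QC Y.G Y.X Y.T Y.S) {x0 x1 x2 y0 : V}
    (nd : [x0, x1, x2, y0].Nodup) 
    (sx0 : Y.S x0) (sx1 : Y.S x1) (sx2 : Y.S x2) (sy0 : ¬ Y.S y0)
    (ex0x1 : Y.G.Adj x0 x1) (ex0x2 : Y.G.Adj x0 x2) (ex0y0 : ¬ Y.G.Adj x0 y0) (ex1x2 : Y.G.Adj x1 x2)
    (ex1y0 : Y.G.Adj x1 y0) (ex2y0 : ¬ Y.G.Adj x2 y0)
    (hx : ∀ a b c d : V, [a, b, c, d].Sublist [x0, x1, x2, y0] → Y.X a c b d) : False :=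
  e5_ref (S := Y.rel) (pt_inj (o := x0) nd rfl) (PHs.app (UHs.phs ((qO_h hq).app (qQ_h hq)) _ _) (
  .cons (fun d hd h0 => h0 ⟨rfl, sx0⟩) (
  .cons (fun d hd h0 => h0 ⟨rfl, sx1⟩) (
  .cons (fun d hd h0 => h0 ⟨rfl, sx2⟩) (
  .cons (fun d hd h0 => sy0 h0.2) (
  .cons (fun d hd h0 => h0 ex0x1) (
  .cons (fun d hd h0 => h0 ex0x2) (
  .cons (fun d hd h0 => ex0y0 h0) (
  .cons (fun d hd h0 => h0 ex1x2) (
  .cons (fun d hd h0 => h0 ex1y0) (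
  .cons (fun d hd h0 => ex2y0 h0) (
  .cons (fun d hd h0 => h0 (hx x0 x1 x2 y0 (.cons_cons _ (.cons_cons _ (.cons_cons _ (.cons_cons _ .slnil)))))) (
  .nil)))))))))))))

/-- templates -/
def e5b_x : List Tm := [
  ⟨0, [], [], [.b true 2 8 8]⟩,
  ⟨0, [], [], [.b true 2 9 9]⟩,
  ⟨0, [], [], [.b true 2 10 10]⟩,
  ⟨0, [], [], [.b false 2 11 11]⟩,
  ⟨0, [], [], [.b true 0 8 9]⟩,
  ⟨0, [], [], [.b true 0 8 10]⟩,
  ⟨0, [], [], [.b false 0 8 11]⟩,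
  ⟨0, [], [], [.b true 0 9 10]⟩,
  ⟨0, [], [], [.b true 0 9 11]⟩,
  ⟨0, [], [], [.b false 0 10 11]⟩,
  ⟨0, [], [], [.q true 0 8 10 9 11]⟩]

def e5b_p0 : List Nat := [
0x46200b00000002501d7000201,
0x6240b00000002b01a7000201,
0x64201100000000200000002900000002300000000401bc000501,
0x2d000000006000200]

def e5b_pf : List Nat := e5b_p0

theorem e5b_ref {V : Type} {S : SRel V} {p : Nat → V} (hp : ∀ i j, i < 4 → j < 4 → p i = p j → i = j)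
    (hts : PHs S p 4 ((qO ++ qQ) ++ e5b_x)) : False :=
  refuteS (k := 4) (n2 := 3) (n3 := 1) (n4 := 4) (o3 := 30) (o4 := 50) (M := 270) ((qO ++ qQ) ++ e5b_x) e5b_pf (by decide +kernel)
    (by decide +kernel) (by decide +kernel) (by decide +kernel) hp hts

theorem e5b {V : Type} {Y : QSy V} (hq : QC Y.G Y.X Y.T Y.S) {x0 x1 x2 y0 : V}
    (nd : [x0, x1, x2, y0].Nodup) 
    (sx0 : Y.S x0) (sx1 : Y.S x1) (sx2 : Y.S x2) (sy0 : ¬ Y.S y0)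
    (ex0x1 : Y.G.Adj x0 x1) (ex0x2 : Y.G.Adj x0 x2) (ex0y0 : ¬ Y.G.Adj x0 y0) (ex1x2 : Y.G.Adj x1 x2)
    (ex1y0 : Y.G.Adj x1 y0) (ex2y0 : ¬ Y.G.Adj x2 y0)
    (hx : ∀ a b c d : V, [a, b, c, d].Sublist [x0, x1, x2, y0] → Y.X a c b d) : False :=
  e5b_ref (S := Y.rel) (pt_inj (o := x0) nd rfl) (PHs.app (UHs.phs ((qO_h hq).app (qQ_h hq)) _ _) (
  .cons (fun d hd h0 => h0 ⟨rfl, sx0⟩) (
  .cons (fun d hd h0 => h0 ⟨rfl, sx1⟩) (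
  .cons (fun d hd h0 => h0 ⟨rfl, sx2⟩) (
  .cons (fun d hd h0 => sy0 h0.2) (
  .cons (fun d hd h0 => h0 ex0x1) (
  .cons (fun d hd h0 => h0 ex0x2) (
  .cons (fun d hd h0 => ex0y0 h0) (
  .cons (fun d hd h0 => h0 ex1x2) (
  .cons (fun d hd h0 => h0 ex1y0) (
  .cons (fun d hd h0 => ex2y0 h0) (
  .cons (fun d hd h0 => h0 (hx x0 x1 x2 y0 (.cons_cons _ (.cons_cons _ (.cons_cons _ (.cons_cons _ .slnil)))))) (
  .nil)))))))))))))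

end Pool.Agent.SOK
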