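import Pool.Agent.SOK.Mdl

/-! Project SOK, module WdW: forbidden words (generated). -/

set_option autoImplicit false
set_option linter.unusedVariables false
set_option linter.unusedSimpArgs false

namespace Pool.Agent.SOK

open Pool.Agent.SOC Pool.Agent.SOD Pool.Agent.RUP Pool.Agent.SOF Pool.Agent.SOG Pool.Agent.SOV Pool.Agent.SOS

variable {U V : Type} {G : SimpleGraph V} {W B : List V}

/-- representatives of the blocks of both sides, with classes: `f` says which classes are adjacent across, `g` says which classes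
are adjacent on the same side -/
structure RW {α : Type} [DecidableEq V] (f g : α → α → Prop) (G : SimpleGraph V) (W B : List V) (cl : V → α) : Prop where
  nd : (W ++ B).Nodup
  vl : Val G (W ++ B)
  ax : ∀ {x y}, x ∈ W → y ∈ B → (G.Adj x y ↔ f (cl x) (cl y))
  aW : ∀ {x y}, x ∈ W → y ∈ W → x ≠ y → (G.Adj x y ↔ g (cl x) (cl y))
  aB : ∀ {x y}, x ∈ B → y ∈ B → x ≠ y → (G.Adj x y ↔ g (cl x) (cl y))

/-- two rows, one contained in the other: across and on the same side -/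
def fp (a b : Bool) : Prop := a = true ∨ b = true

/-- two disjoint rows, across -/
def fk (a b : Bool) : Prop := a = b

/-- two disjoint rows, same side -/
def gk (a b : Bool) : Prop := a ≠ b

/-- `K2 + P4`, across -/
def fe (a b : Fin 3) : Prop := (a = 0 ∧ b = 0) ∨ (a ≠ 0 ∧ b ≠ 0 ∧ ¬ (a = 1 ∧ b = 1))

/-- `K2 + P4`, same side -/
def ge (a b : Fin 3) : Prop := a ≠ b ∨ a = 2

theorem lift_pat {α : Type} {cl : V → α} {fn : U → V} {Y : QSy U} (m : Mdl G W B fn Y) {p : List α} {D : List V}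
    (hD : ∀ v ∈ D, v ∈ W ++ B) (h : p.Sublist (D.map cl)) :
    ∃ us : List U, (us.map fn).Sublist D ∧ us.map (fun u => cl (fn u)) = p := by
  obtain ⟨l, h1, h2⟩ := List.sublist_map_iff.1 h
  obtain ⟨us, h3⟩ := lift_list (f := fn) (l := l) fun x hx => m.sur x (hD x (h1.subset hx))
  refine ⟨us, by rw [h3]; exact h1, ?_⟩
  rw [h2, ← h3, List.map_map]
  rfl

theorem pA1_w [DecidableEq V] {cl : V → Bool} (h : RW fp fp G W B cl)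
    (h1 : [true].Sublist (W.map cl))
    (h2 : [false, true, false, true, false].Sublist (B.map cl)) : False := by
  obtain ⟨U, fn, Y, m⟩ := mdl_ex h.nd h.vl
  obtain ⟨la, sa, ea⟩ := lift_pat m (D := W) (fun v hv => List.mem_append_left _ hv) h1
  obtain ⟨x0, la, rfl, cx0, ea⟩ := List.map_eq_cons_iff.1 ea
  obtain rfl := List.map_eq_nil_iff.1 ea
  have mx0 : fn x0 ∈ W := sa.subset (by simp)
  obtain ⟨lb, sb, eb⟩ := lift_pat m (D := B) (fun v hv => List.mem_append_right _ hv) h2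
  obtain ⟨y0, lb, rfl, cy0, eb⟩ := List.map_eq_cons_iff.1 eb
  obtain ⟨y1, lb, rfl, cy1, eb⟩ := List.map_eq_cons_iff.1 eb
  obtain ⟨y2, lb, rfl, cy2, eb⟩ := List.map_eq_cons_iff.1 eb
  obtain ⟨y3, lb, rfl, cy3, eb⟩ := List.map_eq_cons_iff.1 eb
  obtain ⟨y4, lb, rfl, cy4, eb⟩ := List.map_eq_cons_iff.1 eb
  obtain rfl := List.map_eq_nil_iff.1 eb
  have my0 : fn y0 ∈ B := sb.subset (by simp)
  have my1 : fn y1 ∈ B := sb.subset (by simp)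
  have my2 : fn y2 ∈ B := sb.subset (by simp)
  have my3 : fn y3 ∈ B := sb.subset (by simp)
  have my4 : fn y4 ∈ B := sb.subset (by simp)
  have hs : ([x0, y0, y1, y2, y3, y4].map fn).Sublist (W ++ B) := sa.append sb
  have hn := m.nd h.nd hs
  have hn2 := hs.nodup h.nd
  simp only [List.map_cons, List.map_nil, List.nodup_cons, List.mem_cons, List.not_mem_nil, or_false, not_or, not_false_eq_true,
    List.nodup_nil, and_true] at hn2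
  obtain ⟨⟨n0_1, n0_2, n0_3, n0_4, n0_5⟩, ⟨n1_2, n1_3, n1_4, n1_5⟩, ⟨n2_3, n2_4, n2_5⟩, ⟨n3_4, n3_5⟩, n4_5⟩ := hn2
  have ex0y0 : Y.G.Adj x0 y0 := (m.adj _ _).2 ((h.ax mx0 my0).2 (by simp [cx0, cy0, fp, fp]))
  have ex0y1 : Y.G.Adj x0 y1 := (m.adj _ _).2 ((h.ax mx0 my1).2 (by simp [cx0, cy1, fp, fp]))
  have ex0y2 : Y.G.Adj x0 y2 := (m.adj _ _).2 ((h.ax mx0 my2).2 (by simp [cx0, cy2, fp, fp]))
  have ex0y3 : Y.G.Adj x0 y3 := (m.adj _ _).2 ((h.ax mx0 my3).2 (by simp [cx0, cy3, fp, fp]))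
  have ex0y4 : Y.G.Adj x0 y4 := (m.adj _ _).2 ((h.ax mx0 my4).2 (by simp [cx0, cy4, fp, fp]))
  have ey0y1 : Y.G.Adj y0 y1 := (m.adj _ _).2 ((h.aB my0 my1 n1_2).2 (by simp [cy0, cy1, fp, fp]))
  have ey0y2 : ¬ Y.G.Adj y0 y2 := fun e => absurd ((h.aB my0 my2 n1_3).1 ((m.adj _ _).1 e)) (by simp [cy0, cy2, fp, fp])
  have ey0y3 : Y.G.Adj y0 y3 := (m.adj _ _).2 ((h.aB my0 my3 n1_4).2 (by simp [cy0, cy3, fp, fp]))
  have ey0y4 : ¬ Y.G.Adj y0 y4 := fun e => absurd ((h.aB my0 my4 n1_5).1 ((m.adj _ _).1 e)) (by simp [cy0, cy4, fp, fp])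
  have ey1y2 : Y.G.Adj y1 y2 := (m.adj _ _).2 ((h.aB my1 my2 n2_3).2 (by simp [cy1, cy2, fp, fp]))
  have ey1y3 : Y.G.Adj y1 y3 := (m.adj _ _).2 ((h.aB my1 my3 n2_4).2 (by simp [cy1, cy3, fp, fp]))
  have ey1y4 : Y.G.Adj y1 y4 := (m.adj _ _).2 ((h.aB my1 my4 n2_5).2 (by simp [cy1, cy4, fp, fp]))
  have ey2y3 : Y.G.Adj y2 y3 := (m.adj _ _).2 ((h.aB my2 my3 n3_4).2 (by simp [cy2, cy3, fp, fp]))
  have ey2y4 : ¬ Y.G.Adj y2 y4 := fun e => absurd ((h.aB my2 my4 n3_5).1 ((m.adj _ _).1 e)) (by simp [cy2, cy4, fp, fp])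
  have ey3y4 : Y.G.Adj y3 y4 := (m.adj _ _).2 ((h.aB my3 my4 n4_5).2 (by simp [cy3, cy4, fp, fp]))
  exact pA1 m.hq hn (m.sW _ mx0) (m.sB _ my0) (m.sB _ my1) (m.sB _ my2) (m.sB _ my3) (m.sB _ my4) ex0y0 ex0y1 ex0y2 ex0y3 ex0y4 ey0y1 ey0y2 ey0y3 ey0y4 ey1y2 ey1y3 ey1y4 ey2y3 ey2y4 ey3y4 (m.sub hs)

theorem pA2_w [DecidableEq V] {cl : V → Bool} (h : RW fp fp G W B cl)
    (h1 : [false].Sublist (W.map cl))
    (h2 : [true, false, true, false, true].Sublist (B.map cl)) : False := by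
  obtain ⟨U, fn, Y, m⟩ := mdl_ex h.nd h.vl
  obtain ⟨la, sa, ea⟩ := lift_pat m (D := W) (fun v hv => List.mem_append_left _ hv) h1
  obtain ⟨x0, la, rfl, cx0, ea⟩ := List.map_eq_cons_iff.1 ea
  obtain rfl := List.map_eq_nil_iff.1 ea
  have mx0 : fn x0 ∈ W := sa.subset (by simp)
  obtain ⟨lb, sb, eb⟩ := lift_pat m (D := B) (fun v hv => List.mem_append_right _ hv) h2
  obtain ⟨y0, lb, rfl, cy0, eb⟩ := List.map_eq_cons_iff.1 eb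
  obtain ⟨y1, lb, rfl, cy1, eb⟩ := List.map_eq_cons_iff.1 eb
  obtain ⟨y2, lb, rfl, cy2, eb⟩ := List.map_eq_cons_iff.1 eb
  obtain ⟨y3, lb, rfl, cy3, eb⟩ := List.map_eq_cons_iff.1 eb
  obtain ⟨y4, lb, rfl, cy4, eb⟩ := List.map_eq_cons_iff.1 eb
  obtain rfl := List.map_eq_nil_iff.1 eb
  have my0 : fn y0 ∈ B := sb.subset (by simp)
  have my1 : fn y1 ∈ B := sb.subset (by simp)
  have my2 : fn y2 ∈ B := sb.subset (by simp)
  have my3 : fn y3 ∈ B := sb.subset (by simp)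
  have my4 : fn y4 ∈ B := sb.subset (by simp)
  have hs : ([x0, y0, y1, y2, y3, y4].map fn).Sublist (W ++ B) := sa.append sb
  have hn := m.nd h.nd hs
  have hn2 := hs.nodup h.nd
  simp only [List.map_cons, List.map_nil, List.nodup_cons, List.mem_cons, List.not_mem_nil, or_false, not_or, not_false_eq_true,
    List.nodup_nil, and_true] at hn2
  obtain ⟨⟨n0_1, n0_2, n0_3, n0_4, n0_5⟩, ⟨n1_2, n1_3, n1_4, n1_5⟩, ⟨n2_3, n2_4, n2_5⟩, ⟨n3_4, n3_5⟩, n4_5⟩ := hn2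
  have ex0y0 : Y.G.Adj x0 y0 := (m.adj _ _).2 ((h.ax mx0 my0).2 (by simp [cx0, cy0, fp, fp]))
  have ex0y1 : ¬ Y.G.Adj x0 y1 := fun e => absurd ((h.ax mx0 my1).1 ((m.adj _ _).1 e)) (by simp [cx0, cy1, fp, fp])
  have ex0y2 : Y.G.Adj x0 y2 := (m.adj _ _).2 ((h.ax mx0 my2).2 (by simp [cx0, cy2, fp, fp]))
  have ex0y3 : ¬ Y.G.Adj x0 y3 := fun e => absurd ((h.ax mx0 my3).1 ((m.adj _ _).1 e)) (by simp [cx0, cy3, fp, fp])
  have ex0y4 : Y.G.Adj x0 y4 := (m.adj _ _).2 ((h.ax mx0 my4).2 (by simp [cx0, cy4, fp, fp]))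
  have ey0y1 : Y.G.Adj y0 y1 := (m.adj _ _).2 ((h.aB my0 my1 n1_2).2 (by simp [cy0, cy1, fp, fp]))
  have ey0y2 : Y.G.Adj y0 y2 := (m.adj _ _).2 ((h.aB my0 my2 n1_3).2 (by simp [cy0, cy2, fp, fp]))
  have ey0y3 : Y.G.Adj y0 y3 := (m.adj _ _).2 ((h.aB my0 my3 n1_4).2 (by simp [cy0, cy3, fp, fp]))
  have ey0y4 : Y.G.Adj y0 y4 := (m.adj _ _).2 ((h.aB my0 my4 n1_5).2 (by simp [cy0, cy4, fp, fp]))
  have ey1y2 : Y.G.Adj y1 y2 := (m.adj _ _).2 ((h.aB my1 my2 n2_3).2 (by simp [cy1, cy2, fp, fp]))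
  have ey1y3 : ¬ Y.G.Adj y1 y3 := fun e => absurd ((h.aB my1 my3 n2_4).1 ((m.adj _ _).1 e)) (by simp [cy1, cy3, fp, fp])
  have ey1y4 : Y.G.Adj y1 y4 := (m.adj _ _).2 ((h.aB my1 my4 n2_5).2 (by simp [cy1, cy4, fp, fp]))
  have ey2y3 : Y.G.Adj y2 y3 := (m.adj _ _).2 ((h.aB my2 my3 n3_4).2 (by simp [cy2, cy3, fp, fp]))
  have ey2y4 : Y.G.Adj y2 y4 := (m.adj _ _).2 ((h.aB my2 my4 n3_5).2 (by simp [cy2, cy4, fp, fp]))
  have ey3y4 : Y.G.Adj y3 y4 := (m.adj _ _).2 ((h.aB my3 my4 n4_5).2 (by simp [cy3, cy4, fp, fp]))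
  exact pA2 m.hq hn (m.sW _ mx0) (m.sB _ my0) (m.sB _ my1) (m.sB _ my2) (m.sB _ my3) (m.sB _ my4) ex0y0 ex0y1 ex0y2 ex0y3 ex0y4 ey0y1 ey0y2 ey0y3 ey0y4 ey1y2 ey1y3 ey1y4 ey2y3 ey2y4 ey3y4 (m.sub hs)

theorem pB_w [DecidableEq V] {cl : V → Bool} (h : RW fp fp G W B cl)
    (h1 : [true, false].Sublist (W.map cl))
    (h2 : [true, false, true, false].Sublist (B.map cl)) : False := by
  obtain ⟨U, fn, Y, m⟩ := mdl_ex h.nd h.vl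
  obtain ⟨la, sa, ea⟩ := lift_pat m (D := W) (fun v hv => List.mem_append_left _ hv) h1
  obtain ⟨x0, la, rfl, cx0, ea⟩ := List.map_eq_cons_iff.1 ea
  obtain ⟨x1, la, rfl, cx1, ea⟩ := List.map_eq_cons_iff.1 ea
  obtain rfl := List.map_eq_nil_iff.1 ea
  have mx0 : fn x0 ∈ W := sa.subset (by simp)
  have mx1 : fn x1 ∈ W := sa.subset (by simp)
  obtain ⟨lb, sb, eb⟩ := lift_pat m (D := B) (fun v hv => List.mem_append_right _ hv) h2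
  obtain ⟨y0, lb, rfl, cy0, eb⟩ := List.map_eq_cons_iff.1 eb
  obtain ⟨y1, lb, rfl, cy1, eb⟩ := List.map_eq_cons_iff.1 eb
  obtain ⟨y2, lb, rfl, cy2, eb⟩ := List.map_eq_cons_iff.1 eb
  obtain ⟨y3, lb, rfl, cy3, eb⟩ := List.map_eq_cons_iff.1 eb
  obtain rfl := List.map_eq_nil_iff.1 eb
  have my0 : fn y0 ∈ B := sb.subset (by simp)
  have my1 : fn y1 ∈ B := sb.subset (by simp)
  have my2 : fn y2 ∈ B := sb.subset (by simp)
  have my3 : fn y3 ∈ B := sb.subset (by simp)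
  have hs : ([x0, x1, y0, y1, y2, y3].map fn).Sublist (W ++ B) := sa.append sb
  have hn := m.nd h.nd hs
  have hn2 := hs.nodup h.nd
  simp only [List.map_cons, List.map_nil, List.nodup_cons, List.mem_cons, List.not_mem_nil, or_false, not_or, not_false_eq_true,
    List.nodup_nil, and_true] at hn2
  obtain ⟨⟨n0_1, n0_2, n0_3, n0_4, n0_5⟩, ⟨n1_2, n1_3, n1_4, n1_5⟩, ⟨n2_3, n2_4, n2_5⟩, ⟨n3_4, n3_5⟩, n4_5⟩ := hn2
  have ex0x1 : Y.G.Adj x0 x1 := (m.adj _ _).2 ((h.aW mx0 mx1 n0_1).2 (by simp [cx0, cx1, fp, fp]))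
  have ex0y0 : Y.G.Adj x0 y0 := (m.adj _ _).2 ((h.ax mx0 my0).2 (by simp [cx0, cy0, fp, fp]))
  have ex0y1 : Y.G.Adj x0 y1 := (m.adj _ _).2 ((h.ax mx0 my1).2 (by simp [cx0, cy1, fp, fp]))
  have ex0y2 : Y.G.Adj x0 y2 := (m.adj _ _).2 ((h.ax mx0 my2).2 (by simp [cx0, cy2, fp, fp]))
  have ex0y3 : Y.G.Adj x0 y3 := (m.adj _ _).2 ((h.ax mx0 my3).2 (by simp [cx0, cy3, fp, fp]))
  have ex1y0 : Y.G.Adj x1 y0 := (m.adj _ _).2 ((h.ax mx1 my0).2 (by simp [cx1, cy0, fp, fp]))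
  have ex1y1 : ¬ Y.G.Adj x1 y1 := fun e => absurd ((h.ax mx1 my1).1 ((m.adj _ _).1 e)) (by simp [cx1, cy1, fp, fp])
  have ex1y2 : Y.G.Adj x1 y2 := (m.adj _ _).2 ((h.ax mx1 my2).2 (by simp [cx1, cy2, fp, fp]))
  have ex1y3 : ¬ Y.G.Adj x1 y3 := fun e => absurd ((h.ax mx1 my3).1 ((m.adj _ _).1 e)) (by simp [cx1, cy3, fp, fp])
  have ey0y1 : Y.G.Adj y0 y1 := (m.adj _ _).2 ((h.aB my0 my1 n2_3).2 (by simp [cy0, cy1, fp, fp]))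
  have ey0y2 : Y.G.Adj y0 y2 := (m.adj _ _).2 ((h.aB my0 my2 n2_4).2 (by simp [cy0, cy2, fp, fp]))
  have ey0y3 : Y.G.Adj y0 y3 := (m.adj _ _).2 ((h.aB my0 my3 n2_5).2 (by simp [cy0, cy3, fp, fp]))
  have ey1y2 : Y.G.Adj y1 y2 := (m.adj _ _).2 ((h.aB my1 my2 n3_4).2 (by simp [cy1, cy2, fp, fp]))
  have ey1y3 : ¬ Y.G.Adj y1 y3 := fun e => absurd ((h.aB my1 my3 n3_5).1 ((m.adj _ _).1 e)) (by simp [cy1, cy3, fp, fp])
  have ey2y3 : Y.G.Adj y2 y3 := (m.adj _ _).2 ((h.aB my2 my3 n4_5).2 (by simp [cy2, cy3, fp, fp]))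
  exact pB m.hq hn (m.sW _ mx0) (m.sW _ mx1) (m.sB _ my0) (m.sB _ my1) (m.sB _ my2) (m.sB _ my3) ex0x1 ex0y0 ex0y1 ex0y2 ex0y3 ex1y0 ex1y1 ex1y2 ex1y3 ey0y1 ey0y2 ey0y3 ey1y2 ey1y3 ey2y3 (m.sub hs)

theorem pBm_w [DecidableEq V] {cl : V → Bool} (h : RW fp fp G W B cl)
    (h1 : [false, true].Sublist (W.map cl))
    (h2 : [false, true, false, true].Sublist (B.map cl)) : False := by
  obtain ⟨U, fn, Y, m⟩ := mdl_ex h.nd h.vl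
  obtain ⟨la, sa, ea⟩ := lift_pat m (D := W) (fun v hv => List.mem_append_left _ hv) h1
  obtain ⟨x0, la, rfl, cx0, ea⟩ := List.map_eq_cons_iff.1 ea
  obtain ⟨x1, la, rfl, cx1, ea⟩ := List.map_eq_cons_iff.1 ea
  obtain rfl := List.map_eq_nil_iff.1 ea
  have mx0 : fn x0 ∈ W := sa.subset (by simp)
  have mx1 : fn x1 ∈ W := sa.subset (by simp)
  obtain ⟨lb, sb, eb⟩ := lift_pat m (D := B) (fun v hv => List.mem_append_right _ hv) h2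
  obtain ⟨y0, lb, rfl, cy0, eb⟩ := List.map_eq_cons_iff.1 eb
  obtain ⟨y1, lb, rfl, cy1, eb⟩ := List.map_eq_cons_iff.1 eb
  obtain ⟨y2, lb, rfl, cy2, eb⟩ := List.map_eq_cons_iff.1 eb
  obtain ⟨y3, lb, rfl, cy3, eb⟩ := List.map_eq_cons_iff.1 eb
  obtain rfl := List.map_eq_nil_iff.1 eb
  have my0 : fn y0 ∈ B := sb.subset (by simp)
  have my1 : fn y1 ∈ B := sb.subset (by simp)
  have my2 : fn y2 ∈ B := sb.subset (by simp)
  have my3 : fn y3 ∈ B := sb.subset (by simp)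
  have hs : ([x0, x1, y0, y1, y2, y3].map fn).Sublist (W ++ B) := sa.append sb
  have hn := m.nd h.nd hs
  have hn2 := hs.nodup h.nd
  simp only [List.map_cons, List.map_nil, List.nodup_cons, List.mem_cons, List.not_mem_nil, or_false, not_or, not_false_eq_true,
    List.nodup_nil, and_true] at hn2
  obtain ⟨⟨n0_1, n0_2, n0_3, n0_4, n0_5⟩, ⟨n1_2, n1_3, n1_4, n1_5⟩, ⟨n2_3, n2_4, n2_5⟩, ⟨n3_4, n3_5⟩, n4_5⟩ := hn2
  have ex0x1 : Y.G.Adj x0 x1 := (m.adj _ _).2 ((h.aW mx0 mx1 n0_1).2 (by simp [cx0, cx1, fp, fp]))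
  have ex0y0 : ¬ Y.G.Adj x0 y0 := fun e => absurd ((h.ax mx0 my0).1 ((m.adj _ _).1 e)) (by simp [cx0, cy0, fp, fp])
  have ex0y1 : Y.G.Adj x0 y1 := (m.adj _ _).2 ((h.ax mx0 my1).2 (by simp [cx0, cy1, fp, fp]))
  have ex0y2 : ¬ Y.G.Adj x0 y2 := fun e => absurd ((h.ax mx0 my2).1 ((m.adj _ _).1 e)) (by simp [cx0, cy2, fp, fp])
  have ex0y3 : Y.G.Adj x0 y3 := (m.adj _ _).2 ((h.ax mx0 my3).2 (by simp [cx0, cy3, fp, fp]))
  have ex1y0 : Y.G.Adj x1 y0 := (m.adj _ _).2 ((h.ax mx1 my0).2 (by simp [cx1, cy0, fp, fp]))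
  have ex1y1 : Y.G.Adj x1 y1 := (m.adj _ _).2 ((h.ax mx1 my1).2 (by simp [cx1, cy1, fp, fp]))
  have ex1y2 : Y.G.Adj x1 y2 := (m.adj _ _).2 ((h.ax mx1 my2).2 (by simp [cx1, cy2, fp, fp]))
  have ex1y3 : Y.G.Adj x1 y3 := (m.adj _ _).2 ((h.ax mx1 my3).2 (by simp [cx1, cy3, fp, fp]))
  have ey0y1 : Y.G.Adj y0 y1 := (m.adj _ _).2 ((h.aB my0 my1 n2_3).2 (by simp [cy0, cy1, fp, fp]))
  have ey0y2 : ¬ Y.G.Adj y0 y2 := fun e => absurd ((h.aB my0 my2 n2_4).1 ((m.adj _ _).1 e)) (by simp [cy0, cy2, fp, fp])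
  have ey0y3 : Y.G.Adj y0 y3 := (m.adj _ _).2 ((h.aB my0 my3 n2_5).2 (by simp [cy0, cy3, fp, fp]))
  have ey1y2 : Y.G.Adj y1 y2 := (m.adj _ _).2 ((h.aB my1 my2 n3_4).2 (by simp [cy1, cy2, fp, fp]))
  have ey1y3 : Y.G.Adj y1 y3 := (m.adj _ _).2 ((h.aB my1 my3 n3_5).2 (by simp [cy1, cy3, fp, fp]))
  have ey2y3 : Y.G.Adj y2 y3 := (m.adj _ _).2 ((h.aB my2 my3 n4_5).2 (by simp [cy2, cy3, fp, fp]))
  exact pBm m.hq hn (m.sW _ mx0) (m.sW _ mx1) (m.sB _ my0) (m.sB _ my1) (m.sB _ my2) (m.sB _ my3) ex0x1 ex0y0 ex0y1 ex0y2 ex0y3 ex1y0 ex1y1 ex1y2 ex1y3 ey0y1 ey0y2 ey0y3 ey1y2 ey1y3 ey2y3 (m.sub hs)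

theorem pC1_w [DecidableEq V] {cl : V → Bool} (h : RW fp fp G W B cl)
    (h1 : [false, true, false].Sublist (W.map cl))
    (h2 : [true, false, true].Sublist (B.map cl)) : False := by
  obtain ⟨U, fn, Y, m⟩ := mdl_ex h.nd h.vl
  obtain ⟨la, sa, ea⟩ := lift_pat m (D := W) (fun v hv => List.mem_append_left _ hv) h1
  obtain ⟨x0, la, rfl, cx0, ea⟩ := List.map_eq_cons_iff.1 ea
  obtain ⟨x1, la, rfl, cx1, ea⟩ := List.map_eq_cons_iff.1 ea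
  obtain ⟨x2, la, rfl, cx2, ea⟩ := List.map_eq_cons_iff.1 ea
  obtain rfl := List.map_eq_nil_iff.1 ea
  have mx0 : fn x0 ∈ W := sa.subset (by simp)
  have mx1 : fn x1 ∈ W := sa.subset (by simp)
  have mx2 : fn x2 ∈ W := sa.subset (by simp)
  obtain ⟨lb, sb, eb⟩ := lift_pat m (D := B) (fun v hv => List.mem_append_right _ hv) h2
  obtain ⟨y0, lb, rfl, cy0, eb⟩ := List.map_eq_cons_iff.1 eb
  obtain ⟨y1, lb, rfl, cy1, eb⟩ := List.map_eq_cons_iff.1 eb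
  obtain ⟨y2, lb, rfl, cy2, eb⟩ := List.map_eq_cons_iff.1 eb
  obtain rfl := List.map_eq_nil_iff.1 eb
  have my0 : fn y0 ∈ B := sb.subset (by simp)
  have my1 : fn y1 ∈ B := sb.subset (by simp)
  have my2 : fn y2 ∈ B := sb.subset (by simp)
  have hs : ([x0, x1, x2, y0, y1, y2].map fn).Sublist (W ++ B) := sa.append sb
  have hn := m.nd h.nd hs
  have hn2 := hs.nodup h.nd
  simp only [List.map_cons, List.map_nil, List.nodup_cons, List.mem_cons, List.not_mem_nil, or_false, not_or, not_false_eq_true,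
    List.nodup_nil, and_true] at hn2
  obtain ⟨⟨n0_1, n0_2, n0_3, n0_4, n0_5⟩, ⟨n1_2, n1_3, n1_4, n1_5⟩, ⟨n2_3, n2_4, n2_5⟩, ⟨n3_4, n3_5⟩, n4_5⟩ := hn2
  have ex0x1 : Y.G.Adj x0 x1 := (m.adj _ _).2 ((h.aW mx0 mx1 n0_1).2 (by simp [cx0, cx1, fp, fp]))
  have ex0x2 : ¬ Y.G.Adj x0 x2 := fun e => absurd ((h.aW mx0 mx2 n0_2).1 ((m.adj _ _).1 e)) (by simp [cx0, cx2, fp, fp])
  have ex0y0 : Y.G.Adj x0 y0 := (m.adj _ _).2 ((h.ax mx0 my0).2 (by simp [cx0, cy0, fp, fp]))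
  have ex0y1 : ¬ Y.G.Adj x0 y1 := fun e => absurd ((h.ax mx0 my1).1 ((m.adj _ _).1 e)) (by simp [cx0, cy1, fp, fp])
  have ex0y2 : Y.G.Adj x0 y2 := (m.adj _ _).2 ((h.ax mx0 my2).2 (by simp [cx0, cy2, fp, fp]))
  have ex1x2 : Y.G.Adj x1 x2 := (m.adj _ _).2 ((h.aW mx1 mx2 n1_2).2 (by simp [cx1, cx2, fp, fp]))
  have ex1y0 : Y.G.Adj x1 y0 := (m.adj _ _).2 ((h.ax mx1 my0).2 (by simp [cx1, cy0, fp, fp]))
  have ex1y1 : Y.G.Adj x1 y1 := (m.adj _ _).2 ((h.ax mx1 my1).2 (by simp [cx1, cy1, fp, fp]))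
  have ex1y2 : Y.G.Adj x1 y2 := (m.adj _ _).2 ((h.ax mx1 my2).2 (by simp [cx1, cy2, fp, fp]))
  have ex2y0 : Y.G.Adj x2 y0 := (m.adj _ _).2 ((h.ax mx2 my0).2 (by simp [cx2, cy0, fp, fp]))
  have ex2y1 : ¬ Y.G.Adj x2 y1 := fun e => absurd ((h.ax mx2 my1).1 ((m.adj _ _).1 e)) (by simp [cx2, cy1, fp, fp])
  have ex2y2 : Y.G.Adj x2 y2 := (m.adj _ _).2 ((h.ax mx2 my2).2 (by simp [cx2, cy2, fp, fp]))
  have ey0y1 : Y.G.Adj y0 y1 := (m.adj _ _).2 ((h.aB my0 my1 n3_4).2 (by simp [cy0, cy1, fp, fp]))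
  have ey0y2 : Y.G.Adj y0 y2 := (m.adj _ _).2 ((h.aB my0 my2 n3_5).2 (by simp [cy0, cy2, fp, fp]))
  have ey1y2 : Y.G.Adj y1 y2 := (m.adj _ _).2 ((h.aB my1 my2 n4_5).2 (by simp [cy1, cy2, fp, fp]))
  exact pC1 m.hq hn (m.sW _ mx0) (m.sW _ mx1) (m.sW _ mx2) (m.sB _ my0) (m.sB _ my1) (m.sB _ my2) ex0x1 ex0x2 ex0y0 ex0y1 ex0y2 ex1x2 ex1y0 ex1y1 ex1y2 ex2y0 ex2y1 ex2y2 ey0y1 ey0y2 ey1y2 (m.sub hs)

theorem pC2_w [DecidableEq V] {cl : V → Bool} (h : RW fp fp G W B cl)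
    (h1 : [true, false, true].Sublist (W.map cl))
    (h2 : [false, true, false].Sublist (B.map cl)) : False := by
  obtain ⟨U, fn, Y, m⟩ := mdl_ex h.nd h.vl
  obtain ⟨la, sa, ea⟩ := lift_pat m (D := W) (fun v hv => List.mem_append_left _ hv) h1
  obtain ⟨x0, la, rfl, cx0, ea⟩ := List.map_eq_cons_iff.1 ea
  obtain ⟨x1, la, rfl, cx1, ea⟩ := List.map_eq_cons_iff.1 ea
  obtain ⟨x2, la, rfl, cx2, ea⟩ := List.map_eq_cons_iff.1 ea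
  obtain rfl := List.map_eq_nil_iff.1 ea
  have mx0 : fn x0 ∈ W := sa.subset (by simp)
  have mx1 : fn x1 ∈ W := sa.subset (by simp)
  have mx2 : fn x2 ∈ W := sa.subset (by simp)
  obtain ⟨lb, sb, eb⟩ := lift_pat m (D := B) (fun v hv => List.mem_append_right _ hv) h2
  obtain ⟨y0, lb, rfl, cy0, eb⟩ := List.map_eq_cons_iff.1 eb
  obtain ⟨y1, lb, rfl, cy1, eb⟩ := List.map_eq_cons_iff.1 eb
  obtain ⟨y2, lb, rfl, cy2, eb⟩ := List.map_eq_cons_iff.1 eb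
  obtain rfl := List.map_eq_nil_iff.1 eb
  have my0 : fn y0 ∈ B := sb.subset (by simp)
  have my1 : fn y1 ∈ B := sb.subset (by simp)
  have my2 : fn y2 ∈ B := sb.subset (by simp)
  have hs : ([x0, x1, x2, y0, y1, y2].map fn).Sublist (W ++ B) := sa.append sb
  have hn := m.nd h.nd hs
  have hn2 := hs.nodup h.nd
  simp only [List.map_cons, List.map_nil, List.nodup_cons, List.mem_cons, List.not_mem_nil, or_false, not_or, not_false_eq_true,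
    List.nodup_nil, and_true] at hn2
  obtain ⟨⟨n0_1, n0_2, n0_3, n0_4, n0_5⟩, ⟨n1_2, n1_3, n1_4, n1_5⟩, ⟨n2_3, n2_4, n2_5⟩, ⟨n3_4, n3_5⟩, n4_5⟩ := hn2
  have ex0x1 : Y.G.Adj x0 x1 := (m.adj _ _).2 ((h.aW mx0 mx1 n0_1).2 (by simp [cx0, cx1, fp, fp]))
  have ex0x2 : Y.G.Adj x0 x2 := (m.adj _ _).2 ((h.aW mx0 mx2 n0_2).2 (by simp [cx0, cx2, fp, fp]))
  have ex0y0 : Y.G.Adj x0 y0 := (m.adj _ _).2 ((h.ax mx0 my0).2 (by simp [cx0, cy0, fp, fp]))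
  have ex0y1 : Y.G.Adj x0 y1 := (m.adj _ _).2 ((h.ax mx0 my1).2 (by simp [cx0, cy1, fp, fp]))
  have ex0y2 : Y.G.Adj x0 y2 := (m.adj _ _).2 ((h.ax mx0 my2).2 (by simp [cx0, cy2, fp, fp]))
  have ex1x2 : Y.G.Adj x1 x2 := (m.adj _ _).2 ((h.aW mx1 mx2 n1_2).2 (by simp [cx1, cx2, fp, fp]))
  have ex1y0 : ¬ Y.G.Adj x1 y0 := fun e => absurd ((h.ax mx1 my0).1 ((m.adj _ _).1 e)) (by simp [cx1, cy0, fp, fp])
  have ex1y1 : Y.G.Adj x1 y1 := (m.adj _ _).2 ((h.ax mx1 my1).2 (by simp [cx1, cy1, fp, fp]))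
  have ex1y2 : ¬ Y.G.Adj x1 y2 := fun e => absurd ((h.ax mx1 my2).1 ((m.adj _ _).1 e)) (by simp [cx1, cy2, fp, fp])
  have ex2y0 : Y.G.Adj x2 y0 := (m.adj _ _).2 ((h.ax mx2 my0).2 (by simp [cx2, cy0, fp, fp]))
  have ex2y1 : Y.G.Adj x2 y1 := (m.adj _ _).2 ((h.ax mx2 my1).2 (by simp [cx2, cy1, fp, fp]))
  have ex2y2 : Y.G.Adj x2 y2 := (m.adj _ _).2 ((h.ax mx2 my2).2 (by simp [cx2, cy2, fp, fp]))
  have ey0y1 : Y.G.Adj y0 y1 := (m.adj _ _).2 ((h.aB my0 my1 n3_4).2 (by simp [cy0, cy1, fp, fp]))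
  have ey0y2 : ¬ Y.G.Adj y0 y2 := fun e => absurd ((h.aB my0 my2 n3_5).1 ((m.adj _ _).1 e)) (by simp [cy0, cy2, fp, fp])
  have ey1y2 : Y.G.Adj y1 y2 := (m.adj _ _).2 ((h.aB my1 my2 n4_5).2 (by simp [cy1, cy2, fp, fp]))
  exact pC2 m.hq hn (m.sW _ mx0) (m.sW _ mx1) (m.sW _ mx2) (m.sB _ my0) (m.sB _ my1) (m.sB _ my2) ex0x1 ex0x2 ex0y0 ex0y1 ex0y2 ex1x2 ex1y0 ex1y1 ex1y2 ex2y0 ex2y1 ex2y2 ey0y1 ey0y2 ey1y2 (m.sub hs)

theorem kA_w [DecidableEq V] {cl : V → Bool} (h : RW fk gk G W B cl)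
    (h1 : [true].Sublist (W.map cl))
    (h2 : [true, false, true, false, true].Sublist (B.map cl)) : False := by
  obtain ⟨U, fn, Y, m⟩ := mdl_ex h.nd h.vl
  obtain ⟨la, sa, ea⟩ := lift_pat m (D := W) (fun v hv => List.mem_append_left _ hv) h1
  obtain ⟨x0, la, rfl, cx0, ea⟩ := List.map_eq_cons_iff.1 ea
  obtain rfl := List.map_eq_nil_iff.1 ea
  have mx0 : fn x0 ∈ W := sa.subset (by simp)
  obtain ⟨lb, sb, eb⟩ := lift_pat m (D := B) (fun v hv => List.mem_append_right _ hv) h2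
  obtain ⟨y0, lb, rfl, cy0, eb⟩ := List.map_eq_cons_iff.1 eb
  obtain ⟨y1, lb, rfl, cy1, eb⟩ := List.map_eq_cons_iff.1 eb
  obtain ⟨y2, lb, rfl, cy2, eb⟩ := List.map_eq_cons_iff.1 eb
  obtain ⟨y3, lb, rfl, cy3, eb⟩ := List.map_eq_cons_iff.1 eb
  obtain ⟨y4, lb, rfl, cy4, eb⟩ := List.map_eq_cons_iff.1 eb
  obtain rfl := List.map_eq_nil_iff.1 eb
  have my0 : fn y0 ∈ B := sb.subset (by simp)
  have my1 : fn y1 ∈ B := sb.subset (by simp)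
  have my2 : fn y2 ∈ B := sb.subset (by simp)
  have my3 : fn y3 ∈ B := sb.subset (by simp)
  have my4 : fn y4 ∈ B := sb.subset (by simp)
  have hs : ([x0, y0, y1, y2, y3, y4].map fn).Sublist (W ++ B) := sa.append sb
  have hn := m.nd h.nd hs
  have hn2 := hs.nodup h.nd
  simp only [List.map_cons, List.map_nil, List.nodup_cons, List.mem_cons, List.not_mem_nil, or_false, not_or, not_false_eq_true,
    List.nodup_nil, and_true] at hn2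
  obtain ⟨⟨n0_1, n0_2, n0_3, n0_4, n0_5⟩, ⟨n1_2, n1_3, n1_4, n1_5⟩, ⟨n2_3, n2_4, n2_5⟩, ⟨n3_4, n3_5⟩, n4_5⟩ := hn2
  have ex0y0 : Y.G.Adj x0 y0 := (m.adj _ _).2 ((h.ax mx0 my0).2 (by simp [cx0, cy0, fk, gk]))
  have ex0y1 : ¬ Y.G.Adj x0 y1 := fun e => absurd ((h.ax mx0 my1).1 ((m.adj _ _).1 e)) (by simp [cx0, cy1, fk, gk])
  have ex0y2 : Y.G.Adj x0 y2 := (m.adj _ _).2 ((h.ax mx0 my2).2 (by simp [cx0, cy2, fk, gk]))
  have ex0y3 : ¬ Y.G.Adj x0 y3 := fun e => absurd ((h.ax mx0 my3).1 ((m.adj _ _).1 e)) (by simp [cx0, cy3, fk, gk])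
  have ex0y4 : Y.G.Adj x0 y4 := (m.adj _ _).2 ((h.ax mx0 my4).2 (by simp [cx0, cy4, fk, gk]))
  have ey0y1 : Y.G.Adj y0 y1 := (m.adj _ _).2 ((h.aB my0 my1 n1_2).2 (by simp [cy0, cy1, fk, gk]))
  have ey0y2 : ¬ Y.G.Adj y0 y2 := fun e => absurd ((h.aB my0 my2 n1_3).1 ((m.adj _ _).1 e)) (by simp [cy0, cy2, fk, gk])
  have ey0y3 : Y.G.Adj y0 y3 := (m.adj _ _).2 ((h.aB my0 my3 n1_4).2 (by simp [cy0, cy3, fk, gk]))
  have ey0y4 : ¬ Y.G.Adj y0 y4 := fun e => absurd ((h.aB my0 my4 n1_5).1 ((m.adj _ _).1 e)) (by simp [cy0, cy4, fk, gk])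
  have ey1y2 : Y.G.Adj y1 y2 := (m.adj _ _).2 ((h.aB my1 my2 n2_3).2 (by simp [cy1, cy2, fk, gk]))
  have ey1y3 : ¬ Y.G.Adj y1 y3 := fun e => absurd ((h.aB my1 my3 n2_4).1 ((m.adj _ _).1 e)) (by simp [cy1, cy3, fk, gk])
  have ey1y4 : Y.G.Adj y1 y4 := (m.adj _ _).2 ((h.aB my1 my4 n2_5).2 (by simp [cy1, cy4, fk, gk]))
  have ey2y3 : Y.G.Adj y2 y3 := (m.adj _ _).2 ((h.aB my2 my3 n3_4).2 (by simp [cy2, cy3, fk, gk]))
  have ey2y4 : ¬ Y.G.Adj y2 y4 := fun e => absurd ((h.aB my2 my4 n3_5).1 ((m.adj _ _).1 e)) (by simp [cy2, cy4, fk, gk])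
  have ey3y4 : Y.G.Adj y3 y4 := (m.adj _ _).2 ((h.aB my3 my4 n4_5).2 (by simp [cy3, cy4, fk, gk]))
  exact kA m.hq hn (m.sW _ mx0) (m.sB _ my0) (m.sB _ my1) (m.sB _ my2) (m.sB _ my3) (m.sB _ my4) ex0y0 ex0y1 ex0y2 ex0y3 ex0y4 ey0y1 ey0y2 ey0y3 ey0y4 ey1y2 ey1y3 ey1y4 ey2y3 ey2y4 ey3y4 (m.sub hs)

theorem kB_w [DecidableEq V] {cl : V → Bool} (h : RW fk gk G W B cl)
    (h1 : [true, false].Sublist (W.map cl))
    (h2 : [false, true, false, true].Sublist (B.map cl)) : False := by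
  obtain ⟨U, fn, Y, m⟩ := mdl_ex h.nd h.vl
  obtain ⟨la, sa, ea⟩ := lift_pat m (D := W) (fun v hv => List.mem_append_left _ hv) h1
  obtain ⟨x0, la, rfl, cx0, ea⟩ := List.map_eq_cons_iff.1 ea
  obtain ⟨x1, la, rfl, cx1, ea⟩ := List.map_eq_cons_iff.1 ea
  obtain rfl := List.map_eq_nil_iff.1 ea
  have mx0 : fn x0 ∈ W := sa.subset (by simp)
  have mx1 : fn x1 ∈ W := sa.subset (by simp)
  obtain ⟨lb, sb, eb⟩ := lift_pat m (D := B) (fun v hv => List.mem_append_right _ hv) h2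
  obtain ⟨y0, lb, rfl, cy0, eb⟩ := List.map_eq_cons_iff.1 eb
  obtain ⟨y1, lb, rfl, cy1, eb⟩ := List.map_eq_cons_iff.1 eb
  obtain ⟨y2, lb, rfl, cy2, eb⟩ := List.map_eq_cons_iff.1 eb
  obtain ⟨y3, lb, rfl, cy3, eb⟩ := List.map_eq_cons_iff.1 eb
  obtain rfl := List.map_eq_nil_iff.1 eb
  have my0 : fn y0 ∈ B := sb.subset (by simp)
  have my1 : fn y1 ∈ B := sb.subset (by simp)
  have my2 : fn y2 ∈ B := sb.subset (by simp)
  have my3 : fn y3 ∈ B := sb.subset (by simp)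
  have hs : ([x0, x1, y0, y1, y2, y3].map fn).Sublist (W ++ B) := sa.append sb
  have hn := m.nd h.nd hs
  have hn2 := hs.nodup h.nd
  simp only [List.map_cons, List.map_nil, List.nodup_cons, List.mem_cons, List.not_mem_nil, or_false, not_or, not_false_eq_true,
    List.nodup_nil, and_true] at hn2
  obtain ⟨⟨n0_1, n0_2, n0_3, n0_4, n0_5⟩, ⟨n1_2, n1_3, n1_4, n1_5⟩, ⟨n2_3, n2_4, n2_5⟩, ⟨n3_4, n3_5⟩, n4_5⟩ := hn2
  have ex0x1 : Y.G.Adj x0 x1 := (m.adj _ _).2 ((h.aW mx0 mx1 n0_1).2 (by simp [cx0, cx1, fk, gk]))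
  have ex0y0 : ¬ Y.G.Adj x0 y0 := fun e => absurd ((h.ax mx0 my0).1 ((m.adj _ _).1 e)) (by simp [cx0, cy0, fk, gk])
  have ex0y1 : Y.G.Adj x0 y1 := (m.adj _ _).2 ((h.ax mx0 my1).2 (by simp [cx0, cy1, fk, gk]))
  have ex0y2 : ¬ Y.G.Adj x0 y2 := fun e => absurd ((h.ax mx0 my2).1 ((m.adj _ _).1 e)) (by simp [cx0, cy2, fk, gk])
  have ex0y3 : Y.G.Adj x0 y3 := (m.adj _ _).2 ((h.ax mx0 my3).2 (by simp [cx0, cy3, fk, gk]))
  have ex1y0 : Y.G.Adj x1 y0 := (m.adj _ _).2 ((h.ax mx1 my0).2 (by simp [cx1, cy0, fk, gk]))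
  have ex1y1 : ¬ Y.G.Adj x1 y1 := fun e => absurd ((h.ax mx1 my1).1 ((m.adj _ _).1 e)) (by simp [cx1, cy1, fk, gk])
  have ex1y2 : Y.G.Adj x1 y2 := (m.adj _ _).2 ((h.ax mx1 my2).2 (by simp [cx1, cy2, fk, gk]))
  have ex1y3 : ¬ Y.G.Adj x1 y3 := fun e => absurd ((h.ax mx1 my3).1 ((m.adj _ _).1 e)) (by simp [cx1, cy3, fk, gk])
  have ey0y1 : Y.G.Adj y0 y1 := (m.adj _ _).2 ((h.aB my0 my1 n2_3).2 (by simp [cy0, cy1, fk, gk]))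
  have ey0y2 : ¬ Y.G.Adj y0 y2 := fun e => absurd ((h.aB my0 my2 n2_4).1 ((m.adj _ _).1 e)) (by simp [cy0, cy2, fk, gk])
  have ey0y3 : Y.G.Adj y0 y3 := (m.adj _ _).2 ((h.aB my0 my3 n2_5).2 (by simp [cy0, cy3, fk, gk]))
  have ey1y2 : Y.G.Adj y1 y2 := (m.adj _ _).2 ((h.aB my1 my2 n3_4).2 (by simp [cy1, cy2, fk, gk]))
  have ey1y3 : ¬ Y.G.Adj y1 y3 := fun e => absurd ((h.aB my1 my3 n3_5).1 ((m.adj _ _).1 e)) (by simp [cy1, cy3, fk, gk])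
  have ey2y3 : Y.G.Adj y2 y3 := (m.adj _ _).2 ((h.aB my2 my3 n4_5).2 (by simp [cy2, cy3, fk, gk]))
  exact kB m.hq hn (m.sW _ mx0) (m.sW _ mx1) (m.sB _ my0) (m.sB _ my1) (m.sB _ my2) (m.sB _ my3) ex0x1 ex0y0 ex0y1 ex0y2 ex0y3 ex1y0 ex1y1 ex1y2 ex1y3 ey0y1 ey0y2 ey0y3 ey1y2 ey1y3 ey2y3 (m.sub hs)

theorem kC_w [DecidableEq V] {cl : V → Bool} (h : RW fk gk G W B cl)
    (h1 : [true, false, true].Sublist (W.map cl))
    (h2 : [true, false, true].Sublist (B.map cl)) : False := by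
  obtain ⟨U, fn, Y, m⟩ := mdl_ex h.nd h.vl
  obtain ⟨la, sa, ea⟩ := lift_pat m (D := W) (fun v hv => List.mem_append_left _ hv) h1
  obtain ⟨x0, la, rfl, cx0, ea⟩ := List.map_eq_cons_iff.1 ea
  obtain ⟨x1, la, rfl, cx1, ea⟩ := List.map_eq_cons_iff.1 ea
  obtain ⟨x2, la, rfl, cx2, ea⟩ := List.map_eq_cons_iff.1 ea
  obtain rfl := List.map_eq_nil_iff.1 ea
  have mx0 : fn x0 ∈ W := sa.subset (by simp)
  have mx1 : fn x1 ∈ W := sa.subset (by simp)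
  have mx2 : fn x2 ∈ W := sa.subset (by simp)
  obtain ⟨lb, sb, eb⟩ := lift_pat m (D := B) (fun v hv => List.mem_append_right _ hv) h2
  obtain ⟨y0, lb, rfl, cy0, eb⟩ := List.map_eq_cons_iff.1 eb
  obtain ⟨y1, lb, rfl, cy1, eb⟩ := List.map_eq_cons_iff.1 eb
  obtain ⟨y2, lb, rfl, cy2, eb⟩ := List.map_eq_cons_iff.1 eb
  obtain rfl := List.map_eq_nil_iff.1 eb
  have my0 : fn y0 ∈ B := sb.subset (by simp)
  have my1 : fn y1 ∈ B := sb.subset (by simp)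
  have my2 : fn y2 ∈ B := sb.subset (by simp)
  have hs : ([x0, x1, x2, y0, y1, y2].map fn).Sublist (W ++ B) := sa.append sb
  have hn := m.nd h.nd hs
  have hn2 := hs.nodup h.nd
  simp only [List.map_cons, List.map_nil, List.nodup_cons, List.mem_cons, List.not_mem_nil, or_false, not_or, not_false_eq_true,
    List.nodup_nil, and_true] at hn2
  obtain ⟨⟨n0_1, n0_2, n0_3, n0_4, n0_5⟩, ⟨n1_2, n1_3, n1_4, n1_5⟩, ⟨n2_3, n2_4, n2_5⟩, ⟨n3_4, n3_5⟩, n4_5⟩ := hn2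
  have ex0x1 : Y.G.Adj x0 x1 := (m.adj _ _).2 ((h.aW mx0 mx1 n0_1).2 (by simp [cx0, cx1, fk, gk]))
  have ex0x2 : ¬ Y.G.Adj x0 x2 := fun e => absurd ((h.aW mx0 mx2 n0_2).1 ((m.adj _ _).1 e)) (by simp [cx0, cx2, fk, gk])
  have ex0y0 : Y.G.Adj x0 y0 := (m.adj _ _).2 ((h.ax mx0 my0).2 (by simp [cx0, cy0, fk, gk]))
  have ex0y1 : ¬ Y.G.Adj x0 y1 := fun e => absurd ((h.ax mx0 my1).1 ((m.adj _ _).1 e)) (by simp [cx0, cy1, fk, gk])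
  have ex0y2 : Y.G.Adj x0 y2 := (m.adj _ _).2 ((h.ax mx0 my2).2 (by simp [cx0, cy2, fk, gk]))
  have ex1x2 : Y.G.Adj x1 x2 := (m.adj _ _).2 ((h.aW mx1 mx2 n1_2).2 (by simp [cx1, cx2, fk, gk]))
  have ex1y0 : ¬ Y.G.Adj x1 y0 := fun e => absurd ((h.ax mx1 my0).1 ((m.adj _ _).1 e)) (by simp [cx1, cy0, fk, gk])
  have ex1y1 : Y.G.Adj x1 y1 := (m.adj _ _).2 ((h.ax mx1 my1).2 (by simp [cx1, cy1, fk, gk]))
  have ex1y2 : ¬ Y.G.Adj x1 y2 := fun e => absurd ((h.ax mx1 my2).1 ((m.adj _ _).1 e)) (by simp [cx1, cy2, fk, gk])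
  have ex2y0 : Y.G.Adj x2 y0 := (m.adj _ _).2 ((h.ax mx2 my0).2 (by simp [cx2, cy0, fk, gk]))
  have ex2y1 : ¬ Y.G.Adj x2 y1 := fun e => absurd ((h.ax mx2 my1).1 ((m.adj _ _).1 e)) (by simp [cx2, cy1, fk, gk])
  have ex2y2 : Y.G.Adj x2 y2 := (m.adj _ _).2 ((h.ax mx2 my2).2 (by simp [cx2, cy2, fk, gk]))
  have ey0y1 : Y.G.Adj y0 y1 := (m.adj _ _).2 ((h.aB my0 my1 n3_4).2 (by simp [cy0, cy1, fk, gk]))
  have ey0y2 : ¬ Y.G.Adj y0 y2 := fun e => absurd ((h.aB my0 my2 n3_5).1 ((m.adj _ _).1 e)) (by simp [cy0, cy2, fk, gk])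
  have ey1y2 : Y.G.Adj y1 y2 := (m.adj _ _).2 ((h.aB my1 my2 n4_5).2 (by simp [cy1, cy2, fk, gk]))
  exact kC m.hq hn (m.sW _ mx0) (m.sW _ mx1) (m.sW _ mx2) (m.sB _ my0) (m.sB _ my1) (m.sB _ my2) ex0x1 ex0x2 ex0y0 ex0y1 ex0y2 ex1x2 ex1y0 ex1y1 ex1y2 ex2y0 ex2y1 ex2y2 ey0y1 ey0y2 ey1y2 (m.sub hs)

theorem e1_w [DecidableEq V] {cl : V → Fin 3} (h : RW fe ge G W B cl)
    (h1 : [0].Sublist (W.map cl))
    (h2 : [1, 0, 2].Sublist (B.map cl)) : False := by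
  obtain ⟨U, fn, Y, m⟩ := mdl_ex h.nd h.vl
  obtain ⟨la, sa, ea⟩ := lift_pat m (D := W) (fun v hv => List.mem_append_left _ hv) h1
  obtain ⟨x0, la, rfl, cx0, ea⟩ := List.map_eq_cons_iff.1 ea
  obtain rfl := List.map_eq_nil_iff.1 ea
  have mx0 : fn x0 ∈ W := sa.subset (by simp)
  obtain ⟨lb, sb, eb⟩ := lift_pat m (D := B) (fun v hv => List.mem_append_right _ hv) h2
  obtain ⟨y0, lb, rfl, cy0, eb⟩ := List.map_eq_cons_iff.1 eb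
  obtain ⟨y1, lb, rfl, cy1, eb⟩ := List.map_eq_cons_iff.1 eb
  obtain ⟨y2, lb, rfl, cy2, eb⟩ := List.map_eq_cons_iff.1 eb
  obtain rfl := List.map_eq_nil_iff.1 eb
  have my0 : fn y0 ∈ B := sb.subset (by simp)
  have my1 : fn y1 ∈ B := sb.subset (by simp)
  have my2 : fn y2 ∈ B := sb.subset (by simp)
  have hs : ([x0, y0, y1, y2].map fn).Sublist (W ++ B) := sa.append sb
  have hn := m.nd h.nd hs
  have hn2 := hs.nodup h.nd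
  simp only [List.map_cons, List.map_nil, List.nodup_cons, List.mem_cons, List.not_mem_nil, or_false, not_or, not_false_eq_true,
    List.nodup_nil, and_true] at hn2
  obtain ⟨⟨n0_1, n0_2, n0_3⟩, ⟨n1_2, n1_3⟩, n2_3⟩ := hn2
  have ex0y0 : ¬ Y.G.Adj x0 y0 := fun e => absurd ((h.ax mx0 my0).1 ((m.adj _ _).1 e)) (by simp [cx0, cy0, fe, ge])
  have ex0y1 : Y.G.Adj x0 y1 := (m.adj _ _).2 ((h.ax mx0 my1).2 (by simp [cx0, cy1, fe, ge]))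
  have ex0y2 : ¬ Y.G.Adj x0 y2 := fun e => absurd ((h.ax mx0 my2).1 ((m.adj _ _).1 e)) (by simp [cx0, cy2, fe, ge])
  have ey0y1 : Y.G.Adj y0 y1 := (m.adj _ _).2 ((h.aB my0 my1 n1_2).2 (by simp [cy0, cy1, fe, ge]))
  have ey0y2 : Y.G.Adj y0 y2 := (m.adj _ _).2 ((h.aB my0 my2 n1_3).2 (by simp [cy0, cy2, fe, ge]))
  have ey1y2 : Y.G.Adj y1 y2 := (m.adj _ _).2 ((h.aB my1 my2 n2_3).2 (by simp [cy1, cy2, fe, ge]))
  exact e1 m.hq hn (m.sW _ mx0) (m.sB _ my0) (m.sB _ my1) (m.sB _ my2) ex0y0 ex0y1 ex0y2 ey0y1 ey0y2 ey1y2 (m.sub hs)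

theorem e1b_w [DecidableEq V] {cl : V → Fin 3} (h : RW fe ge G W B cl)
    (h1 : [0].Sublist (W.map cl))
    (h2 : [2, 0, 1].Sublist (B.map cl)) : False := by
  obtain ⟨U, fn, Y, m⟩ := mdl_ex h.nd h.vl
  obtain ⟨la, sa, ea⟩ := lift_pat m (D := W) (fun v hv => List.mem_append_left _ hv) h1
  obtain ⟨x0, la, rfl, cx0, ea⟩ := List.map_eq_cons_iff.1 ea
  obtain rfl := List.map_eq_nil_iff.1 ea
  have mx0 : fn x0 ∈ W := sa.subset (by simp)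
  obtain ⟨lb, sb, eb⟩ := lift_pat m (D := B) (fun v hv => List.mem_append_right _ hv) h2
  obtain ⟨y0, lb, rfl, cy0, eb⟩ := List.map_eq_cons_iff.1 eb
  obtain ⟨y1, lb, rfl, cy1, eb⟩ := List.map_eq_cons_iff.1 eb
  obtain ⟨y2, lb, rfl, cy2, eb⟩ := List.map_eq_cons_iff.1 eb
  obtain rfl := List.map_eq_nil_iff.1 eb
  have my0 : fn y0 ∈ B := sb.subset (by simp)
  have my1 : fn y1 ∈ B := sb.subset (by simp)
  have my2 : fn y2 ∈ B := sb.subset (by simp)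
  have hs : ([x0, y0, y1, y2].map fn).Sublist (W ++ B) := sa.append sb
  have hn := m.nd h.nd hs
  have hn2 := hs.nodup h.nd
  simp only [List.map_cons, List.map_nil, List.nodup_cons, List.mem_cons, List.not_mem_nil, or_false, not_or, not_false_eq_true,
    List.nodup_nil, and_true] at hn2
  obtain ⟨⟨n0_1, n0_2, n0_3⟩, ⟨n1_2, n1_3⟩, n2_3⟩ := hn2
  have ex0y0 : ¬ Y.G.Adj x0 y0 := fun e => absurd ((h.ax mx0 my0).1 ((m.adj _ _).1 e)) (by simp [cx0, cy0, fe, ge])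
  have ex0y1 : Y.G.Adj x0 y1 := (m.adj _ _).2 ((h.ax mx0 my1).2 (by simp [cx0, cy1, fe, ge]))
  have ex0y2 : ¬ Y.G.Adj x0 y2 := fun e => absurd ((h.ax mx0 my2).1 ((m.adj _ _).1 e)) (by simp [cx0, cy2, fe, ge])
  have ey0y1 : Y.G.Adj y0 y1 := (m.adj _ _).2 ((h.aB my0 my1 n1_2).2 (by simp [cy0, cy1, fe, ge]))
  have ey0y2 : Y.G.Adj y0 y2 := (m.adj _ _).2 ((h.aB my0 my2 n1_3).2 (by simp [cy0, cy2, fe, ge]))
  have ey1y2 : Y.G.Adj y1 y2 := (m.adj _ _).2 ((h.aB my1 my2 n2_3).2 (by simp [cy1, cy2, fe, ge]))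
  exact e1b m.hq hn (m.sW _ mx0) (m.sB _ my0) (m.sB _ my1) (m.sB _ my2) ex0y0 ex0y1 ex0y2 ey0y1 ey0y2 ey1y2 (m.sub hs)

theorem e2_w [DecidableEq V] {cl : V → Fin 3} (h : RW fe ge G W B cl)
    (h1 : [1].Sublist (W.map cl))
    (h2 : [0, 2, 1].Sublist (B.map cl)) : False := by
  obtain ⟨U, fn, Y, m⟩ := mdl_ex h.nd h.vl
  obtain ⟨la, sa, ea⟩ := lift_pat m (D := W) (fun v hv => List.mem_append_left _ hv) h1
  obtain ⟨x0, la, rfl, cx0, ea⟩ := List.map_eq_cons_iff.1 ea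
  obtain rfl := List.map_eq_nil_iff.1 ea
  have mx0 : fn x0 ∈ W := sa.subset (by simp)
  obtain ⟨lb, sb, eb⟩ := lift_pat m (D := B) (fun v hv => List.mem_append_right _ hv) h2
  obtain ⟨y0, lb, rfl, cy0, eb⟩ := List.map_eq_cons_iff.1 eb
  obtain ⟨y1, lb, rfl, cy1, eb⟩ := List.map_eq_cons_iff.1 eb
  obtain ⟨y2, lb, rfl, cy2, eb⟩ := List.map_eq_cons_iff.1 eb
  obtain rfl := List.map_eq_nil_iff.1 eb
  have my0 : fn y0 ∈ B := sb.subset (by simp)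
  have my1 : fn y1 ∈ B := sb.subset (by simp)
  have my2 : fn y2 ∈ B := sb.subset (by simp)
  have hs : ([x0, y0, y1, y2].map fn).Sublist (W ++ B) := sa.append sb
  have hn := m.nd h.nd hs
  have hn2 := hs.nodup h.nd
  simp only [List.map_cons, List.map_nil, List.nodup_cons, List.mem_cons, List.not_mem_nil, or_false, not_or, not_false_eq_true,
    List.nodup_nil, and_true] at hn2
  obtain ⟨⟨n0_1, n0_2, n0_3⟩, ⟨n1_2, n1_3⟩, n2_3⟩ := hn2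
  have ex0y0 : ¬ Y.G.Adj x0 y0 := fun e => absurd ((h.ax mx0 my0).1 ((m.adj _ _).1 e)) (by simp [cx0, cy0, fe, ge])
  have ex0y1 : Y.G.Adj x0 y1 := (m.adj _ _).2 ((h.ax mx0 my1).2 (by simp [cx0, cy1, fe, ge]))
  have ex0y2 : ¬ Y.G.Adj x0 y2 := fun e => absurd ((h.ax mx0 my2).1 ((m.adj _ _).1 e)) (by simp [cx0, cy2, fe, ge])
  have ey0y1 : Y.G.Adj y0 y1 := (m.adj _ _).2 ((h.aB my0 my1 n1_2).2 (by simp [cy0, cy1, fe, ge]))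
  have ey0y2 : Y.G.Adj y0 y2 := (m.adj _ _).2 ((h.aB my0 my2 n1_3).2 (by simp [cy0, cy2, fe, ge]))
  have ey1y2 : Y.G.Adj y1 y2 := (m.adj _ _).2 ((h.aB my1 my2 n2_3).2 (by simp [cy1, cy2, fe, ge]))
  exact e2 m.hq hn (m.sW _ mx0) (m.sB _ my0) (m.sB _ my1) (m.sB _ my2) ex0y0 ex0y1 ex0y2 ey0y1 ey0y2 ey1y2 (m.sub hs)

theorem e2b_w [DecidableEq V] {cl : V → Fin 3} (h : RW fe ge G W B cl)
    (h1 : [1].Sublist (W.map cl))
    (h2 : [1, 2, 0].Sublist (B.map cl)) : False := by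
  obtain ⟨U, fn, Y, m⟩ := mdl_ex h.nd h.vl
  obtain ⟨la, sa, ea⟩ := lift_pat m (D := W) (fun v hv => List.mem_append_left _ hv) h1
  obtain ⟨x0, la, rfl, cx0, ea⟩ := List.map_eq_cons_iff.1 ea
  obtain rfl := List.map_eq_nil_iff.1 ea
  have mx0 : fn x0 ∈ W := sa.subset (by simp)
  obtain ⟨lb, sb, eb⟩ := lift_pat m (D := B) (fun v hv => List.mem_append_right _ hv) h2
  obtain ⟨y0, lb, rfl, cy0, eb⟩ := List.map_eq_cons_iff.1 eb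
  obtain ⟨y1, lb, rfl, cy1, eb⟩ := List.map_eq_cons_iff.1 eb
  obtain ⟨y2, lb, rfl, cy2, eb⟩ := List.map_eq_cons_iff.1 eb
  obtain rfl := List.map_eq_nil_iff.1 eb
  have my0 : fn y0 ∈ B := sb.subset (by simp)
  have my1 : fn y1 ∈ B := sb.subset (by simp)
  have my2 : fn y2 ∈ B := sb.subset (by simp)
  have hs : ([x0, y0, y1, y2].map fn).Sublist (W ++ B) := sa.append sb
  have hn := m.nd h.nd hs
  have hn2 := hs.nodup h.nd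
  simp only [List.map_cons, List.map_nil, List.nodup_cons, List.mem_cons, List.not_mem_nil, or_false, not_or, not_false_eq_true,
    List.nodup_nil, and_true] at hn2
  obtain ⟨⟨n0_1, n0_2, n0_3⟩, ⟨n1_2, n1_3⟩, n2_3⟩ := hn2
  have ex0y0 : ¬ Y.G.Adj x0 y0 := fun e => absurd ((h.ax mx0 my0).1 ((m.adj _ _).1 e)) (by simp [cx0, cy0, fe, ge])
  have ex0y1 : Y.G.Adj x0 y1 := (m.adj _ _).2 ((h.ax mx0 my1).2 (by simp [cx0, cy1, fe, ge]))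
  have ex0y2 : ¬ Y.G.Adj x0 y2 := fun e => absurd ((h.ax mx0 my2).1 ((m.adj _ _).1 e)) (by simp [cx0, cy2, fe, ge])
  have ey0y1 : Y.G.Adj y0 y1 := (m.adj _ _).2 ((h.aB my0 my1 n1_2).2 (by simp [cy0, cy1, fe, ge]))
  have ey0y2 : Y.G.Adj y0 y2 := (m.adj _ _).2 ((h.aB my0 my2 n1_3).2 (by simp [cy0, cy2, fe, ge]))
  have ey1y2 : Y.G.Adj y1 y2 := (m.adj _ _).2 ((h.aB my1 my2 n2_3).2 (by simp [cy1, cy2, fe, ge]))
  exact e2b m.hq hn (m.sW _ mx0) (m.sB _ my0) (m.sB _ my1) (m.sB _ my2) ex0y0 ex0y1 ex0y2 ey0y1 ey0y2 ey1y2 (m.sub hs)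

theorem e3_w [DecidableEq V] {cl : V → Fin 3} (h : RW fe ge G W B cl)
    (h1 : [1, 2].Sublist (W.map cl))
    (h2 : [2, 1, 0].Sublist (B.map cl)) : False := by
  obtain ⟨U, fn, Y, m⟩ := mdl_ex h.nd h.vl
  obtain ⟨la, sa, ea⟩ := lift_pat m (D := W) (fun v hv => List.mem_append_left _ hv) h1
  obtain ⟨x0, la, rfl, cx0, ea⟩ := List.map_eq_cons_iff.1 ea
  obtain ⟨x1, la, rfl, cx1, ea⟩ := List.map_eq_cons_iff.1 ea
  obtain rfl := List.map_eq_nil_iff.1 ea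
  have mx0 : fn x0 ∈ W := sa.subset (by simp)
  have mx1 : fn x1 ∈ W := sa.subset (by simp)
  obtain ⟨lb, sb, eb⟩ := lift_pat m (D := B) (fun v hv => List.mem_append_right _ hv) h2
  obtain ⟨y0, lb, rfl, cy0, eb⟩ := List.map_eq_cons_iff.1 eb
  obtain ⟨y1, lb, rfl, cy1, eb⟩ := List.map_eq_cons_iff.1 eb
  obtain ⟨y2, lb, rfl, cy2, eb⟩ := List.map_eq_cons_iff.1 eb
  obtain rfl := List.map_eq_nil_iff.1 eb
  have my0 : fn y0 ∈ B := sb.subset (by simp)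
  have my1 : fn y1 ∈ B := sb.subset (by simp)
  have my2 : fn y2 ∈ B := sb.subset (by simp)
  have hs : ([x0, x1, y0, y1, y2].map fn).Sublist (W ++ B) := sa.append sb
  have hn := m.nd h.nd hs
  have hn2 := hs.nodup h.nd
  simp only [List.map_cons, List.map_nil, List.nodup_cons, List.mem_cons, List.not_mem_nil, or_false, not_or, not_false_eq_true,
    List.nodup_nil, and_true] at hn2
  obtain ⟨⟨n0_1, n0_2, n0_3, n0_4⟩, ⟨n1_2, n1_3, n1_4⟩, ⟨n2_3, n2_4⟩, n3_4⟩ := hn2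
  have ex0x1 : Y.G.Adj x0 x1 := (m.adj _ _).2 ((h.aW mx0 mx1 n0_1).2 (by simp [cx0, cx1, fe, ge]))
  have ex0y0 : Y.G.Adj x0 y0 := (m.adj _ _).2 ((h.ax mx0 my0).2 (by simp [cx0, cy0, fe, ge]))
  have ex0y1 : ¬ Y.G.Adj x0 y1 := fun e => absurd ((h.ax mx0 my1).1 ((m.adj _ _).1 e)) (by simp [cx0, cy1, fe, ge])
  have ex0y2 : ¬ Y.G.Adj x0 y2 := fun e => absurd ((h.ax mx0 my2).1 ((m.adj _ _).1 e)) (by simp [cx0, cy2, fe, ge])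
  have ex1y0 : Y.G.Adj x1 y0 := (m.adj _ _).2 ((h.ax mx1 my0).2 (by simp [cx1, cy0, fe, ge]))
  have ex1y1 : Y.G.Adj x1 y1 := (m.adj _ _).2 ((h.ax mx1 my1).2 (by simp [cx1, cy1, fe, ge]))
  have ex1y2 : ¬ Y.G.Adj x1 y2 := fun e => absurd ((h.ax mx1 my2).1 ((m.adj _ _).1 e)) (by simp [cx1, cy2, fe, ge])
  have ey0y1 : Y.G.Adj y0 y1 := (m.adj _ _).2 ((h.aB my0 my1 n2_3).2 (by simp [cy0, cy1, fe, ge]))
  have ey0y2 : Y.G.Adj y0 y2 := (m.adj _ _).2 ((h.aB my0 my2 n2_4).2 (by simp [cy0, cy2, fe, ge]))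
  have ey1y2 : Y.G.Adj y1 y2 := (m.adj _ _).2 ((h.aB my1 my2 n3_4).2 (by simp [cy1, cy2, fe, ge]))
  exact e3 m.hq hn (m.sW _ mx0) (m.sW _ mx1) (m.sB _ my0) (m.sB _ my1) (m.sB _ my2) ex0x1 ex0y0 ex0y1 ex0y2 ex1y0 ex1y1 ex1y2 ey0y1 ey0y2 ey1y2 (m.sub hs)

theorem e3b_w [DecidableEq V] {cl : V → Fin 3} (h : RW fe ge G W B cl)
    (h1 : [2, 1].Sublist (W.map cl))
    (h2 : [0, 1, 2].Sublist (B.map cl)) : False := by
  obtain ⟨U, fn, Y, m⟩ := mdl_ex h.nd h.vl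
  obtain ⟨la, sa, ea⟩ := lift_pat m (D := W) (fun v hv => List.mem_append_left _ hv) h1
  obtain ⟨x0, la, rfl, cx0, ea⟩ := List.map_eq_cons_iff.1 ea
  obtain ⟨x1, la, rfl, cx1, ea⟩ := List.map_eq_cons_iff.1 ea
  obtain rfl := List.map_eq_nil_iff.1 ea
  have mx0 : fn x0 ∈ W := sa.subset (by simp)
  have mx1 : fn x1 ∈ W := sa.subset (by simp)
  obtain ⟨lb, sb, eb⟩ := lift_pat m (D := B) (fun v hv => List.mem_append_right _ hv) h2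
  obtain ⟨y0, lb, rfl, cy0, eb⟩ := List.map_eq_cons_iff.1 eb
  obtain ⟨y1, lb, rfl, cy1, eb⟩ := List.map_eq_cons_iff.1 eb
  obtain ⟨y2, lb, rfl, cy2, eb⟩ := List.map_eq_cons_iff.1 eb
  obtain rfl := List.map_eq_nil_iff.1 eb
  have my0 : fn y0 ∈ B := sb.subset (by simp)
  have my1 : fn y1 ∈ B := sb.subset (by simp)
  have my2 : fn y2 ∈ B := sb.subset (by simp)
  have hs : ([x0, x1, y0, y1, y2].map fn).Sublist (W ++ B) := sa.append sb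
  have hn := m.nd h.nd hs
  have hn2 := hs.nodup h.nd
  simp only [List.map_cons, List.map_nil, List.nodup_cons, List.mem_cons, List.not_mem_nil, or_false, not_or, not_false_eq_true,
    List.nodup_nil, and_true] at hn2
  obtain ⟨⟨n0_1, n0_2, n0_3, n0_4⟩, ⟨n1_2, n1_3, n1_4⟩, ⟨n2_3, n2_4⟩, n3_4⟩ := hn2
  have ex0x1 : Y.G.Adj x0 x1 := (m.adj _ _).2 ((h.aW mx0 mx1 n0_1).2 (by simp [cx0, cx1, fe, ge]))
  have ex0y0 : ¬ Y.G.Adj x0 y0 := fun e => absurd ((h.ax mx0 my0).1 ((m.adj _ _).1 e)) (by simp [cx0, cy0, fe, ge])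
  have ex0y1 : Y.G.Adj x0 y1 := (m.adj _ _).2 ((h.ax mx0 my1).2 (by simp [cx0, cy1, fe, ge]))
  have ex0y2 : Y.G.Adj x0 y2 := (m.adj _ _).2 ((h.ax mx0 my2).2 (by simp [cx0, cy2, fe, ge]))
  have ex1y0 : ¬ Y.G.Adj x1 y0 := fun e => absurd ((h.ax mx1 my0).1 ((m.adj _ _).1 e)) (by simp [cx1, cy0, fe, ge])
  have ex1y1 : ¬ Y.G.Adj x1 y1 := fun e => absurd ((h.ax mx1 my1).1 ((m.adj _ _).1 e)) (by simp [cx1, cy1, fe, ge])
  have ex1y2 : Y.G.Adj x1 y2 := (m.adj _ _).2 ((h.ax mx1 my2).2 (by simp [cx1, cy2, fe, ge]))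
  have ey0y1 : Y.G.Adj y0 y1 := (m.adj _ _).2 ((h.aB my0 my1 n2_3).2 (by simp [cy0, cy1, fe, ge]))
  have ey0y2 : Y.G.Adj y0 y2 := (m.adj _ _).2 ((h.aB my0 my2 n2_4).2 (by simp [cy0, cy2, fe, ge]))
  have ey1y2 : Y.G.Adj y1 y2 := (m.adj _ _).2 ((h.aB my1 my2 n3_4).2 (by simp [cy1, cy2, fe, ge]))
  exact e3b m.hq hn (m.sW _ mx0) (m.sW _ mx1) (m.sB _ my0) (m.sB _ my1) (m.sB _ my2) ex0x1 ex0y0 ex0y1 ex0y2 ex1y0 ex1y1 ex1y2 ey0y1 ey0y2 ey1y2 (m.sub hs)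

theorem e4_w [DecidableEq V] {cl : V → Fin 3} (h : RW fe ge G W B cl)
    (h1 : [1, 0, 2].Sublist (W.map cl))
    (h2 : [0].Sublist (B.map cl)) : False := by
  obtain ⟨U, fn, Y, m⟩ := mdl_ex h.nd h.vl
  obtain ⟨la, sa, ea⟩ := lift_pat m (D := W) (fun v hv => List.mem_append_left _ hv) h1
  obtain ⟨x0, la, rfl, cx0, ea⟩ := List.map_eq_cons_iff.1 ea
  obtain ⟨x1, la, rfl, cx1, ea⟩ := List.map_eq_cons_iff.1 ea
  obtain ⟨x2, la, rfl, cx2, ea⟩ := List.map_eq_cons_iff.1 ea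
  obtain rfl := List.map_eq_nil_iff.1 ea
  have mx0 : fn x0 ∈ W := sa.subset (by simp)
  have mx1 : fn x1 ∈ W := sa.subset (by simp)
  have mx2 : fn x2 ∈ W := sa.subset (by simp)
  obtain ⟨lb, sb, eb⟩ := lift_pat m (D := B) (fun v hv => List.mem_append_right _ hv) h2
  obtain ⟨y0, lb, rfl, cy0, eb⟩ := List.map_eq_cons_iff.1 eb
  obtain rfl := List.map_eq_nil_iff.1 eb
  have my0 : fn y0 ∈ B := sb.subset (by simp)
  have hs : ([x0, x1, x2, y0].map fn).Sublist (W ++ B) := sa.append sb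
  have hn := m.nd h.nd hs
  have hn2 := hs.nodup h.nd
  simp only [List.map_cons, List.map_nil, List.nodup_cons, List.mem_cons, List.not_mem_nil, or_false, not_or, not_false_eq_true,
    List.nodup_nil, and_true] at hn2
  obtain ⟨⟨n0_1, n0_2, n0_3⟩, ⟨n1_2, n1_3⟩, n2_3⟩ := hn2
  have ex0x1 : Y.G.Adj x0 x1 := (m.adj _ _).2 ((h.aW mx0 mx1 n0_1).2 (by simp [cx0, cx1, fe, ge]))
  have ex0x2 : Y.G.Adj x0 x2 := (m.adj _ _).2 ((h.aW mx0 mx2 n0_2).2 (by simp [cx0, cx2, fe, ge]))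
  have ex0y0 : ¬ Y.G.Adj x0 y0 := fun e => absurd ((h.ax mx0 my0).1 ((m.adj _ _).1 e)) (by simp [cx0, cy0, fe, ge])
  have ex1x2 : Y.G.Adj x1 x2 := (m.adj _ _).2 ((h.aW mx1 mx2 n1_2).2 (by simp [cx1, cx2, fe, ge]))
  have ex1y0 : Y.G.Adj x1 y0 := (m.adj _ _).2 ((h.ax mx1 my0).2 (by simp [cx1, cy0, fe, ge]))
  have ex2y0 : ¬ Y.G.Adj x2 y0 := fun e => absurd ((h.ax mx2 my0).1 ((m.adj _ _).1 e)) (by simp [cx2, cy0, fe, ge])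
  exact e4 m.hq hn (m.sW _ mx0) (m.sW _ mx1) (m.sW _ mx2) (m.sB _ my0) ex0x1 ex0x2 ex0y0 ex1x2 ex1y0 ex2y0 (m.sub hs)

theorem e4b_w [DecidableEq V] {cl : V → Fin 3} (h : RW fe ge G W B cl)
    (h1 : [2, 0, 1].Sublist (W.map cl))
    (h2 : [0].Sublist (B.map cl)) : False := by
  obtain ⟨U, fn, Y, m⟩ := mdl_ex h.nd h.vl
  obtain ⟨la, sa, ea⟩ := lift_pat m (D := W) (fun v hv => List.mem_append_left _ hv) h1
  obtain ⟨x0, la, rfl, cx0, ea⟩ := List.map_eq_cons_iff.1 ea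
  obtain ⟨x1, la, rfl, cx1, ea⟩ := List.map_eq_cons_iff.1 ea
  obtain ⟨x2, la, rfl, cx2, ea⟩ := List.map_eq_cons_iff.1 ea
  obtain rfl := List.map_eq_nil_iff.1 ea
  have mx0 : fn x0 ∈ W := sa.subset (by simp)
  have mx1 : fn x1 ∈ W := sa.subset (by simp)
  have mx2 : fn x2 ∈ W := sa.subset (by simp)
  obtain ⟨lb, sb, eb⟩ := lift_pat m (D := B) (fun v hv => List.mem_append_right _ hv) h2
  obtain ⟨y0, lb, rfl, cy0, eb⟩ := List.map_eq_cons_iff.1 eb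
  obtain rfl := List.map_eq_nil_iff.1 eb
  have my0 : fn y0 ∈ B := sb.subset (by simp)
  have hs : ([x0, x1, x2, y0].map fn).Sublist (W ++ B) := sa.append sb
  have hn := m.nd h.nd hs
  have hn2 := hs.nodup h.nd
  simp only [List.map_cons, List.map_nil, List.nodup_cons, List.mem_cons, List.not_mem_nil, or_false, not_or, not_false_eq_true,
    List.nodup_nil, and_true] at hn2
  obtain ⟨⟨n0_1, n0_2, n0_3⟩, ⟨n1_2, n1_3⟩, n2_3⟩ := hn2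
  have ex0x1 : Y.G.Adj x0 x1 := (m.adj _ _).2 ((h.aW mx0 mx1 n0_1).2 (by simp [cx0, cx1, fe, ge]))
  have ex0x2 : Y.G.Adj x0 x2 := (m.adj _ _).2 ((h.aW mx0 mx2 n0_2).2 (by simp [cx0, cx2, fe, ge]))
  have ex0y0 : ¬ Y.G.Adj x0 y0 := fun e => absurd ((h.ax mx0 my0).1 ((m.adj _ _).1 e)) (by simp [cx0, cy0, fe, ge])
  have ex1x2 : Y.G.Adj x1 x2 := (m.adj _ _).2 ((h.aW mx1 mx2 n1_2).2 (by simp [cx1, cx2, fe, ge]))
  have ex1y0 : Y.G.Adj x1 y0 := (m.adj _ _).2 ((h.ax mx1 my0).2 (by simp [cx1, cy0, fe, ge]))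
  have ex2y0 : ¬ Y.G.Adj x2 y0 := fun e => absurd ((h.ax mx2 my0).1 ((m.adj _ _).1 e)) (by simp [cx2, cy0, fe, ge])
  exact e4b m.hq hn (m.sW _ mx0) (m.sW _ mx1) (m.sW _ mx2) (m.sB _ my0) ex0x1 ex0x2 ex0y0 ex1x2 ex1y0 ex2y0 (m.sub hs)

theorem e5_w [DecidableEq V] {cl : V → Fin 3} (h : RW fe ge G W B cl)
    (h1 : [0, 2, 1].Sublist (W.map cl))
    (h2 : [1].Sublist (B.map cl)) : False := by
  obtain ⟨U, fn, Y, m⟩ := mdl_ex h.nd h.vl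
  obtain ⟨la, sa, ea⟩ := lift_pat m (D := W) (fun v hv => List.mem_append_left _ hv) h1
  obtain ⟨x0, la, rfl, cx0, ea⟩ := List.map_eq_cons_iff.1 ea
  obtain ⟨x1, la, rfl, cx1, ea⟩ := List.map_eq_cons_iff.1 ea
  obtain ⟨x2, la, rfl, cx2, ea⟩ := List.map_eq_cons_iff.1 ea
  obtain rfl := List.map_eq_nil_iff.1 ea
  have mx0 : fn x0 ∈ W := sa.subset (by simp)
  have mx1 : fn x1 ∈ W := sa.subset (by simp)
  have mx2 : fn x2 ∈ W := sa.subset (by simp)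
  obtain ⟨lb, sb, eb⟩ := lift_pat m (D := B) (fun v hv => List.mem_append_right _ hv) h2
  obtain ⟨y0, lb, rfl, cy0, eb⟩ := List.map_eq_cons_iff.1 eb
  obtain rfl := List.map_eq_nil_iff.1 eb
  have my0 : fn y0 ∈ B := sb.subset (by simp)
  have hs : ([x0, x1, x2, y0].map fn).Sublist (W ++ B) := sa.append sb
  have hn := m.nd h.nd hs
  have hn2 := hs.nodup h.nd
  simp only [List.map_cons, List.map_nil, List.nodup_cons, List.mem_cons, List.not_mem_nil, or_false, not_or, not_false_eq_true,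
    List.nodup_nil, and_true] at hn2
  obtain ⟨⟨n0_1, n0_2, n0_3⟩, ⟨n1_2, n1_3⟩, n2_3⟩ := hn2
  have ex0x1 : Y.G.Adj x0 x1 := (m.adj _ _).2 ((h.aW mx0 mx1 n0_1).2 (by simp [cx0, cx1, fe, ge]))
  have ex0x2 : Y.G.Adj x0 x2 := (m.adj _ _).2 ((h.aW mx0 mx2 n0_2).2 (by simp [cx0, cx2, fe, ge]))
  have ex0y0 : ¬ Y.G.Adj x0 y0 := fun e => absurd ((h.ax mx0 my0).1 ((m.adj _ _).1 e)) (by simp [cx0, cy0, fe, ge])
  have ex1x2 : Y.G.Adj x1 x2 := (m.adj _ _).2 ((h.aW mx1 mx2 n1_2).2 (by simp [cx1, cx2, fe, ge]))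
  have ex1y0 : Y.G.Adj x1 y0 := (m.adj _ _).2 ((h.ax mx1 my0).2 (by simp [cx1, cy0, fe, ge]))
  have ex2y0 : ¬ Y.G.Adj x2 y0 := fun e => absurd ((h.ax mx2 my0).1 ((m.adj _ _).1 e)) (by simp [cx2, cy0, fe, ge])
  exact e5 m.hq hn (m.sW _ mx0) (m.sW _ mx1) (m.sW _ mx2) (m.sB _ my0) ex0x1 ex0x2 ex0y0 ex1x2 ex1y0 ex2y0 (m.sub hs)

theorem e5b_w [DecidableEq V] {cl : V → Fin 3} (h : RW fe ge G W B cl)
    (h1 : [1, 2, 0].Sublist (W.map cl))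
    (h2 : [1].Sublist (B.map cl)) : False := by
  obtain ⟨U, fn, Y, m⟩ := mdl_ex h.nd h.vl
  obtain ⟨la, sa, ea⟩ := lift_pat m (D := W) (fun v hv => List.mem_append_left _ hv) h1
  obtain ⟨x0, la, rfl, cx0, ea⟩ := List.map_eq_cons_iff.1 ea
  obtain ⟨x1, la, rfl, cx1, ea⟩ := List.map_eq_cons_iff.1 ea
  obtain ⟨x2, la, rfl, cx2, ea⟩ := List.map_eq_cons_iff.1 ea
  obtain rfl := List.map_eq_nil_iff.1 ea
  have mx0 : fn x0 ∈ W := sa.subset (by simp)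
  have mx1 : fn x1 ∈ W := sa.subset (by simp)
  have mx2 : fn x2 ∈ W := sa.subset (by simp)
  obtain ⟨lb, sb, eb⟩ := lift_pat m (D := B) (fun v hv => List.mem_append_right _ hv) h2
  obtain ⟨y0, lb, rfl, cy0, eb⟩ := List.map_eq_cons_iff.1 eb
  obtain rfl := List.map_eq_nil_iff.1 eb
  have my0 : fn y0 ∈ B := sb.subset (by simp)
  have hs : ([x0, x1, x2, y0].map fn).Sublist (W ++ B) := sa.append sb
  have hn := m.nd h.nd hs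
  have hn2 := hs.nodup h.nd
  simp only [List.map_cons, List.map_nil, List.nodup_cons, List.mem_cons, List.not_mem_nil, or_false, not_or, not_false_eq_true,
    List.nodup_nil, and_true] at hn2
  obtain ⟨⟨n0_1, n0_2, n0_3⟩, ⟨n1_2, n1_3⟩, n2_3⟩ := hn2
  have ex0x1 : Y.G.Adj x0 x1 := (m.adj _ _).2 ((h.aW mx0 mx1 n0_1).2 (by simp [cx0, cx1, fe, ge]))
  have ex0x2 : Y.G.Adj x0 x2 := (m.adj _ _).2 ((h.aW mx0 mx2 n0_2).2 (by simp [cx0, cx2, fe, ge]))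
  have ex0y0 : ¬ Y.G.Adj x0 y0 := fun e => absurd ((h.ax mx0 my0).1 ((m.adj _ _).1 e)) (by simp [cx0, cy0, fe, ge])
  have ex1x2 : Y.G.Adj x1 x2 := (m.adj _ _).2 ((h.aW mx1 mx2 n1_2).2 (by simp [cx1, cx2, fe, ge]))
  have ex1y0 : Y.G.Adj x1 y0 := (m.adj _ _).2 ((h.ax mx1 my0).2 (by simp [cx1, cy0, fe, ge]))
  have ex2y0 : ¬ Y.G.Adj x2 y0 := fun e => absurd ((h.ax mx2 my0).1 ((m.adj _ _).1 e)) (by simp [cx2, cy0, fe, ge])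
  exact e5b m.hq hn (m.sW _ mx0) (m.sW _ mx1) (m.sW _ mx2) (m.sB _ my0) ex0x1 ex0x2 ex0y0 ex1x2 ex1y0 ex2y0 (m.sub hs)

end Pool.Agent.SOK
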