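import Pool.Agent.SOK.HalfL

/-! Project SOK, module WordL: blocks from words. -/

set_option autoImplicit false

namespace Pool.Agent.SOK

open Pool.Agent.SOC Pool.Agent.SOD Pool.Agent.RUP Pool.Agent.SOF Pool.Agent.SOG Pool.Agent.SOV

/-- the row of `x` on `B` -/
def rowF {α : Type} (ad : α → α → Bool) (B : List α) (x : α) : List Bool := B.map fun b => ad x b

/-- `x` is adjacent to a member of `B` -/
def attF {α : Type} (ad : α → α → Bool) (B : List α) (x : α) : Bool := B.any fun b => ad x b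

/-- the word of `L` -/
def wordF {α : Type} (ad : α → α → Bool) (B L : List α) : List (List Bool) := dst ((L.filter (attF ad B)).map (rowF ad B))

theorem rowF_eq {α : Type} {ad : α → α → Bool} {B : List α} {x y : α} :
    rowF ad B x = rowF ad B y ↔ ∀ b ∈ B, ad x b = ad y b := List.map_inj_left

theorem attF_iff {α : Type} {ad : α → α → Bool} {B : List α} {x : α} : attF ad B x = true ↔ ∃ b ∈ B, ad x b = true :=
  List.any_eq_true

/-- images of words -/
theorem wordF_map {α β : Type} {ad : β → β → Bool} {f : α → β} {B L : List α} :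
    wordF ad (B.map f) (L.map f) = wordF (fun a b => ad (f a) (f b)) B L := by
  have e1 : ∀ x : α, attF ad (B.map f) (f x) = attF (fun a b => ad (f a) (f b)) B x := by
    intro x
    unfold attF
    rw [List.any_map]
    rfl
  have e2 : ∀ x : α, rowF ad (B.map f) (f x) = rowF (fun a b => ad (f a) (f b)) B x := by
    intro x
    unfold rowF
    rw [List.map_map]
    rfl
  unfold wordF
  rw [List.filter_map, List.map_map]
  have e3 : (attF ad (B.map f) ∘ f) = attF (fun a b => ad (f a) (f b)) B := funext e1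
  have e4 : (rowF ad (B.map f) ∘ f) = rowF (fun a b => ad (f a) (f b)) B := funext e2
  rw [e3, e4]

variable {V : Type} {G : SimpleGraph V}

/-- `B` represents the rows of the vertices of `L` on `O` -/
structure RpB (G : SimpleGraph V) (L O B : List V) : Prop where
  sub : ∀ b ∈ B, b ∈ O
  row : ∀ x ∈ L, ∀ y ∈ L, (∀ b ∈ B, (G.Adj x b ↔ G.Adj y b)) → SR G O x y
  att : ∀ x ∈ L, Atd G O x → ∃ b ∈ B, G.Adj x b

theorem RpB.refl {L O : List V} : RpB G L O O := ⟨fun _ h => h, fun _ _ _ _ h => h, fun _ _ h => h⟩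

theorem RpB.mem {L L' O B : List V} (h : RpB G L O B) (hm : ∀ x, x ∈ L' ↔ x ∈ L) : RpB G L' O B :=
  ⟨h.sub, fun x hx y hy => h.row x ((hm x).1 hx) y ((hm y).1 hy), fun x hx => h.att x ((hm x).1 hx)⟩

/-- representatives of the blocks of the other side represent the rows -/
theorem rpB_of_sd {L O B : List V} {sO : List (List V)} (h : Sd G L sO B) (e : sO.flatten = O) : RpB G L O B := by
  have key : ∀ x ∈ L, ∀ z ∈ O, G.Adj x z → ∃ b ∈ B, SR G L z b ∧ b ∈ O := by
    intro x hx z hz hxz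
    have h1 : Atd G L z := ⟨x, hx, hxz.symm⟩
    have h2 : z ∈ sO.flatten := by rw [e]; exact hz
    obtain ⟨i, hi⟩ := inS_ex h2
    obtain ⟨b, h3, h4, h5⟩ := h.ex hi
    exact ⟨b, List.mem_of_getElem? h3, h.same hi h4 h1 h5, by rw [← e]; exact inS_mem h4⟩
  refine ⟨?_, ?_, ?_⟩
  · intro b hb
    obtain ⟨i, hi⟩ := List.mem_iff_getElem?.1 hb
    rw [← e]
    exact inS_mem (h.rep hi).1
  · intro x hx y hy hB z hz
    constructor
    · intro hxz
      obtain ⟨b, hb, hs, _⟩ := key x hx z hz hxz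
      exact ((hs y hy).2 ((hB b hb).1 ((hs x hx).1 hxz.symm).symm).symm).symm
    · intro hyz
      obtain ⟨b, hb, hs, _⟩ := key y hy z hz hyz
      exact ((hs x hx).2 ((hB b hb).2 ((hs y hy).1 hyz.symm).symm).symm).symm
  · rintro x hx ⟨z, hz, hxz⟩
    obtain ⟨b, hb, hs, _⟩ := key x hx z hz hxz
    exact ⟨b, hb, ((hs x hx).1 hxz.symm).symm⟩

/-- BLOCKS FROM THE WORD -/
theorem sd_word {ad : V → V → Bool} (had : ∀ x y, ad x y = true ↔ G.Adj x y) {L O B : List V} (hB : RpB G L O B)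
    (hL : L.Nodup) (he : ∃ x ∈ L, Atd G O x) :
    ∃ segs rp, segs.flatten = L ∧ Sd G O segs rp ∧ rp.Sublist L ∧ rp.map (rowF ad B) = wordF ad B L ∧
      ∀ {i x}, InS segs i x → Atd G O x → (wordF ad B L)[i]? = some (rowF ad B x) := by
  have hP : ∀ x ∈ L, (attF ad B x = true ↔ Atd G O x) := by
    intro x hx
    rw [attF_iff]
    constructor
    · rintro ⟨b, hb, h⟩
      exact ⟨b, hB.sub b hb, (had x b).1 h⟩
    · intro h
      obtain ⟨b, hb, h1⟩ := hB.att x hx h
      exact ⟨b, hb, (had x b).2 h1⟩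
  have hR : ∀ {x y}, rowF ad B x = rowF ad B y ↔ ∀ b ∈ B, (G.Adj x b ↔ G.Adj y b) := by
    intro x y
    rw [rowF_eq]
    refine forall₂_congr fun b _ => ?_
    rw [← had, ← had, Bool.eq_iff_iff]
  obtain ⟨x, hx, hA⟩ := he
  obtain ⟨segs, h1, h2⟩ := seg_ex (attF ad B) (rowF ad B) L ⟨x, hx, (hP x hx).2 hA⟩
  obtain ⟨rp, g1, g2, g3, g4⟩ := rep_ex h2
  have inL : ∀ {i y}, InS segs i y → y ∈ L := fun h => by rw [← h1]; exact inS_mem h
  refine ⟨segs, rp, h1, ⟨by rw [h1]; exact hL, ?_, g2, ?_, ?_⟩, by rwa [h1] at g1, g3, ?_⟩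
  · intro i x y hx hy ax ay
    have e1 := row_of_inS h2 hx ((hP x (inL hx)).2 ax)
    have e2 := row_of_inS h2 hy ((hP y (inL hy)).2 ay)
    rw [e1] at e2
    exact hB.row x (inL hx) y (inL hy) (hR.1 (Option.some.inj e2))
  · intro i b hb
    obtain ⟨k1, k2⟩ := g4 i b hb
    exact ⟨k1, (hP b (inL k1)).1 k2⟩
  · intro i b c hb hc hs
    have h5 := dst_chain ((L.filter (attF ad B)).map (rowF ad B))
    rw [← g3, List.isChain_iff_getElem] at h5
    obtain ⟨l1, e1⟩ := List.getElem?_eq_some_iff.1 hb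
    obtain ⟨l2, e2⟩ := List.getElem?_eq_some_iff.1 hc
    have h6 := h5 i (by rw [List.length_map]; exact l2)
    rw [List.getElem_map, List.getElem_map, e1, e2] at h6
    exact h6 (hR.2 fun z hz => hs z (hB.sub z hz))
  · intro i y hy ay
    exact row_of_inS h2 hy ((hP y (inL hy)).2 ay)

/-- the blocks of the other side do not depend on the order of this side -/
theorem Sd.mem {L L' : List V} {sO : List (List V)} {B : List V} (h : Sd G L sO B) (hm : ∀ x, x ∈ L' ↔ x ∈ L) :
    Sd G L' sO B := by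
  have ha : ∀ {x}, Atd G L' x ↔ Atd G L x := fun {x} => by
    constructor
    · rintro ⟨z, hz, h⟩
      exact ⟨z, (hm z).1 hz, h⟩
    · rintro ⟨z, hz, h⟩
      exact ⟨z, (hm z).2 hz, h⟩
  have hs : ∀ {x y}, SR G L' x y ↔ SR G L x y := fun {x y} => by
    constructor
    · intro h z hz
      exact h z ((hm z).2 hz)
    · intro h z hz
      exact h z ((hm z).1 hz)
  refine ⟨h.nd, ?_, h.len, ?_, ?_⟩
  · intro i x y hx hy ax ay
    exact hs.2 (h.same hx hy (ha.1 ax) (ha.1 ay))
  · intro i b hb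
    obtain ⟨h1, h2⟩ := h.rep hb
    exact ⟨h1, ha.2 h2⟩
  · intro i b c hb hc h1
    exact h.mx hb hc (hs.1 h1)

end Pool.Agent.SOK
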